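import Pool.Agent.H63.VC7.SlotXa
import Pool.Agent.H63.VC3.GG
import Pool.Agent.H63.VC3.LogS
import Pool.Agent.H63.VC3.WinFacts

/-! # Bounds of the slot factors at the summation points -/

namespace Pool.Agent.H63.VC7

open Pool.Agent.H63.VC hiding ext
open Pool.Agent.H63.VC3 Pool.Agent.H63.VC4 Pool.Agent.H63.VC6 Complex

variable {m p : ℕ}

/-- The two logarithmic bounds. -/
theorem SlotX_log : ∃ K : ℝ, 0 < K ∧ ∀ M k X : ℕ, 2 ≤ M → k < M → X ≤ k →
    (M - 1 - k ≤ X →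
      Real.log (S M k ^ 2 * (S M (X + (M - 1 - k)) / S M (X - (M - 1 - k)))) ≤
        M * VC3.gg ((k : ℝ) / M) ((X : ℝ) / M) + K * Real.log M) ∧
    (X < M - 1 - k →
      Real.log (S M k ^ 2 * (S M (M - 1 - k + X) * S M (M - 2 - k - X))) ≤
        M * VC3.gg ((k : ℝ) / M) ((X : ℝ) / M) + K * Real.log M) := by
  obtain ⟨C1, hC1, h1⟩ := log_S_bound
  obtain ⟨C2, hC2, h2⟩ := Fr_shift 2
  refine ⟨4 * C1 + 2 * C2, by positivity, fun M k X hM hk hX => ?_⟩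
  have hM0 : (0 : ℝ) < M := by exact_mod_cast (by omega : 0 < M)
  have hMne : (M : ℝ) ≠ 0 := hM0.ne'
  have hSk : 0 < S M k := S_pos hk
  have a1 := abs_le.1 (h1 M k hM hk)
  -- the first factor
  have hXt : X + (M - 1 - k) < M := by omega
  have hS1 : 0 < S M (X + (M - 1 - k)) := S_pos hXt
  have a2 := abs_le.1 (h1 M (X + (M - 1 - k)) hM hXt)
  have c2 : ((X + (M - 1 - k) : ℕ) : ℝ) = (X : ℝ) + M - 1 - k := by
    have : (X + (M - 1 - k)) + 1 + k = X + M := by omega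
    have h3 : (((X + (M - 1 - k)) + 1 + k : ℕ) : ℝ) = ((X + M : ℕ) : ℝ) := by rw [this]
    push_cast at h3 ⊢
    linarith only [h3]
  have f2 : Fr (((X + (M - 1 - k) : ℕ) : ℝ) / M) = Fr (((X : ℝ) - k - 1) / M) := by
    rw [← Fr_add_one (((X : ℝ) - k - 1) / M), c2]
    congr 1
    field_simp
    ring
  have s2 := abs_le.1 (h2 M hM (((X : ℝ) - k - 1) / M) 1 (by norm_num))
  have g2 : ((X : ℝ) - k - 1) / M + ((1 : ℕ) : ℝ) / M = -((k : ℝ) / M - (X : ℝ) / M) := by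
    push_cast
    field_simp
    ring
  rw [g2, Fr_neg] at s2
  rw [f2] at a2
  constructor
  · intro htX
    have hXm : X - (M - 1 - k) < M := by omega
    have hS2 : 0 < S M (X - (M - 1 - k)) := S_pos hXm
    have a3 := abs_le.1 (h1 M (X - (M - 1 - k)) hM hXm)
    have c3 : ((X - (M - 1 - k) : ℕ) : ℝ) = (X : ℝ) + k + 1 - M := by
      have : (X - (M - 1 - k)) + M = X + k + 1 := by omega
      have h3 : (((X - (M - 1 - k)) + M : ℕ) : ℝ) = ((X + k + 1 : ℕ) : ℝ) := by rw [this]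
      push_cast at h3 ⊢
      linarith only [h3]
    have f3 : Fr (((X - (M - 1 - k) : ℕ) : ℝ) / M) =
        Fr ((k : ℝ) / M + (X : ℝ) / M + ((1 : ℕ) : ℝ) / M) := by
      rw [← Fr_add_one (((X - (M - 1 - k) : ℕ) : ℝ) / M), c3]
      congr 1
      push_cast
      field_simp
      ring
    have s3 := abs_le.1 (h2 M hM ((k : ℝ) / M + (X : ℝ) / M) 1 (by norm_num))
    rw [f3] at a3
    rw [Real.log_mul (by positivity) (by positivity), Real.log_pow,
      Real.log_div hS1.ne' hS2.ne']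
    unfold VC3.gg
    push_cast at *
    nlinarith [a1.2, a2.2, a3.1, s2.1, s2.2, s3.1, s3.2]
  · intro hXt'
    have hXm : M - 2 - k - X < M := by omega
    have hS2 : 0 < S M (M - 2 - k - X) := S_pos hXm
    have a3 := abs_le.1 (h1 M (M - 2 - k - X) hM hXm)
    have c3 : ((M - 2 - k - X : ℕ) : ℝ) = (M : ℝ) - 2 - k - X := by
      have : (M - 2 - k - X) + X + k + 2 = M := by omega
      have h3 : (((M - 2 - k - X) + X + k + 2 : ℕ) : ℝ) = ((M : ℕ) : ℝ) := by rw [this]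
      push_cast at h3 ⊢
      linarith only [h3]
    have f3 : Fr (((M - 2 - k - X : ℕ) : ℝ) / M) =
        -Fr ((k : ℝ) / M + (X : ℝ) / M + ((2 : ℕ) : ℝ) / M) := by
      rw [← Fr_neg, ← Fr_add_one (-((k : ℝ) / M + (X : ℝ) / M + ((2 : ℕ) : ℝ) / M)), c3]
      congr 1
      push_cast
      field_simp
      ring
    have s3 := abs_le.1 (h2 M hM ((k : ℝ) / M + (X : ℝ) / M) 2 (by norm_num))
    have e1 : M - 1 - k + X = X + (M - 1 - k) := by omega
    rw [e1]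
    rw [f3] at a3
    rw [Real.log_mul (by positivity) (by positivity), Real.log_pow,
      Real.log_mul hS1.ne' hS2.ne']
    unfold VC3.gg
    push_cast at *
    nlinarith [a1.2, a2.2, a3.1, a3.2, s2.1, s2.2, s3.1, s3.2]

/-- Bounds in the left half. -/
theorem SlotX_core : ∃ C : ℝ, 0 < C ∧ ∃ D : ℕ, ∀ M k X : ℕ, 2 ≤ M → k < M → 2 * X + 1 ≤ M →
    ∀ E : ℝ, (X ≤ k → VC3.gg ((k : ℝ) / M) ((X : ℝ) / M) ≤ E) →
    S M k ^ 2 * ‖qc M k ((vl 2 M X : ℝ) : ℂ)‖ ≤ C * (M : ℝ) ^ D * Real.exp (M * E) ∧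
    S M k ^ 2 * ‖deriv (qc M k) ((vl 2 M X : ℝ) : ℂ)‖ ≤ C * (M : ℝ) ^ D * Real.exp (M * E) := by
  obtain ⟨K, hK, h⟩ := SlotX_log
  refine ⟨2 * Real.pi, by positivity, ⌈K⌉₊ + 2, fun M k X hM hk hX E hE => ?_⟩
  have hM0 : (0 : ℝ) < M := by exact_mod_cast (by omega : 0 < M)
  have hM1 : (1 : ℝ) ≤ M := by exact_mod_cast (by omega : 1 ≤ M)
  have hMne : (M : ℝ) ≠ 0 := hM0.ne'
  have hSk : 0 < S M k := S_pos hk
  have hpi : 1 ≤ 2 * Real.pi := by
    have := Real.pi_gt_three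
    linarith
  -- conversion
  have key : ∀ a : ℝ, 0 < a → X ≤ k →
      Real.log a ≤ M * VC3.gg ((k : ℝ) / M) ((X : ℝ) / M) + K * Real.log M →
      a ≤ (M : ℝ) ^ ⌈K⌉₊ * Real.exp (M * E) := by
    intro a ha hXk hlog
    have e1 : a = Real.exp (Real.log a) := (Real.exp_log ha).symm
    rw [e1]
    have e2 : Real.exp (K * Real.log M) ≤ (M : ℝ) ^ ⌈K⌉₊ := by
      rw [← Real.rpow_natCast, Real.rpow_def_of_pos hM0, mul_comm (Real.log M)]
      apply Real.exp_le_exp.2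
      apply mul_le_mul_of_nonneg_right (Nat.le_ceil K) (Real.log_nonneg hM1)
    calc Real.exp (Real.log a)
        ≤ Real.exp (M * E + K * Real.log M) := by
          apply Real.exp_le_exp.2
          refine hlog.trans ?_
          gcongr
          exact hE hXk
      _ = Real.exp (K * Real.log M) * Real.exp (M * E) := by rw [Real.exp_add]; ring
      _ ≤ _ := by gcongr
  have hq := qc_norm M k X hM hk hX
  have hR : 0 ≤ 2 * Real.pi * (M : ℝ) ^ (⌈K⌉₊ + 2) * Real.exp (M * E) := by positivity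
  rcases Nat.lt_or_ge k X with hkX | hXk
  · obtain ⟨z1, z2⟩ := hq.2.2 hkX
    rw [z1, z2]
    simp only [norm_zero, mul_zero]
    exact ⟨hR, hR⟩
  · rcases Nat.lt_or_ge X (M - 1 - k) with hB | hA
    · -- case B
      obtain ⟨z1, z2⟩ := hq.2.1 hB hXk
      have hS1 : 0 < S M (M - 1 - k + X) := S_pos (by omega)
      have hS2 : 0 < S M (M - 2 - k - X) := S_pos (by omega)
      have hb := key _ (by positivity) hXk ((h M k X hM hk hXk).2 hB)
      rw [z1, z2]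
      refine ⟨by simpa using hR, ?_⟩
      calc S M k ^ 2 * (2 * Real.pi / M * (S M (M - 1 - k + X) * S M (M - 2 - k - X)))
          = 2 * Real.pi / M * (S M k ^ 2 * (S M (M - 1 - k + X) * S M (M - 2 - k - X))) := by ring
        _ ≤ 2 * Real.pi * ((M : ℝ) ^ ⌈K⌉₊ * Real.exp (M * E)) := by
          apply mul_le_mul _ hb (by positivity) (by positivity)
          exact div_le_self (by positivity) hM1
        _ ≤ 2 * Real.pi * ((M : ℝ) ^ (⌈K⌉₊ + 2) * Real.exp (M * E)) := by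
          have h4 : (M : ℝ) ^ ⌈K⌉₊ ≤ (M : ℝ) ^ (⌈K⌉₊ + 2) :=
            pow_le_pow_right₀ hM1 (by omega)
          gcongr
        _ = _ := by ring
    · -- case A
      obtain ⟨z1, z2⟩ := hq.1 hA
      have hS1 : 0 < S M (X + (M - 1 - k)) := S_pos (by omega)
      have hS2 : 0 < S M (X - (M - 1 - k)) := S_pos (by omega)
      have hb := key _ (by positivity) hXk ((h M k X hM hk hXk).1 hA)
      have hb2 : S M k ^ 2 * (S M (X + (M - 1 - k)) / (M * S M (X - (M - 1 - k)))) ≤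
          (M : ℝ) ^ ⌈K⌉₊ * Real.exp (M * E) := by
        refine le_trans ?_ hb
        gcongr
        exact le_mul_of_one_le_left hS2.le hM1
      have hpow : (M : ℝ) ^ (⌈K⌉₊ + 2) = (M : ℝ) ^ 2 * (M : ℝ) ^ ⌈K⌉₊ := by ring
      have hM2 : (1 : ℝ) ≤ (M : ℝ) ^ 2 := one_le_pow₀ hM1
      constructor
      · rw [z1]
        refine hb2.trans ?_
        rw [hpow]
        have : (M : ℝ) ^ ⌈K⌉₊ * Real.exp (M * E) ≤
            (2 * Real.pi * (M : ℝ) ^ 2) * ((M : ℝ) ^ ⌈K⌉₊ * Real.exp (M * E)) :=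
          le_mul_of_one_le_left (by positivity) (by nlinarith only [hpi, hM2])
        calc _ ≤ _ := this
          _ = _ := by ring
      · calc S M k ^ 2 * ‖deriv (qc M k) ((vl 2 M X : ℝ) : ℂ)‖
            ≤ S M k ^ 2 * (2 * Real.pi * (M : ℝ) ^ 2 *
              (S M (X + (M - 1 - k)) / (M * S M (X - (M - 1 - k))))) := by gcongr
          _ = 2 * Real.pi * (M : ℝ) ^ 2 *
              (S M k ^ 2 * (S M (X + (M - 1 - k)) / (M * S M (X - (M - 1 - k))))) := by ring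
          _ ≤ 2 * Real.pi * (M : ℝ) ^ 2 * ((M : ℝ) ^ ⌈K⌉₊ * Real.exp (M * E)) := by gcongr
          _ = _ := by rw [hpow]; ring

theorem slotX : ∃ C : ℝ, 0 < C ∧ ∃ D : ℕ, ∀ M k X : ℕ, 2 ≤ M → k < M → X < M →
    S M k ^ 2 * ‖qc M k ((vl 2 M X : ℝ) : ℂ)‖ ≤
      C * (M : ℝ) ^ D * Real.exp (M * eo M (some k)) ∧
    S M k ^ 2 * ‖deriv (qc M k) ((vl 2 M X : ℝ) : ℂ)‖ ≤
      C * (M : ℝ) ^ D * Real.exp (M * eo M (some k)) := by
  obtain ⟨C, hC, D, h⟩ := SlotX_core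
  refine ⟨C, hC, D, fun M k X hM hk hX => ?_⟩
  have hM0 : (0 : ℝ) < M := by exact_mod_cast (by omega : 0 < M)
  -- the left half
  have main : ∀ X : ℕ, 2 * X + 1 ≤ M →
      S M k ^ 2 * ‖qc M k ((vl 2 M X : ℝ) : ℂ)‖ ≤
        C * (M : ℝ) ^ D * Real.exp (M * eo M (some k)) ∧
      S M k ^ 2 * ‖deriv (qc M k) ((vl 2 M X : ℝ) : ℂ)‖ ≤
        C * (M : ℝ) ^ D * Real.exp (M * eo M (some k)) := by
    intro X hX
    refine h M k X hM hk hX _ fun hXk => ?_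
    have l0 : (0 : ℝ) ≤ (X : ℝ) / M := by positivity
    have l1 : (X : ℝ) / M ≤ (k : ℝ) / M := by
      have : (X : ℝ) ≤ k := by exact_mod_cast hXk
      gcongr
    have l2 : (k : ℝ) / M ≤ 1 := by
      rw [div_le_one hM0]
      exact_mod_cast hk.le
    show VC3.gg ((k : ℝ) / M) ((X : ℝ) / M) ≤
      4 * Fr (3 / 4) - (if 53 / 1000 ≤ |(k : ℝ) / M - 3 / 4| then 17 / 1000 else 0)
    split_ifs with hc
    · exact gg_le_x _ _ l0 l1 l2 hc
    · rw [sub_zero]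
      exact gg_le _ _ l0 l1 l2
  rcases Nat.lt_or_ge M (2 * X + 1) with hX' | hX'
  · have e := qc_reflect M k (M - 1 - X) (by omega)
    have e2 : M - 1 - (M - 1 - X) = X := by omega
    rw [e2] at e
    rw [e.1, e.2, norm_neg]
    exact main _ (by omega)
  · exact main _ hX'

theorem slotX_out : ∃ C : ℝ, 0 < C ∧ ∃ D : ℕ, ∀ M k1 k2 l1 l2 k X : ℕ, Win 2 M k1 k2 l1 l2 →
    k1 ≤ k → k ≤ k2 → X < M → X ∉ Finset.Icc l1 l2 →
    S M k ^ 2 * ‖qc M k ((vl 2 M X : ℝ) : ℂ)‖ ≤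
      C * (M : ℝ) ^ D * Real.exp (M * (4 * Fr (3 / 4) - 40 / 1000)) ∧
    S M k ^ 2 * ‖deriv (qc M k) ((vl 2 M X : ℝ) : ℂ)‖ ≤
      C * (M : ℝ) ^ D * Real.exp (M * (4 * Fr (3 / 4) - 40 / 1000)) := by
  obtain ⟨C, hC, D, h⟩ := SlotX_core
  refine ⟨C, hC, D, fun M k1 k2 l1 l2 k X hw hk1 hk2 hX hXn => ?_⟩
  obtain ⟨w1, w2, w3, w4, w5, w6, w7⟩ := win_facts 2 M k1 k2 l1 l2 le_rfl hw
  have hbig := hw.big
  have hM : 2 ≤ M := by omega
  have hk : k < M := by omega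
  have hl := hw.hl
  have hM0 : (0 : ℝ) < M := by exact_mod_cast (by omega : 0 < M)
  have main : ∀ X : ℕ, 2 * X + 1 ≤ M → (X < l1 ∨ l2 < X) →
      S M k ^ 2 * ‖qc M k ((vl 2 M X : ℝ) : ℂ)‖ ≤
        C * (M : ℝ) ^ D * Real.exp (M * (4 * Fr (3 / 4) - 40 / 1000)) ∧
      S M k ^ 2 * ‖deriv (qc M k) ((vl 2 M X : ℝ) : ℂ)‖ ≤
        C * (M : ℝ) ^ D * Real.exp (M * (4 * Fr (3 / 4) - 40 / 1000)) := by
    intro X hX hXl
    refine h M k X hM hk hX _ fun hXk => ?_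
    have l0 : (0 : ℝ) ≤ (X : ℝ) / M := by positivity
    have l1 : (X : ℝ) / M ≤ (k : ℝ) / M := by
      have : (X : ℝ) ≤ k := by exact_mod_cast hXk
      gcongr
    have l2 : (k : ℝ) / M ≤ 1 := by
      rw [div_le_one hM0]
      exact_mod_cast hk.le
    exact gg_le_l _ _ l0 l1 l2 (w3 k hk1 hk2).2 (w5 X hXl)
  have hXn' : X < l1 ∨ l2 < X := by
    rw [Finset.mem_Icc] at hXn
    omega
  rcases Nat.lt_or_ge M (2 * X + 1) with hX' | hX'
  · have e := qc_reflect M k (M - 1 - X) (by omega)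
    have e2 : M - 1 - (M - 1 - X) = X := by omega
    rw [e2] at e
    rw [e.1, e.2, norm_neg]
    exact main _ (by omega) (by omega)
  · exact main _ hX' hXn'

end Pool.Agent.H63.VC7
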