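import Pool.Agent.H63.VC7.QcLL
import Pool.Agent.H63.VC7.SlotX
import Pool.Agent.H63.VC3.SumL

/-! # The factor of a node: bounds and the contour integral -/

namespace Pool.Agent.H63.VC7

open Pool.Agent.H63.VC hiding ext
open Pool.Agent.H63.VC3 Pool.Agent.H63.VC4 Pool.Agent.H63.VC6 Complex

variable {m p : ℕ}

theorem DGb_qc_diff (M k : ℕ) : Differentiable ℂ (qc M k) := by
  unfold qc
  apply Differentiable.const_mul
  apply Differentiable.fun_finsetProd
  intro i _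
  fun_prop

theorem DGb_qc_even (M k : ℕ) (v : ℂ) : qc M k (-v) = qc M k v := by
  unfold qc
  congr 1
  refine Finset.prod_congr rfl fun i _ => ?_
  have e1 : (Real.pi : ℂ) * (-v + (i + 1 / 2) / M) = -(Real.pi * (v - (i + 1 / 2) / M)) := by ring
  have e2 : (Real.pi : ℂ) * (-v - (i + 1 / 2) / M) = -(Real.pi * (v + (i + 1 / 2) / M)) := by ring
  rw [e1, e2, cos_neg, cos_neg]
  ring

theorem DGb_NT_odd (r : ℝ) (M : ℕ) (A : Finset (Fin m)) (k : Fin m → ℕ) (v : ℂ) :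
    NT r M A k (-v) = -NT r M A k v := by
  unfold NT
  have e1 : 2 * (Real.pi : ℂ) * -v = -(2 * Real.pi * v) := by ring
  rw [e1, sin_neg]
  simp only [DGb_qc_even]
  have e2 : (-v) ^ 2 = v ^ 2 := by ring
  rw [e2]
  ring

theorem DGb_NT_hasDeriv (r : ℝ) (M : ℕ) (A : Finset (Fin m)) (k : Fin m → ℕ) (v : ℂ) :
    HasDerivAt (NT r M A k)
      ((exp (2 * Real.pi * I * r * M * v ^ 2) * (2 * Real.pi * I * r * M * (2 * v)) *
          (2 * sin (2 * Real.pi * v)) +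
        exp (2 * Real.pi * I * r * M * v ^ 2) * (2 * (cos (2 * Real.pi * v) * (2 * Real.pi)))) *
          (∏ j ∈ A, qc M (k j) v) +
        exp (2 * Real.pi * I * r * M * v ^ 2) * (2 * sin (2 * Real.pi * v)) *
          (∑ j ∈ A, (∏ i ∈ A.erase j, qc M (k i) v) • deriv (qc M (k j)) v)) v := by
  unfold NT
  have h1 : HasDerivAt (fun v : ℂ => exp (2 * Real.pi * I * r * M * v ^ 2))
      (exp (2 * Real.pi * I * r * M * v ^ 2) * (2 * Real.pi * I * r * M * (2 * v))) v := by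
    have h := ((hasDerivAt_id v).pow 2).const_mul (2 * Real.pi * I * r * M)
    have h' := h.cexp
    have e : 2 * (Real.pi : ℂ) * I * r * M * (2 * v) =
        2 * Real.pi * I * r * M * (((2 : ℕ) : ℂ) * id v ^ (2 - 1) * 1) := by
      simp
    rw [e]
    exact h'
  have h2 : HasDerivAt (fun v : ℂ => 2 * sin (2 * Real.pi * v))
      (2 * (cos (2 * Real.pi * v) * (2 * Real.pi))) v := by
    have h := ((hasDerivAt_id v).const_mul (2 * Real.pi : ℂ)).csin.const_mul (2 : ℂ)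
    have e : (2 : ℂ) * (cos (2 * Real.pi * v) * (2 * Real.pi)) =
        2 * (cos (2 * Real.pi * id v) * (2 * Real.pi * 1)) := by
      simp
    rw [e]
    exact h
  have h3 : HasDerivAt (fun v : ℂ => ∏ j ∈ A, qc M (k j) v)
      (∑ j ∈ A, (∏ i ∈ A.erase j, qc M (k i) v) • deriv (qc M (k j)) v) v :=
    HasDerivAt.fun_finsetProd fun j _ => (DGb_qc_diff M (k j) v).hasDerivAt
  exact (h1.mul h2).mul h3

/-- The derivative at a summation point, from bounds for the slots. -/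
theorem DGb_deriv (r : ℝ) (M : ℕ) (A : Finset (Fin m)) (k : Fin m → ℕ) (X : ℕ) (hM : 2 ≤ M)
    (hX : X < M) (B : Fin m → ℝ)
    (h1 : ∀ j ∈ A, S M (k j) ^ 2 * ‖qc M (k j) ((vl 2 M X : ℝ) : ℂ)‖ ≤ B j)
    (h2 : ∀ j ∈ A, S M (k j) ^ 2 * ‖deriv (qc M (k j)) ((vl 2 M X : ℝ) : ℂ)‖ ≤ B j) :
    (∏ j ∈ A, S M (k j) ^ 2) * ‖deriv (NT r M A k) ((vl 2 M X : ℝ) : ℂ)‖ ≤
      (4 * Real.pi * |r| * M + 4 * Real.pi + 2 * A.card) * ∏ j ∈ A, B j := by
  have hM0 : (0 : ℝ) < M := by exact_mod_cast (by omega : 0 < M)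
  set x : ℝ := vl 2 M X with hx
  have hx1 : |x| ≤ 1 / 2 := by
    rw [hx, vl, bt, abs_le]
    have h3 : (X : ℝ) + 1 ≤ M := by exact_mod_cast hX
    have h4 : ((X : ℝ) + ((2 : ℕ) - 1) / 2) / M ≤ 1 := by
      rw [div_le_one hM0]
      push_cast
      linarith
    have h5 : 0 ≤ ((X : ℝ) + ((2 : ℕ) - 1) / 2) / M := by
      push_cast
      positivity
    constructor <;> linarith
  have hS : ∀ j ∈ A, 0 ≤ S M (k j) ^ 2 := fun j _ => sq_nonneg _
  have hB : ∀ j ∈ A, 0 ≤ B j := fun j hj =>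
    (mul_nonneg (hS j hj) (norm_nonneg _)).trans (h1 j hj)
  have hP : (∏ j ∈ A, S M (k j) ^ 2) * ‖∏ j ∈ A, qc M (k j) (x : ℂ)‖ ≤ ∏ j ∈ A, B j := by
    rw [_root_.norm_prod, ← Finset.prod_mul_distrib]
    exact Finset.prod_le_prod (fun j hj => mul_nonneg (hS j hj) (norm_nonneg _)) h1
  have hP' : (∏ j ∈ A, S M (k j) ^ 2) *
      ‖∑ j ∈ A, (∏ i ∈ A.erase j, qc M (k i) (x : ℂ)) • deriv (qc M (k j)) (x : ℂ)‖ ≤
      A.card * ∏ j ∈ A, B j := by
    calc (∏ j ∈ A, S M (k j) ^ 2) *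
          ‖∑ j ∈ A, (∏ i ∈ A.erase j, qc M (k i) (x : ℂ)) • deriv (qc M (k j)) (x : ℂ)‖
        ≤ (∏ j ∈ A, S M (k j) ^ 2) *
          ∑ j ∈ A, ‖(∏ i ∈ A.erase j, qc M (k i) (x : ℂ)) • deriv (qc M (k j)) (x : ℂ)‖ :=
          mul_le_mul_of_nonneg_left (norm_sum_le _ _) (Finset.prod_nonneg hS)
      _ = ∑ j ∈ A, (∏ j ∈ A, S M (k j) ^ 2) *
          ‖(∏ i ∈ A.erase j, qc M (k i) (x : ℂ)) • deriv (qc M (k j)) (x : ℂ)‖ := by
          rw [Finset.mul_sum]
      _ ≤ ∑ _j ∈ A, ∏ j ∈ A, B j := by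
          refine Finset.sum_le_sum fun j hj => ?_
          rw [norm_smul, _root_.norm_prod, ← Finset.mul_prod_erase A (fun j => S M (k j) ^ 2) hj,
            ← Finset.mul_prod_erase A B hj]
          calc S M (k j) ^ 2 * (∏ i ∈ A.erase j, S M (k i) ^ 2) *
                ((∏ i ∈ A.erase j, ‖qc M (k i) (x : ℂ)‖) * ‖deriv (qc M (k j)) (x : ℂ)‖)
              = (S M (k j) ^ 2 * ‖deriv (qc M (k j)) (x : ℂ)‖) *
                ∏ i ∈ A.erase j, (S M (k i) ^ 2 * ‖qc M (k i) (x : ℂ)‖) := by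
                rw [Finset.prod_mul_distrib]; ring
            _ ≤ B j * ∏ i ∈ A.erase j, B i := by
                apply mul_le_mul (h2 j hj)
                · exact Finset.prod_le_prod
                    (fun i hi => mul_nonneg (hS i (Finset.mem_of_mem_erase hi)) (norm_nonneg _))
                    (fun i hi => h1 i (Finset.mem_of_mem_erase hi))
                · exact Finset.prod_nonneg fun i hi =>
                    mul_nonneg (hS i (Finset.mem_of_mem_erase hi)) (norm_nonneg _)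
                · exact hB j hj
      _ = A.card * ∏ j ∈ A, B j := by
          rw [Finset.sum_const, nsmul_eq_mul]
  rw [(DGb_NT_hasDeriv r M A k (x : ℂ)).deriv]
  have hE : ‖exp (2 * Real.pi * I * r * M * (x : ℂ) ^ 2)‖ = 1 := by
    have : 2 * (Real.pi : ℂ) * I * r * M * (x : ℂ) ^ 2 =
        ((2 * Real.pi * r * M * x ^ 2 : ℝ) : ℂ) * I := by
      push_cast; ring
    rw [this, norm_exp_ofReal_mul_I]
  have hs : ‖sin (2 * Real.pi * (x : ℂ))‖ ≤ 1 := by
    have : sin (2 * Real.pi * (x : ℂ)) = ((Real.sin (2 * Real.pi * x) : ℝ) : ℂ) := by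
      push_cast; rfl
    rw [this, norm_real, Real.norm_eq_abs]
    exact Real.abs_sin_le_one _
  have hc : ‖cos (2 * Real.pi * (x : ℂ))‖ ≤ 1 := by
    have : cos (2 * Real.pi * (x : ℂ)) = ((Real.cos (2 * Real.pi * x) : ℝ) : ℂ) := by
      push_cast; rfl
    rw [this, norm_real, Real.norm_eq_abs]
    exact Real.abs_cos_le_one _
  have hpi := Real.pi_pos
  have n1 : ‖exp (2 * Real.pi * I * r * M * (x : ℂ) ^ 2) *
        (2 * Real.pi * I * r * M * (2 * (x : ℂ))) * (2 * sin (2 * Real.pi * (x : ℂ))) +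
      exp (2 * Real.pi * I * r * M * (x : ℂ) ^ 2) *
        (2 * (cos (2 * Real.pi * (x : ℂ)) * (2 * Real.pi)))‖ ≤
      4 * Real.pi * |r| * M + 4 * Real.pi := by
    refine (norm_add_le _ _).trans ?_
    rw [norm_mul, norm_mul, norm_mul (exp _) (2 * (cos _ * _)), hE]
    have e1 : ‖(2 * Real.pi * I * r * M * (2 * (x : ℂ)))‖ = 4 * Real.pi * |r| * M * |x| := by
      simp only [norm_mul, norm_real, Real.norm_eq_abs, norm_I, Complex.norm_natCast, Complex.norm_ofNat]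
      rw [abs_of_pos hpi]
      ring
    have e2 : ‖2 * sin (2 * Real.pi * (x : ℂ))‖ ≤ 2 := by
      rw [norm_mul, Complex.norm_ofNat]
      linarith
    have e3 : ‖(2 * (cos (2 * Real.pi * (x : ℂ)) * (2 * Real.pi)))‖ ≤ 4 * Real.pi := by
      simp only [norm_mul, norm_real, Real.norm_eq_abs, Complex.norm_ofNat]
      rw [abs_of_pos hpi]
      nlinarith
    rw [e1, one_mul, one_mul]
    have e4 : 4 * Real.pi * |r| * M * |x| * ‖2 * sin (2 * Real.pi * (x : ℂ))‖ ≤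
        4 * Real.pi * |r| * M * (1 / 2) * 2 := by
      gcongr
    linarith
  have n2 : ‖exp (2 * Real.pi * I * r * M * (x : ℂ) ^ 2) * (2 * sin (2 * Real.pi * (x : ℂ)))‖ ≤
      2 := by
    rw [norm_mul, hE, one_mul, norm_mul, Complex.norm_ofNat]
    linarith
  have hQ : 0 ≤ ∏ j ∈ A, S M (k j) ^ 2 := Finset.prod_nonneg hS
  have hBp : 0 ≤ ∏ j ∈ A, B j := Finset.prod_nonneg hB
  calc (∏ j ∈ A, S M (k j) ^ 2) * ‖_ * (∏ j ∈ A, qc M (k j) (x : ℂ)) + _ *
        (∑ j ∈ A, (∏ i ∈ A.erase j, qc M (k i) (x : ℂ)) • deriv (qc M (k j)) (x : ℂ))‖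
      ≤ (∏ j ∈ A, S M (k j) ^ 2) * ((4 * Real.pi * |r| * M + 4 * Real.pi) *
          ‖∏ j ∈ A, qc M (k j) (x : ℂ)‖ + 2 *
          ‖∑ j ∈ A, (∏ i ∈ A.erase j, qc M (k i) (x : ℂ)) • deriv (qc M (k j)) (x : ℂ)‖) := by
        apply mul_le_mul_of_nonneg_left _ hQ
        refine (norm_add_le _ _).trans ?_
        rw [norm_mul, norm_mul]
        gcongr
    _ = (4 * Real.pi * |r| * M + 4 * Real.pi) *
          ((∏ j ∈ A, S M (k j) ^ 2) * ‖∏ j ∈ A, qc M (k j) (x : ℂ)‖) + 2 *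
          ((∏ j ∈ A, S M (k j) ^ 2) *
          ‖∑ j ∈ A, (∏ i ∈ A.erase j, qc M (k i) (x : ℂ)) • deriv (qc M (k j)) (x : ℂ)‖) := by
        ring
    _ ≤ (4 * Real.pi * |r| * M + 4 * Real.pi) * (∏ j ∈ A, B j) +
          2 * (A.card * ∏ j ∈ A, B j) := by
        gcongr
    _ = _ := by ring

theorem DG_bound (r : ℝ) (A : Finset (Fin m)) : ∃ C : ℝ, 0 < C ∧ ∃ D : ℕ, ∀ (M : ℕ)
    (k : Fin m → ℕ), 2 ≤ M → (∀ j ∈ A, k j < M) →
    (∏ j ∈ A, S M (k j) ^ 2) * ‖DG r M A k‖ ≤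
      C * (M : ℝ) ^ D * Real.exp (M * ∑ j ∈ A, eo M (some (k j))) := by
  obtain ⟨C, hC, D, h⟩ := slotX
  have hpi := Real.pi_pos
  refine ⟨(4 * Real.pi * |r| + 4 * Real.pi + 2 * A.card) * C ^ A.card, by positivity,
    D * A.card + 2, fun M k hM hk => ?_⟩
  have hM0 : (0 : ℝ) < M := by exact_mod_cast (by omega : 0 < M)
  have hM1 : (1 : ℝ) ≤ M := by exact_mod_cast (by omega : 1 ≤ M)
  have hQ : 0 ≤ ∏ j ∈ A, S M (k j) ^ 2 := Finset.prod_nonneg fun j _ => sq_nonneg _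
  have hprod : ∏ j ∈ A, (C * (M : ℝ) ^ D * Real.exp (M * eo M (some (k j)))) =
      C ^ A.card * (M : ℝ) ^ (D * A.card) * Real.exp (M * ∑ j ∈ A, eo M (some (k j))) := by
    rw [Finset.prod_mul_distrib, Finset.prod_const, mul_pow, ← pow_mul, ← Real.exp_sum,
      Finset.mul_sum]
  have hd : ∀ X ∈ Finset.range M, (∏ j ∈ A, S M (k j) ^ 2) *
      ‖deriv (NT r M A k) ((vl 2 M X : ℝ) : ℂ)‖ ≤
      (4 * Real.pi * |r| * M + 4 * Real.pi + 2 * A.card) *
      (C ^ A.card * (M : ℝ) ^ (D * A.card) * Real.exp (M * ∑ j ∈ A, eo M (some (k j)))) := by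
    intro X hX
    rw [Finset.mem_range] at hX
    rw [← hprod]
    exact DGb_deriv r M A k X hM hX _ (fun j hj => (h M (k j) X hM (hk j hj) hX).1)
      (fun j hj => (h M (k j) X hM (hk j hj) hX).2)
  unfold DG
  calc (∏ j ∈ A, S M (k j) ^ 2) * ‖∑ X ∈ Finset.range M, deriv (NT r M A k) ((vl 2 M X : ℝ) : ℂ)‖
      ≤ (∏ j ∈ A, S M (k j) ^ 2) *
        ∑ X ∈ Finset.range M, ‖deriv (NT r M A k) ((vl 2 M X : ℝ) : ℂ)‖ :=
        mul_le_mul_of_nonneg_left (norm_sum_le _ _) hQ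
    _ = ∑ X ∈ Finset.range M, (∏ j ∈ A, S M (k j) ^ 2) *
        ‖deriv (NT r M A k) ((vl 2 M X : ℝ) : ℂ)‖ := by rw [Finset.mul_sum]
    _ ≤ ∑ _X ∈ Finset.range M, (4 * Real.pi * |r| * M + 4 * Real.pi + 2 * A.card) *
        (C ^ A.card * (M : ℝ) ^ (D * A.card) * Real.exp (M * ∑ j ∈ A, eo M (some (k j)))) :=
        Finset.sum_le_sum hd
    _ = M * (4 * Real.pi * |r| * M + 4 * Real.pi + 2 * A.card) *
        (C ^ A.card * (M : ℝ) ^ (D * A.card) * Real.exp (M * ∑ j ∈ A, eo M (some (k j)))) := by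
        rw [Finset.sum_const, Finset.card_range, nsmul_eq_mul]
        ring
    _ ≤ ((4 * Real.pi * |r| + 4 * Real.pi + 2 * A.card) * (M : ℝ) ^ 2) *
        (C ^ A.card * (M : ℝ) ^ (D * A.card) * Real.exp (M * ∑ j ∈ A, eo M (some (k j)))) := by
        apply mul_le_mul_of_nonneg_right _ (by positivity)
        have h1 : 0 ≤ 4 * Real.pi + 2 * (A.card : ℝ) := by positivity
        have h2 : (4 * Real.pi + 2 * (A.card : ℝ)) * M ≤
            (4 * Real.pi + 2 * (A.card : ℝ)) * (M : ℝ) ^ 2 := by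
          apply mul_le_mul_of_nonneg_left _ h1
          nlinarith
        nlinarith
    _ = _ := by ring

theorem DG_PG (r : ℝ) (A : Finset (Fin m)) (hA : A.Nonempty) (Y : ℝ) (hY : 0 < Y) :
    ∃ C : ℝ, 0 < C ∧ ∃ D : ℕ, ∀ (M k1 k2 l1 l2 : ℕ) (k : Fin m → ℕ), Win 2 M k1 k2 l1 l2 →
    (∀ j ∈ A, k1 ≤ k j ∧ k j ≤ k2) →
    (∏ j ∈ A, S M (k j) ^ 2) * ‖DG r M A k + 4 * Real.pi * I * M ^ 2 *
      PG r M A (fun j => ((yk 2 M (k j) : ℝ) : ℂ)) (rho 2 M l2) Y‖ ≤
      C * (M : ℝ) ^ D * Real.exp (M * (4 * A.card * Fr (3 / 4) - 40 / 1000)) := by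
  obtain ⟨C, hC, D, h⟩ := slotX_out
  have hpi := Real.pi_pos
  have hcard : (1 : ℝ) ≤ A.card := by exact_mod_cast hA.card_pos
  refine ⟨(4 * Real.pi * |r| + 4 * Real.pi + 2 * A.card) * C ^ A.card, by positivity,
    D * A.card + 2, fun M k1 k2 l1 l2 k hw hk => ?_⟩
  obtain ⟨w1, w2, w3, w4, w5, w6, w7⟩ := win_facts 2 M k1 k2 l1 l2 le_rfl hw
  have hbig := hw.big
  have hM : 2 ≤ M := by omega
  have hl := hw.hl
  have hl' := hw.hl'
  have hM0 : (0 : ℝ) < M := by exact_mod_cast (by omega : 0 < M)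
  have hM1 : (1 : ℝ) ≤ M := by exact_mod_cast (by omega : 1 ≤ M)
  have hQ : 0 ≤ ∏ j ∈ A, S M (k j) ^ 2 := Finset.prod_nonneg fun j _ => sq_nonneg _
  have hkM : ∀ j ∈ A, k j < M := fun j hj => by have := (hk j hj).2; omega
  -- the inner part
  have hyk : ∀ j ∈ A, (195 / 1000 : ℝ) ≤ yk 2 M (k j) := by
    intro j hj
    have := (abs_le.1 (w3 (k j) (hk j hj).1 (hk j hj).2).1).1
    linarith
  have hNK : ∀ z : ℂ, |z.re| ≤ rho 2 M l2 →
      NT r M A k z = KG r M A (fun j => ((yk 2 M (k j) : ℝ) : ℂ)) z := by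
    intro z hz
    refine NT_eq_KG r M A k z hkM fun j hj => ?_
    have h1 := hyk j hj
    have h2 : 0 < 1 / (2 * (M : ℝ)) := by positivity
    linarith
  have hrho : 0 ≤ rho 2 M l2 := by linarith
  have hsum : ∑ l ∈ Finset.Icc l1 l2, deriv (NT r M A k) ((vl 2 M l : ℝ) : ℂ) =
      -(4 * Real.pi * I) * M ^ 2 *
        PG r M A (fun j => ((yk 2 M (k j) : ℝ) : ℂ)) (rho 2 M l2) Y := by
    rw [sum_l (NT r M A k) 2 M l1 l2 Y (by omega) hl (by norm_num) hl' hY (rho 2 M l2) rfl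
      (fun z _ _ => (DGb_NT_hasDeriv r M A k z).differentiableAt) (DGb_NT_odd r M A k)]
    congr 1
    unfold PG VC3.Path
    congr 1
    · congr 1
      · refine intervalIntegral.integral_congr fun t _ => ?_
        simp only
        rw [hNK]
        simp only [add_re, neg_re, ofReal_re, mul_re, I_re, mul_zero, ofReal_im, I_im, mul_one,
          sub_self, add_zero, abs_neg]
        exact (abs_of_nonneg hrho).le
      · refine intervalIntegral.integral_congr fun t ht => ?_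
        simp only
        rw [hNK]
        simp only [add_re, ofReal_re, mul_re, I_re, mul_zero, ofReal_im, I_im, mul_one,
          sub_self, add_zero]
        rw [Set.uIcc_of_le (by linarith)] at ht
        exact abs_le.2 ht
    · refine intervalIntegral.integral_congr fun t _ => ?_
      simp only
      rw [hNK]
      simp only [add_re, ofReal_re, mul_re, I_re, mul_zero, ofReal_im, I_im, mul_one,
        sub_self, add_zero]
      exact (abs_of_nonneg hrho).le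
  have hsplit : DG r M A k + 4 * Real.pi * I * M ^ 2 *
      PG r M A (fun j => ((yk 2 M (k j) : ℝ) : ℂ)) (rho 2 M l2) Y =
      ∑ X ∈ Finset.range M \ Finset.Icc l1 l2, deriv (NT r M A k) ((vl 2 M X : ℝ) : ℂ) := by
    unfold DG
    have hsub : Finset.Icc l1 l2 ⊆ Finset.range M := by
      intro X hX
      rw [Finset.mem_Icc] at hX
      rw [Finset.mem_range]
      omega
    rw [← Finset.sum_sdiff hsub, hsum]
    ring
  rw [hsplit]
  have hprod : ∏ _j ∈ A, (C * (M : ℝ) ^ D * Real.exp (M * (4 * Fr (3 / 4) - 40 / 1000))) ≤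
      C ^ A.card * (M : ℝ) ^ (D * A.card) *
        Real.exp (M * (4 * A.card * Fr (3 / 4) - 40 / 1000)) := by
    rw [Finset.prod_const, mul_pow, mul_pow, ← pow_mul, ← Real.exp_nat_mul]
    apply mul_le_mul_of_nonneg_left _ (by positivity)
    apply Real.exp_le_exp.2
    nlinarith
  have hd : ∀ X ∈ Finset.range M \ Finset.Icc l1 l2, (∏ j ∈ A, S M (k j) ^ 2) *
      ‖deriv (NT r M A k) ((vl 2 M X : ℝ) : ℂ)‖ ≤
      (4 * Real.pi * |r| * M + 4 * Real.pi + 2 * A.card) *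
      (C ^ A.card * (M : ℝ) ^ (D * A.card) *
        Real.exp (M * (4 * A.card * Fr (3 / 4) - 40 / 1000))) := by
    intro X hX
    rw [Finset.mem_sdiff, Finset.mem_range] at hX
    refine (DGb_deriv r M A k X hM hX.1
      (fun _ => C * (M : ℝ) ^ D * Real.exp (M * (4 * Fr (3 / 4) - 40 / 1000)))
      (fun j hj => (h M k1 k2 l1 l2 (k j) X hw (hk j hj).1 (hk j hj).2 hX.1 hX.2).1)
      (fun j hj => (h M k1 k2 l1 l2 (k j) X hw (hk j hj).1 (hk j hj).2 hX.1 hX.2).2)).trans ?_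
    apply mul_le_mul_of_nonneg_left hprod (by positivity)
  calc (∏ j ∈ A, S M (k j) ^ 2) *
        ‖∑ X ∈ Finset.range M \ Finset.Icc l1 l2, deriv (NT r M A k) ((vl 2 M X : ℝ) : ℂ)‖
      ≤ (∏ j ∈ A, S M (k j) ^ 2) *
        ∑ X ∈ Finset.range M \ Finset.Icc l1 l2, ‖deriv (NT r M A k) ((vl 2 M X : ℝ) : ℂ)‖ :=
        mul_le_mul_of_nonneg_left (norm_sum_le _ _) hQ
    _ = ∑ X ∈ Finset.range M \ Finset.Icc l1 l2, (∏ j ∈ A, S M (k j) ^ 2) *
        ‖deriv (NT r M A k) ((vl 2 M X : ℝ) : ℂ)‖ := by rw [Finset.mul_sum]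
    _ ≤ ∑ _X ∈ Finset.range M \ Finset.Icc l1 l2,
        (4 * Real.pi * |r| * M + 4 * Real.pi + 2 * A.card) *
        (C ^ A.card * (M : ℝ) ^ (D * A.card) *
          Real.exp (M * (4 * A.card * Fr (3 / 4) - 40 / 1000))) :=
        Finset.sum_le_sum hd
    _ ≤ M * ((4 * Real.pi * |r| * M + 4 * Real.pi + 2 * A.card) *
        (C ^ A.card * (M : ℝ) ^ (D * A.card) *
          Real.exp (M * (4 * A.card * Fr (3 / 4) - 40 / 1000)))) := by
        rw [Finset.sum_const, nsmul_eq_mul]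
        apply mul_le_mul_of_nonneg_right _ (by positivity)
        have : (Finset.range M \ Finset.Icc l1 l2).card ≤ M := by
          calc _ ≤ (Finset.range M).card := Finset.card_le_card Finset.sdiff_subset
            _ = M := Finset.card_range M
        exact_mod_cast this
    _ ≤ ((4 * Real.pi * |r| + 4 * Real.pi + 2 * A.card) * (M : ℝ) ^ 2) *
        (C ^ A.card * (M : ℝ) ^ (D * A.card) *
          Real.exp (M * (4 * A.card * Fr (3 / 4) - 40 / 1000))) := by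
        rw [← mul_assoc]
        apply mul_le_mul_of_nonneg_right _ (by positivity)
        have h1 : 0 ≤ 4 * Real.pi + 2 * (A.card : ℝ) := by positivity
        have h2 : (4 * Real.pi + 2 * (A.card : ℝ)) * M ≤
            (4 * Real.pi + 2 * (A.card : ℝ)) * (M : ℝ) ^ 2 := by
          apply mul_le_mul_of_nonneg_left _ h1
          nlinarith
        nlinarith
    _ = _ := by ring

end Pool.Agent.H63.VC7
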