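import Pool.Agent.H63.VC6.Defs

/-!
# Arborescent links: definitions for the asymptotics
-/

namespace Pool.Agent.H63.VC7

open Pool.Agent.H63.VC hiding ext
open Pool.Agent.H63.VC3 Pool.Agent.H63.VC4 Pool.Agent.H63.VC6 Complex

variable {m p : ℕ}

/-! ### Graphs -/

/-- The edges at a node. -/
def inc (s t : Fin m → Fin p) (i : Fin p) : Finset (Fin m) :=
  Finset.univ.filter fun j => s j = i ∨ t j = i

/-- The number of edges at a node. -/
noncomputable def dg (s t : Fin m → Fin p) (i : Fin p) : ℝ := ((inc s t i).card : ℝ)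

/-! ### The invariant at the root of unity -/

/-- The factor of a slot, a trigonometric polynomial. -/
noncomputable def qc (M k : ℕ) (v : ℂ) : ℂ := 1 / M * ∏ i ∈ Finset.range (M - 1 - k),
  (4 * (cos (Real.pi * (v + (i + 1 / 2) / M)) * cos (Real.pi * (v - (i + 1 / 2) / M))))

/-- The function whose derivatives are summed at a node. -/
noncomputable def NT (r : ℝ) (M : ℕ) (A : Finset (Fin m)) (k : Fin m → ℕ) (v : ℂ) : ℂ :=
  exp (2 * Real.pi * I * r * M * v ^ 2) * (2 * sin (2 * Real.pi * v)) * ∏ j ∈ A, qc M (k j) v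

/-- The factor of a node. -/
noncomputable def DG (r : ℝ) (M : ℕ) (A : Finset (Fin m)) (k : Fin m → ℕ) : ℂ :=
  ∑ X ∈ Finset.range M, deriv (NT r M A k) ((vl 2 M X : ℝ) : ℂ)

/-- The invariant at the root of unity, up to simple factors. -/
noncomputable def JG (s t : Fin m → Fin p) (r : Fin p → ℝ) (M : ℕ) : ℂ :=
  ∑ k ∈ Fintype.piFinset (fun _ : Fin m => Finset.range M),
    (∏ j, Cc 2 1 M (yk 2 M (k j))) * ∏ i, DG (r i) M (inc s t i) k

/-- The phase of a node with `a` half twists. -/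
noncomputable def cG (a : ℤ) (M : ℕ) : ℂ :=
  exp (a * (Real.pi * I / 2 - Real.pi * I * M / 4 - Real.pi * I / (4 * M)))

/-! ### Kernels -/

/-- The kernel at a node. -/
noncomputable def KG (r : ℝ) (M : ℕ) (A : Finset (Fin m)) (y : Fin m → ℂ) (v : ℂ) : ℂ :=
  exp (2 * Real.pi * I * r * M * v ^ 2) * (2 * sin (2 * Real.pi * v)) *
    ∏ j ∈ A, Qo 2 M (some (y j)) v

/-- The contour integral at a node. -/
noncomputable def PG (r : ℝ) (M : ℕ) (A : Finset (Fin m)) (y : Fin m → ℂ) (ρ Y : ℝ) : ℂ :=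
  Path (fun v => KG r M A y v * om 2 M v) ρ Y

/-- Its flat part. -/
noncomputable def FG (r : ℝ) (M : ℕ) (A : Finset (Fin m)) (y : Fin m → ℂ) (ρ Y : ℝ) : ℂ :=
  ∫ x in (-ρ)..ρ, KG r M A y (x + Y * I) * om 2 M (x + Y * I)

open Classical in
/-- The approximation of the factor of a node. -/
noncomputable def GD (r Y : ℝ) (M k1 k2 l2 : ℕ) (A : Finset (Fin m)) (k : Fin m → ℕ) : ℂ :=
  if ∀ j ∈ A, k1 ≤ k j ∧ k j ≤ k2 then
    -(4 * Real.pi * I * M ^ 2) *
      FG r M A (fun j => ((yk 2 M (k j) : ℝ) : ℂ)) (rho 2 M l2) Y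
  else 0

/-- The integrand for the nodes outside of `B` and the edges outside of `E`. -/
noncomputable def GN (s t : Fin m → Fin p) (r : Fin p → ℝ) (M : ℕ) (B : Finset (Fin p))
    (E : Finset (Fin m)) (y : Fin m → ℂ) (v : Fin p → ℂ) : ℂ :=
  (∏ j ∈ Eᶜ, Cc 2 1 M (y j)) * ∏ i ∈ Bᶜ, (KG (r i) M (inc s t i) y (v i) * om 2 M (v i))

/-- The edges at the nodes of `B`. -/
def EB (s t : Fin m → Fin p) (B : Finset (Fin p)) : Finset (Fin m) :=
  Finset.univ.filter fun j => s j ∈ B ∨ t j ∈ B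

/-- The point of the integration domain. -/
noncomputable def zy7 (Y0 : Fin m → ℝ) (z : Fin m ⊕ Fin p → ℝ) (j : Fin m) : ℂ :=
  z (Sum.inl j) + Y0 j * I

/-- The point of the integration domain. -/
noncomputable def zv7 (Y1 : Fin p → ℝ) (z : Fin m ⊕ Fin p → ℝ) (i : Fin p) : ℂ :=
  z (Sum.inr i) + Y1 i * I

/-- The box. -/
def Bx7 (m p : ℕ) (y1 y2 ρ : ℝ) : Set (Fin m ⊕ Fin p → ℝ) :=
  Set.pi Set.univ (Sum.elim (fun _ => Set.Ioc y1 y2) (fun _ => Set.Ioc (-ρ) ρ))

/-- The main integral over the flat contours. -/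
noncomputable def MG (s t : Fin m → Fin p) (r : Fin p → ℝ) (M : ℕ) (Y0 : Fin m → ℝ)
    (Y1 : Fin p → ℝ) (y1 y2 ρ : ℝ) : ℂ :=
  ∫ z in Bx7 m p y1 y2 ρ, GN s t r M ∅ ∅ (zy7 Y0 z) (zv7 Y1 z)

/-! ### The potential function and its critical point -/

/-- The part of the potential function of a node. -/
noncomputable def WG (r : ℝ) (A : Finset (Fin m)) (y : Fin m → ℂ) (v : ℂ) : ℂ :=
  2 * Real.pi * I * (r * v ^ 2 + v) + ∑ j ∈ A, po (some (y j)) v

/-- The potential function. -/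
noncomputable def VG (s t : Fin m → Fin p) (r : Fin p → ℝ) (y : Fin m → ℂ) (v : Fin p → ℂ) : ℂ :=
  (∑ j, 4 * ff (y j + 1 / 2)) + ∑ i, WG (r i) (inc s t i) y (v i)

/-- The real part of the potential at a node, with half of the adjacent edges. -/
noncomputable def Lg (r : ℝ) (A : Finset (Fin m)) (y : Fin m → ℂ) (v : ℂ) : ℝ :=
  (WG r A y v).re + ∑ j ∈ A, (2 * ff (y j + 1 / 2)).re

/-- The critical point of the potential function, with its approximate location. -/
structure CritG (s t : Fin m → Fin p) (r : Fin p → ℝ) (y : Fin m → ℂ) (v : Fin p → ℂ) :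
    Prop where
  st : ∀ j, s j ≠ t j
  ne : ∀ i, (inc s t i).Nonempty
  hr : ∀ i, 10 * dg s t i ≤ |r i|
  hn : ∀ j, 10 * dg s t (s j) ≤ (r (t j)) ^ 2 ∧ 10 * dg s t (t j) ≤ (r (s j)) ^ 2
  ey : ∀ j, 4 * hh (y j + 1 / 2) =
    hh (y j - v (s j)) + hh (y j + v (s j)) + hh (y j - v (t j)) + hh (y j + v (t j))
  ev : ∀ i, 2 * Real.pi * I * (2 * r i * v i + 1) +
    ∑ j ∈ inc s t i, (hh (y j - v i) - hh (y j + v i)) = 0
  bdy : ∀ j, ‖y j - 1 / 4‖ ≤ 3 / 10 * (1 / (r (s j)) ^ 2 + 1 / (r (t j)) ^ 2)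
  bdv : ∀ i, ‖v i + 1 / (2 * r i)‖ ≤ 3 / 10 * dg s t i / (r i) ^ 2
  imv : ∀ i, 0 < (v i).im

/-- The loss of a slot at the node `i` of the edge `j` whose variable is frozen. -/
noncomputable def loss (s t : Fin m → Fin p) (r : Fin p → ℝ) (i : Fin p) (j : Fin m) : ℝ :=
  21 / 1000 / (r i) ^ 2 + 33 / 1000 * (1 / (r (s j)) ^ 2 + 1 / (r (t j)) ^ 2)

/-! ### Elementary facts -/

theorem mem_inc (s t : Fin m → Fin p) (i : Fin p) (j : Fin m) :
    j ∈ inc s t i ↔ s j = i ∨ t j = i := by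
  simp [inc]

theorem mem_inc_s (s t : Fin m → Fin p) (j : Fin m) : j ∈ inc s t (s j) := by simp [inc]

theorem mem_inc_t (s t : Fin m → Fin p) (j : Fin m) : j ∈ inc s t (t j) := by simp [inc]

/-- Sums over the slots. -/
theorem sum_inc {E : Type*} [AddCommMonoid E] (s t : Fin m → Fin p) (hst : ∀ j, s j ≠ t j)
    (h : Fin p → Fin m → E) :
    ∑ i, ∑ j ∈ inc s t i, h i j = ∑ j, (h (s j) j + h (t j) j) := by
  have e : ∀ i, ∑ j ∈ inc s t i, h i j =
      ∑ j, ((if s j = i then h i j else 0) + if t j = i then h i j else 0) := by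
    intro i
    rw [inc, Finset.sum_filter]
    refine Finset.sum_congr rfl fun j _ => ?_
    by_cases h1 : s j = i
    · have h2 : ¬ t j = i := fun h2 => hst j (h1.trans h2.symm)
      simp [h1, h2]
    · simp [h1]
  simp only [e]
  rw [Finset.sum_comm]
  refine Finset.sum_congr rfl fun j _ => ?_
  rw [Finset.sum_add_distrib]
  simp

/-- Products over the slots. -/
theorem prod_inc (s t : Fin m → Fin p) (hst : ∀ j, s j ≠ t j) (h : Fin p → Fin m → ℂ) :
    ∏ i, ∏ j ∈ inc s t i, h i j = ∏ j, (h (s j) j * h (t j) j) := by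
  have := sum_inc (E := Additive ℂ) s t hst (fun i j => Additive.ofMul (h i j))
  exact this

/-- Products over the slots. -/
theorem prod_inc_real (s t : Fin m → Fin p) (hst : ∀ j, s j ≠ t j) (h : Fin p → Fin m → ℝ) :
    ∏ i, ∏ j ∈ inc s t i, h i j = ∏ j, (h (s j) j * h (t j) j) := by
  have := sum_inc (E := Additive ℝ) s t hst (fun i j => Additive.ofMul (h i j))
  exact this

end Pool.Agent.H63.VC7
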