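import Pool.Agent.H63.VC5.CVDefs

/-!
# Hyperbolic structures, volumes and complex volumes of arborescent links

A tree with `p` nodes and `m` edges, the edge `j` joining the nodes `s j` and `t j`, and integer
weights `a i` of the nodes describe arborescent links: the node `i` is a band with `a i` half twists
(a twist region with `a i` crossings), the bands of adjacent nodes are plumbed together, and the link
is the boundary of the resulting surface. The cyclic order of the plumbings along a band is
arbitrary; changing it is a mutation, which does not change the equations below.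

Let `C_i` be a circle around the twist region `i`. The complement of the link and all `C_i` (with
`a i` replaced by a number of the same parity) is the union of one block for each edge `j` of the
tree. A block consists of two ideal octahedra `P`, `P'` with opposite vertices `c`, `c'` and vertices
`a_1, a_2, a_3, a_4` around the axis `c c'`, glued along the faces `c a_1 a_2`, `c a_3 a_4`,
`c' a_2 a_3`, `c' a_4 a_1` by the identity. The other faces form four thrice punctured spheres:
`S⁺ = (c a_4 a_1)` and `S⁻ = (c a_2 a_3)` at the node `s j`, and `S⁺ = (c' a_1 a_2)` and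
`S⁻ = (c' a_3 a_4)` at the node `t j`. At each node `i` the blocks of its edges are arranged
cyclically around the cusp `C_i`, and `S⁺` of each block is glued to `S⁻` of the next one, with
`a_1 ↦ a_2`, `a_4 ↦ a_3` for `c` and `a_1 ↦ a_4`, `a_2 ↦ a_3` for `c'`, or with a half twist, which
exchanges `P` and `P'` and the two vertices other than the cusp `C_i`; the number of half twists at
the node `i` has the parity of `a i`. The octahedra are divided into four ideal tetrahedra around the
edge `a_1 a_3`, namely `0 = (a_1 a_3 a_2 c)`, `1 = (a_1 a_3 c' a_2)`, `2 = (a_1 a_3 a_4 c')`,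
`3 = (a_1 a_3 c a_4)` for `P`, and likewise for `P'` with the opposite orientation. The three pairs of
opposite edges of a tetrahedron are numbered `0, 1, 2`, beginning with `a_1 a_3` and following the
orientation, so that the shape parameters are `z`, `1 / (1 - z)`, `1 - 1 / z`.
-/

namespace Pool.Agent.H63.VC7.Hyp

open Pool.Agent.H63.VC Pool.Agent.H63.VC5 Complex

variable {m p : ℕ}

/-- The shape parameters at the three pairs of opposite edges. -/
noncomputable def shp (z : ℂ) : Fin 3 → ℂ := ![z, 1 / (1 - z), 1 - 1 / z]

/-- Their logarithms. -/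
noncomputable def lgs (z : ℂ) : Fin 3 → ℂ := fun c => Complex.log (shp z c)

/-- The equations of a block at the cusp `c`, for the logarithmic parameters `x`, `y` of the
tetrahedra of `P`, `P'`. Here `κ = π i` for the logarithms of the shape parameters, and `κ = 0` for
flattenings. The sums at the edges `c a_1`, `c a_4`, `a_4 a_1` of `S⁺` and `c a_2`, `c a_3`,
`a_2 a_3` of `S⁻` are `κ ± U`; since `U` depends only on the node, the sums around the edges of the
complement are `2 κ`. The last two equations say that half of the longitude of `C_i` has logarithmic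
holonomy `U`, in `P` and in `P'`. -/
structure Side (κ : ℂ) (x y : Fin 4 → Fin 3 → ℂ) (U : ℂ) : Prop where
  ca1 : x 0 2 + x 3 1 + y 0 1 + y 3 2 = κ + U
  ca4 : x 3 0 + y 3 0 = κ + U
  ca2 : x 0 0 + y 0 0 = κ - U
  ca3 : x 0 1 + x 3 2 + y 0 2 + y 3 1 = κ - U
  a4a1 : x 3 2 + x 2 1 + y 3 1 + y 2 2 = κ - U
  a2a3 : x 0 2 + x 1 1 + y 0 1 + y 1 2 = κ + U
  lon : x 0 2 - x 3 2 = U
  lon' : y 0 1 - y 3 1 = U

/-- The logarithmic holonomy of the part of the meridian of `C_i` in a block, from `S⁻` to `S⁺`
through `P`. -/
def mer (x : Fin 4 → Fin 3 → ℂ) : ℂ := x 3 1 - x 0 1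

/-- The same through `P'`. -/
def mer' (y : Fin 4 → Fin 3 → ℂ) : ℂ := y 0 2 - y 3 2

/-- The symmetry of a block exchanging `c` and `c'`. -/
def opp (x : Fin 4 → Fin 3 → ℂ) : Fin 4 → Fin 3 → ℂ := fun k => x (k + 2)

/-- The equations of a block: the edges `a_1 a_3`, the cusps `c` and `c'`, and the logarithmic
holonomies of the four strands `a_1, a_2, a_3, a_4` from `S⁺` or `S⁻` at `s j` to `S⁺` or `S⁻` at
`t j`, in `P` and in `P'`. Here `q` is the difference of two numbers depending only on the nodes, so
the logarithmic holonomy of every closed curve along a link component is `0`. -/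
structure Block (κ : ℂ) (x y : Fin 4 → Fin 3 → ℂ) (U W q : ℂ) : Prop where
  ax : x 0 0 + x 1 0 + x 2 0 + x 3 0 = 2 * κ
  ay : y 0 0 + y 1 0 + y 2 0 + y 3 0 = 2 * κ
  c : Side κ x y U
  c' : Side κ (opp x) (opp y) W
  m : mer' y = mer x
  m' : mer' (opp y) = mer (opp x)
  a1 : x 2 0 - x 3 2 - x 1 1 = (U - W) / 2 + q
  a2 : x 0 2 - x 1 2 = (U + W) / 2 + q
  a3 : x 1 0 - x 0 2 - x 2 1 = -(U - W) / 2 + q
  a4 : x 3 2 - x 2 2 = -(U + W) / 2 + q
  b1 : y 3 1 + y 1 2 - y 2 0 = -(U - W) / 2 + q
  b2 : y 1 1 - y 0 1 = -(U + W) / 2 + q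
  b3 : y 0 1 + y 2 2 - y 1 0 = (U - W) / 2 + q
  b4 : y 2 1 - y 3 1 = (U + W) / 2 + q

/-- The gluing equations: the equations of the blocks, and the equations of the Dehn fillings of the
cusps `C_i` which give the twist regions `a i` crossings, along a curve going once along the meridian
and `a i / 2` times along the longitude of `C_i`. -/
structure Glue (κ : ℂ) (s t : Fin m → Fin p) (a : Fin p → ℤ) (x y : Fin m → Fin 4 → Fin 3 → ℂ)
    (U lam : Fin p → ℂ) : Prop where
  block : ∀ j, Block κ (x j) (y j) (U (s j)) (U (t j)) (lam (s j) - lam (t j))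
  fill : ∀ i, (∑ j, ((if s j = i then mer (x j) else 0) +
    (if t j = i then mer (opp (x j)) else 0))) + a i * U i = -(2 * κ)

/-- The shape parameters `X`, `Y` describe the hyperbolic structure of the link complement: positively
oriented ideal tetrahedra satisfying Thurston's gluing, completeness and Dehn filling equations. -/
def IsGeom (s t : Fin m → Fin p) (a : Fin p → ℤ) (X Y : Fin m → Fin 4 → ℂ) : Prop :=
  (∀ j k, 0 < (X j k).im ∧ 0 < (Y j k).im) ∧ ∃ U lam : Fin p → ℂ,
    Glue (Real.pi * I) s t a (fun j k => lgs (X j k)) (fun j k => lgs (Y j k)) U lam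

/-- `V` is the hyperbolic volume of the link complement. -/
def IsVolume (s t : Fin m → Fin p) (a : Fin p → ℤ) (V : ℝ) : Prop :=
  ∃ X Y : Fin m → Fin 4 → ℂ, IsGeom s t a X Y ∧
    V = ∑ j, ∑ k, (blochWigner (X j k) + blochWigner (Y j k))

/-! ### The complex volume -/

/-- Logarithmic parameters of a flattened tetrahedron. -/
def IsFlat (z : ℂ) (F : Fin 3 → ℂ) : Prop :=
  (∀ c, ∃ n : ℤ, F c = lgs z c + n * (Real.pi * I)) ∧ F 0 + F 1 + F 2 = 0

/-- Neumann's Rogers dilogarithm `R(z; p, q) = L(z) + π i / 2 (p log (1 - z) + q log z) - π² / 6`, as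
a function of the logarithmic parameters `w₀ = log z + p π i` and `w₁ = -log (1 - z) + q π i`. -/
noncomputable def RR (z w0 w1 : ℂ) : ℂ := dilog z +
  (w0 * Complex.log (1 - z) + w1 * Complex.log z + Complex.log z * Complex.log (1 - z)) / 2 -
    (Real.pi : ℂ) ^ 2 / 6

/-- The value of a flattened tetrahedron with ordered vertices `0, 1, 2, 3`, where `a`, `b` are the
numbers of the pairs of edges `01 | 23` and `12 | 03`; the ordering is compatible with the orientation
if `b = a + 1` and incompatible if `b = a + 2`. -/
noncomputable def tetR (z : ℂ) (F : Fin 3 → ℂ) (a b : Fin 3) : ℂ :=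
  if b = a + 1 then RR (shp z a) (F a) (F b) else -RR (1 / shp z a) (-F a) (-F b)

/-- The number of the edge `a_1 a_2` (or `a_1 a_4`) in the tetrahedron `k` of `P`. -/
def eo4 : Fin 4 → Fin 3 := ![1, 2, 1, 2]

/-- The value of a block. The vertices are ordered such that `c` and `c'` are the smallest ones and
`a_3` is the largest one; `a_4 < a_1` if `f` is true and `a_1 < a_4` otherwise, `a_2 < a_1` if `f'` is
true and `a_1 < a_2` otherwise. -/
noncomputable def blockR (X Y : Fin 4 → ℂ) (F G : Fin 4 → Fin 3 → ℂ) (f f' : Bool) : ℂ :=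
  ∑ k : Fin 4, (tetR (X k) (F k) (if (if k < 2 then f' else f) then 0 else -eo4 k) (eo4 k) +
    tetR (Y k) (G k) (if (if k < 2 then f' else f) then 0 else eo4 k) (-eo4 k))

/-- `Z` is the complex volume `i (Vol + i CS)`, well-defined modulo `π²`, of the link complement
(theorem of Neumann): the sum of the values of the Rogers dilogarithm for a flattening satisfying the
equations of the edges and of the cusps, and an ordering of the vertices compatible with the face
pairings; `f i` says at which blocks the gluings of `S⁺` at the node are half twisted. -/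
def IsComplexVolume (s t : Fin m → Fin p) (a : Fin p → ℤ) (Z : ℂ) : Prop :=
  ∃ (X Y : Fin m → Fin 4 → ℂ) (F G : Fin m → Fin 4 → Fin 3 → ℂ) (U lam : Fin p → ℂ)
    (f f' : Fin m → Bool), IsGeom s t a X Y ∧
    (∀ j k, IsFlat (X j k) (F j k) ∧ IsFlat (Y j k) (G j k)) ∧ Glue 0 s t a F G U lam ∧
    (∀ i, 2 ∣ (∑ j, ((if s j = i ∧ f j = true then (1 : ℤ) else 0) +
      (if t j = i ∧ f' j = true then 1 else 0))) - a i) ∧
    Z = ∑ j, blockR (X j) (Y j) (F j) (G j) (f j) (f' j)

end Pool.Agent.H63.VC7.Hyp
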