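import Pool.Agent.H63.VC7.Geo
import Pool.Agent.H63.VC7.Hyp

/-! # Flattenings of a block: definitions -/

namespace Pool.Agent.H63.VC7

open Pool.Agent.H63.VC hiding ext
open Pool.Agent.H63.VC3 Pool.Agent.H63.VC4 Pool.Agent.H63.VC5 Pool.Agent.H63.VC6 Complex

/-- The integers of the flattening of `P`. -/
def nX (ms mt al be : ℤ) : Fin 4 → Fin 3 → ℤ :=
  ![![al - ms + mt, -al + ms - mt - 1, 0], ![be + ms, -be - 1, -ms],
    ![-be - mt - 1, be + ms, mt - ms], ![-al - 1, al + ms, -ms]]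

/-- The integers of the flattening of `P'`. -/
def nY (ms mt al be : ℤ) : Fin 4 → Fin 3 → ℤ :=
  ![![-al - mt - 1, 0, al + mt], ![-be - ms + mt - 1, -mt, be + ms],
    ![be, 0, -1 - be], ![al + ms, -ms, -1 - al]]

/-- The flattened logarithmic parameters of `P`. -/
noncomputable def FX (y v w : ℂ) (ms mt al be : ℤ) (k : Fin 4) (c : Fin 3) : ℂ :=
  Hyp.lgs (shx y v w k) c + nX ms mt al be k c * (Real.pi * I)

/-- The flattened logarithmic parameters of `P'`. -/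
noncomputable def FY (y v w : ℂ) (ms mt al be : ℤ) (k : Fin 4) (c : Fin 3) : ℂ :=
  Hyp.lgs (shy y v w k) c + nY ms mt al be k c * (Real.pi * I)

/-- `R(z; 0, 0)`. -/
noncomputable def rh0 (z : ℂ) : ℂ :=
  dilog z + Complex.log z * Complex.log (1 - z) / 2 - (Real.pi : ℂ) ^ 2 / 6

theorem lgs_0 (z : ℂ) : Hyp.lgs z 0 = l0 z := rfl

theorem lgs_1 (z : ℂ) : Hyp.lgs z 1 = l1 z := rfl

theorem lgs_2 (z : ℂ) : Hyp.lgs z 2 = l2 z := rfl

/-- `0` or `1`. -/
def bt1 (f : Bool) : ℤ := if f = true then 1 else 0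

end Pool.Agent.H63.VC7
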