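import Pool.Agent.H63.VC7.Geo

/-! # Logarithms of the shape parameters -/

namespace Pool.Agent.H63.VC7

open Pool.Agent.H63.VC hiding ext
open Pool.Agent.H63.VC3 Pool.Agent.H63.VC4 Pool.Agent.H63.VC6 Complex

lemma LogP_sinh {x : ℝ} (hx : |x| ≤ 1 / 10) : |Real.sinh x| ≤ 1 / 5 := by
  have h1 := Real.abs_exp_sub_one_le (x := x) (by linarith)
  have h2 := Real.abs_exp_sub_one_le (x := -x) (by rw [abs_neg]; linarith)
  rw [abs_neg] at h2
  rw [Real.sinh_eq, abs_le]
  rw [abs_le] at h1 h2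
  constructor <;> linarith [h1.1, h1.2, h2.1, h2.2]

lemma LogP_sin {a : ℝ} (ha : |a - 1 / 2| ≤ 1 / 3) : 1 / 2 ≤ Real.sin (Real.pi * a) := by
  have h1 : Real.sin (Real.pi * a) = Real.cos |Real.pi * (a - 1 / 2)| := by
    rw [Real.cos_abs, ← Real.cos_sub_pi_div_two]
    congr 1
    ring
  have h2 : |Real.pi * (a - 1 / 2)| ≤ Real.pi / 3 := by
    rw [abs_mul, abs_of_pos Real.pi_pos]
    have := Real.pi_pos
    nlinarith
  have h3 := Real.cos_le_cos_of_nonneg_of_le_pi (abs_nonneg _) (by linarith [Real.pi_pos]) h2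
  rw [Real.cos_pi_div_three] at h3
  rw [h1]
  exact h3

/-- The logarithm `hh` in the good region. -/
lemma LogP_hh {z : ℂ} (h : |z.re - 1 / 2| ≤ 1 / 3) (h' : |z.im| ≤ 1 / 50) :
    |(hh z).im| < 1 / 2 ∧ exp (hh z) = 2 * sin (Real.pi * z) ∧ sin (Real.pi * z) ≠ 0 := by
  have hw : (Real.pi * z : ℂ) = ((Real.pi * z.re : ℝ) : ℂ) + ((Real.pi * z.im : ℝ) : ℂ) * I := by
    apply Complex.ext <;> simp
  have hre : (2 * sin (Real.pi * z)).re =
      2 * (Real.sin (Real.pi * z.re) * Real.cosh (Real.pi * z.im)) := by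
    rw [hw, Complex.sin_add_mul_I]
    rw [← Complex.ofReal_sin, ← Complex.ofReal_cos, ← Complex.ofReal_cosh, ← Complex.ofReal_sinh]
    simp only [mul_re, add_re, ofReal_re, ofReal_im, I_re, I_im, mul_im, re_ofNat, im_ofNat]
    ring
  have him : (2 * sin (Real.pi * z)).im =
      2 * (Real.cos (Real.pi * z.re) * Real.sinh (Real.pi * z.im)) := by
    rw [hw, Complex.sin_add_mul_I]
    rw [← Complex.ofReal_sin, ← Complex.ofReal_cos, ← Complex.ofReal_cosh, ← Complex.ofReal_sinh]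
    simp only [mul_re, add_im, add_re, ofReal_re, ofReal_im, I_re, I_im, mul_im, re_ofNat, im_ofNat]
    ring
  have hs := LogP_sin h
  have hc := Real.one_le_cosh (Real.pi * z.im)
  have hre1 : 1 ≤ (2 * sin (Real.pi * z)).re := by
    rw [hre]; nlinarith
  have hb : |Real.pi * z.im| ≤ 1 / 10 := by
    rw [abs_mul, abs_of_pos Real.pi_pos]
    have := Real.pi_lt_four
    nlinarith [abs_nonneg z.im, Real.pi_pos]
  have hsh := LogP_sinh hb
  have him1 : |(2 * sin (Real.pi * z)).im| ≤ 2 / 5 := by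
    rw [him, abs_mul, abs_mul, abs_of_pos (by norm_num : (0 : ℝ) < 2)]
    have h1 := Real.abs_cos_le_one (Real.pi * z.re)
    nlinarith [abs_nonneg (Real.cos (Real.pi * z.re)), abs_nonneg (Real.sinh (Real.pi * z.im))]
  have hne : sin (Real.pi * z) ≠ 0 := by
    intro h0
    rw [h0] at hre1
    norm_num at hre1
  have hne2 : 2 * sin (Real.pi * z) ≠ 0 := mul_ne_zero two_ne_zero hne
  refine ⟨?_, Complex.exp_log hne2, hne⟩
  have hn : 1 ≤ ‖2 * sin (Real.pi * z)‖ :=
    hre1.trans ((le_abs_self _).trans (Complex.abs_re_le_norm _))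
  have hq : |(2 * sin (Real.pi * z)).im / ‖2 * sin (Real.pi * z)‖| ≤ 2 / 5 := by
    rw [abs_div, abs_of_pos (lt_of_lt_of_le one_pos hn), div_le_iff₀ (lt_of_lt_of_le one_pos hn)]
    nlinarith
  have hsin : 2 / 5 < Real.sin (1 / 2) := by
    have := Real.sin_gt_sub_cube (x := 1 / 2) (by norm_num)
    norm_num at this ⊢
    linarith
  have e : (hh z).im = Real.arcsin ((2 * sin (Real.pi * z)).im / ‖2 * sin (Real.pi * z)‖) := by
    unfold hh
    rw [Complex.log_im, Complex.arg_of_re_nonneg (by linarith)]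
  rw [e, abs_lt]
  rw [abs_le] at hq
  constructor
  · rw [Real.lt_arcsin_iff_sin_lt' ⟨by linarith [Real.pi_gt_three], by linarith [Real.pi_gt_three]⟩,
      Real.sin_neg]
    linarith
  · rw [Real.arcsin_lt_iff_lt_sin' ⟨by linarith [Real.pi_gt_three], by linarith [Real.pi_gt_three]⟩]
    linarith

lemma LogP_log {R z : ℂ} (h : exp R = z) (h1 : -Real.pi < R.im) (h2 : R.im ≤ Real.pi) :
    Complex.log z = R := by
  rw [← h]; exact Complex.log_exp h1 h2

/-- Bounds and values used below. -/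
lemma LogP_data (y v : ℂ) (hy : ‖y - 1 / 4‖ ≤ 6 / 1000) (hv : |v.re| ≤ 53 / 1000)
    (hv' : |v.im| ≤ 3 / 1000) :
    (|(hh (y + 1 / 2)).im| < 1 / 2 ∧ exp (hh (y + 1 / 2)) = 2 * cos (Real.pi * y) ∧
      cos (Real.pi * y) ≠ 0) ∧
    (|(hh (v + 1 / 2)).im| < 1 / 2 ∧ exp (hh (v + 1 / 2)) = 2 * cos (Real.pi * v) ∧
      cos (Real.pi * v) ≠ 0) ∧
    (|(hh (y + v)).im| < 1 / 2 ∧ exp (hh (y + v)) = 2 * sin (Real.pi * (y + v)) ∧
      sin (Real.pi * (y + v)) ≠ 0) ∧ |y.re - 1 / 4| ≤ 6 / 1000 := by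
  have hr : |y.re - 1 / 4| ≤ 6 / 1000 := by
    have h4 : |(y - 1 / 4).re| ≤ ‖y - 1 / 4‖ := Complex.abs_re_le_norm _
    have h5 : (y - 1 / 4).re = y.re - 1 / 4 := by
      rw [Complex.sub_re]; norm_num
    rw [h5] at h4
    linarith
  have hi : |y.im| ≤ 6 / 1000 := by
    have h4 : |(y - 1 / 4).im| ≤ ‖y - 1 / 4‖ := Complex.abs_im_le_norm _
    have h5 : (y - 1 / 4).im = y.im := by
      rw [Complex.sub_im]; norm_num
    rw [h5] at h4
    linarith
  have hcos : ∀ z : ℂ, sin (Real.pi * (z + 1 / 2)) = cos (Real.pi * z) := by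
    intro z
    rw [← Complex.sin_add_pi_div_two]
    congr 1
    ring
  have hr' := abs_le.1 hr
  have hi' := abs_le.1 hi
  have hvr := abs_le.1 hv
  have hvi := abs_le.1 hv'
  have e1 : (1 / 2 : ℂ).re = 1 / 2 := by norm_num
  have e2 : (1 / 2 : ℂ).im = 0 := by norm_num
  refine ⟨?_, ?_, ?_, hr⟩
  · rw [← hcos y]
    apply LogP_hh
    · rw [Complex.add_re, e1, abs_le]; constructor <;> linarith
    · rw [Complex.add_im, e2, abs_le]; constructor <;> linarith
  · rw [← hcos v]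
    apply LogP_hh
    · rw [Complex.add_re, e1, abs_le]; constructor <;> linarith
    · rw [Complex.add_im, e2, abs_le]; constructor <;> linarith
  · apply LogP_hh
    · rw [Complex.add_re, abs_le]; constructor <;> linarith
    · rw [Complex.add_im, abs_le]; constructor <;> linarith

lemma LogP_im_pos {R z : ℂ} (h : exp R = z) (h1 : 0 < R.im) (h2 : R.im < Real.pi) :
    0 < z.im := by
  rw [← h, Complex.exp_im]
  exact mul_pos (Real.exp_pos _) (Real.sin_pos_of_pos_of_lt_pi h1 h2)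

lemma LogP_expI : exp (Real.pi * I / 2) = I := by
  rw [show (Real.pi * I / 2 : ℂ) = Real.pi / 2 * I by ring, Complex.exp_pi_div_two_mul_I]

/-- The two basic identities. -/
lemma LogP_id1 (y v : ℂ) : sin (Real.pi * (y + v)) - I * exp (-(Real.pi * I * v)) *
    cos (Real.pi * y) = -I * exp (Real.pi * I * y) * cos (Real.pi * v) := by
  rw [mul_add, Complex.sin_add]
  have h1 : exp (-(Real.pi * I * v)) = cos (Real.pi * v) - sin (Real.pi * v) * I := by
    rw [show -(Real.pi * I * v : ℂ) = -(Real.pi * v) * I by ring, Complex.exp_mul_I,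
      Complex.cos_neg, Complex.sin_neg]
    ring
  have h2 : exp (Real.pi * I * y) = cos (Real.pi * y) + sin (Real.pi * y) * I := by
    rw [show (Real.pi * I * y : ℂ) = (Real.pi * y) * I by ring, Complex.exp_mul_I]
  rw [h1, h2]
  ring_nf
  rw [I_sq]
  ring

lemma LogP_id2 (y v : ℂ) : cos (Real.pi * y) - I * exp (-(Real.pi * I * v)) *
    sin (Real.pi * (y + v)) = exp (-(Real.pi * I * (y + v))) * cos (Real.pi * v) := by
  have h1 : exp (-(Real.pi * I * v)) = cos (Real.pi * v) - sin (Real.pi * v) * I := by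
    rw [show -(Real.pi * I * v : ℂ) = -(Real.pi * v) * I by ring, Complex.exp_mul_I,
      Complex.cos_neg, Complex.sin_neg]
    ring
  have h2 : exp (-(Real.pi * I * (y + v))) =
      cos (Real.pi * (y + v)) - sin (Real.pi * (y + v)) * I := by
    rw [show -(Real.pi * I * (y + v) : ℂ) = -(Real.pi * (y + v)) * I by ring, Complex.exp_mul_I,
      Complex.cos_neg, Complex.sin_neg]
    ring
  have h3 : cos (Real.pi * y) = cos (Real.pi * (y + v)) * cos (Real.pi * v) +
      sin (Real.pi * (y + v)) * sin (Real.pi * v) := by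
    rw [← Complex.cos_sub]
    congr 1
    ring
  rw [h1, h2, h3]
  ring_nf
  rw [I_sq]
  ring

theorem sX_log (y v : ℂ) (hy : ‖y - 1 / 4‖ ≤ 6 / 1000) (hv : |v.re| ≤ 53 / 1000)
    (hv' : |v.im| ≤ 3 / 1000) :
    l0 (sX y v) = Real.pi * I / 2 - Real.pi * I * v + hh (y + 1 / 2) - hh (y + v) ∧
    l1 (sX y v) = Real.pi * I / 2 - Real.pi * I * y + hh (y + v) - hh (v + 1 / 2) ∧
    l2 (sX y v) = Real.pi * I * (y + v) + hh (v + 1 / 2) - hh (y + 1 / 2) ∧
    0 < (sX y v).im := by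
  obtain ⟨⟨a1, a2, a3⟩, ⟨b1, b2, b3⟩, ⟨c1, c2, c3⟩, hr⟩ := LogP_data y v hy hv hv'
  have hr' := abs_le.1 hr
  have hvr := abs_le.1 hv
  have hvi := abs_le.1 hv'
  have a1' := abs_lt.1 a1
  have b1' := abs_lt.1 b1
  have c1' := abs_lt.1 c1
  have p1 := Real.pi_gt_three
  have p2 := Real.pi_lt_d2
  have hI := I_ne_zero
  have E0 : exp (Real.pi * I / 2 - Real.pi * I * v + hh (y + 1 / 2) - hh (y + v)) = sX y v := by
    rw [exp_sub, exp_add, exp_sub, LogP_expI, a2, c2, sX, exp_neg]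
    field_simp
  have hX : sX y v ≠ 0 := by rw [← E0]; exact exp_ne_zero _
  have h1X : 1 - sX y v = -I * exp (Real.pi * I * y) * cos (Real.pi * v) /
      sin (Real.pi * (y + v)) := by
    rw [← LogP_id1, sX]
    field_simp
  have E1 : exp (Real.pi * I / 2 - Real.pi * I * y + hh (y + v) - hh (v + 1 / 2)) =
      1 / (1 - sX y v) := by
    rw [h1X, exp_sub, exp_add, exp_sub, LogP_expI, b2, c2]
    have := exp_ne_zero (Real.pi * I * y)
    field_simp
    rw [I_sq]
  have E2 : exp (Real.pi * I * (y + v) + hh (v + 1 / 2) - hh (y + 1 / 2)) = 1 - 1 / sX y v := by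
    have h3 : 1 - 1 / sX y v = -(1 - sX y v) / sX y v := by field_simp; ring
    rw [h3, h1X, exp_sub, exp_add, b2, a2, sX, exp_neg]
    rw [mul_add, exp_add]
    have := exp_ne_zero (Real.pi * I * y)
    have := exp_ne_zero (Real.pi * I * v)
    field_simp
  have i0 : (Real.pi * I / 2 - Real.pi * I * v + hh (y + 1 / 2) - hh (y + v)).im =
      Real.pi / 2 - Real.pi * v.re + (hh (y + 1 / 2)).im - (hh (y + v)).im := by
    simp
  have i1 : (Real.pi * I / 2 - Real.pi * I * y + hh (y + v) - hh (v + 1 / 2)).im =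
      Real.pi / 2 - Real.pi * y.re + (hh (y + v)).im - (hh (v + 1 / 2)).im := by
    simp
  have i2 : (Real.pi * I * (y + v) + hh (v + 1 / 2) - hh (y + 1 / 2)).im =
      Real.pi * (y.re + v.re) + (hh (v + 1 / 2)).im - (hh (y + 1 / 2)).im := by
    simp
  refine ⟨LogP_log E0 ?_ ?_, LogP_log E1 ?_ ?_, LogP_log E2 ?_ ?_, LogP_im_pos E0 ?_ ?_⟩
  all_goals first | rw [i0] | rw [i1] | rw [i2]
  all_goals nlinarith

theorem sY_log (y v : ℂ) (hy : ‖y - 1 / 4‖ ≤ 6 / 1000) (hv : |v.re| ≤ 53 / 1000)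
    (hv' : |v.im| ≤ 3 / 1000) :
    l0 (sY y v) = Real.pi * I / 2 - Real.pi * I * v + hh (y + v) - hh (y + 1 / 2) ∧
    l1 (sY y v) = Real.pi * I * (y + v) + hh (y + 1 / 2) - hh (v + 1 / 2) ∧
    l2 (sY y v) = Real.pi * I / 2 - Real.pi * I * y + hh (v + 1 / 2) - hh (y + v) ∧
    0 < (sY y v).im := by
  obtain ⟨⟨a1, a2, a3⟩, ⟨b1, b2, b3⟩, ⟨c1, c2, c3⟩, hr⟩ := LogP_data y v hy hv hv'
  have hr' := abs_le.1 hr
  have hvr := abs_le.1 hv
  have hvi := abs_le.1 hv'
  have a1' := abs_lt.1 a1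
  have b1' := abs_lt.1 b1
  have c1' := abs_lt.1 c1
  have p1 := Real.pi_gt_three
  have p2 := Real.pi_lt_d2
  have hI := I_ne_zero
  have E0 : exp (Real.pi * I / 2 - Real.pi * I * v + hh (y + v) - hh (y + 1 / 2)) = sY y v := by
    rw [exp_sub, exp_add, exp_sub, LogP_expI, a2, c2, sY, exp_neg]
    field_simp
  have hX : sY y v ≠ 0 := by rw [← E0]; exact exp_ne_zero _
  have h1X : 1 - sY y v = exp (-(Real.pi * I * (y + v))) * cos (Real.pi * v) /
      cos (Real.pi * y) := by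
    rw [← LogP_id2, sY]
    field_simp
  have E1 : exp (Real.pi * I * (y + v) + hh (y + 1 / 2) - hh (v + 1 / 2)) =
      1 / (1 - sY y v) := by
    rw [h1X, exp_sub, exp_add, a2, b2, exp_neg]
    have := exp_ne_zero (Real.pi * I * (y + v))
    field_simp
  have E2 : exp (Real.pi * I / 2 - Real.pi * I * y + hh (v + 1 / 2) - hh (y + v)) =
      1 - 1 / sY y v := by
    have h3 : 1 - 1 / sY y v = -(1 - sY y v) / sY y v := by field_simp; ring
    rw [h3, h1X, exp_sub, exp_add, exp_sub, LogP_expI, b2, c2, sY, exp_neg, exp_neg]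
    rw [mul_add (Real.pi * I), exp_add]
    have := exp_ne_zero (Real.pi * I * y)
    have := exp_ne_zero (Real.pi * I * v)
    field_simp
    rw [I_sq]
  have i0 : (Real.pi * I / 2 - Real.pi * I * v + hh (y + v) - hh (y + 1 / 2)).im =
      Real.pi / 2 - Real.pi * v.re + (hh (y + v)).im - (hh (y + 1 / 2)).im := by
    simp
  have i1 : (Real.pi * I * (y + v) + hh (y + 1 / 2) - hh (v + 1 / 2)).im =
      Real.pi * (y.re + v.re) + (hh (y + 1 / 2)).im - (hh (v + 1 / 2)).im := by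
    simp
  have i2 : (Real.pi * I / 2 - Real.pi * I * y + hh (v + 1 / 2) - hh (y + v)).im =
      Real.pi / 2 - Real.pi * y.re + (hh (v + 1 / 2)).im - (hh (y + v)).im := by
    simp
  refine ⟨LogP_log E0 ?_ ?_, LogP_log E1 ?_ ?_, LogP_log E2 ?_ ?_, LogP_im_pos E0 ?_ ?_⟩
  all_goals first | rw [i0] | rw [i1] | rw [i2]
  all_goals nlinarith

end Pool.Agent.H63.VC7
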