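import Pool.Agent.H63.VC6.Defs

/-! # Shape parameters of a block: definitions -/

namespace Pool.Agent.H63.VC7

open Pool.Agent.H63.VC hiding ext
open Pool.Agent.H63.VC3 Pool.Agent.H63.VC4 Pool.Agent.H63.VC6 Complex

/-- The logarithm of the shape parameter. -/
noncomputable def l0 (z : ℂ) : ℂ := Complex.log z

/-- The logarithm of the second shape parameter. -/
noncomputable def l1 (z : ℂ) : ℂ := Complex.log (1 / (1 - z))

/-- The logarithm of the third shape parameter. -/
noncomputable def l2 (z : ℂ) : ℂ := Complex.log (1 - 1 / z)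

/-- Critical values at an edge with ends `v`, `w`. -/
structure Loc7 (y v w : ℂ) : Prop where
  hy : ‖y - 1 / 4‖ ≤ 6 / 1000
  hv : |v.re| ≤ 53 / 1000 ∧ 0 < v.im ∧ v.im ≤ 3 / 1000
  hw : |w.re| ≤ 53 / 1000 ∧ 0 < w.im ∧ w.im ≤ 3 / 1000
  ey : 4 * hh (y + 1 / 2) = hh (y - v) + hh (y + v) + hh (y - w) + hh (y + w)

/-- The shape parameter of a tetrahedron of `P`. -/
noncomputable def sX (y v : ℂ) : ℂ :=
  I * exp (-(Real.pi * I * v)) * cos (Real.pi * y) / sin (Real.pi * (y + v))

/-- The shape parameter of a tetrahedron of `P'`. -/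
noncomputable def sY (y v : ℂ) : ℂ :=
  I * exp (-(Real.pi * I * v)) * sin (Real.pi * (y + v)) / cos (Real.pi * y)

/-- The shape parameters of `P`. -/
noncomputable def shx (y v w : ℂ) : Fin 4 → ℂ := ![sX y v, sX y (-w), sX y w, sX y (-v)]

/-- The shape parameters of `P'`. -/
noncomputable def shy (y v w : ℂ) : Fin 4 → ℂ := ![sY y v, sY y (-w), sY y w, sY y (-v)]

end Pool.Agent.H63.VC7
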