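import Pool.Agent.H63.VC3.Rel
import Pool.Agent.H63.VC7.Geo

/-! # The equation of an edge -/

namespace Pool.Agent.H63.VC7

open Pool.Agent.H63.VC hiding ext
open Pool.Agent.H63.VC3 Pool.Agent.H63.VC4 Pool.Agent.H63.VC6 Complex

private lemma Vertex7_cos_im_ne {v : ℂ} (hv : 0 < v.im) : cos (Real.pi * v) ≠ 0 := by
  apply Rel_cos_ne
  have h1 : (Real.pi * v : ℂ).im = Real.pi * v.im := by simp
  rw [h1]
  have := Real.pi_pos
  positivity

private lemma Vertex7_prod (y v : ℂ) :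
    2 * sin (Real.pi * (y - v)) * (2 * sin (Real.pi * (y + v))) =
      4 * (cos (Real.pi * v) ^ 2 - cos (Real.pi * y) ^ 2) := by
  have h1 := Rel_one_add_cos v
  have h2 := Rel_one_add_cos y
  rw [Rel_prod]
  linear_combination 2 * h1 - 2 * h2

private lemma Vertex7_yre {y : ℂ} (h : ‖y - 1 / 4‖ ≤ 6 / 1000) :
    |y.re - 1 / 4| ≤ 6 / 1000 ∧ |y.im| ≤ 6 / 1000 := by
  have h1 := (Complex.abs_re_le_norm (y - 1 / 4)).trans h
  have h2 := (Complex.abs_im_le_norm (y - 1 / 4)).trans h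
  have e1 : (y - 1 / 4 : ℂ).re = y.re - 1 / 4 := by
    rw [Complex.sub_re]; norm_num
  have e2 : (y - 1 / 4 : ℂ).im = y.im := by
    rw [Complex.sub_im]; norm_num
  rw [e1] at h1
  rw [e2] at h2
  exact ⟨h1, h2⟩

private lemma Vertex7_half_exp (v : ℂ) (hv : |v.re| ≤ 3 / 8) : exp (hh (v + 1 / 2)) =
    2 * cos (Real.pi * v) := by
  have h5 : (v + 1 / 2 : ℂ).re = v.re + 1 / 2 := by
    rw [Complex.add_re]; norm_num
  have h6 := abs_le.1 hv
  rw [hh_exp _ (by rw [h5]; linarith [h6.1]) (by rw [h5]; linarith [h6.2]), Rel_cos_half]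

private lemma Vertex7_eq {y v w : ℂ} (h : Loc7 y v w) :
    cos (Real.pi * v) ^ 2 * cos (Real.pi * w) ^ 2 =
      cos (Real.pi * y) ^ 2 * (cos (Real.pi * v) ^ 2 + cos (Real.pi * w) ^ 2) := by
  obtain ⟨hy1, -⟩ := Vertex7_yre h.hy
  have hy := abs_le.1 hy1
  have hv := abs_le.1 h.hv.1
  have hw := abs_le.1 h.hw.1
  have he := congrArg Complex.exp h.ey
  have s1 : (y - v).re = y.re - v.re := Complex.sub_re _ _
  have s2 : (y + v).re = y.re + v.re := Complex.add_re _ _
  have s3 : (y - w).re = y.re - w.re := Complex.sub_re _ _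
  have s4 : (y + w).re = y.re + w.re := Complex.add_re _ _
  rw [Complex.exp_add, Complex.exp_add, Complex.exp_add,
    hh_exp (y - v) (by rw [s1]; linarith [hy.1, hy.2, hv.1, hv.2])
      (by rw [s1]; linarith [hy.1, hy.2, hv.1, hv.2]),
    hh_exp (y + v) (by rw [s2]; linarith [hy.1, hy.2, hv.1, hv.2])
      (by rw [s2]; linarith [hy.1, hy.2, hv.1, hv.2]),
    hh_exp (y - w) (by rw [s3]; linarith [hy.1, hy.2, hw.1, hw.2])
      (by rw [s3]; linarith [hy.1, hy.2, hw.1, hw.2]),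
    hh_exp (y + w) (by rw [s4]; linarith [hy.1, hy.2, hw.1, hw.2])
      (by rw [s4]; linarith [hy.1, hy.2, hw.1, hw.2])] at he
  have h4 : Complex.exp (4 * hh (y + 1 / 2)) = (2 * cos (Real.pi * y)) ^ 4 := by
    have : (4 : ℂ) * hh (y + 1 / 2) = (4 : ℕ) * hh (y + 1 / 2) := by norm_num
    rw [this, Complex.exp_nat_mul, Vertex7_half_exp y (by
      rw [abs_le]; constructor <;> linarith [hy.1, hy.2])]
  rw [h4, Vertex7_prod y v] at he
  have h5 : 4 * (cos (Real.pi * v) ^ 2 - cos (Real.pi * y) ^ 2) *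
      (2 * sin (Real.pi * (y - w))) * (2 * sin (Real.pi * (y + w))) =
      4 * (cos (Real.pi * v) ^ 2 - cos (Real.pi * y) ^ 2) *
      (4 * (cos (Real.pi * w) ^ 2 - cos (Real.pi * y) ^ 2)) := by
    rw [← Vertex7_prod y w]; ring
  rw [h5] at he
  linear_combination (-1 / 16) * he

theorem vertex7 {y v w : ℂ} (h : Loc7 y v w) :
    1 / cos (Real.pi * y) ^ 2 = 1 / cos (Real.pi * v) ^ 2 + 1 / cos (Real.pi * w) ^ 2 := by
  have h1 := Vertex7_eq h
  have hv := Vertex7_cos_im_ne h.hv.2.1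
  have hw := Vertex7_cos_im_ne h.hw.2.1
  have hy : cos (Real.pi * y) ≠ 0 := by
    intro h0
    rw [h0] at h1
    have : cos (Real.pi * v) ^ 2 * cos (Real.pi * w) ^ 2 = 0 := by
      rw [h1]; ring
    rcases mul_eq_zero.1 this with h2 | h2
    · exact hv (pow_eq_zero_iff two_ne_zero |>.1 h2)
    · exact hw (pow_eq_zero_iff two_ne_zero |>.1 h2)
  field_simp
  linear_combination h1

theorem hh_half_neg (v : ℂ) : hh (-v + 1 / 2) = hh (v + 1 / 2) := by
  unfold hh
  congr 1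
  rw [Rel_cos_half, Rel_cos_half, mul_neg, Complex.cos_neg]

theorem hh_half_exp (v : ℂ) (hv : |v.re| ≤ 1 / 4) : exp (hh (v + 1 / 2)) =
    2 * cos (Real.pi * v) ∧ cos (Real.pi * v) ≠ 0 := by
  have h1 := Vertex7_half_exp v (hv.trans (by norm_num))
  refine ⟨h1, ?_⟩
  intro h0
  rw [h0, mul_zero] at h1
  exact Complex.exp_ne_zero _ h1

/-- a bound for the argument -/
private lemma Vertex7_arg {w : ℂ} (h1 : 0 < w.re) (h2 : |w.im| ≤ w.re / 5) :
    |w.arg| ≤ Real.pi / 10 := by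
  have hp := Real.pi_pos
  have hn : w.re ≤ ‖w‖ := Complex.re_le_norm w
  have hn0 : 0 < ‖w‖ := h1.trans_le hn
  have h3 : |w.im / ‖w‖| ≤ 1 / 5 := by
    rw [abs_div, abs_of_pos hn0, div_le_iff₀ hn0]
    linarith
  have h5 : (1 / 5 : ℝ) ≤ Real.sin (Real.pi / 10) := by
    have := Real.mul_le_sin (x := Real.pi / 10) (by positivity) (by linarith)
    have e : 2 / Real.pi * (Real.pi / 10) = 1 / 5 := by field_simp; norm_num
    linarith
  rw [Complex.arg_of_re_nonneg h1.le, abs_le]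
  have h6 := abs_le.1 h3
  constructor
  · have := Real.le_arcsin_iff_sin_le (x := -(Real.pi / 10)) (y := w.im / ‖w‖)
      ⟨by linarith, by linarith⟩ ⟨by linarith [h6.1], by linarith [h6.2]⟩
    rw [this, Real.sin_neg]
    linarith [h6.1]
  · have := Real.arcsin_le_iff_le_sin (x := w.im / ‖w‖) (y := Real.pi / 10)
      ⟨by linarith [h6.1], by linarith [h6.2]⟩ ⟨by linarith, by linarith⟩
    rw [this]
    linarith [h6.2]

private lemma Vertex7_cos_parts (v : ℂ) :
    (cos (Real.pi * v)).re = Real.cos (Real.pi * v.re) * Real.cosh (Real.pi * v.im) ∧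
    (cos (Real.pi * v)).im = -(Real.sin (Real.pi * v.re) * Real.sinh (Real.pi * v.im)) := by
  rw [Complex.cos_eq]
  have e1 : (Real.pi * v : ℂ).re = Real.pi * v.re := by simp
  have e2 : (Real.pi * v : ℂ).im = Real.pi * v.im := by simp
  rw [e1, e2, ← Complex.ofReal_cos, ← Complex.ofReal_cosh, ← Complex.ofReal_sin,
    ← Complex.ofReal_sinh]
  constructor
  · simp only [Complex.sub_re, Complex.mul_re, Complex.ofReal_re, Complex.ofReal_im,
      Complex.I_re, Complex.I_im, Complex.mul_im, mul_zero, zero_mul, sub_zero, add_zero]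
  · simp only [Complex.sub_im, Complex.mul_re, Complex.ofReal_re, Complex.ofReal_im,
      Complex.I_re, Complex.I_im, Complex.mul_im, mul_zero, zero_mul, sub_zero, add_zero,
      mul_one, zero_add, zero_sub]

private lemma Vertex7_sinh {x : ℝ} (hx : |x| ≤ 1 / 50) : |Real.sinh x| ≤ 1 / 20 := by
  have h1 := abs_le.1 hx
  have e1 : Real.exp x ≤ 1 + 1 / 20 := by
    have := Real.abs_exp_sub_one_le (x := x) (hx.trans (by norm_num))
    have h2 := (abs_le.1 this).2
    linarith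
  have e2 : Real.exp (-x) ≤ 1 + 1 / 20 := by
    have h3 : |(-x)| ≤ 1 := by rw [abs_neg]; exact hx.trans (by norm_num)
    have := Real.abs_exp_sub_one_le (x := -x) h3
    rw [abs_neg] at this
    have h2 := (abs_le.1 this).2
    linarith
  have e3 : 1 - 1 / 20 ≤ Real.exp x := by
    have := Real.add_one_le_exp x
    linarith [h1.1]
  have e4 : 1 - 1 / 20 ≤ Real.exp (-x) := by
    have := Real.add_one_le_exp (-x)
    linarith [h1.2]
  rw [Real.sinh_eq, abs_le]
  constructor <;> linarith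

/-- the imaginary part of `hh (v + 1 / 2)` is small -/
private lemma Vertex7_im {v : ℂ} (h1 : |v.re| ≤ 256 / 1000) (h2 : |v.im| ≤ 6 / 1000) :
    |(hh (v + 1 / 2)).im| ≤ Real.pi / 10 := by
  have hp := Real.pi_pos
  have hp4 : Real.pi < 3.15 := Real.pi_lt_d2
  unfold hh
  rw [Rel_cos_half, Complex.log_im]
  obtain ⟨r1, r2⟩ := Vertex7_cos_parts v
  have e1 : (2 * cos (Real.pi * v)).re = 2 * (cos (Real.pi * v)).re := by simp
  have e2 : (2 * cos (Real.pi * v)).im = 2 * (cos (Real.pi * v)).im := by simp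
  have c1 : (67 / 100 : ℝ) ≤ Real.cos (Real.pi * v.re) := by
    have h3 := Real.one_sub_sq_div_two_le_cos (x := Real.pi * v.re)
    have h4 : |Real.pi * v.re| ≤ 3.15 * (256 / 1000) := by
      rw [abs_mul, abs_of_pos hp]
      exact mul_le_mul hp4.le h1 (abs_nonneg _) (by norm_num)
    have h5 : (Real.pi * v.re) ^ 2 ≤ (3.15 * (256 / 1000)) ^ 2 := by
      rw [← sq_abs]
      exact pow_le_pow_left₀ (abs_nonneg _) h4 2
    norm_num at h5 ⊢
    linarith
  have c2 : 1 ≤ Real.cosh (Real.pi * v.im) := Real.one_le_cosh _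
  have c3 : (67 / 100 : ℝ) ≤ (cos (Real.pi * v)).re := by
    rw [r1]
    nlinarith
  have c4 : |(cos (Real.pi * v)).im| ≤ 1 / 20 := by
    rw [r2, abs_neg, abs_mul]
    have h4 : |Real.pi * v.im| ≤ 1 / 50 := by
      rw [abs_mul, abs_of_pos hp]
      calc Real.pi * |v.im| ≤ 3.15 * (6 / 1000) :=
            mul_le_mul hp4.le h2 (abs_nonneg _) (by norm_num)
        _ ≤ 1 / 50 := by norm_num
    have h5 := Vertex7_sinh h4
    have h6 := Real.abs_sin_le_one (Real.pi * v.re)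
    calc |Real.sin (Real.pi * v.re)| * |Real.sinh (Real.pi * v.im)| ≤ 1 * (1 / 20) :=
          mul_le_mul h6 h5 (abs_nonneg _) (by norm_num)
      _ = 1 / 20 := by norm_num
  apply Vertex7_arg
  · rw [e1]; linarith
  · rw [e1, e2, abs_mul, abs_of_pos (by norm_num : (0 : ℝ) < 2)]
    linarith

private lemma Vertex7_im' {z : ℂ} (h0 : 0 < z.re) (h1 : z.re < 1) :
    |(hh z).im| < Real.pi / 2 := by
  unfold hh
  rw [Complex.log_im]
  exact Complex.abs_arg_lt_pi_div_two_iff.2 (Or.inl (Clausen_sin_re z h0 h1))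

theorem vertex_w {y v w : ℂ} (h : Loc7 y v w) : hh (y - w) + hh (y + w) =
    2 * hh (y + 1 / 2) + 2 * hh (w + 1 / 2) - 2 * hh (v + 1 / 2) := by
  have hp := Real.pi_pos
  obtain ⟨hy1, hy2⟩ := Vertex7_yre h.hy
  have hy := abs_le.1 hy1
  have hv := abs_le.1 h.hv.1
  have hw := abs_le.1 h.hw.1
  have s3 : (y - w).re = y.re - w.re := Complex.sub_re _ _
  have s4 : (y + w).re = y.re + w.re := Complex.add_re _ _
  have a1 : 0 < (y - w).re := by rw [s3]; linarith [hy.1, hy.2, hw.1, hw.2]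
  have a2 : (y - w).re < 1 := by rw [s3]; linarith [hy.1, hy.2, hw.1, hw.2]
  have a3 : 0 < (y + w).re := by rw [s4]; linarith [hy.1, hy.2, hw.1, hw.2]
  have a4 : (y + w).re < 1 := by rw [s4]; linarith [hy.1, hy.2, hw.1, hw.2]
  have cv := Vertex7_cos_im_ne h.hv.2.1
  have hexp : exp (hh (y - w) + hh (y + w)) =
      exp (2 * hh (y + 1 / 2) + 2 * hh (w + 1 / 2) - 2 * hh (v + 1 / 2)) := by
    have d : ∀ x : ℂ, exp (2 * hh (x + 1 / 2)) = exp (hh (x + 1 / 2)) ^ 2 := by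
      intro x
      rw [two_mul, Complex.exp_add, sq]
    rw [Complex.exp_add, hh_exp _ a1 a2, hh_exp _ a3 a4, Vertex7_prod, Complex.exp_sub,
      Complex.exp_add, d, d, d,
      Vertex7_half_exp y (by rw [abs_le]; constructor <;> linarith [hy.1, hy.2]),
      Vertex7_half_exp w (by rw [abs_le]; constructor <;> linarith [hw.1, hw.2]),
      Vertex7_half_exp v (by rw [abs_le]; constructor <;> linarith [hv.1, hv.2])]
    have h1 := Vertex7_eq h
    rw [eq_div_iff (pow_ne_zero 2 (mul_ne_zero two_ne_zero cv))]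
    linear_combination 16 * h1
  obtain ⟨n, hn⟩ := Complex.exp_eq_exp_iff_exists_int.1 hexp
  have b1 := abs_lt.1 (Vertex7_im' a1 a2)
  have b2 := abs_lt.1 (Vertex7_im' a3 a4)
  have b3 := abs_le.1 (Vertex7_im (v := y) (by
    rw [abs_le]; constructor <;> linarith [hy.1, hy.2]) hy2)
  have b4 := abs_le.1 (Vertex7_im (v := w) (by
    rw [abs_le]; constructor <;> linarith [hw.1, hw.2]) (by
    rw [abs_le]; constructor <;> linarith [h.hw.2.1, h.hw.2.2]))
  have b5 := abs_le.1 (Vertex7_im (v := v) (by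
    rw [abs_le]; constructor <;> linarith [hv.1, hv.2]) (by
    rw [abs_le]; constructor <;> linarith [h.hv.2.1, h.hv.2.2]))
  have him := congrArg Complex.im hn
  have e1 : (2 * hh (y + 1 / 2) + 2 * hh (w + 1 / 2) - 2 * hh (v + 1 / 2) +
      (n : ℂ) * (2 * Real.pi * I)).im = 2 * (hh (y + 1 / 2)).im + 2 * (hh (w + 1 / 2)).im -
      2 * (hh (v + 1 / 2)).im + (n : ℝ) * (2 * Real.pi) := by
    simp [Complex.add_im, Complex.sub_im, Complex.mul_im]
  rw [e1, Complex.add_im] at him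
  have hn0 : n = 0 := by
    by_contra hne
    have : (1 : ℝ) ≤ |(n : ℝ)| := by
      have h1 : 1 ≤ |n| := Int.one_le_abs hne
      exact_mod_cast h1
    rcases le_abs'.1 this with h2 | h2
    · nlinarith [b1.1, b1.2, b2.1, b2.2, b3.1, b3.2, b4.1, b4.2, b5.1, b5.2]
    · nlinarith [b1.1, b1.2, b2.1, b2.2, b3.1, b3.2, b4.1, b4.2, b5.1, b5.2]
  rw [hn, hn0]
  simp

theorem vertex_v {y v w : ℂ} (h : Loc7 y v w) : hh (y - v) + hh (y + v) =
    2 * hh (y + 1 / 2) + 2 * hh (v + 1 / 2) - 2 * hh (w + 1 / 2) := by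
  exact vertex_w (y := y) (v := w) (w := v) ⟨h.hy, h.hw, h.hv, by rw [h.ey]; ring⟩

end Pool.Agent.H63.VC7
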