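import Pool.Agent.H63.VC7.GeoC
import Pool.Agent.H63.VC7.LogP
import Pool.Agent.H63.VC7.Vertex7

/-! # The equations of a block -/

namespace Pool.Agent.H63.VC7

open Pool.Agent.H63.VC hiding ext
open Pool.Agent.H63.VC3 Pool.Agent.H63.VC4 Pool.Agent.H63.VC5 Pool.Agent.H63.VC6 Complex

/-- The logarithms of the shape parameters of the tetrahedra `0`, `3` of a block. -/
structure BlockC_logs (y v : ℂ) : Prop where
  x0 : l0 (sX y v) = Real.pi * I / 2 - Real.pi * I * v + hh (y + 1 / 2) - hh (y + v)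
  x1 : l1 (sX y v) = Real.pi * I / 2 - Real.pi * I * y + hh (y + v) - hh (v + 1 / 2)
  x2 : l2 (sX y v) = Real.pi * I * (y + v) + hh (v + 1 / 2) - hh (y + 1 / 2)
  xp : 0 < (sX y v).im
  y0 : l0 (sY y v) = Real.pi * I / 2 - Real.pi * I * v + hh (y + v) - hh (y + 1 / 2)
  y1 : l1 (sY y v) = Real.pi * I * (y + v) + hh (y + 1 / 2) - hh (v + 1 / 2)
  y2 : l2 (sY y v) = Real.pi * I / 2 - Real.pi * I * y + hh (v + 1 / 2) - hh (y + v)
  yp : 0 < (sY y v).im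
  x0' : l0 (sX y (-v)) = Real.pi * I / 2 + Real.pi * I * v + hh (y + 1 / 2) - hh (y - v)
  x1' : l1 (sX y (-v)) = Real.pi * I / 2 - Real.pi * I * y + hh (y - v) - hh (v + 1 / 2)
  x2' : l2 (sX y (-v)) = Real.pi * I * (y - v) + hh (v + 1 / 2) - hh (y + 1 / 2)
  xp' : 0 < (sX y (-v)).im
  y0' : l0 (sY y (-v)) = Real.pi * I / 2 + Real.pi * I * v + hh (y - v) - hh (y + 1 / 2)
  y1' : l1 (sY y (-v)) = Real.pi * I * (y - v) + hh (y + 1 / 2) - hh (v + 1 / 2)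
  y2' : l2 (sY y (-v)) = Real.pi * I / 2 - Real.pi * I * y + hh (v + 1 / 2) - hh (y - v)
  yp' : 0 < (sY y (-v)).im

theorem BlockC_mk {y v : ℂ} (hy : ‖y - 1 / 4‖ ≤ 6 / 1000)
    (hv : |v.re| ≤ 53 / 1000 ∧ 0 < v.im ∧ v.im ≤ 3 / 1000) : BlockC_logs y v := by
  obtain ⟨h1, h2, h3⟩ := hv
  have hi : |v.im| ≤ 3 / 1000 := by rw [abs_of_pos h2]; exact h3
  have h1' : |(-v).re| ≤ 53 / 1000 := by rw [neg_re, abs_neg]; exact h1
  have hi' : |(-v).im| ≤ 3 / 1000 := by rw [neg_im, abs_neg]; exact hi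
  obtain ⟨a0, a1, a2, ap⟩ := sX_log y v hy h1 hi
  obtain ⟨b0, b1, b2, bp⟩ := sY_log y v hy h1 hi
  obtain ⟨c0, c1, c2, cp⟩ := sX_log y (-v) hy h1' hi'
  obtain ⟨d0, d1, d2, dp⟩ := sY_log y (-v) hy h1' hi'
  rw [hh_half_neg] at c1 c2 d1 d2
  rw [← sub_eq_add_neg] at c0 c1 c2 d0 d1 d2
  exact {
    x0 := a0, x1 := a1, x2 := a2, xp := ap, y0 := b0, y1 := b1, y2 := b2, yp := bp
    x0' := by rw [c0]; ring
    x1' := c1, x2' := c2, xp' := cp
    y0' := by rw [d0]; ring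
    y1' := d1, y2' := d2, yp' := dp }

theorem block_pos {y v w : ℂ} (h : Loc7 y v w) (k : Fin 4) :
    0 < (shx y v w k).im ∧ 0 < (shy y v w k).im := by
  have hl := BlockC_mk h.hy h.hv
  have hm := BlockC_mk h.hy h.hw
  fin_cases k
  · exact ⟨hl.xp, hl.yp⟩
  · exact ⟨hm.xp', hm.yp'⟩
  · exact ⟨hm.xp, hm.yp⟩
  · exact ⟨hl.xp', hl.yp'⟩

theorem block_geom {y v w : ℂ} (h : Loc7 y v w) :
    Hyp.Block (Real.pi * I) (fun k => Hyp.lgs (shx y v w k)) (fun k => Hyp.lgs (shy y v w k))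
      (2 * Real.pi * I * v) (2 * Real.pi * I * w) (hh (v + 1 / 2) - hh (w + 1 / 2)) := by
  have hl := BlockC_mk h.hy h.hv
  have hm := BlockC_mk h.hy h.hw
  have he := h.ey
  have hw := vertex_w h
  constructor
  · change l0 (sX y v) + l0 (sX y (-w)) + l0 (sX y w) + l0 (sX y (-v)) = _
    rw [hl.x0, hm.x0', hm.x0, hl.x0']
    linear_combination he
  · change l0 (sY y v) + l0 (sY y (-w)) + l0 (sY y w) + l0 (sY y (-v)) = _
    rw [hl.y0, hm.y0', hm.y0, hl.y0']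
    linear_combination -he
  · constructor
    · change l2 (sX y v) + l1 (sX y (-v)) + l1 (sY y v) + l2 (sY y (-v)) = _
      rw [hl.x2, hl.x1', hl.y1, hl.y2']
      ring
    · change l0 (sX y (-v)) + l0 (sY y (-v)) = _
      rw [hl.x0', hl.y0']
      ring
    · change l0 (sX y v) + l0 (sY y v) = _
      rw [hl.x0, hl.y0]
      ring
    · change l1 (sX y v) + l2 (sX y (-v)) + l2 (sY y v) + l1 (sY y (-v)) = _
      rw [hl.x1, hl.x2', hl.y2, hl.y1']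
      ring
    · change l2 (sX y (-v)) + l1 (sX y w) + l1 (sY y (-v)) + l2 (sY y w) = _
      rw [hl.x2', hm.x1, hl.y1', hm.y2]
      ring
    · change l2 (sX y v) + l1 (sX y (-w)) + l1 (sY y v) + l2 (sY y (-w)) = _
      rw [hl.x2, hm.x1', hl.y1, hm.y2']
      ring
    · change l2 (sX y v) - l2 (sX y (-v)) = _
      rw [hl.x2, hl.x2']
      ring
    · change l1 (sY y v) - l1 (sY y (-v)) = _
      rw [hl.y1, hl.y1']
      ring
  · constructor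
    · change l2 (sX y w) + l1 (sX y (-w)) + l1 (sY y w) + l2 (sY y (-w)) = _
      rw [hm.x2, hm.x1', hm.y1, hm.y2']
      ring
    · change l0 (sX y (-w)) + l0 (sY y (-w)) = _
      rw [hm.x0', hm.y0']
      ring
    · change l0 (sX y w) + l0 (sY y w) = _
      rw [hm.x0, hm.y0]
      ring
    · change l1 (sX y w) + l2 (sX y (-w)) + l2 (sY y w) + l1 (sY y (-w)) = _
      rw [hm.x1, hm.x2', hm.y2, hm.y1']
      ring
    · change l2 (sX y (-w)) + l1 (sX y v) + l1 (sY y (-w)) + l2 (sY y v) = _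
      rw [hm.x2', hl.x1, hm.y1', hl.y2]
      ring
    · change l2 (sX y w) + l1 (sX y (-v)) + l1 (sY y w) + l2 (sY y (-v)) = _
      rw [hm.x2, hl.x1', hm.y1, hl.y2']
      ring
    · change l2 (sX y w) - l2 (sX y (-w)) = _
      rw [hm.x2, hm.x2']
      ring
    · change l1 (sY y w) - l1 (sY y (-w)) = _
      rw [hm.y1, hm.y1']
      ring
  · change l2 (sY y v) - l2 (sY y (-v)) = l1 (sX y (-v)) - l1 (sX y v)
    rw [hl.y2, hl.y2', hl.x1', hl.x1]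
    ring
  · change l2 (sY y w) - l2 (sY y (-w)) = l1 (sX y (-w)) - l1 (sX y w)
    rw [hm.y2, hm.y2', hm.x1', hm.x1]
    ring
  · change l0 (sX y w) - l2 (sX y (-v)) - l1 (sX y (-w)) = _
    rw [hm.x0, hl.x2', hm.x1']
    linear_combination -hw
  · change l2 (sX y v) - l2 (sX y (-w)) = _
    rw [hl.x2, hm.x2']
    ring
  · change l0 (sX y (-w)) - l2 (sX y v) - l1 (sX y w) = _
    rw [hm.x0', hl.x2, hm.x1]
    linear_combination -hw
  · change l2 (sX y (-v)) - l2 (sX y w) = _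
    rw [hl.x2', hm.x2]
    ring
  · change l1 (sY y (-v)) + l2 (sY y (-w)) - l0 (sY y w) = _
    rw [hl.y1', hm.y2', hm.y0]
    linear_combination -hw
  · change l1 (sY y (-w)) - l1 (sY y v) = _
    rw [hm.y1', hl.y1]
    ring
  · change l1 (sY y v) + l2 (sY y w) - l0 (sY y (-w)) = _
    rw [hl.y1, hm.y2, hm.y0']
    linear_combination -hw
  · change l1 (sY y w) - l1 (sY y (-v)) = _
    rw [hm.y1, hl.y1']
    ring

theorem block_flat {y v w : ℂ} (h : Loc7 y v w) (ms mt al be : ℤ) :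
    Hyp.Block 0 (FX y v w ms mt al be) (FY y v w ms mt al be)
      (2 * Real.pi * I * v + ms * (Real.pi * I)) (2 * Real.pi * I * w + mt * (Real.pi * I))
      ((hh (v + 1 / 2) + ms / 2 * (Real.pi * I)) - (hh (w + 1 / 2) + mt / 2 * (Real.pi * I))) := by
  have hl := BlockC_mk h.hy h.hv
  have hm := BlockC_mk h.hy h.hw
  have he := h.ey
  have hw := vertex_w h
  constructor
  · change (l0 (sX y v) + ((al - ms + mt : ℤ) : ℂ) * (Real.pi * I)) + (l0 (sX y (-w)) + ((be +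
      ms : ℤ) : ℂ) * (Real.pi * I)) + (l0 (sX y w) + ((-be - mt - 1 : ℤ) : ℂ) * (Real.pi * I))
      + (l0 (sX y (-v)) + ((-al - 1 : ℤ) : ℂ) * (Real.pi * I)) = _
    rw [hl.x0, hm.x0', hm.x0, hl.x0']
    push_cast
    linear_combination he
  · change (l0 (sY y v) + ((-al - mt - 1 : ℤ) : ℂ) * (Real.pi * I)) + (l0 (sY y (-w)) + ((-be -
      ms + mt - 1 : ℤ) : ℂ) * (Real.pi * I)) + (l0 (sY y w) + ((be : ℤ) : ℂ) * (Real.pi * I)) +
      (l0 (sY y (-v)) + ((al + ms : ℤ) : ℂ) * (Real.pi * I)) = _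
    rw [hl.y0, hm.y0', hm.y0, hl.y0']
    push_cast
    linear_combination -he
  · constructor
    · change (l2 (sX y v) + ((0 : ℤ) : ℂ) * (Real.pi * I)) + (l1 (sX y (-v)) + ((al + ms : ℤ) :
        ℂ) * (Real.pi * I)) + (l1 (sY y v) + ((0 : ℤ) : ℂ) * (Real.pi * I)) + (l2 (sY y (-v)) +
        ((-1 - al : ℤ) : ℂ) * (Real.pi * I)) = _
      rw [hl.x2, hl.x1', hl.y1, hl.y2']
      push_cast
      ring
    · change (l0 (sX y (-v)) + ((-al - 1 : ℤ) : ℂ) * (Real.pi * I)) + (l0 (sY y (-v)) + ((al +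
        ms : ℤ) : ℂ) * (Real.pi * I)) = _
      rw [hl.x0', hl.y0']
      push_cast
      ring
    · change (l0 (sX y v) + ((al - ms + mt : ℤ) : ℂ) * (Real.pi * I)) + (l0 (sY y v) + ((-al -
        mt - 1 : ℤ) : ℂ) * (Real.pi * I)) = _
      rw [hl.x0, hl.y0]
      push_cast
      ring
    · change (l1 (sX y v) + ((-al + ms - mt - 1 : ℤ) : ℂ) * (Real.pi * I)) + (l2 (sX y (-v)) +
        ((-ms : ℤ) : ℂ) * (Real.pi * I)) + (l2 (sY y v) + ((al + mt : ℤ) : ℂ) * (Real.pi * I))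
        + (l1 (sY y (-v)) + ((-ms : ℤ) : ℂ) * (Real.pi * I)) = _
      rw [hl.x1, hl.x2', hl.y2, hl.y1']
      push_cast
      ring
    · change (l2 (sX y (-v)) + ((-ms : ℤ) : ℂ) * (Real.pi * I)) + (l1 (sX y w) + ((be + ms : ℤ)
        : ℂ) * (Real.pi * I)) + (l1 (sY y (-v)) + ((-ms : ℤ) : ℂ) * (Real.pi * I)) + (l2 (sY y
        w) + ((-1 - be : ℤ) : ℂ) * (Real.pi * I)) = _
      rw [hl.x2', hm.x1, hl.y1', hm.y2]
      push_cast
      ring
    · change (l2 (sX y v) + ((0 : ℤ) : ℂ) * (Real.pi * I)) + (l1 (sX y (-w)) + ((-be - 1 : ℤ) :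
        ℂ) * (Real.pi * I)) + (l1 (sY y v) + ((0 : ℤ) : ℂ) * (Real.pi * I)) + (l2 (sY y (-w)) +
        ((be + ms : ℤ) : ℂ) * (Real.pi * I)) = _
      rw [hl.x2, hm.x1', hl.y1, hm.y2']
      push_cast
      ring
    · change (l2 (sX y v) + ((0 : ℤ) : ℂ) * (Real.pi * I)) - (l2 (sX y (-v)) + ((-ms : ℤ) : ℂ)
        * (Real.pi * I)) = _
      rw [hl.x2, hl.x2']
      push_cast
      ring
    · change (l1 (sY y v) + ((0 : ℤ) : ℂ) * (Real.pi * I)) - (l1 (sY y (-v)) + ((-ms : ℤ) : ℂ)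
        * (Real.pi * I)) = _
      rw [hl.y1, hl.y1']
      push_cast
      ring
  · constructor
    · change (l2 (sX y w) + ((mt - ms : ℤ) : ℂ) * (Real.pi * I)) + (l1 (sX y (-w)) + ((-be - 1
        : ℤ) : ℂ) * (Real.pi * I)) + (l1 (sY y w) + ((0 : ℤ) : ℂ) * (Real.pi * I)) + (l2 (sY y
        (-w)) + ((be + ms : ℤ) : ℂ) * (Real.pi * I)) = _
      rw [hm.x2, hm.x1', hm.y1, hm.y2']
      push_cast
      ring
    · change (l0 (sX y (-w)) + ((be + ms : ℤ) : ℂ) * (Real.pi * I)) + (l0 (sY y (-w)) + ((-be -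
        ms + mt - 1 : ℤ) : ℂ) * (Real.pi * I)) = _
      rw [hm.x0', hm.y0']
      push_cast
      ring
    · change (l0 (sX y w) + ((-be - mt - 1 : ℤ) : ℂ) * (Real.pi * I)) + (l0 (sY y w) + ((be :
        ℤ) : ℂ) * (Real.pi * I)) = _
      rw [hm.x0, hm.y0]
      push_cast
      ring
    · change (l1 (sX y w) + ((be + ms : ℤ) : ℂ) * (Real.pi * I)) + (l2 (sX y (-w)) + ((-ms : ℤ)
        : ℂ) * (Real.pi * I)) + (l2 (sY y w) + ((-1 - be : ℤ) : ℂ) * (Real.pi * I)) + (l1 (sY y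
        (-w)) + ((-mt : ℤ) : ℂ) * (Real.pi * I)) = _
      rw [hm.x1, hm.x2', hm.y2, hm.y1']
      push_cast
      ring
    · change (l2 (sX y (-w)) + ((-ms : ℤ) : ℂ) * (Real.pi * I)) + (l1 (sX y v) + ((-al + ms -
        mt - 1 : ℤ) : ℂ) * (Real.pi * I)) + (l1 (sY y (-w)) + ((-mt : ℤ) : ℂ) * (Real.pi * I))
        + (l2 (sY y v) + ((al + mt : ℤ) : ℂ) * (Real.pi * I)) = _
      rw [hm.x2', hl.x1, hm.y1', hl.y2]
      push_cast
      ring
    · change (l2 (sX y w) + ((mt - ms : ℤ) : ℂ) * (Real.pi * I)) + (l1 (sX y (-v)) + ((al + ms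
        : ℤ) : ℂ) * (Real.pi * I)) + (l1 (sY y w) + ((0 : ℤ) : ℂ) * (Real.pi * I)) + (l2 (sY y
        (-v)) + ((-1 - al : ℤ) : ℂ) * (Real.pi * I)) = _
      rw [hm.x2, hl.x1', hm.y1, hl.y2']
      push_cast
      ring
    · change (l2 (sX y w) + ((mt - ms : ℤ) : ℂ) * (Real.pi * I)) - (l2 (sX y (-w)) + ((-ms : ℤ)
        : ℂ) * (Real.pi * I)) = _
      rw [hm.x2, hm.x2']
      push_cast
      ring
    · change (l1 (sY y w) + ((0 : ℤ) : ℂ) * (Real.pi * I)) - (l1 (sY y (-w)) + ((-mt : ℤ) : ℂ)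
        * (Real.pi * I)) = _
      rw [hm.y1, hm.y1']
      push_cast
      ring
  · change (l2 (sY y v) + ((al + mt : ℤ) : ℂ) * (Real.pi * I)) - (l2 (sY y (-v)) + ((-1 - al :
      ℤ) : ℂ) * (Real.pi * I)) = (l1 (sX y (-v)) + ((al + ms : ℤ) : ℂ) * (Real.pi * I)) - (l1
      (sX y v) + ((-al + ms - mt - 1 : ℤ) : ℂ) * (Real.pi * I))
    rw [hl.y2, hl.y2', hl.x1', hl.x1]
    push_cast
    ring
  · change (l2 (sY y w) + ((-1 - be : ℤ) : ℂ) * (Real.pi * I)) - (l2 (sY y (-w)) + ((be + ms :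
      ℤ) : ℂ) * (Real.pi * I)) = (l1 (sX y (-w)) + ((-be - 1 : ℤ) : ℂ) * (Real.pi * I)) - (l1
      (sX y w) + ((be + ms : ℤ) : ℂ) * (Real.pi * I))
    rw [hm.y2, hm.y2', hm.x1', hm.x1]
    push_cast
    ring
  · change (l0 (sX y w) + ((-be - mt - 1 : ℤ) : ℂ) * (Real.pi * I)) - (l2 (sX y (-v)) + ((-ms :
      ℤ) : ℂ) * (Real.pi * I)) - (l1 (sX y (-w)) + ((-be - 1 : ℤ) : ℂ) * (Real.pi * I)) = _
    rw [hm.x0, hl.x2', hm.x1']
    push_cast
    linear_combination -hw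
  · change (l2 (sX y v) + ((0 : ℤ) : ℂ) * (Real.pi * I)) - (l2 (sX y (-w)) + ((-ms : ℤ) : ℂ) *
      (Real.pi * I)) = _
    rw [hl.x2, hm.x2']
    push_cast
    ring
  · change (l0 (sX y (-w)) + ((be + ms : ℤ) : ℂ) * (Real.pi * I)) - (l2 (sX y v) + ((0 : ℤ) :
      ℂ) * (Real.pi * I)) - (l1 (sX y w) + ((be + ms : ℤ) : ℂ) * (Real.pi * I)) = _
    rw [hm.x0', hl.x2, hm.x1]
    push_cast
    linear_combination -hw
  · change (l2 (sX y (-v)) + ((-ms : ℤ) : ℂ) * (Real.pi * I)) - (l2 (sX y w) + ((mt - ms : ℤ) :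
      ℂ) * (Real.pi * I)) = _
    rw [hl.x2', hm.x2]
    push_cast
    ring
  · change (l1 (sY y (-v)) + ((-ms : ℤ) : ℂ) * (Real.pi * I)) + (l2 (sY y (-w)) + ((be + ms :
      ℤ) : ℂ) * (Real.pi * I)) - (l0 (sY y w) + ((be : ℤ) : ℂ) * (Real.pi * I)) = _
    rw [hl.y1', hm.y2', hm.y0]
    push_cast
    linear_combination -hw
  · change (l1 (sY y (-w)) + ((-mt : ℤ) : ℂ) * (Real.pi * I)) - (l1 (sY y v) + ((0 : ℤ) : ℂ) *
      (Real.pi * I)) = _
    rw [hm.y1', hl.y1]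
    push_cast
    ring
  · change (l1 (sY y v) + ((0 : ℤ) : ℂ) * (Real.pi * I)) + (l2 (sY y w) + ((-1 - be : ℤ) : ℂ) *
      (Real.pi * I)) - (l0 (sY y (-w)) + ((-be - ms + mt - 1 : ℤ) : ℂ) * (Real.pi * I)) = _
    rw [hl.y1, hm.y2, hm.y0']
    push_cast
    linear_combination -hw
  · change (l1 (sY y w) + ((0 : ℤ) : ℂ) * (Real.pi * I)) - (l1 (sY y (-v)) + ((-ms : ℤ) : ℂ) *
      (Real.pi * I)) = _
    rw [hm.y1, hl.y1']
    push_cast
    ring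

theorem block_mer {y v w : ℂ} (h : Loc7 y v w) (ms mt al be : ℤ) :
    Hyp.mer (fun k => Hyp.lgs (shx y v w k)) = hh (y - v) - hh (y + v) ∧
    Hyp.mer (Hyp.opp (fun k => Hyp.lgs (shx y v w k))) = hh (y - w) - hh (y + w) ∧
    Hyp.mer (FX y v w ms mt al be) =
      hh (y - v) - hh (y + v) + (2 * al + mt + 1) * (Real.pi * I) ∧
    Hyp.mer (Hyp.opp (FX y v w ms mt al be)) =
      hh (y - w) - hh (y + w) - (2 * be + ms + 1) * (Real.pi * I) := by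
  have hl := BlockC_mk h.hy h.hv
  have hm := BlockC_mk h.hy h.hw
  refine ⟨?_, ?_, ?_, ?_⟩
  · change l1 (sX y (-v)) - l1 (sX y v) = _
    rw [hl.x1', hl.x1]
    ring
  · change l1 (sX y (-w)) - l1 (sX y w) = _
    rw [hm.x1', hm.x1]
    ring
  · change (l1 (sX y (-v)) + ((al + ms : ℤ) : ℂ) * (Real.pi * I)) - (l1 (sX y v) + ((-al + ms -
      mt - 1 : ℤ) : ℂ) * (Real.pi * I)) = _
    rw [hl.x1', hl.x1]
    push_cast
    ring
  · change (l1 (sX y (-w)) + ((-be - 1 : ℤ) : ℂ) * (Real.pi * I)) - (l1 (sX y w) + ((be + ms :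
      ℤ) : ℂ) * (Real.pi * I)) = _
    rw [hm.x1', hm.x1]
    push_cast
    ring

theorem block_isFlat {y v w : ℂ} (h : Loc7 y v w) (ms mt al be : ℤ) (k : Fin 4) :
    Hyp.IsFlat (shx y v w k) (FX y v w ms mt al be k) ∧
      Hyp.IsFlat (shy y v w k) (FY y v w ms mt al be k) := by
  have hl := BlockC_mk h.hy h.hv
  have hm := BlockC_mk h.hy h.hw
  refine ⟨⟨fun c => ⟨nX ms mt al be k c, rfl⟩, ?_⟩, ⟨fun c => ⟨nY ms mt al be k c, rfl⟩, ?_⟩⟩
  · fin_cases k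
    · change (l0 (sX y v) + ((al - ms + mt : ℤ) : ℂ) * (Real.pi * I)) + (l1 (sX y v) + ((-al +
        ms - mt - 1 : ℤ) : ℂ) * (Real.pi * I)) + (l2 (sX y v) + ((0 : ℤ) : ℂ) * (Real.pi * I))
        = _
      rw [hl.x0, hl.x1, hl.x2]
      push_cast
      ring
    · change (l0 (sX y (-w)) + ((be + ms : ℤ) : ℂ) * (Real.pi * I)) + (l1 (sX y (-w)) + ((-be -
        1 : ℤ) : ℂ) * (Real.pi * I)) + (l2 (sX y (-w)) + ((-ms : ℤ) : ℂ) * (Real.pi * I)) = _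
      rw [hm.x0', hm.x1', hm.x2']
      push_cast
      ring
    · change (l0 (sX y w) + ((-be - mt - 1 : ℤ) : ℂ) * (Real.pi * I)) + (l1 (sX y w) + ((be +
        ms : ℤ) : ℂ) * (Real.pi * I)) + (l2 (sX y w) + ((mt - ms : ℤ) : ℂ) * (Real.pi * I)) = _
      rw [hm.x0, hm.x1, hm.x2]
      push_cast
      ring
    · change (l0 (sX y (-v)) + ((-al - 1 : ℤ) : ℂ) * (Real.pi * I)) + (l1 (sX y (-v)) + ((al +
        ms : ℤ) : ℂ) * (Real.pi * I)) + (l2 (sX y (-v)) + ((-ms : ℤ) : ℂ) * (Real.pi * I)) = _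
      rw [hl.x0', hl.x1', hl.x2']
      push_cast
      ring
  · fin_cases k
    · change (l0 (sY y v) + ((-al - mt - 1 : ℤ) : ℂ) * (Real.pi * I)) + (l1 (sY y v) + ((0 : ℤ)
        : ℂ) * (Real.pi * I)) + (l2 (sY y v) + ((al + mt : ℤ) : ℂ) * (Real.pi * I)) = _
      rw [hl.y0, hl.y1, hl.y2]
      push_cast
      ring
    · change (l0 (sY y (-w)) + ((-be - ms + mt - 1 : ℤ) : ℂ) * (Real.pi * I)) + (l1 (sY y (-w))
        + ((-mt : ℤ) : ℂ) * (Real.pi * I)) + (l2 (sY y (-w)) + ((be + ms : ℤ) : ℂ) * (Real.pi *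
        I)) = _
      rw [hm.y0', hm.y1', hm.y2']
      push_cast
      ring
    · change (l0 (sY y w) + ((be : ℤ) : ℂ) * (Real.pi * I)) + (l1 (sY y w) + ((0 : ℤ) : ℂ) *
        (Real.pi * I)) + (l2 (sY y w) + ((-1 - be : ℤ) : ℂ) * (Real.pi * I)) = _
      rw [hm.y0, hm.y1, hm.y2]
      push_cast
      ring
    · change (l0 (sY y (-v)) + ((al + ms : ℤ) : ℂ) * (Real.pi * I)) + (l1 (sY y (-v)) + ((-ms :
        ℤ) : ℂ) * (Real.pi * I)) + (l2 (sY y (-v)) + ((-1 - al : ℤ) : ℂ) * (Real.pi * I)) = _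
      rw [hl.y0', hl.y1', hl.y2']
      push_cast
      ring

end Pool.Agent.H63.VC7
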