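import Pool.Agent.H63.VC7.GeoC
import Pool.Agent.H63.VC5.Rog

/-! # The values of an ordered flattened tetrahedron -/

namespace Pool.Agent.H63.VC7

open Pool.Agent.H63.VC hiding ext
open Pool.Agent.H63.VC3 Pool.Agent.H63.VC4 Pool.Agent.H63.VC5 Pool.Agent.H63.VC6 Complex

/-- The value without ordering. -/
noncomputable def rh1 (z : ℂ) (n : Fin 3 → ℤ) : ℂ :=
  rh0 z + Real.pi * I / 2 * (n 1 * Hyp.lgs z 0 - n 0 * Hyp.lgs z 1)

theorem TetRC_ne (z : ℂ) (hz : 0 < z.im) : z ≠ 0 ∧ 1 - z ≠ 0 := by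
  constructor
  · intro h
    rw [h] at hz
    simp at hz
  · intro h
    have : z = 1 := by linear_combination -h
    rw [this] at hz
    simp at hz

theorem TetRC_l1 (z : ℂ) (hz : 0 < z.im) : l1 z = -Complex.log (1 - z) := by
  unfold l1
  rw [one_div]
  exact Rog_log_inv _ (by simpa using hz.ne')

theorem TetRC_l2 (z : ℂ) (hz : 0 < z.im) :
    l2 z = Complex.log (1 - z) + Real.pi * I - Complex.log z := by
  unfold l2
  rw [one_div, Rog_log_sub z hz.ne', Rog_log_neg_neg (1 - z) (by simpa using hz)]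

theorem TetRC_dz' (z : ℂ) (hz : 0 < z.im) :
    dilog (1 / (1 - z)) = dilog z + (Real.pi : ℂ) ^ 2 / 6 - l1 z ^ 2 / 2 + Real.pi * I * l1 z -
      l0 z * l1 z := by
  have h1 := dilog_compl z (Rog_slit z hz.ne') (Rog_slit' z hz.ne')
  have h2 := dilog_inv (1 - z) (Rog_slit _ (by simpa using hz.ne'))
  rw [Rog_log_neg_neg (1 - z) (by simpa using hz)] at h2
  rw [one_div, TetRC_l1 z hz]
  unfold l0
  linear_combination h2 - h1 - ((Real.pi : ℂ) ^ 2 / 2) * I_sq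

theorem TetRC_dinv (z : ℂ) (hz : 0 < z.im) :
    dilog (1 / z) = (Real.pi : ℂ) ^ 2 / 3 - l0 z ^ 2 / 2 + Real.pi * I * l0 z - dilog z := by
  have h2 := dilog_inv z (Rog_slit _ (by simpa using hz.ne'))
  rw [Rog_log_neg_pos z hz] at h2
  rw [one_div]
  unfold l0
  linear_combination h2 - ((Real.pi : ℂ) ^ 2 / 2) * I_sq

theorem TetRC_z'im (z : ℂ) (hz : 0 < z.im) : 0 < (1 / (1 - z)).im := by
  rw [one_div, Complex.inv_im]
  have h : (1 - z) ≠ 0 := (TetRC_ne z hz).2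
  apply div_pos
  · simpa using hz
  · exact Complex.normSq_pos.2 h

theorem TetRC_z''im (z : ℂ) (hz : 0 < z.im) : 0 < (1 - 1 / z).im := by
  rw [one_div, Complex.sub_im, Complex.inv_im]
  have h : z ≠ 0 := (TetRC_ne z hz).1
  have : 0 < z.im / Complex.normSq z := div_pos hz (Complex.normSq_pos.2 h)
  rw [neg_div]
  simpa using this

theorem TetRC_sub' (z : ℂ) (hz : 0 < z.im) : 1 - 1 / (1 - z) = 1 / (1 - 1 / z) := by
  obtain ⟨h0, h1⟩ := TetRC_ne z hz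
  have h2 : z - 1 ≠ 0 := fun h => h1 (by linear_combination -h)
  have h3 : 1 - 1 / z = (z - 1) / z := by field_simp
  rw [h3]
  field_simp
  ring

theorem TetRC_logsub' (z : ℂ) (hz : 0 < z.im) : Complex.log (1 - 1 / (1 - z)) = -l2 z := by
  rw [TetRC_sub' z hz, one_div (1 - 1 / z)]
  unfold l2
  exact Rog_log_inv _ (TetRC_z''im z hz).ne'

theorem TetRC_A (z : ℂ) (hz : 0 < z.im) (n : Fin 3 → ℤ) (hn : n 0 + n 1 + n 2 = -1)
    (F : Fin 3 → ℂ) (hF : ∀ c, F c = Hyp.lgs z c + n c * (Real.pi * I)) :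
    Hyp.RR (1 / (1 - z)) (F 1) (F 2) =
      rh1 z n + (Real.pi : ℂ) ^ 2 / 6 + n 1 * (Real.pi : ℂ) ^ 2 / 2 := by
  unfold Hyp.RR rh1 rh0
  rw [hF 1, hF 2, TetRC_dz' z hz, TetRC_logsub' z hz]
  simp only [lgs_0, lgs_1, lgs_2]
  have e1 : Complex.log (1 / (1 - z)) = l1 z := rfl
  have e0 : Complex.log z = l0 z := rfl
  have e1' : Complex.log (1 - z) = -l1 z := by rw [TetRC_l1 z hz, neg_neg]
  have e2 : l2 z = Real.pi * I - l0 z - l1 z := by
    rw [TetRC_l2 z hz, e1', e0]; ring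
  rw [e1, e1', e0, e2]
  have hn2 : (n 2 : ℂ) = -1 - n 0 - n 1 := by
    have : n 2 = -1 - n 0 - n 1 := by linarith
    rw [this]; push_cast; ring
  rw [hn2]
  linear_combination (-(n 1 : ℂ) * (Real.pi : ℂ) ^ 2 / 2) * I_sq

theorem tetR_cases (z : ℂ) (hz : 0 < z.im) (n : Fin 3 → ℤ) (hn : n 0 + n 1 + n 2 = -1)
    (F : Fin 3 → ℂ) (hF : ∀ c, F c = Hyp.lgs z c + n c * (Real.pi * I)) :
    Cg (Hyp.tetR z F 0 1) (rh1 z n) ∧
    Cg (Hyp.tetR z F 1 2) (rh1 z n + (Real.pi : ℂ) ^ 2 / 6 + n 1 * (Real.pi : ℂ) ^ 2 / 2) ∧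
    Cg (Hyp.tetR z F 0 2) (rh1 z n + n 0 * (Real.pi : ℂ) ^ 2 / 2) ∧
    Cg (Hyp.tetR z F 2 1) (rh1 z n + (Real.pi : ℂ) ^ 2 / 3 + n 1 * (Real.pi : ℂ) ^ 2 / 2) := by
  have hn2 : (n 2 : ℂ) = -1 - n 0 - n 1 := by
    have : n 2 = -1 - n 0 - n 1 := by linarith
    rw [this]; push_cast; ring
  have e1 : Complex.log (1 / (1 - z)) = l1 z := rfl
  have e0 : Complex.log z = l0 z := rfl
  have e1' : Complex.log (1 - z) = -l1 z := by rw [TetRC_l1 z hz, neg_neg]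
  have e2 : l2 z = Real.pi * I - l0 z - l1 z := by
    rw [TetRC_l2 z hz, e1', e0]; ring
  refine ⟨?_, ?_, ?_, ?_⟩
  · apply Cg.of_eq
    have h : Hyp.tetR z F 0 1 = Hyp.RR z (F 0) (F 1) := rfl
    rw [h]
    unfold Hyp.RR rh1 rh0
    rw [hF 0, hF 1]
    simp only [lgs_0, lgs_1]
    rw [e1', e0]
    ring
  · apply Cg.of_eq
    have h : Hyp.tetR z F 1 2 = Hyp.RR (1 / (1 - z)) (F 1) (F 2) := rfl
    rw [h]
    exact TetRC_A z hz n hn F hF
  · have h : Hyp.tetR z F 0 2 = -Hyp.RR (1 / z) (-F 0) (-F 2) := rfl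
    rw [h]
    refine ⟨-n 0, ?_⟩
    unfold Hyp.RR rh1 rh0
    rw [hF 0, hF 2, TetRC_dinv z hz]
    simp only [lgs_0, lgs_1, lgs_2]
    have e3 : Complex.log (1 / z) = -l0 z := by
      rw [one_div]; exact Rog_log_inv z hz.ne'
    have e4 : Complex.log (1 - 1 / z) = l2 z := rfl
    rw [e3, e4, e1', e0, e2, hn2]
    push_cast
    linear_combination ((n 0 : ℂ) * (Real.pi : ℂ) ^ 2 / 2) * I_sq
  · apply Cg.of_eq
    have h : Hyp.tetR z F 2 1 = -Hyp.RR (1 / (1 - 1 / z)) (-F 2) (-F 1) := rfl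
    rw [h, ← TetRC_sub' z hz]
    have hA := TetRC_A z hz n hn F hF
    have hd := dilog_compl (1 / (1 - z)) (Rog_slit _ (TetRC_z'im z hz).ne')
      (Rog_slit' _ (TetRC_z'im z hz).ne')
    unfold Hyp.RR at hA ⊢
    rw [sub_sub_cancel]
    rw [TetRC_logsub' z hz] at hA hd ⊢
    rw [e1] at hA hd ⊢
    linear_combination hA - hd

end Pool.Agent.H63.VC7
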