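import Pool.Agent.H63.VC7.RhoPair
import Pool.Agent.H63.VC7.TetRC
import Pool.Agent.H63.VC7.BlockC

/-! # The complex volume of a block -/

namespace Pool.Agent.H63.VC7

open Pool.Agent.H63.VC hiding ext
open Pool.Agent.H63.VC3 Pool.Agent.H63.VC4 Pool.Agent.H63.VC5 Pool.Agent.H63.VC6 Complex

/-- The sum of the two unordered values of a pair of tetrahedra. -/
theorem BlockRC_pair (y u : ℂ) (hy : ‖y - 1 / 4‖ ≤ 6 / 1000) (hv : |u.re| ≤ 53 / 1000)
    (hv' : |u.im| ≤ 3 / 1000) (n n' : Fin 3 → ℤ) :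
    rh1 (sX y u) n + rh1 (sY y u) n' =
      2 * Real.pi * I * (ff (y + 1 / 2) - ff (y + u) + ff (u + 1 / 2)) +
        Real.pi * I / 2 * (Real.pi * I / 2 - Real.pi * I * u) +
        (Real.pi * I / 2 - Real.pi * I * u) * (hh (u + 1 / 2) - hh (y + u)) -
        Real.pi * I * y * (hh (y + 1 / 2) - hh (y + u)) +
      Real.pi * I / 2 * (n 1 * (Real.pi * I / 2 - Real.pi * I * u + hh (y + 1 / 2) - hh (y + u)) -
        n 0 * (Real.pi * I / 2 - Real.pi * I * y + hh (y + u) - hh (u + 1 / 2))) +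
      Real.pi * I / 2 * (n' 1 * (Real.pi * I / 2 - Real.pi * I * u + hh (y + u) - hh (y + 1 / 2)) -
        n' 0 * (Real.pi * I * (y + u) + hh (y + 1 / 2) - hh (u + 1 / 2))) := by
  obtain ⟨x0, x1, -, -⟩ := sX_log y u hy hv hv'
  obtain ⟨y0, y1, -, -⟩ := sY_log y u hy hv hv'
  have e := rho_pair y u hy hv hv'
  simp only [rh1, lgs_0, lgs_1, x0, x1, y0, y1]
  linear_combination e

theorem BlockRC_refl (v : ℂ) : ff (-v + 1 / 2) = -ff (v + 1 / 2) ∧
    hh (-v + 1 / 2) = hh (v + 1 / 2) := by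
  have e : (-v + 1 / 2 : ℂ) = 1 - (v + 1 / 2) := by ring
  refine ⟨by rw [e, ff_reflect], ?_⟩
  have e2 : (Real.pi : ℂ) * (-v + 1 / 2) = Real.pi - Real.pi * (v + 1 / 2) := by ring
  unfold hh
  rw [e2, Complex.sin_pi_sub]

theorem BlockRC_nX (ms mt al be : ℤ) (k : Fin 4) :
    nX ms mt al be k 0 + nX ms mt al be k 1 + nX ms mt al be k 2 = -1 := by
  fin_cases k <;> simp [nX] <;> ring

theorem BlockRC_nY (ms mt al be : ℤ) (k : Fin 4) :
    nY ms mt al be k 0 + nY ms mt al be k 1 + nY ms mt al be k 2 = -1 := by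
  fin_cases k <;> simp [nY] <;> ring

/-- The two tetrahedra at an even place. -/
theorem BlockRC_even {y v w : ℂ} (h : Loc7 y v w) (ms mt al be : ℤ) (b : Bool) (k : Fin 4) :
    Cg (Hyp.tetR (shx y v w k) (FX y v w ms mt al be k) (if b then 0 else 2) 1 +
        Hyp.tetR (shy y v w k) (FY y v w ms mt al be k) (if b then 0 else 1) 2)
      (rh1 (shx y v w k) (nX ms mt al be k) + rh1 (shy y v w k) (nY ms mt al be k) +
        (Real.pi : ℂ) ^ 2 / 2 * (if b then (nY ms mt al be k 0 : ℂ) else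
          1 + nX ms mt al be k 1 + nY ms mt al be k 1)) := by
  obtain ⟨x1, x2, x3, x4⟩ := tetR_cases (shx y v w k) (block_pos h k).1 (nX ms mt al be k)
    (BlockRC_nX ms mt al be k) (FX y v w ms mt al be k) (fun c => rfl)
  obtain ⟨y1, y2, y3, y4⟩ := tetR_cases (shy y v w k) (block_pos h k).2 (nY ms mt al be k)
    (BlockRC_nY ms mt al be k) (FY y v w ms mt al be k) (fun c => rfl)
  cases b
  · simp only [Bool.false_eq_true, if_false]
    refine (x4.add y2).trans (Cg.of_eq ?_)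
    ring
  · simp only [if_true]
    refine (x1.add y3).trans (Cg.of_eq ?_)
    ring

/-- The two tetrahedra at an odd place. -/
theorem BlockRC_odd {y v w : ℂ} (h : Loc7 y v w) (ms mt al be : ℤ) (b : Bool) (k : Fin 4) :
    Cg (Hyp.tetR (shx y v w k) (FX y v w ms mt al be k) (if b then 0 else 1) 2 +
        Hyp.tetR (shy y v w k) (FY y v w ms mt al be k) (if b then 0 else 2) 1)
      (rh1 (shx y v w k) (nX ms mt al be k) + rh1 (shy y v w k) (nY ms mt al be k) +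
        (Real.pi : ℂ) ^ 2 / 2 * (if b then (nX ms mt al be k 0 : ℂ) else
          1 + nX ms mt al be k 1 + nY ms mt al be k 1)) := by
  obtain ⟨x1, x2, x3, x4⟩ := tetR_cases (shx y v w k) (block_pos h k).1 (nX ms mt al be k)
    (BlockRC_nX ms mt al be k) (FX y v w ms mt al be k) (fun c => rfl)
  obtain ⟨y1, y2, y3, y4⟩ := tetR_cases (shy y v w k) (block_pos h k).2 (nY ms mt al be k)
    (BlockRC_nY ms mt al be k) (FY y v w ms mt al be k) (fun c => rfl)
  cases b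
  · simp only [Bool.false_eq_true, if_false]
    refine (x2.add y4).trans (Cg.of_eq ?_)
    ring
  · simp only [if_true]
    refine (x3.add y1).trans (Cg.of_eq ?_)
    ring

/-- The eight values of a block. -/
theorem BlockRC_vals {y v w : ℂ} (h : Loc7 y v w) (ms mt al be : ℤ) (f f' : Bool) :
    Cg (Hyp.blockR (shx y v w) (shy y v w) (FX y v w ms mt al be) (FY y v w ms mt al be) f f')
      ((rh1 (sX y v) (nX ms mt al be 0) + rh1 (sY y v) (nY ms mt al be 0)) +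
       (rh1 (sX y (-w)) (nX ms mt al be 1) + rh1 (sY y (-w)) (nY ms mt al be 1)) +
       (rh1 (sX y w) (nX ms mt al be 2) + rh1 (sY y w) (nY ms mt al be 2)) +
       (rh1 (sX y (-v)) (nX ms mt al be 3) + rh1 (sY y (-v)) (nY ms mt al be 3)) +
       (Real.pi : ℂ) ^ 2 / 2 * (2 + 2 * ms - 2 * mt) +
       bt1 f' * ((Real.pi : ℂ) ^ 2 / 2 * (2 * be + mt - 1)) +
       bt1 f * ((Real.pi : ℂ) ^ 2 / 2 * (-2 * al - ms - 3))) := by
  have n2 : (-1 : Fin 3) = 2 := rfl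
  have n1 : (-2 : Fin 3) = 1 := rfl
  have c0 : ((0 : Fin 4) < 2) = True := by decide
  have c1 : ((1 : Fin 4) < 2) = True := by decide
  have c2 : ((2 : Fin 4) < 2) = False := by decide
  have c3 : ((3 : Fin 4) < 2) = False := by decide
  have e0 : Hyp.eo4 0 = 1 := rfl
  have e1 : Hyp.eo4 1 = 2 := rfl
  have e2 : Hyp.eo4 2 = 1 := rfl
  have e3 : Hyp.eo4 3 = 2 := rfl
  unfold Hyp.blockR
  rw [Fin.sum_univ_four]
  simp only [e0, e1, e2, e3, n1, n2, c0, c1, c2, c3, if_true, if_false]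
  refine ((((BlockRC_even h ms mt al be f' 0).add (BlockRC_odd h ms mt al be f' 1)).add
    (BlockRC_even h ms mt al be f 2)).add (BlockRC_odd h ms mt al be f 3)).trans (Cg.of_eq ?_)
  have s0 : shx y v w 0 = sX y v := rfl
  have s1 : shx y v w 1 = sX y (-w) := rfl
  have s2 : shx y v w 2 = sX y w := rfl
  have s3 : shx y v w 3 = sX y (-v) := rfl
  have t0 : shy y v w 0 = sY y v := rfl
  have t1 : shy y v w 1 = sY y (-w) := rfl
  have t2 : shy y v w 2 = sY y w := rfl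
  have t3 : shy y v w 3 = sY y (-v) := rfl
  rw [s0, s1, s2, s3, t0, t1, t2, t3]
  cases f <;> cases f' <;> simp [nX, nY, bt1] <;> ring

theorem block_R {y v w : ℂ} (h : Loc7 y v w) (ms mt al be : ℤ) (f f' : Bool) :
    Cg (Hyp.blockR (shx y v w) (shy y v w) (FX y v w ms mt al be) (FY y v w ms mt al be) f f')
      (2 * Real.pi * I * (4 * ff (y + 1 / 2) - ff (y - v) - ff (y + v) - ff (y - w) - ff (y + w)) -
        (2 * Real.pi * I * v + ms * (Real.pi * I)) / 2 * (hh (y - v) - hh (y + v)) -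
        (2 * Real.pi * I * w + mt * (Real.pi * I)) / 2 * (hh (y - w) - hh (y + w)) -
        (Real.pi : ℂ) ^ 2 * ((2 * al + mt + 1) * v - (2 * be + ms + 1) * w) +
        (Real.pi : ℂ) ^ 2 / 2 * (ms - mt + bt1 f * (1 + ms) + bt1 f' * (1 + mt))) := by
  refine (BlockRC_vals h ms mt al be f f').trans ?_
  have hv1 : |v.im| ≤ 3 / 1000 := by rw [abs_of_pos h.hv.2.1]; exact h.hv.2.2
  have hw1 : |w.im| ≤ 3 / 1000 := by rw [abs_of_pos h.hw.2.1]; exact h.hw.2.2
  have hv2 : |(-v).re| ≤ 53 / 1000 := by rw [neg_re, abs_neg]; exact h.hv.1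
  have hw2 : |(-w).re| ≤ 53 / 1000 := by rw [neg_re, abs_neg]; exact h.hw.1
  have hv3 : |(-v).im| ≤ 3 / 1000 := by rw [neg_im, abs_neg]; exact hv1
  have hw3 : |(-w).im| ≤ 3 / 1000 := by rw [neg_im, abs_neg]; exact hw1
  rw [BlockRC_pair y v h.hy h.hv.1 hv1, BlockRC_pair y (-w) h.hy hw2 hw3,
    BlockRC_pair y w h.hy h.hw.1 hw1, BlockRC_pair y (-v) h.hy hv2 hv3,
    (BlockRC_refl v).1, (BlockRC_refl v).2, (BlockRC_refl w).1, (BlockRC_refl w).2]
  have ey := h.ey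
  have I2 : (I : ℂ) ^ 2 = -1 := I_sq
  rw [← sub_eq_add_neg, ← sub_eq_add_neg]
  refine ⟨bt1 f' * (be - 1) - bt1 f * (al + ms + 2), ?_⟩
  have a0 : nX ms mt al be 0 0 = al - ms + mt := rfl
  have a1 : nX ms mt al be 0 1 = -al + ms - mt - 1 := rfl
  have a2 : nX ms mt al be 1 0 = be + ms := rfl
  have a3 : nX ms mt al be 1 1 = -be - 1 := rfl
  have a4 : nX ms mt al be 2 0 = -be - mt - 1 := rfl
  have a5 : nX ms mt al be 2 1 = be + ms := rfl
  have a6 : nX ms mt al be 3 0 = -al - 1 := rfl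
  have a7 : nX ms mt al be 3 1 = al + ms := rfl
  have b0 : nY ms mt al be 0 0 = -al - mt - 1 := rfl
  have b1 : nY ms mt al be 0 1 = 0 := rfl
  have b2 : nY ms mt al be 1 0 = -be - ms + mt - 1 := rfl
  have b3 : nY ms mt al be 1 1 = -mt := rfl
  have b4 : nY ms mt al be 2 0 = be := rfl
  have b5 : nY ms mt al be 2 1 = 0 := rfl
  have b6 : nY ms mt al be 3 0 = al + ms := rfl
  have b7 : nY ms mt al be 3 1 = -ms := rfl
  rw [a0, a1, a2, a3, a4, a5, a6, a7, b0, b1, b2, b3, b4, b5, b6, b7]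
  push_cast
  linear_combination (Real.pi * I * (ms / 2 - y)) * ey +
    ((Real.pi : ℂ) ^ 2 * (((1 / 4 - v / 2) + ((-al + ms - mt - 1 : ℂ) * (1 / 2 - v) - (al - ms + mt : ℂ) * (1 / 2 - y) + (0 : ℂ) * (1 / 2 - v) - (-al - mt - 1 : ℂ) * (y + v)) / 2) +
      ((1 / 4 - (-w) / 2) + ((-be - 1 : ℂ) * (1 / 2 - (-w)) - (be + ms : ℂ) * (1 / 2 - y) + (-mt : ℂ) * (1 / 2 - (-w)) - (-be - ms + mt - 1 : ℂ) * (y + (-w))) / 2) +
      ((1 / 4 - w / 2) + ((be + ms : ℂ) * (1 / 2 - w) - (-be - mt - 1 : ℂ) * (1 / 2 - y) + (0 : ℂ) * (1 / 2 - w) - (be : ℂ) * (y + w)) / 2) +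
      ((1 / 4 - (-v) / 2) + ((al + ms : ℂ) * (1 / 2 - (-v)) - (-al - 1 : ℂ) * (1 / 2 - y) + (-ms : ℂ) * (1 / 2 - (-v)) - (al + ms : ℂ) * (y + (-v))) / 2))) * I2

end Pool.Agent.H63.VC7
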