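import Pool.Agent.H63.VC.Defs

/-!
# Arborescent links: colored Jones polynomials

A tree with `p` nodes and `m` edges, the edge `j` joining the nodes `s j` and `t j`, and integer
weights `a i` of the nodes describe arborescent links: the node `i` is a band with `a i` half twists
(a twist region with `a i` crossings), the bands of adjacent nodes are plumbed together, and the link
is the boundary of the resulting surface. The cyclic order of the plumbings along a band is
arbitrary; changing it is a mutation, which does not change the colored Jones polynomials.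
-/

namespace Pool.Agent.H63.VC7

open Pool.Agent.H63.VC Complex

variable {m p : ℕ}

/-! ### The colored Jones polynomials -/

/-- `{a} = q^a - q^{-a}`. -/
noncomputable def br (q : ℂ) (a : ℤ) : ℂ := q ^ a - q ^ (-a)

/-- The eigenvalue of a half twist of two strands of color `N` on the component of color `2 X`. -/
noncomputable def tw (q : ℂ) (X : ℕ) : ℂ := (-1) ^ X * q ^ (X * (X + 1))

/-- The normalized quantum 6j-symbol `{N/2 N/2 k; N/2 N/2 l}` (equal to `1` for `k = 0`). -/
noncomputable def sixj (q : ℂ) (N k l : ℕ) : ℂ :=
  ∑ t ∈ Finset.range (N + 1), (-1) ^ t * ∏ i ∈ Finset.range t,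
    (br q ((k : ℤ) + i + 1) * br q ((k : ℤ) - i) *
      (br q ((l : ℤ) + i + 1) * br q ((l : ℤ) - i))) /
    (br q ((i : ℤ) + 1) ^ 2 * (br q ((N : ℤ) + i + 2) * br q ((N : ℤ) - i)))

/-- The state sum for the colored Jones polynomial (color `N`, dimension `N + 1`, equal to `1` for the
unknot, up to a sign and a power of `q`, which depend on the framing): fusion in the twist regions. -/
noncomputable def jones (s t : Fin m → Fin p) (a : Fin p → ℤ) (N : ℕ) (q : ℂ) : ℂ :=
  ∑ X ∈ Fintype.piFinset (fun _ : Fin p => Finset.range (N + 1)),
    (∏ i, tw q (X i) ^ (a i) * (br q (2 * (X i : ℤ) + 1) / br q ((N : ℤ) + 1))) *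
      ∏ j, sixj q N (X (s j)) (X (t j))

end Pool.Agent.H63.VC7
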