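import Pool.Agent.H63.VC4.CritNB
import Pool.Agent.H63.VC7.Defs

/-! # Location of the critical point -/

namespace Pool.Agent.H63.VC7

open Pool.Agent.H63.VC hiding ext
open Pool.Agent.H63.VC3 Pool.Agent.H63.VC4 Pool.Agent.H63.VC6 Complex

variable {m p : ℕ} {s t : Fin m → Fin p} {r : Fin p → ℝ} {y : Fin m → ℂ} {v : Fin p → ℂ}

theorem locG_dg (hc : CritG s t r y v) (i : Fin p) : 1 ≤ dg s t i := by
  have h : 1 ≤ (inc s t i).card := Finset.card_pos.mpr (hc.ne i)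
  unfold dg
  exact_mod_cast h

theorem locG_abs (hc : CritG s t r y v) (i : Fin p) : 10 ≤ |r i| := by
  have h1 := hc.hr i
  have h2 := locG_dg hc i
  linarith

theorem locG_sq (hc : CritG s t r y v) (i : Fin p) : 100 * dg s t i ≤ (r i) ^ 2 := by
  have h1 := hc.hr i
  have h2 := locG_dg hc i
  have h3 := locG_abs hc i
  rw [← sq_abs]
  nlinarith

theorem LocG_half (hc : CritG s t r y v) (i : Fin p) : |1 / (2 * r i)| ≤ 1 / 20 := by
  rw [abs_div, abs_one, abs_mul, abs_two]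
  apply one_div_le_one_div_of_le (by norm_num)
  linarith [locG_abs hc i]

theorem LocG_div (hc : CritG s t r y v) (i : Fin p) :
    3 / 10 * dg s t i / (r i) ^ 2 ≤ 3 / 1000 := by
  have h1 := locG_sq hc i
  have h2 := locG_dg hc i
  rw [div_le_iff₀ (by linarith)]
  linarith

theorem LocG_inv (hc : CritG s t r y v) (i : Fin p) : 1 / (r i) ^ 2 ≤ 1 / 100 := by
  apply one_div_le_one_div_of_le (by norm_num)
  linarith [locG_sq hc i, locG_dg hc i]

theorem LocG_edge (hc : CritG s t r y v) (j : Fin m) :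
    1 / (r (s j)) ^ 2 + 1 / (r (t j)) ^ 2 ≤ 1 / 50 := by
  linarith [LocG_inv hc (s j), LocG_inv hc (t j)]

theorem locG_y (hc : CritG s t r y v) (j : Fin m) : yloc (y j) ∧ ‖y j - 1 / 4‖ ≤ 6 / 1000 := by
  have e : (1 / 4 : ℂ) = ((1 / 4 : ℝ) : ℂ) := by push_cast; rfl
  have hn : ‖y j - 1 / 4‖ ≤ 6 / 1000 := by
    linarith [hc.bdy j, LocG_edge hc j]
  have h1 := abs_re_le_norm (y j - 1 / 4)
  have h2 := abs_im_le_norm (y j - 1 / 4)
  have hn' := hn
  rw [e] at h1 h2 hn'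
  rw [sub_re, ofReal_re] at h1
  rw [sub_im, ofReal_im, sub_zero] at h2
  exact ⟨⟨h1.trans hn', h2.trans hn'⟩, hn⟩

theorem LocG_v_small {a : ℝ} (ha : 1 ≤ a) {r : ℝ} (hr : 10 * a ≤ |r|) {v : ℂ}
    (hv : ‖v + 1 / (2 * r)‖ ≤ a / (2 * r ^ 2)) :
    ‖v‖ ≤ 55 / 1000 ∧ ‖v‖ ^ 2 ≤ 3025 / 10000 * (1 / r ^ 2) := by
  have hpos : 0 < |r| := by linarith
  have e : v = (v + 1 / (2 * r)) - 1 / (2 * r) := by ring
  have n1 : ‖(1 : ℂ) / (2 * r)‖ = 1 / (2 * |r|) := by
    rw [norm_div, norm_one, norm_mul, Complex.norm_real, Real.norm_eq_abs]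
    norm_num
  have h1 : ‖v‖ ≤ a / (2 * r ^ 2) + 1 / (2 * |r|) := by
    conv_lhs => rw [e]
    refine (norm_sub_le _ _).trans ?_
    rw [n1]; linarith
  have h2 : a / (2 * r ^ 2) + 1 / (2 * |r|) ≤ 55 / 100 / |r| := by
    rw [← sq_abs r]
    have h3 : a / (2 * |r| ^ 2) ≤ 5 / 100 / |r| := by
      rw [div_le_div_iff₀ (by positivity) hpos]
      nlinarith
    have h4 : 1 / (2 * |r|) = 50 / 100 / |r| := by
      field_simp
      norm_num
    rw [h4]
    have h5 : (5 : ℝ) / 100 / |r| + 50 / 100 / |r| = 55 / 100 / |r| := by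
      rw [← add_div]; norm_num
    linarith
  have h6 : ‖v‖ ≤ 55 / 100 / |r| := h1.trans h2
  have h7 : (55 : ℝ) / 100 / |r| ≤ 55 / 1000 := by
    rw [div_le_iff₀ hpos]
    linarith
  refine ⟨h6.trans h7, ?_⟩
  have h8 : ‖v‖ ^ 2 ≤ (55 / 100 / |r|) ^ 2 := by
    have := norm_nonneg v
    gcongr
  refine h8.trans (le_of_eq ?_)
  rw [div_pow, sq_abs]
  ring

theorem locG_v (hc : CritG s t r y v) (i : Fin p) : vloc (v i) ∧
    (v i).im ≤ 3 / 10 * dg s t i / (r i) ^ 2 ∧ ‖v i‖ ≤ 55 / 1000 ∧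
      ‖v i‖ ^ 2 ≤ 3025 / 10000 * (1 / (r i) ^ 2) := by
  have e' : (1 / (2 * (r i : ℂ))) = ((1 / (2 * r i) : ℝ) : ℂ) := by push_cast; rfl
  have hv0 := hc.bdv i
  have hsm : ‖v i‖ ≤ 55 / 1000 ∧ ‖v i‖ ^ 2 ≤ 3025 / 10000 * (1 / (r i) ^ 2) := by
    refine LocG_v_small (locG_dg hc i) (hc.hr i) (hv0.trans ?_)
    have h1 := locG_sq hc i
    have h2 := locG_dg hc i
    rw [div_le_div_iff₀ (by linarith) (by linarith)]
    nlinarith [mul_nonneg (by linarith : (0:ℝ) ≤ dg s t i) (by linarith : (0:ℝ) ≤ (r i) ^ 2)]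
  have h1 := abs_re_le_norm (v i + 1 / (2 * r i))
  have h2 := abs_im_le_norm (v i + 1 / (2 * r i))
  have hv := hv0
  rw [e'] at h1 h2 hv
  rw [add_re, ofReal_re] at h1
  rw [add_im, ofReal_im, add_zero] at h2
  have h3 := LocG_half hc i
  have h4 := LocG_div hc i
  have h5 := abs_le.1 h3
  have h6 := abs_le.1 (h1.trans (hv.trans h4))
  refine ⟨⟨abs_le.2 ⟨by linarith [h5.1, h6.1, h5.2, h6.2],
      by linarith [h5.1, h6.1, h5.2, h6.2]⟩, hc.imv i, ?_⟩, ?_, hsm⟩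
  · exact (le_abs_self _).trans (h2.trans (hv.trans h4))
  · exact (le_abs_self _).trans (h2.trans hv)

theorem LocG_kap {y v w : ℂ} {a b : ℝ} (h0 : 4 * hh (y + 1 / 2) =
    hh (y - v) + hh (y + v) + hh (y - w) + hh (y + w))
    (hy : ‖y - 1 / 4‖ ≤ 6 / 1000) (hv : ‖v‖ ≤ 55 / 1000) (hw : ‖w‖ ≤ 55 / 1000)
    (ha : 0 ≤ a) (hb : 0 ≤ b)
    (hv2 : ‖v‖ ^ 2 ≤ 3025 / 10000 * a) (hw2 : ‖w‖ ^ 2 ≤ 3025 / 10000 * b) :
    |kap y v| ≤ 36 / 10 * (a + b) := by
  have hy' : ‖y - 1 / 4‖ ≤ 16 / 1000 := hy.trans (by norm_num)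
  have a1 := CritNB_G_bound hy' hv
  have a2 := CritNB_G_bound hy' hw
  have e : 2 * hh (y + 1 / 2) - hh (y - v) - hh (y + v) =
      (CritA_G y v - CritA_G y w) / 2 := by
    unfold CritA_G
    linear_combination h0 / 2
  unfold kap
  rw [e]
  refine (abs_re_le_norm _).trans ?_
  rw [norm_div]
  have h2 : ‖(2 : ℂ)‖ = 2 := by norm_num
  rw [h2]
  have h3 := norm_sub_le (CritA_G y v) (CritA_G y w)
  linarith

theorem locG_kap (hc : CritG s t r y v) (j : Fin m) :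
    |kap (y j) (v (s j))| ≤ 36 / 10 * (1 / (r (s j)) ^ 2 + 1 / (r (t j)) ^ 2) ∧
    |kap (y j) (v (t j))| ≤ 36 / 10 * (1 / (r (s j)) ^ 2 + 1 / (r (t j)) ^ 2) := by
  have hy := (locG_y hc j).2
  have s1 := (locG_v hc (s j)).2.2
  have s2 := (locG_v hc (t j)).2.2
  refine ⟨LocG_kap (hc.ey j) hy s1.1 s2.1 (by positivity) (by positivity) s1.2 s2.2, ?_⟩
  rw [add_comm (1 / (r (s j)) ^ 2)]
  refine LocG_kap ?_ hy s2.1 s1.1 (by positivity) (by positivity) s2.2 s1.2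
  rw [hc.ey j]
  ring

theorem locG_kap_sum (hc : CritG s t r y v) (j : Fin m) :
    kap (y j) (v (s j)) + kap (y j) (v (t j)) = 0 := by
  unfold kap
  rw [← add_re]
  have e : 2 * hh (y j + 1 / 2) - hh (y j - v (s j)) - hh (y j + v (s j)) +
      (2 * hh (y j + 1 / 2) - hh (y j - v (t j)) - hh (y j + v (t j))) = 0 := by
    linear_combination hc.ey j
  rw [e, zero_re]

/-- The derivative of the potential at a node. -/
theorem locG_dpo (hc : CritG s t r y v) (i : Fin p) :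
    ∑ j ∈ inc s t i, (dpo (some (y j)) (v i)).re = 4 * Real.pi * r i * (v i).im := by
  have h := congrArg Complex.re (hc.ev i)
  rw [add_re, zero_re, re_sum] at h
  have e : (2 * Real.pi * I * (2 * r i * v i + 1) : ℂ).re = -(4 * Real.pi * r i * (v i).im) := by
    have e1 : (2 * Real.pi * I * (2 * r i * v i + 1) : ℂ) =
        ((2 * Real.pi : ℝ) : ℂ) * (I * (((2 * r i : ℝ) : ℂ) * v i + 1)) := by
      push_cast; ring
    rw [e1, re_ofReal_mul, I_mul_re, add_im, im_ofReal_mul, one_im]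
    ring
  rw [e] at h
  have e2 : ∀ j, dpo (some (y j)) (v i) = hh (y j - v i) - hh (y j + v i) := fun j => rfl
  simp only [e2]
  linarith

theorem LocG_card (i : Fin p) (c : ℝ) :
    ∑ _j ∈ inc s t i, c = dg s t i * c := by
  rw [Finset.sum_const, nsmul_eq_mul, dg]

/-- The other end of an edge. -/
theorem LocG_end (hc : CritG s t r y v) {i o : Fin p} {j : Fin m}
    (h : (s j = i ∧ t j = o) ∨ (t j = i ∧ s j = o)) :
    1 / (r o) ^ 2 ≤ 1 / (10 * dg s t i) ∧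
      1 / (r (s j)) ^ 2 + 1 / (r (t j)) ^ 2 = 1 / (r i) ^ 2 + 1 / (r o) ^ 2 := by
  have hd := locG_dg hc i
  rcases h with ⟨h1, h2⟩ | ⟨h1, h2⟩
  · have h3 := (hc.hn j).1
    subst h1 h2
    exact ⟨one_div_le_one_div_of_le (by linarith) h3, rfl⟩
  · have h3 := (hc.hn j).2
    subst h1 h2
    exact ⟨one_div_le_one_div_of_le (by linarith) h3, add_comm _ _⟩

theorem LocG_inv_dg (hc : CritG s t r y v) (i : Fin p) :
    1 / (r i) ^ 2 ≤ 1 / (100 * dg s t i) := by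
  have hd := locG_dg hc i
  exact one_div_le_one_div_of_le (by linarith) (locG_sq hc i)

theorem locG_sum (hc : CritG s t r y v) (i : Fin p) :
    ∑ j ∈ inc s t i, (1 / (r (s j)) ^ 2 + 1 / (r (t j)) ^ 2) ≤ 11 / 100 := by
  have hd := locG_dg hc i
  have h1 : ∀ j ∈ inc s t i, (1 / (r (s j)) ^ 2 + 1 / (r (t j)) ^ 2) ≤
      11 / (100 * dg s t i) := by
    intro j hj
    have e : (11 : ℝ) / (100 * dg s t i) = 1 / (100 * dg s t i) + 1 / (10 * dg s t i) := by
      field_simp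
      norm_num
    rw [e]
    rcases (mem_inc s t i j).1 hj with h | h
    · have h2 := LocG_end hc (i := i) (o := t j) (j := j) (Or.inl ⟨h, rfl⟩)
      rw [h2.2]
      exact add_le_add (LocG_inv_dg hc i) h2.1
    · have h2 := LocG_end hc (i := i) (o := s j) (j := j) (Or.inr ⟨h, rfl⟩)
      rw [h2.2]
      exact add_le_add (LocG_inv_dg hc i) h2.1
  refine (Finset.sum_le_sum h1).trans (le_of_eq ?_)
  rw [LocG_card]
  field_simp

theorem locG_edge (hc : CritG s t r y v) (j : Fin m) :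
    1 / (r (s j)) ^ 2 + 1 / (r (t j)) ^ 2 ≤ 1 / 50 := LocG_edge hc j

theorem LocG_loss (hc : CritG s t r y v) {i o : Fin p} {j : Fin m}
    (h : (s j = i ∧ t j = o) ∨ (t j = i ∧ s j = o)) :
    loss s t r i j ≤ 573 / 100000 / dg s t o := by
  have hd := locG_dg hc o
  have h' : (s j = o ∧ t j = i) ∨ (t j = o ∧ s j = i) := by tauto
  have h1 := LocG_end hc h'
  have h2 := LocG_inv_dg hc o
  unfold loss
  rw [h1.2]
  have e1 : (21 : ℝ) / 1000 / (r i) ^ 2 = 21 / 1000 * (1 / (r i) ^ 2) := by ring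
  have e2 : (573 : ℝ) / 100000 / dg s t o =
      54 / 1000 * (1 / (10 * dg s t o)) + 33 / 1000 * (1 / (100 * dg s t o)) := by
    field_simp
    norm_num
  rw [e1, e2]
  linarith [h1.1]

/-- The total loss caused by the nodes of `B`. -/
theorem locG_loss (hc : CritG s t r y v) (B : Finset (Fin p)) :
    ∑ i ∈ Bᶜ, ∑ j ∈ inc s t i ∩ EB s t B, loss s t r i j ≤ 58 / 10000 * B.card := by
  classical
  have e1 : ∑ i ∈ Bᶜ, ∑ j ∈ inc s t i ∩ EB s t B, loss s t r i j =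
      ∑ i, ∑ j ∈ inc s t i, (if i ∉ B ∧ j ∈ EB s t B then loss s t r i j else 0) := by
    rw [← Finset.sum_add_sum_compl B (fun i => ∑ j ∈ inc s t i,
      (if i ∉ B ∧ j ∈ EB s t B then loss s t r i j else 0))]
    have z : ∑ i ∈ B, ∑ j ∈ inc s t i,
        (if i ∉ B ∧ j ∈ EB s t B then loss s t r i j else 0) = 0 := by
      refine Finset.sum_eq_zero fun i hi => Finset.sum_eq_zero fun j _ => ?_
      rw [if_neg]
      exact fun h => h.1 hi
    rw [z, zero_add]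
    refine Finset.sum_congr rfl fun i hi => ?_
    have hi' : i ∉ B := Finset.mem_compl.1 hi
    rw [← Finset.sum_filter]
    refine Finset.sum_congr ?_ fun _ _ => rfl
    ext j
    simp only [Finset.mem_inter, Finset.mem_filter]
    tauto
  have e2 : 573 / 100000 * (B.card : ℝ) =
      ∑ i, ∑ j ∈ inc s t i, (if i ∈ B then 573 / 100000 / dg s t i else 0) := by
    have h1 : ∀ i, ∑ j ∈ inc s t i, (if i ∈ B then (573 : ℝ) / 100000 / dg s t i else 0) =
        if i ∈ B then 573 / 100000 else 0 := by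
      intro i
      have hd := locG_dg hc i
      rw [LocG_card]
      split_ifs
      · field_simp
      · ring
    simp only [h1]
    rw [Finset.sum_ite_mem, Finset.univ_inter, Finset.sum_const, nsmul_eq_mul]
    ring
  rw [e1, sum_inc s t hc.st]
  refine le_trans ?_ (mul_le_mul_of_nonneg_right
    (by norm_num : (573 : ℝ) / 100000 ≤ 58 / 10000) (Nat.cast_nonneg B.card))
  rw [e2, sum_inc s t hc.st]
  refine Finset.sum_le_sum fun j _ => ?_
  have p1 : (0 : ℝ) ≤ 573 / 100000 / dg s t (s j) := by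
    have := locG_dg hc (s j)
    positivity
  have p2 : (0 : ℝ) ≤ 573 / 100000 / dg s t (t j) := by
    have := locG_dg hc (t j)
    positivity
  have l1 := LocG_loss hc (i := s j) (o := t j) (j := j) (Or.inl ⟨rfl, rfl⟩)
  have l2 := LocG_loss hc (i := t j) (o := s j) (j := j) (Or.inr ⟨rfl, rfl⟩)
  have hEB : j ∈ EB s t B ↔ s j ∈ B ∨ t j ∈ B := by simp [EB]
  by_cases hs : s j ∈ B <;> by_cases ht : t j ∈ B <;> simp [hEB, hs, ht] <;> linarith

end Pool.Agent.H63.VC7
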