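import Pool.Agent.H63.VC7.BlockRC
import Pool.Agent.H63.VC7.Defs

/-! # The complex volume of the link complement -/

namespace Pool.Agent.H63.VC7

open Pool.Agent.H63.VC hiding ext
open Pool.Agent.H63.VC3 Pool.Agent.H63.VC4 Pool.Agent.H63.VC5 Pool.Agent.H63.VC6 Complex

variable {m p : ℕ}

/-- Exchange of a sum over the nodes and a sum over the edge ends. -/
theorem SumC_swap {R : Type*} [CommRing R] (s t : Fin m → Fin p) (g : Fin p → R)
    (A B : Fin m → R) :
    ∑ i, g i * ∑ j, ((if s j = i then A j else 0) + (if t j = i then B j else 0)) =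
      ∑ j, (g (s j) * A j + g (t j) * B j) := by
  simp only [Finset.mul_sum]
  rw [Finset.sum_comm]
  refine Finset.sum_congr rfl fun j _ => ?_
  simp only [mul_add, Finset.sum_add_distrib, mul_ite, mul_zero]
  simp

/-- The parity of the integer correction. -/
theorem SumC_parity (s t : Fin m → Fin p) (a n : Fin p → ℤ) (al be : Fin m → ℤ)
    (hn : ∀ i, (∑ j, ((if s j = i then 2 * al j + n (t j) + 1 else 0) +
        (if t j = i then -(2 * be j + n (s j) + 1) else 0))) + a i * n i = 2)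
    (f f' : Fin m → Bool)
    (hf : ∀ i, 2 ∣ (∑ j, ((if s j = i ∧ f j = true then (1 : ℤ) else 0) +
        (if t j = i ∧ f' j = true then 1 else 0))) - a i) :
    2 ∣ (∑ j, (n (s j) - n (t j) + bt1 (f j) * (1 + n (s j)) + bt1 (f' j) * (1 + n (t j)))) -
      ∑ i, a i := by
  have h2 : ∀ x : ZMod 2, x + x = 0 := by decide
  have hsq : ∀ x : ZMod 2, x * x = x := by decide
  have hneg : ∀ x : ZMod 2, -x = x := by decide
  have key : ∀ z : ℤ, (z : ZMod 2) = 0 ↔ (2 : ℤ) ∣ z := fun z =>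
    ZMod.intCast_zmod_eq_zero_iff_dvd z 2
  rw [← key]
  have hn' : ∀ i, (∑ j, ((if s j = i then ((n (t j) : ℤ) : ZMod 2) + 1 else 0) +
        (if t j = i then ((n (s j) : ℤ) : ZMod 2) + 1 else 0))) +
        (a i : ZMod 2) * (n i : ZMod 2) = 0 := by
    intro i
    have h := congrArg (fun z : ℤ => (z : ZMod 2)) (hn i)
    have e2 : ((2 : ℤ) : ZMod 2) = 0 := by decide
    replace h := h.trans e2
    refine Eq.trans ?_ h
    push_cast
    congr 1
    refine Finset.sum_congr rfl fun j _ => ?_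
    have e2' : (2 : ZMod 2) = 0 := by decide
    congr 1
    · split_ifs
      · rw [e2']; ring
      · rfl
    · split_ifs
      · rw [e2', hneg]; ring
      · rfl
  have hf' : ∀ i, (∑ j, ((if s j = i then ((bt1 (f j) : ℤ) : ZMod 2) else 0) +
        (if t j = i then ((bt1 (f' j) : ℤ) : ZMod 2) else 0))) = (a i : ZMod 2) := by
    intro i
    have h := (key _).2 (hf i)
    push_cast at h
    rw [sub_eq_zero] at h
    rw [← h]
    refine Finset.sum_congr rfl fun j _ => ?_
    congr 1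
    · by_cases h1 : s j = i <;> by_cases h3 : f j = true <;> simp [h1, h3, bt1]
    · by_cases h1 : t j = i <;> by_cases h3 : f' j = true <;> simp [h1, h3, bt1]
  have A1 : ∑ j, ((n (s j) : ZMod 2) * ((n (t j) : ZMod 2) + 1) +
      (n (t j) : ZMod 2) * ((n (s j) : ZMod 2) + 1)) +
      ∑ i, (n i : ZMod 2) * ((a i : ZMod 2) * (n i : ZMod 2)) = 0 := by
    rw [← SumC_swap s t (fun i => (n i : ZMod 2)), ← Finset.sum_add_distrib]
    refine Finset.sum_eq_zero fun i _ => ?_
    rw [← mul_add, hn' i, mul_zero]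
  have A2 : ∑ j, ((1 + (n (s j) : ZMod 2)) * ((bt1 (f j) : ℤ) : ZMod 2) +
      (1 + (n (t j) : ZMod 2)) * ((bt1 (f' j) : ℤ) : ZMod 2)) =
      ∑ i, (1 + (n i : ZMod 2)) * (a i : ZMod 2) := by
    rw [← SumC_swap s t (fun i => 1 + (n i : ZMod 2))]
    exact Finset.sum_congr rfl fun i _ => by rw [hf' i]
  have A3 : ∑ j, ((n (s j) : ZMod 2) * ((n (t j) : ZMod 2) + 1) +
      (n (t j) : ZMod 2) * ((n (s j) : ZMod 2) + 1)) =
      ∑ j, ((n (s j) : ZMod 2) + (n (t j) : ZMod 2)) := by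
    refine Finset.sum_congr rfl fun j _ => ?_
    have := h2 ((n (s j) : ZMod 2) * (n (t j) : ZMod 2))
    linear_combination this
  have A4 : ∑ i, (n i : ZMod 2) * ((a i : ZMod 2) * (n i : ZMod 2)) =
      ∑ i, (a i : ZMod 2) * (n i : ZMod 2) := by
    refine Finset.sum_congr rfl fun i _ => ?_
    have := hsq (n i : ZMod 2)
    linear_combination (a i : ZMod 2) * this
  rw [A3, A4] at A1
  have A5 : ∑ j, ((n (s j) : ZMod 2) - (n (t j) : ZMod 2)) =
      ∑ j, ((n (s j) : ZMod 2) + (n (t j) : ZMod 2)) := by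
    refine Finset.sum_congr rfl fun j _ => ?_
    rw [sub_eq_add_neg, hneg]
  push_cast
  have e : ∑ j, ((n (s j) : ZMod 2) - (n (t j) : ZMod 2) +
      ((bt1 (f j) : ℤ) : ZMod 2) * (1 + (n (s j) : ZMod 2)) +
      ((bt1 (f' j) : ℤ) : ZMod 2) * (1 + (n (t j) : ZMod 2))) =
      ∑ j, ((n (s j) : ZMod 2) - (n (t j) : ZMod 2)) +
      ∑ j, ((1 + (n (s j) : ZMod 2)) * ((bt1 (f j) : ℤ) : ZMod 2) +
      (1 + (n (t j) : ZMod 2)) * ((bt1 (f' j) : ℤ) : ZMod 2)) := by
    rw [← Finset.sum_add_distrib]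
    exact Finset.sum_congr rfl fun j _ => by ring
  rw [e, A5, A2]
  have e3 : ∑ i, (1 + (n i : ZMod 2)) * (a i : ZMod 2) =
      ∑ i, (a i : ZMod 2) + ∑ i, (a i : ZMod 2) * (n i : ZMod 2) := by
    rw [← Finset.sum_add_distrib]
    exact Finset.sum_congr rfl fun i _ => by ring
  rw [e3]
  linear_combination A1

theorem sum_R (s t : Fin m → Fin p) (a : Fin p → ℤ) (y : Fin m → ℂ) (v : Fin p → ℂ)
    (hc : CritG s t (fun i => (a i : ℝ) / 2) y v) (hl : ∀ j, Loc7 (y j) (v (s j)) (v (t j)))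
    (n : Fin p → ℤ) (al be : Fin m → ℤ)
    (hn : ∀ i, (∑ j, ((if s j = i then 2 * al j + n (t j) + 1 else 0) +
        (if t j = i then -(2 * be j + n (s j) + 1) else 0))) + a i * n i = 2)
    (f f' : Fin m → Bool)
    (hf : ∀ i, 2 ∣ (∑ j, ((if s j = i ∧ f j = true then (1 : ℤ) else 0) +
        (if t j = i ∧ f' j = true then 1 else 0))) - a i) :
    Cg (∑ j, Hyp.blockR (shx (y j) (v (s j)) (v (t j))) (shy (y j) (v (s j)) (v (t j)))
        (FX (y j) (v (s j)) (v (t j)) (n (s j)) (n (t j)) (al j) (be j))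
        (FY (y j) (v (s j)) (v (t j)) (n (s j)) (n (t j)) (al j) (be j)) (f j) (f' j))
      (2 * Real.pi * I * VG s t (fun i => (a i : ℝ) / 2) y v +
        (Real.pi : ℂ) ^ 2 / 2 * ∑ i, (a i : ℂ)) := by
  have h0 := Cg.sum Finset.univ (fun j _ =>
    block_R (hl j) (n (s j)) (n (t j)) (al j) (be j) (f j) (f' j))
  refine h0.trans ?_
  obtain ⟨k, hk⟩ := SumC_parity s t a n al be hn f f' hf
  have hkC := congrArg (fun z : ℤ => (z : ℂ)) hk
  push_cast at hkC
  -- the meridian terms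
  have hev : ∀ i, ∑ j ∈ inc s t i, (hh (y j - v i) - hh (y j + v i)) =
      -(2 * Real.pi * I * (a i * v i + 1)) := by
    intro i
    have h := hc.ev i
    push_cast at h
    linear_combination h
  have B1 : ∑ j, ((2 * Real.pi * I * v (s j) + n (s j) * (Real.pi * I)) / 2 *
        (hh (y j - v (s j)) - hh (y j + v (s j))) +
        (2 * Real.pi * I * v (t j) + n (t j) * (Real.pi * I)) / 2 *
        (hh (y j - v (t j)) - hh (y j + v (t j)))) =
      ∑ i, (Real.pi : ℂ) ^ 2 * ((2 * v i + n i) * (a i * v i + 1)) := by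
    rw [← sum_inc s t hc.st (fun i j => (2 * Real.pi * I * v i + n i * (Real.pi * I)) / 2 *
        (hh (y j - v i) - hh (y j + v i)))]
    refine Finset.sum_congr rfl fun i _ => ?_
    rw [← Finset.mul_sum, hev i]
    linear_combination (-(Real.pi : ℂ) ^ 2 * (2 * v i + n i) * (a i * v i + 1)) * I_sq
  have hnC : ∀ i, ∑ j, ((if s j = i then (2 * (al j : ℂ) + n (t j) + 1) else 0) +
        (if t j = i then (-(2 * (be j : ℂ) + n (s j) + 1)) else 0)) = 2 - a i * n i := by
    intro i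
    have h := congrArg (fun z : ℤ => (z : ℂ)) (hn i)
    push_cast at h
    linear_combination h
  have B2 : ∑ j, ((2 * (al j : ℂ) + n (t j) + 1) * v (s j) -
      (2 * (be j : ℂ) + n (s j) + 1) * v (t j)) = ∑ i, v i * (2 - a i * n i) := by
    have h := SumC_swap s t v (fun j => 2 * (al j : ℂ) + n (t j) + 1)
      (fun j => -(2 * (be j : ℂ) + n (s j) + 1))
    have e : ∑ j, ((2 * (al j : ℂ) + n (t j) + 1) * v (s j) -
      (2 * (be j : ℂ) + n (s j) + 1) * v (t j)) =
      ∑ j, (v (s j) * (2 * (al j : ℂ) + n (t j) + 1) +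
        v (t j) * (-(2 * (be j : ℂ) + n (s j) + 1))) :=
      Finset.sum_congr rfl fun j _ => by ring
    rw [e, ← h]
    exact Finset.sum_congr rfl fun i _ => by rw [hnC i]
  have B3 : VG s t (fun i => (a i : ℝ) / 2) y v =
      ∑ j, (4 * ff (y j + 1 / 2) - ff (y j - v (s j)) - ff (y j + v (s j)) -
        ff (y j - v (t j)) - ff (y j + v (t j))) +
      ∑ i, 2 * Real.pi * I * (a i / 2 * v i ^ 2 + v i) := by
    have h := sum_inc s t hc.st (fun i j => -ff (y j - v i) - ff (y j + v i))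
    simp only [VG, WG, po, Finset.sum_add_distrib]
    rw [h]
    push_cast
    rw [← add_assoc, add_right_comm, ← Finset.sum_add_distrib]
    congr 1
    exact Finset.sum_congr rfl fun j _ => by ring
  -- assembly
  refine ⟨k - ∑ i, n i, ?_⟩
  have C1 : ∑ j, (2 * Real.pi * I * (4 * ff (y j + 1 / 2) - ff (y j - v (s j)) -
        ff (y j + v (s j)) - ff (y j - v (t j)) - ff (y j + v (t j))) -
        (2 * Real.pi * I * v (s j) + n (s j) * (Real.pi * I)) / 2 *
          (hh (y j - v (s j)) - hh (y j + v (s j))) -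
        (2 * Real.pi * I * v (t j) + n (t j) * (Real.pi * I)) / 2 *
          (hh (y j - v (t j)) - hh (y j + v (t j))) -
        (Real.pi : ℂ) ^ 2 * ((2 * al j + n (t j) + 1) * v (s j) -
          (2 * be j + n (s j) + 1) * v (t j)) +
        (Real.pi : ℂ) ^ 2 / 2 * (n (s j) - n (t j) + bt1 (f j) * (1 + n (s j)) +
          bt1 (f' j) * (1 + n (t j)))) =
      2 * Real.pi * I * ∑ j, (4 * ff (y j + 1 / 2) - ff (y j - v (s j)) -
        ff (y j + v (s j)) - ff (y j - v (t j)) - ff (y j + v (t j))) -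
      ∑ j, ((2 * Real.pi * I * v (s j) + n (s j) * (Real.pi * I)) / 2 *
        (hh (y j - v (s j)) - hh (y j + v (s j))) +
        (2 * Real.pi * I * v (t j) + n (t j) * (Real.pi * I)) / 2 *
        (hh (y j - v (t j)) - hh (y j + v (t j)))) -
      (Real.pi : ℂ) ^ 2 * ∑ j, ((2 * (al j : ℂ) + n (t j) + 1) * v (s j) -
        (2 * (be j : ℂ) + n (s j) + 1) * v (t j)) +
      (Real.pi : ℂ) ^ 2 / 2 * ∑ j, ((n (s j) : ℂ) - n (t j) + bt1 (f j) * (1 + n (s j)) +
          bt1 (f' j) * (1 + n (t j))) := by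
    rw [Finset.mul_sum, Finset.mul_sum, Finset.mul_sum, ← Finset.sum_sub_distrib,
      ← Finset.sum_sub_distrib, ← Finset.sum_add_distrib]
    exact Finset.sum_congr rfl fun j _ => by ring
  rw [C1, B1, B2, B3]
  have C2 : ∑ i, (Real.pi : ℂ) ^ 2 * ((2 * v i + n i) * (a i * v i + 1)) +
      (Real.pi : ℂ) ^ 2 * ∑ i, v i * (2 - a i * n i) +
      2 * Real.pi * I * ∑ i, 2 * Real.pi * I * (a i / 2 * v i ^ 2 + v i) =
      (Real.pi : ℂ) ^ 2 * ∑ i, (n i : ℂ) := by
    rw [Finset.mul_sum, Finset.mul_sum, Finset.mul_sum, ← Finset.sum_add_distrib,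
      ← Finset.sum_add_distrib]
    refine Finset.sum_congr rfl fun i _ => ?_
    linear_combination (4 * (Real.pi : ℂ) ^ 2 * (a i / 2 * v i ^ 2 + v i)) * I_sq
  push_cast
  linear_combination (Real.pi : ℂ) ^ 2 / 2 * hkC - C2

end Pool.Agent.H63.VC7
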