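import Pool.Agent.H63.VC7.Defs

/-! # Existence of the integers of the flattening -/

namespace Pool.Agent.H63.VC7

variable {m p : ℕ}

lemma WuC_quad (B : Matrix (Fin p) (Fin p) (ZMod 2)) (hB : B.IsSymm) (z : Fin p → ZMod 2) :
    ∑ i, ∑ j, z i * (B i j * z j) = ∑ i, z i * B i i := by
  classical
  have h1 : ∀ i, ∑ j, z i * (B i j * z j) =
      z i * B i i + ∑ j ∈ Finset.univ.erase i, z i * (B i j * z j) := by
    intro i
    rw [← Finset.add_sum_erase _ _ (Finset.mem_univ i)]
    congr 1
    have h2 : ∀ x y : ZMod 2, x * (y * x) = x * y := by decide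
    exact h2 _ _
  simp only [h1]
  rw [Finset.sum_add_distrib]
  have h3 : ∑ i, ∑ j ∈ Finset.univ.erase i, z i * (B i j * z j) = 0 := by
    rw [Finset.sum_sigma']
    refine Finset.sum_involution (fun q _ => ⟨q.2, q.1⟩) ?_ ?_ ?_ ?_
    · rintro ⟨i, j⟩ -
      have h4 : B j i = B i j := hB.apply i j
      simp only [h4]
      have h5 : ∀ x y w : ZMod 2, x * (y * w) + w * (y * x) = 0 := by decide
      exact h5 _ _ _
    · rintro ⟨i, j⟩ hq - h
      simp only [Finset.mem_sigma, Finset.mem_erase] at hq
      have := congrArg Sigma.fst h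
      exact hq.2.1 this
    · rintro ⟨i, j⟩ hq
      simp only [Finset.mem_sigma, Finset.mem_erase, Finset.mem_univ, true_and, and_true] at hq ⊢
      exact fun h => hq h.symm
    · rintro ⟨i, j⟩ -
      rfl
  rw [h3, add_zero]

/-- The diagonal of a symmetric matrix over the field with two elements is in its range. -/
theorem wu_matrix (B : Matrix (Fin p) (Fin p) (ZMod 2)) (hB : B.IsSymm) :
    ∃ x : Fin p → ZMod 2, B.mulVec x = fun i => B i i := by
  classical
  by_contra hcon
  have hnot : (fun i => B i i) ∉ LinearMap.range B.mulVecLin := by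
    rintro ⟨x, hx⟩
    exact hcon ⟨x, hx⟩
  obtain ⟨φ, h1, h2⟩ := Submodule.exists_le_ker_of_notMem hnot
  set z : Fin p → ZMod 2 := fun i => φ (Pi.single i 1) with hz
  have hφ : ∀ v : Fin p → ZMod 2, φ v = ∑ i, v i * z i := by
    intro v
    conv_lhs => rw [pi_eq_sum_univ v, map_sum]
    refine Finset.sum_congr rfl fun i _ => ?_
    rw [map_smul, smul_eq_mul]
    congr 2
    funext j
    by_cases h : i = j
    · subst h; simp
    · simp [h, Ne.symm h]
  have h3 : φ (B.mulVec z) = 0 := by
    have : B.mulVec z ∈ LinearMap.range B.mulVecLin := ⟨z, rfl⟩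
    exact h2 this
  apply h1
  rw [hφ, ← h3, hφ]
  have h4 := WuC_quad B hB z
  calc ∑ i, B i i * z i = ∑ i, z i * B i i := Finset.sum_congr rfl fun i _ => mul_comm _ _
    _ = ∑ i, ∑ j, z i * (B i j * z j) := h4.symm
    _ = _ := by
      refine Finset.sum_congr rfl fun i _ => ?_
      rw [Matrix.mulVec, dotProduct, mul_comm, Finset.mul_sum]

lemma WuC_choice (s t : Fin m → Fin p) (hst : ∀ j, s j ≠ t j)
    (hne : ∀ i, (inc s t i).Nonempty) :
    ∃ e : Fin p → Fin m, ∀ (i : Fin p) (c : ℤ),
      ∑ j, ((if s j = i ∧ e (s j) = j then c else 0) +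
        (if t j = i ∧ e (t j) = j then c else 0)) = c := by
  choose e he using hne
  refine ⟨e, fun i c => ?_⟩
  rw [Finset.sum_eq_single (e i)]
  · have h1 := (mem_inc s t i (e i)).1 (he i)
    rcases h1 with h1 | h1
    · have h2 : ¬ t (e i) = i := fun h => hst (e i) (h1.trans h.symm)
      simp [h1, h2]
    · have h2 : ¬ s (e i) = i := fun h => hst (e i) (h.trans h1.symm)
      simp [h1, h2]
  · intro j _ hj
    have h1 : ¬ (s j = i ∧ e (s j) = j) := by
      rintro ⟨rfl, h⟩
      exact hj h.symm
    have h2 : ¬ (t j = i ∧ e (t j) = j) := by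
      rintro ⟨rfl, h⟩
      exact hj h.symm
    simp [h1, h2]
  · simp

theorem wu_exists (s t : Fin m → Fin p) (hst : ∀ j, s j ≠ t j)
    (hne : ∀ i, (inc s t i).Nonempty) (a : Fin p → ℤ) :
    ∃ (n : Fin p → ℤ) (al be : Fin m → ℤ), ∀ i,
      (∑ j, ((if s j = i then 2 * al j + n (t j) + 1 else 0) +
        (if t j = i then -(2 * be j + n (s j) + 1) else 0))) + a i * n i = 2 := by
  classical
  set B : Matrix (Fin p) (Fin p) (ZMod 2) := fun i k =>
    (∑ j, ((if s j = i ∧ t j = k then 1 else 0) + (if t j = i ∧ s j = k then 1 else 0))) +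
      (if i = k then (a i : ZMod 2) else 0) with hBdef
  have hB : B.IsSymm := by
    ext i k
    rw [Matrix.transpose_apply]
    simp only [hBdef]
    congr 1
    · refine Finset.sum_congr rfl fun j _ => ?_
      rw [add_comm]
      congr 1
      · simp only [and_comm]
      · simp only [and_comm]
    · by_cases h : i = k
      · subst h; rfl
      · simp [h, Ne.symm h]
  obtain ⟨x, hx⟩ := wu_matrix B hB
  have hx' : ∀ i, (∑ j, ((if s j = i then x (t j) else 0) + (if t j = i then x (s j) else 0))) +
      a i * x i = a i := by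
    intro i
    have h1 := congrFun hx i
    have h2 : B i i = a i := by
      simp only [hBdef]
      have h3 : ∀ j, ((if s j = i ∧ t j = i then (1 : ZMod 2) else 0) +
          (if t j = i ∧ s j = i then 1 else 0)) = 0 := by
        intro j
        have h4 : ¬ (s j = i ∧ t j = i) := fun h => hst j (h.1.trans h.2.symm)
        have h5 : ¬ (t j = i ∧ s j = i) := fun h => hst j (h.2.trans h.1.symm)
        simp [h4, h5]
      simp [h3]
    rw [h2] at h1
    conv_rhs => rw [← h1, Matrix.mulVec, dotProduct]
    simp only [hBdef, add_mul, Finset.sum_add_distrib, Finset.sum_mul]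
    congr 1
    · congr 1
      · rw [Finset.sum_comm]
        refine Finset.sum_congr rfl fun j _ => ?_
        by_cases h : s j = i
        · simp [h]
        · simp [h]
      · rw [Finset.sum_comm]
        refine Finset.sum_congr rfl fun j _ => ?_
        by_cases h : t j = i
        · simp [h]
        · simp [h]
    · simp
  set n : Fin p → ℤ := fun i => ((1 + x i).val : ℤ) with hn
  have hncast : ∀ i, ((n i : ℤ) : ZMod 2) = 1 + x i := by
    intro i
    simp [hn]
  set S : Fin p → ℤ := fun i => (∑ j, ((if s j = i then n (t j) + 1 else 0) +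
        (if t j = i then -(n (s j) + 1) else 0))) + a i * n i with hS
  have hSe : ∀ i, (2 : ℤ) ∣ 2 - S i := by
    intro i
    have h2 : (2 : ℤ) ∣ S i := by
      have h3 : ((S i : ℤ) : ZMod 2) = 0 := by
        simp only [hS]
        push_cast
        have h4 : ∀ j, ((if s j = i then ((n (t j) : ℤ) : ZMod 2) + 1 else 0) +
            (if t j = i then -(((n (s j) : ℤ) : ZMod 2) + 1) else 0)) =
            ((if s j = i then x (t j) else 0) + (if t j = i then x (s j) else 0)) := by
          intro j
          rw [hncast, hncast]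
          have h5 : ∀ y : ZMod 2, 1 + y + 1 = y := by decide
          have h6 : ∀ y : ZMod 2, -(1 + y + 1) = y := by decide
          rw [h5, h6]
        rw [Finset.sum_congr rfl fun j _ => h4 j, hncast]
        have h7 := hx' i
        have h8 : ∀ u v w : ZMod 2, u + v * w = v → u + v * (1 + w) = 0 := by decide
        exact h8 _ _ _ h7
      exact (ZMod.intCast_zmod_eq_zero_iff_dvd (S i) 2).1 h3
    exact dvd_sub (dvd_refl _) h2
  choose c hc using hSe
  obtain ⟨e, he⟩ := WuC_choice s t hst hne
  refine ⟨n, fun j => if e (s j) = j then c (s j) else 0,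
    fun j => -(if e (t j) = j then c (t j) else 0), fun i => ?_⟩
  have h1 := he i (2 * c i)
  have h2 : (∑ j, ((if s j = i then 2 * (if e (s j) = j then c (s j) else 0) + n (t j) + 1
      else 0) + (if t j = i then
        -(2 * -(if e (t j) = j then c (t j) else 0) + n (s j) + 1) else 0))) =
      (∑ j, ((if s j = i ∧ e (s j) = j then 2 * c i else 0) +
        (if t j = i ∧ e (t j) = j then 2 * c i else 0))) +
      ∑ j, ((if s j = i then n (t j) + 1 else 0) +
        (if t j = i then -(n (s j) + 1) else 0)) := by
    rw [← Finset.sum_add_distrib]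
    refine Finset.sum_congr rfl fun j _ => ?_
    have h3 : (if s j = i then 2 * (if e (s j) = j then c (s j) else 0) + n (t j) + 1
        else 0) = (if s j = i ∧ e (s j) = j then 2 * c i else 0) +
        (if s j = i then n (t j) + 1 else 0) := by
      by_cases h : s j = i
      · subst h
        by_cases h' : e (s j) = j
        · simp [h']; ring
        · simp [h']
      · simp [h]
    have h4 : (if t j = i then -(2 * -(if e (t j) = j then c (t j) else 0) + n (s j) + 1)
        else 0) = (if t j = i ∧ e (t j) = j then 2 * c i else 0) +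
        (if t j = i then -(n (s j) + 1) else 0) := by
      by_cases h : t j = i
      · subst h
        by_cases h' : e (t j) = j
        · simp [h']; ring
        · simp [h']
      · simp [h]
    rw [h3, h4]
    ring
  rw [h2, h1]
  have h5 := hc i
  simp only [hS] at h5
  linarith

/-- Half twists at the nodes of odd weight. -/
theorem flip_exists (s t : Fin m → Fin p) (hst : ∀ j, s j ≠ t j)
    (hne : ∀ i, (inc s t i).Nonempty) (a : Fin p → ℤ) :
    ∃ f f' : Fin m → Bool, ∀ i,
      2 ∣ (∑ j, ((if s j = i ∧ f j = true then (1 : ℤ) else 0) +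
        (if t j = i ∧ f' j = true then 1 else 0))) - a i := by
  classical
  obtain ⟨e, he⟩ := WuC_choice s t hst hne
  refine ⟨fun j => decide (e (s j) = j ∧ a (s j) % 2 = 1),
    fun j => decide (e (t j) = j ∧ a (t j) % 2 = 1), fun i => ?_⟩
  have h1 : (∑ j, ((if s j = i ∧ decide (e (s j) = j ∧ a (s j) % 2 = 1) = true
      then (1 : ℤ) else 0) +
        (if t j = i ∧ decide (e (t j) = j ∧ a (t j) % 2 = 1) = true then 1 else 0))) =
      a i % 2 := by
    rw [← he i (a i % 2)]
    refine Finset.sum_congr rfl fun j _ => ?_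
    have h2 : a i % 2 = 0 ∨ a i % 2 = 1 := by omega
    congr 1
    · by_cases h : s j = i
      · subst h
        by_cases h' : e (s j) = j
        · rcases h2 with h2 | h2 <;> simp [h', h2]
        · simp [h']
      · simp [h]
    · by_cases h : t j = i
      · subst h
        by_cases h' : e (t j) = j
        · rcases h2 with h2 | h2 <;> simp [h', h2]
        · simp [h']
      · simp [h]
  rw [h1]
  omega

end Pool.Agent.H63.VC7
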