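import Pool.Agent.H63.VC7.CritGA
import Pool.Agent.H63.VC4.CritNB

/-! # Existence of the critical point, with its location -/

namespace Pool.Agent.H63.VC7

open Pool.Agent.H63.VC hiding ext
open Pool.Agent.H63.VC3 Pool.Agent.H63.VC4 Pool.Agent.H63.VC6 Complex

variable {m p : ℕ}

lemma CritGB_v_small {a : ℝ} (ha : 1 ≤ a) {r : ℝ} (hr : 10 * a ≤ |r|) {v : ℂ}
    (hv : ‖v + 1 / (2 * r)‖ ≤ a / (2 * r ^ 2)) :
    ‖v‖ ≤ 55 / 1000 ∧ ‖v‖ ^ 2 ≤ 3025 / 10000 * (1 / r ^ 2) := by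
  have hpos : 0 < |r| := by linarith
  have e : v = (v + 1 / (2 * r)) - 1 / (2 * r) := by ring
  have n1 : ‖(1 : ℂ) / (2 * r)‖ = 1 / (2 * |r|) := by
    rw [norm_div, norm_one, norm_mul, Complex.norm_real, Real.norm_eq_abs]
    norm_num
  have h1 : ‖v‖ ≤ a / (2 * r ^ 2) + 1 / (2 * |r|) := by
    conv_lhs => rw [e]
    refine (norm_sub_le _ _).trans ?_
    rw [n1]; linarith
  have h2 : a / (2 * r ^ 2) + 1 / (2 * |r|) ≤ 55 / 100 / |r| := by
    rw [← sq_abs r]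
    have : a / (2 * |r| ^ 2) ≤ 5 / 100 / |r| := by
      rw [div_le_div_iff₀ (by positivity) hpos]
      nlinarith
    have e3 : 1 / (2 * |r|) = 50 / 100 / |r| := by field_simp; norm_num
    have e4 : 55 / 100 / |r| = 5 / 100 / |r| + 50 / 100 / |r| := by ring
    rw [e4, e3]
    linarith
  have h3 : 55 / 100 / |r| ≤ 55 / 1000 := by
    rw [div_le_iff₀ hpos]; linarith
  have h4 := h1.trans h2
  refine ⟨h4.trans h3, ?_⟩
  have h5 : ‖v‖ ^ 2 ≤ (55 / 100 / |r|) ^ 2 := by gcongr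
  refine h5.trans (le_of_eq ?_)
  rw [div_pow, sq_abs]
  ring

lemma CritGB_v (r : ℝ) {a : ℝ} (ha : 1 ≤ a) (hr : 10 * a ≤ |r|) {v D F : ℂ}
    (hF : ‖F - a * Real.pi‖ ≤ 2195 / 10000 * a)
    (herr : ‖D + 2 * v * F‖ ≤ 3429 / 10000 * a * ‖v‖)
    (hDev : 2 * Real.pi * I * (2 * r * v + 1) + D = 0) :
    ‖v + 1 / (2 * r)‖ ≤ 3 / 10 * a / r ^ 2 ∧ 0 < v.im := by
  have hp1 := Real.pi_gt_d4
  have hp2 := Real.pi_lt_d4
  set ρ : ℝ := |r| with hρ
  have hρ10 : 10 ≤ ρ := by linarith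
  have hρ2 : r ^ 2 = ρ ^ 2 := by rw [hρ, sq_abs]
  have hr0 : (r : ℂ) ≠ 0 := by
    intro h
    have : r = 0 := by exact_mod_cast h
    rw [hρ, this] at hρ10
    norm_num at hρ10
  have hnr : ‖(r : ℂ)‖ = ρ := by rw [hρ, Complex.norm_real, Real.norm_eq_abs]
  rw [hρ2]
  set δ : ℝ := ‖v + 1 / (2 * r)‖ with hδ
  have hδ0 : 0 ≤ δ := norm_nonneg _
  have hn1 : ‖(1 / (2 * r) : ℂ)‖ = 1 / (2 * ρ) := by
    rw [norm_div, norm_mul, hnr]
    simp
  have hvn : ‖v‖ ≤ δ + 1 / (2 * ρ) := by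
    have : v = (v + 1 / (2 * r)) - 1 / (2 * r) := by ring
    calc ‖v‖ = ‖(v + 1 / (2 * r)) - 1 / (2 * r)‖ := by rw [← this]
      _ ≤ _ := (norm_sub_le _ _).trans (by rw [hn1])
  have hv0 := norm_nonneg v
  have hFn : ‖F‖ ≤ 33611 / 10000 * a := by
    have : F = (F - a * Real.pi) + a * Real.pi := by ring
    rw [this]
    refine (norm_add_le _ _).trans ?_
    rw [norm_mul, norm_real, norm_real, Real.norm_eq_abs, Real.norm_eq_abs,
      abs_of_pos Real.pi_pos, abs_of_pos (by linarith : 0 < a)]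
    nlinarith
  have hDn : ‖D‖ ≤ 70652 / 10000 * a * ‖v‖ := by
    have e : D = (D + 2 * v * F) - 2 * v * F := by ring
    rw [e]
    refine (norm_sub_le _ _).trans ?_
    have h1 : ‖2 * v * F‖ ≤ 2 * ‖v‖ * (33611 / 10000 * a) := by
      rw [norm_mul, norm_mul]
      simp only [Complex.norm_ofNat]
      exact mul_le_mul_of_nonneg_left hFn (by positivity)
    have h2 : 0 ≤ a * ‖v‖ := by positivity
    linarith
  have hrel : (v + 1 / (2 * r)) * (4 * Real.pi * I * r) = -D := by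
    have h2 : (1 / (2 * r) : ℂ) * (4 * Real.pi * I * r) = 2 * Real.pi * I := by
      field_simp
      ring
    linear_combination hDev + h2
  have hδD : δ * (4 * Real.pi * ρ) ≤ 70652 / 10000 * a * ‖v‖ := by
    have h1 : ‖(v + 1 / (2 * r)) * (4 * Real.pi * I * r)‖ = δ * (4 * Real.pi * ρ) := by
      rw [norm_mul, norm_mul, norm_mul, norm_mul, hnr, norm_real, Real.norm_eq_abs,
        abs_of_pos Real.pi_pos, ← hδ]
      simp only [Complex.norm_ofNat, Complex.norm_I, mul_one]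
    rw [← h1, hrel, norm_neg]
    exact hDn
  have hδa : a * (δ * ρ) * 10 ≤ δ * ρ ^ 2 := by
    have : 0 ≤ δ * ρ := by positivity
    nlinarith
  have hδ3 : δ * ρ ^ 2 ≤ 3 / 10 * a := by
    have h1 : δ * (4 * Real.pi * ρ) * ρ ≤ 70652 / 10000 * a * (δ + 1 / (2 * ρ)) * ρ := by
      apply mul_le_mul_of_nonneg_right (hδD.trans _) (by linarith)
      exact mul_le_mul_of_nonneg_left hvn (by positivity)
    have h2 : 70652 / 10000 * a * (δ + 1 / (2 * ρ)) * ρ =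
        70652 / 10000 * (a * (δ * ρ)) + 35326 / 10000 * a := by
      field_simp
      ring
    rw [h2] at h1
    have h4 : 125660 / 10000 * (δ * ρ ^ 2) ≤ δ * (4 * Real.pi * ρ) * ρ := by
      have h5 : 0 ≤ δ * ρ ^ 2 := by positivity
      nlinarith
    linarith
  have hδ3' : δ ≤ 3 / 10 * a / ρ ^ 2 := by
    rw [le_div_iff₀ (by positivity)]
    exact hδ3
  refine ⟨hδ3', ?_⟩
  -- the product r D
  have hδρ : δ * ρ ≤ 3 / 100 := by
    have h1 : a * (δ * ρ) * 10 ≤ 3 / 10 * a := hδa.trans hδ3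
    have h2 : a * (δ * ρ * 10 - 3 / 10) ≤ 0 := by linarith
    by_contra hcon
    rw [not_le] at hcon
    nlinarith
  have hvρ : ρ * ‖v‖ ≤ 53 / 100 := by
    have h1 : ρ * ‖v‖ ≤ ρ * (δ + 1 / (2 * ρ)) := mul_le_mul_of_nonneg_left hvn (by linarith)
    have h2 : ρ * (δ + 1 / (2 * ρ)) = δ * ρ + 1 / 2 := by
      field_simp
    linarith
  have hT : ‖r * D - a * Real.pi‖ ≤ 61 / 100 * a := by
    have e : r * D - a * Real.pi = (F - a * Real.pi) - (2 * r) * (v + 1 / (2 * r)) * F +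
        r * (D + 2 * v * F) := by
      field_simp
      ring
    rw [e]
    refine (norm_add_le _ _).trans ((add_le_add_left (norm_sub_le _ _) _).trans ?_)
    have h1 : ‖(2 * r) * (v + 1 / (2 * r)) * F‖ ≤ 2 * (δ * ρ) * (33611 / 10000 * a) := by
      rw [norm_mul, norm_mul, norm_mul, hnr]
      simp only [Complex.norm_ofNat]
      calc 2 * ρ * ‖v + 1 / (2 * r)‖ * ‖F‖ ≤ 2 * ρ * δ * (33611 / 10000 * a) :=
            mul_le_mul_of_nonneg_left hFn (by positivity)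
        _ = _ := by ring
    have h2 : ‖r * (D + 2 * v * F)‖ ≤ 3429 / 10000 * a * (ρ * ‖v‖) := by
      rw [norm_mul, hnr]
      calc ρ * ‖D + 2 * v * F‖ ≤ ρ * (3429 / 10000 * a * ‖v‖) :=
            mul_le_mul_of_nonneg_left herr (by linarith)
        _ = _ := by ring
    have h3 : 2 * (δ * ρ) * (33611 / 10000 * a) ≤ 2 * (3 / 100) * (33611 / 10000 * a) := by
      gcongr
    have h4 : 3429 / 10000 * a * (ρ * ‖v‖) ≤ 3429 / 10000 * a * (53 / 100) := by gcongr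
    linarith
  have hvT : (v + 1 / (2 * r)) * (4 * Real.pi * ρ ^ 2 : ℝ) = I * (r * D) := by
    have h2 : D = -((v + 1 / (2 * r)) * (4 * Real.pi * I * r)) := by rw [hrel, neg_neg]
    have h3 : ((ρ ^ 2 : ℝ) : ℂ) = (r : ℂ) ^ 2 := by rw [← hρ2]; push_cast; ring
    have h4 : ((4 * Real.pi * ρ ^ 2 : ℝ) : ℂ) = 4 * Real.pi * (r : ℂ) ^ 2 := by
      rw [← h3]; push_cast; ring
    rw [h4, h2]
    linear_combination ((v + 1 / (2 * r)) * (4 * Real.pi * (r : ℂ) ^ 2)) * I_sq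
  have hTre := abs_le.1 ((abs_re_le_norm (r * D - a * Real.pi)).trans hT)
  rw [← ofReal_mul] at hTre
  simp only [sub_re, ofReal_re] at hTre
  have hreal : (1 / (2 * r) : ℂ) = ((1 / (2 * r) : ℝ) : ℂ) := by push_cast; ring
  have h1 := congrArg Complex.im hvT
  rw [hreal] at h1
  simp only [im_mul_ofReal, add_im, ofReal_im, add_zero, I_mul_im] at h1
  have hK : 0 < 4 * Real.pi * ρ ^ 2 := by positivity
  by_contra hcon
  rw [not_lt] at hcon
  have : v.im * (4 * Real.pi * ρ ^ 2) ≤ 0 := mul_nonpos_of_nonpos_of_nonneg hcon hK.le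
  nlinarith [hTre.1]

theorem critG_exists (s t : Fin m → Fin p) (hst : ∀ j, s j ≠ t j)
    (hne : ∀ i, (inc s t i).Nonempty) (r : Fin p → ℝ) (hr : ∀ i, 10 * dg s t i ≤ |r i|)
    (hn : ∀ j, 10 * dg s t (s j) ≤ (r (t j)) ^ 2 ∧ 10 * dg s t (t j) ≤ (r (s j)) ^ 2) :
    ∃ (y : Fin m → ℂ) (v : Fin p → ℂ), CritG s t r y v := by
  obtain ⟨y, v, ey, ev, hy, hv⟩ := critG_contraction s t hst hne r hr
  have hdg : ∀ i, 1 ≤ dg s t i := by
    intro i
    unfold dg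
    exact_mod_cast Finset.card_pos.2 (hne i)
  have hsm := fun i => CritGB_v_small (hdg i) (hr i) (hv i)
  have hbd : ∀ j, ‖y j - 1 / 4‖ ≤ 3 / 10 * (1 / (r (s j)) ^ 2 + 1 / (r (t j)) ^ 2) := fun j =>
    CritNB_y (ey j) (hy j) (hsm _).1 (hsm _).1 (hsm _).2 (hsm _).2
  have hss : ∀ j, 1 / (r (s j)) ^ 2 + 1 / (r (t j)) ^ 2 ≤ 1 / 50 := by
    have h1 : ∀ i, 1 / (r i) ^ 2 ≤ 1 / 100 := by
      intro i
      have h2 := hr i
      have h3 := hdg i
      have h4 : (10 : ℝ) ≤ |r i| := by linarith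
      have h5 : (100 : ℝ) ≤ (r i) ^ 2 := by
        rw [← sq_abs]; nlinarith
      exact one_div_le_one_div_of_le (by norm_num) h5
    intro j
    have h6 := h1 (s j)
    have h7 := h1 (t j)
    linarith
  have hy1 : ∀ j, ‖y j - 1 / 4‖ ≤ 1 / 100 := fun j => (hbd j).trans (by linarith [hss j])
  have hvv : ∀ i, ‖v i + 1 / (2 * r i)‖ ≤ 3 / 10 * dg s t i / (r i) ^ 2 ∧ 0 < (v i).im := by
    intro i
    have hslot : ∀ j, ∃ F : ℂ, ‖F - Real.pi‖ ≤ 2195 / 10000 ∧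
        ‖(hh (y j - v i) - hh (y j + v i)) + 2 * v i * F‖ ≤ 3429 / 10000 * ‖v i‖ := by
      intro j
      obtain ⟨F, h1, h2⟩ := CritNB_slot (some (y j)) (v := v i) (fun z hz => by
        cases hz
        exact hy1 j) (hsm i).1
      rw [ns_some] at h1 h2
      refine ⟨F, ?_, ?_⟩
      · simpa using h1
      · simpa [dpo] using h2
    choose F hF1 hF2 using hslot
    refine CritGB_v (r i) (D := ∑ j ∈ inc s t i, (hh (y j - v i) - hh (y j + v i)))
      (F := ∑ j ∈ inc s t i, F j) (hdg i) (hr i) ?_ ?_ (ev i)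
    · have e : (∑ j ∈ inc s t i, F j) - (dg s t i : ℝ) * (Real.pi : ℂ) =
          ∑ j ∈ inc s t i, (F j - Real.pi) := by
        rw [Finset.sum_sub_distrib, Finset.sum_const, dg, nsmul_eq_mul]
        push_cast
        rfl
      rw [e]
      refine (norm_sum_le _ _).trans ((Finset.sum_le_sum fun j _ => hF1 j).trans ?_)
      rw [Finset.sum_const, nsmul_eq_mul, dg]
      linarith
    · have e : (∑ j ∈ inc s t i, (hh (y j - v i) - hh (y j + v i))) +
          2 * v i * ∑ j ∈ inc s t i, F j =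
          ∑ j ∈ inc s t i, ((hh (y j - v i) - hh (y j + v i)) + 2 * v i * F j) := by
        rw [Finset.sum_add_distrib, Finset.mul_sum]
      rw [e]
      refine (norm_sum_le _ _).trans ((Finset.sum_le_sum fun j _ => hF2 j).trans ?_)
      rw [Finset.sum_const, nsmul_eq_mul, dg]
      linarith
  exact ⟨y, v, ⟨hst, hne, hr, hn, ey, ev, hbd, fun i => (hvv i).1, fun i => (hvv i).2⟩⟩

end Pool.Agent.H63.VC7
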