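import Pool.Agent.H63.VC4.KAnN
import Pool.Agent.H63.VC7.Defs

/-! # Regularity and bounds of the integrand -/

namespace Pool.Agent.H63.VC7

open Pool.Agent.H63.VC hiding ext
open Pool.Agent.H63.VC3 Pool.Agent.H63.VC4 Pool.Agent.H63.VC6 Complex

variable {m p : ℕ}

theorem GNan_okS {y v : ℂ} (hy : |y.re - 1 / 4| ≤ 55 / 1000) (hv : |v.re| ≤ 15 / 100) :
    okS v (some y) := by
  intro y' hy'
  obtain rfl : y = y' := Option.some.inj hy'
  have h1 := abs_le.1 hy
  have h2 := abs_le.1 hv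
  rw [Complex.sub_re, Complex.add_re]
  refine ⟨?_, ?_, ?_, ?_⟩ <;> linarith [h1.1, h1.2, h2.1, h2.2]

theorem GNan_re {y : ℂ} (hy : |y.re - 1 / 4| ≤ 55 / 1000) : 1 / 10 ≤ y.re ∧ y.re ≤ 4 / 10 := by
  have h1 := abs_le.1 hy
  constructor <;> linarith [h1.1, h1.2]

theorem KG_odd (r : ℝ) (M : ℕ) (A : Finset (Fin m)) (y : Fin m → ℂ) (v : ℂ) :
    KG r M A y (-v) = -KG r M A y v := by
  unfold KG
  simp only [KAnN_Qo_neg]
  have h1 : 2 * Complex.sin (2 * Real.pi * -v) = -(2 * Complex.sin (2 * Real.pi * v)) := by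
    rw [show 2 * (Real.pi : ℂ) * -v = -(2 * Real.pi * v) by ring, Complex.sin_neg]; ring
  have h2 : Complex.exp (2 * Real.pi * I * r * M * (-v) ^ 2) =
      Complex.exp (2 * Real.pi * I * r * M * v ^ 2) := by ring_nf
  rw [h1, h2]; ring

theorem KG_continuousAt (r : ℝ) (M : ℕ) (hM : 0 < M) (A : Finset (Fin m)) (y : Fin m → ℂ) (v : ℂ)
    (hok : ∀ j ∈ A, okS v (some (y j))) :
    ContinuousAt (fun z : (Fin m → ℂ) × ℂ => KG r M A z.1 z.2) (y, v) := by
  unfold KG
  refine ContinuousAt.mul (by fun_prop) ?_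
  refine tendsto_finsetProd _ fun j hj => ?_
  have h1 := KAnN_Qo_continuousAt 2 M hM (y j) v (hok j hj)
  have h2 : ContinuousAt (fun z : (Fin m → ℂ) × ℂ => (z.1 j, z.2)) (y, v) := by fun_prop
  exact ContinuousAt.comp (f := fun z : (Fin m → ℂ) × ℂ => (z.1 j, z.2))
    (g := fun z : ℂ × ℂ => Qo 2 M (some z.1) z.2) (x := (y, v)) h1 h2

theorem GN_continuousAt (s t : Fin m → Fin p) (r : Fin p → ℝ) (M : ℕ) (hM : 3000 ≤ M)
    (B : Finset (Fin p)) (E : Finset (Fin m)) (y : Fin m → ℂ) (v : Fin p → ℂ)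
    (hy : ∀ j, |(y j).re - 1 / 4| ≤ 55 / 1000) (hv : ∀ i, |(v i).re| ≤ 15 / 100)
    (hw : ∀ i, ww 2 M (v i) ≠ 1) :
    ContinuousAt (fun z : (Fin m → ℂ) × (Fin p → ℂ) => GN s t r M B E z.1 z.2) (y, v) := by
  have hM0 : 0 < M := by omega
  unfold GN
  refine ContinuousAt.mul ?_ ?_
  · refine tendsto_finsetProd _ fun j _ => ?_
    have h1 := (Cc_differentiableAt 2 1 M le_rfl le_rfl (by omega) (y j) (GNan_re (hy j)).1
      (GNan_re (hy j)).2).continuousAt
    have h2 : ContinuousAt (fun z : (Fin m → ℂ) × (Fin p → ℂ) => z.1 j) (y, v) := by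
      fun_prop
    exact ContinuousAt.comp (f := fun z : (Fin m → ℂ) × (Fin p → ℂ) => z.1 j)
      (g := Cc 2 1 M) (x := (y, v)) h1 h2
  · refine tendsto_finsetProd _ fun i _ => ?_
    have h1 := KG_continuousAt (r i) M hM0 (inc s t i) y (v i)
      (fun j _ => GNan_okS (hy j) (hv i))
    have h2 : ContinuousAt (fun z : (Fin m → ℂ) × (Fin p → ℂ) => (z.1, z.2 i)) (y, v) := by
      fun_prop
    have h3 : ContinuousAt (fun z : (Fin m → ℂ) × (Fin p → ℂ) => om 2 M (z.2 i)) (y, v) :=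
      ContinuousAt.comp (f := fun z : (Fin m → ℂ) × (Fin p → ℂ) => z.2 i)
        (g := om 2 M) (x := (y, v)) (om_continuousAt 2 M (v i) (hw i)) (by fun_prop)
    have h4 : ContinuousAt (fun z : (Fin m → ℂ) × (Fin p → ℂ) =>
        KG (r i) M (inc s t i) z.1 (z.2 i)) (y, v) :=
      ContinuousAt.comp (f := fun z : (Fin m → ℂ) × (Fin p → ℂ) => (z.1, z.2 i))
        (g := fun z : (Fin m → ℂ) × ℂ => KG (r i) M (inc s t i) z.1 z.2) (x := (y, v)) h1 h2
    exact h4.mul h3

theorem GN_update_differentiable (s t : Fin m → Fin p) (r : Fin p → ℝ) (M : ℕ) (hM : 3000 ≤ M)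
    (B : Finset (Fin p)) (E : Finset (Fin m)) (y : Fin m → ℂ) (v : Fin p → ℂ) (j : Fin m)
    (hy : ∀ j, |(y j).re - 1 / 4| ≤ 55 / 1000) (hv : ∀ i, |(v i).re| ≤ 15 / 100) :
    DifferentiableAt ℂ (fun w => GN s t r M B E (Function.update y j w) v) (y j) := by
  have hM0 : 0 < M := by omega
  unfold GN
  refine DifferentiableAt.mul ?_ ?_
  · refine DifferentiableAt.fun_finsetProd fun i _ => ?_
    by_cases hij : i = j
    · subst hij
      simp only [Function.update_self]
      exact Cc_differentiableAt 2 1 M le_rfl le_rfl (by omega) _ (GNan_re (hy i)).1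
        (GNan_re (hy i)).2
    · simp only [Function.update_of_ne hij]
      exact differentiableAt_const _
  · refine DifferentiableAt.fun_finsetProd fun i _ => ?_
    refine DifferentiableAt.mul ?_ (differentiableAt_const _)
    unfold KG
    refine DifferentiableAt.mul (differentiableAt_const _) ?_
    refine DifferentiableAt.fun_finsetProd fun l _ => ?_
    by_cases hlj : l = j
    · subst hlj
      simp only [Function.update_self]
      exact KAnN_Qo_differentiable_y 2 M hM0 (y l) (v i) (GNan_okS (hy l) (hv i))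
    · simp only [Function.update_of_ne hlj]
      exact differentiableAt_const _

end Pool.Agent.H63.VC7
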