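import Pool.Agent.H63.VC6.SlotU
import Pool.Agent.H63.VC7.LocG

/-! # A lower bound of the contribution of a node -/

namespace Pool.Agent.H63.VC7

open Pool.Agent.H63.VC hiding ext
open Pool.Agent.H63.VC3 Pool.Agent.H63.VC4 Pool.Agent.H63.VC6 Complex

variable {m p : ℕ} {s t : Fin m → Fin p} {r : Fin p → ℝ} {y : Fin m → ℂ} {v : Fin p → ℂ}

/-- The lower bound of a slot. -/
theorem LowG_slot (r : ℝ) (y v : ℂ) (E : ℝ) (hr : 10 ≤ |r|) (hv : vloc v) (hy : yloc y)
    (hE : 0 ≤ E) (hyE : |y.re - 1 / 4| ≤ 3 / 10 * E) (hk : |kap y v| ≤ 36 / 10 * E) :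
    4 * Fr (3 / 4) - 53 / 200 * Real.pi * (1 / r ^ 2) - 108 / 100 * E ^ 2 ≤
      (po (some y) v).re + (2 * ff (y + 1 / 2)).re +
        (-(1 / (2 * r)) - v.re) * (dpo (some y) v).re := by
  obtain ⟨b, hb⟩ : ∃ b, b = -(1 / (2 * r)) := ⟨_, rfl⟩
  have hne : r ≠ 0 := by
    intro h0
    rw [h0, abs_zero] at hr
    norm_num at hr
  have s1 : |b| ≤ 1 / 20 := by
    rw [hb, abs_neg, abs_div, abs_one, abs_mul, abs_two]
    apply one_div_le_one_div_of_le (by norm_num)
    linarith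
  have hb2 : b ^ 2 = 1 / 4 * (1 / r ^ 2) := by rw [hb]; field_simp; norm_num
  rw [← hb]
  obtain ⟨a1, a2⟩ := abs_le.1 s1
  have h0 := slot_horiz y v (1 / 4) b hy hv (by norm_num) (s1.trans (by norm_num))
  have g0 := (ff_vert_right (3 / 4) y.im (by norm_num) (by norm_num)).1
  have e0 : (((3 / 4 : ℝ)) : ℂ) + y.im * I = ((1 / 4 : ℝ) : ℂ) + y.im * I + 1 / 2 := by
    push_cast; ring
  rw [e0] at g0
  have g1 := (ff_vert_left (1 / 4 - b) (y.im - v.im) (by linarith) (by linarith)).2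
  have g2 := (ff_vert_left (1 / 4 + b) (y.im + v.im) (by linarith) (by linarith)).2
  have f1 := Fr_quarter b s1
  have e1 : ((1 / 4 - b : ℝ) : ℂ) + (y.im - v.im : ℝ) * I =
      ((1 / 4 : ℝ) : ℂ) + y.im * I - (b + v.im * I) := by
    push_cast; ring
  have e2 : ((1 / 4 + b : ℝ) : ℂ) + (y.im + v.im : ℝ) * I =
      ((1 / 4 : ℝ) : ℂ) + y.im * I + (b + v.im * I) := by
    push_cast; ring
  rw [e1] at g1
  rw [e2] at g2
  rw [hb2] at f1
  have r2 : ∀ z : ℂ, (2 * z).re = 2 * z.re := fun z => by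
    simp only [mul_re, re_ofNat, im_ofNat, zero_mul, sub_zero]
  have hkx : kap y v * (1 / 4 - y.re) ≤ 108 / 100 * E ^ 2 := by
    have h1 : |kap y v * (1 / 4 - y.re)| ≤ 36 / 10 * E * (3 / 10 * E) := by
      rw [abs_mul]
      apply mul_le_mul hk _ (abs_nonneg _) (by positivity)
      rw [abs_sub_comm]
      exact hyE
    have h2 := le_abs_self (kap y v * (1 / 4 - y.re))
    have h3 : 36 / 10 * E * (3 / 10 * E) = 108 / 100 * E ^ 2 := by ring
    linarith
  have hsq : 0 ≤ (1 / 4 - y.re) ^ 2 := sq_nonneg _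
  simp only [po, dpo, sub_re, neg_re, r2] at h0 ⊢
  linarith

theorem LowG_phase (r : ℝ) (V : ℂ) :
    (2 * Real.pi * I * (r * V ^ 2 + V)).re = -(2 * Real.pi * (2 * r * V.re * V.im + V.im)) := by
  simp [mul_re, mul_im, pow_two, add_re, add_im]
  ring

theorem LowG_dgcases (hc : CritG s t r y v) (i : Fin p) :
    (inc s t i).card = 1 ∧ dg s t i = 1 ∨ 2 ≤ dg s t i := by
  have h := Finset.card_pos.2 (hc.ne i)
  by_cases h1 : (inc s t i).card = 1
  · left
    exact ⟨h1, by rw [dg, h1]; norm_num⟩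
  · right
    have h2 : 2 ≤ (inc s t i).card := by omega
    rw [dg]
    exact_mod_cast h2

theorem LowG_esq (hc : CritG s t r y v) (i : Fin p) :
    53 / 200 * Real.pi * (dg s t i * (1 / (r i) ^ 2)) +
      108 / 100 * ∑ j ∈ inc s t i, (1 / (r (s j)) ^ 2 + 1 / (r (t j)) ^ 2) ^ 2 ≤ 88 / 10000 := by
  have hE0 : ∀ j, 0 ≤ 1 / (r (s j)) ^ 2 + 1 / (r (t j)) ^ 2 := fun j => by positivity
  have hsq : ∀ j, (1 / (r (s j)) ^ 2 + 1 / (r (t j)) ^ 2) ^ 2 ≤
      1 / 50 * (1 / (r (s j)) ^ 2 + 1 / (r (t j)) ^ 2) := fun j => by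
    rw [pow_two]
    exact mul_le_mul_of_nonneg_right (locG_edge hc j) (hE0 j)
  have hS : ∑ j ∈ inc s t i, (1 / (r (s j)) ^ 2 + 1 / (r (t j)) ^ 2) ^ 2 ≤
      1 / 50 * ∑ j ∈ inc s t i, (1 / (r (s j)) ^ 2 + 1 / (r (t j)) ^ 2) := by
    rw [Finset.mul_sum]
    exact Finset.sum_le_sum fun j _ => hsq j
  have hd1 := locG_dg hc i
  have hr := hc.hr i
  have hr2 : 100 * dg s t i ^ 2 ≤ (r i) ^ 2 := by
    rw [← sq_abs (r i)]
    have := pow_le_pow_left₀ (by linarith) hr 2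
    linarith [this]
  have hdr : dg s t i * (1 / (r i) ^ 2) ≤ 1 / (100 * dg s t i) := by
    rw [mul_one_div, div_le_div_iff₀ (by nlinarith) (by linarith)]
    nlinarith
  have hdr0 : 0 ≤ dg s t i * (1 / (r i) ^ 2) := by positivity
  have hpi := Real.pi_lt_d4
  have hpi0 := Real.pi_pos
  rcases LowG_dgcases hc i with ⟨h1, h2⟩ | h2
  · have h3 : ∑ j ∈ inc s t i, (1 / (r (s j)) ^ 2 + 1 / (r (t j)) ^ 2) ≤ 1 / 50 := by
      obtain ⟨j, hj⟩ := Finset.card_eq_one.1 h1
      rw [hj, Finset.sum_singleton]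
      exact locG_edge hc j
    rw [h2] at hdr hdr0 ⊢
    have h4 : Real.pi * (1 * (1 / (r i) ^ 2)) ≤ 3.1416 * (1 / (100 * 1)) :=
      mul_le_mul (by linarith) hdr hdr0 (by norm_num)
    linarith
  · have h3 := locG_sum hc i
    have h5 : 1 / (100 * dg s t i) ≤ 1 / 200 :=
      one_div_le_one_div_of_le (by norm_num) (by linarith)
    have h4 : Real.pi * (dg s t i * (1 / (r i) ^ 2)) ≤ 3.1416 * (1 / 200) :=
      mul_le_mul (by linarith) (hdr.trans h5) hdr0 (by norm_num)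
    linarith

theorem lowG (hc : CritG s t r y v) (i : Fin p) :
    4 * dg s t i * Fr (3 / 4) - 88 / 10000 ≤ Lg (r i) (inc s t i) y (v i) := by
  have hr10 := locG_abs hc i
  have hv := (locG_v hc i).1
  have hne : r i ≠ 0 := by
    intro h0
    rw [h0, abs_zero] at hr10
    norm_num at hr10
  have hslot : ∀ j ∈ inc s t i,
      4 * Fr (3 / 4) - 53 / 200 * Real.pi * (1 / (r i) ^ 2) -
        108 / 100 * (1 / (r (s j)) ^ 2 + 1 / (r (t j)) ^ 2) ^ 2 ≤
      (po (some (y j)) (v i)).re + (2 * ff (y j + 1 / 2)).re +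
        (-(1 / (2 * r i)) - (v i).re) * (dpo (some (y j)) (v i)).re := by
    intro j hj
    have hk : |kap (y j) (v i)| ≤ 36 / 10 * (1 / (r (s j)) ^ 2 + 1 / (r (t j)) ^ 2) := by
      rcases (mem_inc s t i j).1 hj with h | h
      · have := (locG_kap hc j).1
        rw [h] at this ⊢
        exact this
      · have := (locG_kap hc j).2
        rw [h] at this ⊢
        exact this
    have hyE : |(y j).re - 1 / 4| ≤ 3 / 10 * (1 / (r (s j)) ^ 2 + 1 / (r (t j)) ^ 2) := by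
      have e : (1 / 4 : ℂ) = ((1 / 4 : ℝ) : ℂ) := by push_cast; rfl
      have h1 := abs_re_le_norm (y j - 1 / 4)
      have h2 := hc.bdy j
      rw [e] at h1 h2
      rw [sub_re, ofReal_re] at h1
      exact h1.trans h2
    exact LowG_slot (r i) (y j) (v i) _ hr10 hv (locG_y hc j).1 (by positivity) hyE hk
  have hsum := Finset.sum_le_sum hslot
  rw [Finset.sum_sub_distrib, Finset.sum_const, nsmul_eq_mul, ← Finset.mul_sum,
    Finset.sum_add_distrib, Finset.sum_add_distrib, ← Finset.mul_sum, locG_dpo hc i] at hsum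
  have hesq := LowG_esq hc i
  have hdg : ((inc s t i).card : ℝ) = dg s t i := rfl
  rw [hdg] at hsum
  have hph : (-(1 / (2 * r i)) - (v i).re) * (4 * Real.pi * r i * (v i).im) =
      -(2 * Real.pi * (2 * r i * (v i).re * (v i).im + (v i).im)) := by
    field_simp
    ring
  rw [hph] at hsum
  unfold Lg WG
  rw [add_re, LowG_phase, re_sum]
  linarith

/-- The critical value is the sum of the contributions of the nodes. -/
theorem VG_re (hst : ∀ j, s j ≠ t j) (r : Fin p → ℝ) (y : Fin m → ℂ) (v : Fin p → ℂ) :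
    (VG s t r y v).re = ∑ i, Lg (r i) (inc s t i) y (v i) := by
  unfold VG Lg
  rw [Finset.sum_add_distrib, sum_inc s t hst (fun _ j => (2 * ff (y j + 1 / 2)).re), add_re,
    re_sum, re_sum, add_comm]
  congr 1
  refine Finset.sum_congr rfl fun j _ => ?_
  rw [← add_re]
  congr 1
  ring

end Pool.Agent.H63.VC7
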