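import Pool.Agent.H63.VC7.TaylorG
import Pool.Agent.H63.VC7.GNan
import Pool.Agent.H63.VC7.GNb
import Pool.Agent.H63.VC7.GNl
import Pool.Agent.H63.VC7.LowG
import Pool.Agent.H63.VC4.LaplaceN
import Pool.Agent.H63.VC4.GaussN

/-! # The asymptotics of the main integral -/

namespace Pool.Agent.H63.VC7

open Pool.Agent.H63.VC hiding ext
open Pool.Agent.H63.VC3 Pool.Agent.H63.VC4 Pool.Agent.H63.VC6 Complex Filter Topology

variable {m p : ℕ}

theorem MainG_ww_ne (n M : ℕ) (hM : 0 < M) (v : ℂ) (hv : 0 < v.im) : ww n M v ≠ 1 := by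
  intro h
  have h1 := norm_ww n M v
  rw [h, norm_one] at h1
  have h2 : Real.exp (-(2 * Real.pi * M * v.im)) < 1 := by
    rw [Real.exp_lt_one_iff]
    have : (0 : ℝ) < M := by exact_mod_cast hM
    have := Real.pi_pos
    have : 0 < 2 * Real.pi * M * v.im := by positivity
    linarith
  linarith

theorem MainG_mem {y1 y2 ρ : ℝ} {z : Fin m ⊕ Fin p → ℝ} :
    z ∈ Bx7 m p y1 y2 ρ ↔ (∀ j, y1 < z (Sum.inl j) ∧ z (Sum.inl j) ≤ y2) ∧
      ∀ i, -ρ < z (Sum.inr i) ∧ z (Sum.inr i) ≤ ρ := by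
  unfold Bx7
  rw [Set.mem_univ_pi]
  constructor
  · intro h
    exact ⟨fun j => h (Sum.inl j), fun i => h (Sum.inr i)⟩
  · rintro ⟨h1, h2⟩ (j | i)
    · exact h1 j
    · exact h2 i

theorem MainG_meas (m p : ℕ) (y1 y2 ρ : ℝ) : MeasurableSet (Bx7 m p y1 y2 ρ) := by
  unfold Bx7
  refine MeasurableSet.univ_pi fun i => ?_
  rcases i with j | i
  · exact measurableSet_Ioc
  · exact measurableSet_Ioc

theorem MainG_zy_re (Y0 : Fin m → ℝ) (z : Fin m ⊕ Fin p → ℝ) (j : Fin m) :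
    (zy7 Y0 z j).re = z (Sum.inl j) := by
  simp [zy7]

theorem MainG_zy_im (Y0 : Fin m → ℝ) (z : Fin m ⊕ Fin p → ℝ) (j : Fin m) :
    (zy7 Y0 z j).im = Y0 j := by
  simp [zy7]

theorem MainG_zv_re (Y1 : Fin p → ℝ) (z : Fin m ⊕ Fin p → ℝ)
    (i : Fin p) : (zv7 Y1 z i).re = z (Sum.inr i) := by
  simp [zv7]

theorem MainG_zv_im (Y1 : Fin p → ℝ) (z : Fin m ⊕ Fin p → ℝ)
    (i : Fin p) : (zv7 Y1 z i).im = Y1 i := by
  simp [zv7]

theorem MainG_cont (s t : Fin m → Fin p) (r : Fin p → ℝ) (M : ℕ)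
    (hM : 3000 ≤ M) (Y0 : Fin m → ℝ) (Y1 : Fin p → ℝ) (hY1 : ∀ i, 0 < Y1 i)
    (y1 y2 ρ : ℝ) (a1 : 1 / 4 - 55 / 1000 ≤ y1) (a4 : y2 ≤ 1 / 4 + 55 / 1000)
    (hρ : ρ ≤ 150 / 1000) :
    ContinuousOn (fun z : Fin m ⊕ Fin p → ℝ => GN s t r M ∅ ∅ (zy7 Y0 z) (zv7 Y1 z))
      (Bx7 m p y1 y2 ρ) := by
  intro z hz
  apply ContinuousAt.continuousWithinAt
  obtain ⟨hz1, hz2⟩ := MainG_mem.1 hz
  have hMpos : 0 < M := by omega
  have hy : ∀ j, |(zy7 Y0 z j).re - 1 / 4| ≤ 55 / 1000 := by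
    intro j
    rw [MainG_zy_re, abs_le]
    have := hz1 j
    constructor <;> linarith
  have hv : ∀ i, |(zv7 Y1 z i).re| ≤ 15 / 100 := by
    intro i
    rw [MainG_zv_re, abs_le]
    have := hz2 i
    constructor <;> linarith
  have h1 := GN_continuousAt s t r M hM ∅ ∅ (zy7 Y0 z) (zv7 Y1 z) hy hv
    (fun i => MainG_ww_ne 2 M hMpos _ (by rw [MainG_zv_im]; exact hY1 i))
  have h2 : Continuous fun z : Fin m ⊕ Fin p → ℝ => (zy7 Y0 z, zv7 Y1 z) := by
    refine Continuous.prodMk (continuous_pi fun j => ?_) (continuous_pi fun i => ?_)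
    · unfold zy7
      fun_prop
    · unfold zv7
      fun_prop
  exact ContinuousAt.comp (f := fun z : Fin m ⊕ Fin p → ℝ => (zy7 Y0 z, zv7 Y1 z))
    (g := fun z : (Fin m → ℂ) × (Fin p → ℂ) => GN s t r M ∅ ∅ z.1 z.2) h1 h2.continuousAt

theorem MainG_EB (s t : Fin m → Fin p) : EB s t ∅ = ∅ := by
  simp [EB]

theorem MainG_bound (s t : Fin m → Fin p) (hst : ∀ j, s j ≠ t j) (r : Fin p → ℝ)
    (Y1 : Fin p → ℝ) (hY1 : ∀ i, 0 < Y1 i ∧ Y1 i ≤ 1 / 50) :
    ∃ C : ℝ, 0 < C ∧ ∃ M0 : ℕ, ∀ M : ℕ, M0 ≤ M → ∀ (y : Fin m → ℂ) (a : Fin p → ℝ),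
      (∀ j, |(y j).re - 1 / 4| ≤ 55 / 1000 ∧ |(y j).im| ≤ 1 / 50) → (∀ i, |a i| ≤ 15 / 100) →
        ‖GN s t r M ∅ ∅ y (fun i => a i + Y1 i * I)‖ ≤
      C * Real.exp (M * (VG s t r y (fun i => a i + Y1 i * I)).re) := by
  obtain ⟨C, hC, M0, h⟩ := GN_bound s t hst r ∅ Y1 hY1
  refine ⟨C, hC, M0, fun M hM y a h1 h2 => ?_⟩
  have h3 := h M hM y a h1 h2
  rw [MainG_EB] at h3
  rw [VG_re hst]
  simpa using h3

theorem main_limG (s t : Fin m → Fin p) (r : Fin p → ℝ) (y : Fin m → ℂ) (v : Fin p → ℂ)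
    (hc : CritG s t r y v) (k1 k2 l1 l2 : ℕ → ℕ)
    (hw : ∀ᶠ M in atTop, Win 2 M (k1 M) (k2 M) (l1 M) (l2 M)) :
    ∃ K : ℂ, K ≠ 0 ∧ Tendsto (fun M : ℕ => (((M : ℝ) ^ (((m : ℝ) + p) / 2) : ℝ) : ℂ) *
      ((-1 : ℂ) ^ (M + 1)) ^ p *
      exp (-M * VG s t r y v) * MG s t r M (fun j => (y j).im) (fun i => (v i).im)
      ((k1 M + bt 2) / M - 1 / 2) ((k2 M + 1 + bt 2) / M - 1 / 2) (rho 2 M (l2 M)))
      atTop (𝓝 K) := by
  have hst := hc.st
  have lY := fun j => (locG_y hc j).1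
  have lV := fun i => (locG_v hc i).1
  have hY1 : ∀ i, 0 < (v i).im ∧ (v i).im ≤ 1 / 50 := fun i =>
    ⟨hc.imv i, by linarith [(lV i).2.2]⟩
  obtain ⟨C, hC, M0, hGB⟩ := MainG_bound s t hst r (fun i => (v i).im) hY1
  obtain ⟨q, hqs, hq, hT⟩ := phiG_taylor s t r y v hc
  have hre : ∀ j, |(y j).re - 1 / 4| ≤ 55 / 1000 := fun j => (lY j).1.trans (by norm_num)
  have hvr : ∀ i, |(v i).re| ≤ 15 / 100 := fun i => (lV i).1.trans (by norm_num)
  obtain ⟨L, hL0, hL⟩ := GN_lim s t hst r y v hre hvr hc.imv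
  set y1 : ℕ → ℝ := fun M => (k1 M + bt 2) / M - 1 / 2 with hy1
  set y2 : ℕ → ℝ := fun M => (k2 M + 1 + bt 2) / M - 1 / 2 with hy2
  set ρ : ℕ → ℝ := fun M => rho 2 M (l2 M) with hρ
  have hzyp : zy7 (fun j => (y j).im) (pG y v) = y := by
    funext j
    simp [zy7, pG, re_add_im]
  have hzvp : zv7 (fun i => (v i).im) (pG y v) = v := by
    funext i
    simp [zv7, pG, re_add_im]
  have hphip : phiG s t r y v (pG y v) = VG s t r y v := by
    unfold phiG
    rw [hzyp, hzvp]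
  obtain ⟨A, hAdef⟩ : ∃ A : ℕ → (Fin m ⊕ Fin p → ℝ) → ℂ, A = fun M =>
      (Bx7 m p (y1 M) (y2 M) (ρ M)).indicator fun z =>
        GN s t r M ∅ ∅ (zy7 (fun j => (y j).im) z) (zv7 (fun i => (v i).im) z) *
          ((-1 : ℂ) ^ (M + 1)) ^ p * exp (-(M * phiG s t r y v z)) := ⟨_, rfl⟩
  have hfac : ∀ᶠ M : ℕ in atTop, 1 ≤ M ∧ M0 ≤ M ∧ 3000 ≤ M ∧
      1 / 4 - 55 / 1000 ≤ y1 M ∧ y1 M ≤ 1 / 4 - 54 / 1000 ∧ 1 / 4 + 54 / 1000 ≤ y2 M ∧
      y2 M ≤ 1 / 4 + 55 / 1000 ∧ 149 / 1000 ≤ ρ M ∧ ρ M ≤ 150 / 1000 := by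
    filter_upwards [hw, eventually_ge_atTop M0, eventually_ge_atTop 1] with M h1 h2 h3
    exact ⟨h3, h2, by have := h1.big; omega, h1.a1, h1.a2, h1.a3, h1.a4, h1.b1, h1.b2⟩
  have hAexp : ∀ M, (fun z => A M z * exp (M * (phiG s t r y v z - phiG s t r y v (pG y v)))) =
      (Bx7 m p (y1 M) (y2 M) (ρ M)).indicator (fun z =>
        ((-1 : ℂ) ^ (M + 1)) ^ p * exp (-M * VG s t r y v) *
        GN s t r M ∅ ∅ (zy7 (fun j => (y j).im) z) (zv7 (fun i => (v i).im) z)) := by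
    intro M
    funext z
    rw [hAdef]
    simp only
    by_cases hz : z ∈ Bx7 m p (y1 M) (y2 M) (ρ M)
    · rw [Set.indicator_of_mem hz, Set.indicator_of_mem hz, mul_assoc, ← exp_add, hphip]
      have e : -((M : ℂ) * phiG s t r y v z) + M * (phiG s t r y v z - VG s t r y v) =
          -M * VG s t r y v := by ring
      rw [e]
      ring
    · rw [Set.indicator_of_notMem hz, Set.indicator_of_notMem hz, zero_mul]
  have hcard : ((Fintype.card (Fin m ⊕ Fin p) : ℝ) / 2) = (((m : ℝ) + p) / 2 : ℝ) := by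
    rw [Fintype.card_sum, Fintype.card_fin, Fintype.card_fin]
    push_cast
    ring
  have hlap := laplaceN (phiG s t r y v) (pG y v) A C (1 / 10) (by norm_num)
    (fun ξ => ∑ a, ∑ b, q a b * ξ a * ξ b) L ?_ ?_ ?_ ?_ hT
  · refine ⟨L * ∫ ξ : Fin m ⊕ Fin p → ℝ, exp (-∑ a, ∑ b, q a b * ξ a * ξ b),
      mul_ne_zero hL0 (gaussN_ne q hqs (1 / 10) (by norm_num) hq), ?_⟩
    rw [hcard] at hlap
    refine hlap.congr fun M => ?_
    rw [hAexp M, MeasureTheory.integral_indicator (MainG_meas _ _ _ _ _),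
      MeasureTheory.integral_const_mul]
    unfold MG
    ring
  · filter_upwards [hfac] with M hM
    obtain ⟨-, -, b1, b2, b3, b4, b5, b6, b7⟩ := hM
    rw [hAexp M, aestronglyMeasurable_indicator_iff (MainG_meas _ _ _ _ _)]
    exact (continuousOn_const.mul (MainG_cont s t r M b1 _ _ (fun i => (hY1 i).1)
      (y1 M) (y2 M) (ρ M) b2 b5 b7)).aestronglyMeasurable (MainG_meas _ _ _ _ _)
  · filter_upwards [hfac] with M hM
    obtain ⟨b8, b9, b1, b2, b3, b4, b5, b6, b7⟩ := hM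
    intro z
    rw [hAdef]
    simp only
    by_cases hz : z ∈ Bx7 m p (y1 M) (y2 M) (ρ M)
    · rw [Set.indicator_of_mem hz, norm_mul, norm_mul, norm_exp]
      obtain ⟨c1, c2⟩ := MainG_mem.1 hz
      have e1 := hGB M b9 (zy7 (fun j => (y j).im) z) (fun i => z (Sum.inr i))
        (fun j => by
          rw [MainG_zy_re, MainG_zy_im, abs_le]
          have := c1 j
          exact ⟨⟨by linarith, by linarith⟩, (lY j).2.trans (by norm_num)⟩)
        (fun i => by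
          rw [abs_le]
          have := c2 i
          constructor <;> linarith)
      have e2 : (-((M : ℂ) * phiG s t r y v z)).re = -(M * (phiG s t r y v z).re) := by
        rw [neg_re, ← ofReal_natCast, re_ofReal_mul]
      have e4 : (fun i => ((z (Sum.inr i) : ℝ) : ℂ) + ((v i).im : ℝ) * I) =
          zv7 (fun i => (v i).im) z := rfl
      rw [e4] at e1
      have e5 : ‖((-1 : ℂ) ^ (M + 1)) ^ p‖ = 1 := by simp
      rw [e5, mul_one, e2, Real.exp_neg]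
      have e3 : 0 < Real.exp (M * (phiG s t r y v z).re) := Real.exp_pos _
      rw [← div_eq_mul_inv, div_le_iff₀ e3]
      exact e1
    · rw [Set.indicator_of_notMem hz, norm_zero]
      exact hC.le
  · filter_upwards [hfac] with M hM
    obtain ⟨b8, b9, b1, b2, b3, b4, b5, b6, b7⟩ := hM
    intro z hz
    have hz' : z ∈ Bx7 m p (y1 M) (y2 M) (ρ M) := by
      by_contra h
      rw [hAdef] at hz
      exact hz (Set.indicator_of_notMem h _)
    obtain ⟨c1, c2⟩ := MainG_mem.1 hz'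
    have e1 := concG hc (fun j => z (Sum.inl j)) (fun i => z (Sum.inr i))
      (fun j => by
        have := c1 j
        rw [abs_le]
        constructor <;> linarith)
      (fun i => by
        have := c2 i
        rw [abs_le]
        constructor <;> linarith)
    rw [sub_re, hphip, Fintype.sum_sum_type]
    have e2 : (phiG s t r y v z).re = (VG s t r (fun j => (z (Sum.inl j) : ℂ) + (y j).im * I)
      (fun i => (z (Sum.inr i) : ℂ) + (v i).im * I)).re := rfl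
    rw [e2]
    simp only [pG, Sum.elim_inl, Sum.elim_inr]
    linarith
  · intro ξ
    have hsq : Tendsto (fun M : ℕ => 1 / Real.sqrt M) atTop (𝓝 0) := by
      have h1 : Tendsto (fun M : ℕ => Real.sqrt (M : ℝ)) atTop atTop :=
        Real.tendsto_sqrt_atTop.comp tendsto_natCast_atTop_atTop
      refine h1.inv_tendsto_atTop.congr fun M => ?_
      simp only [Pi.inv_apply, one_div]
    have hzt : Tendsto (fun M : ℕ => pG y v + (1 / Real.sqrt M) • ξ) atTop (𝓝 (pG y v)) := by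
      have := (hsq.smul_const ξ).const_add (pG y v)
      simpa using this
    obtain ⟨Z, hZ⟩ : ∃ Z : ℕ → Fin m ⊕ Fin p → ℝ,
        ∀ M, Z M = pG y v + (1 / Real.sqrt M) • ξ := ⟨_, fun _ => rfl⟩
    simp only [← hZ] at hzt ⊢
    have hz1 : ∀ j, Tendsto (fun M : ℕ => Z M (Sum.inl j)) atTop (𝓝 (y j).re) := by
      intro j
      have := (tendsto_pi_nhds.1 hzt) (Sum.inl j)
      simpa [pG] using this
    have hz2 : ∀ i, Tendsto (fun M : ℕ => Z M (Sum.inr i)) atTop (𝓝 (v i).re) := by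
      intro i
      have := (tendsto_pi_nhds.1 hzt) (Sum.inr i)
      simpa [pG] using this
    have hY : ∀ j, Tendsto (fun M : ℕ => zy7 (fun j => (y j).im) (Z M) j) atTop (𝓝 (y j)) := by
      intro j
      have := ((continuous_ofReal.tendsto _).comp (hz1 j)).add_const ((y j).im * I : ℂ)
      rw [re_add_im] at this
      exact this
    have hV : ∀ i, Tendsto (fun M : ℕ => zv7 (fun i => (v i).im) (Z M) i) atTop (𝓝 (v i)) := by
      intro i
      have := ((continuous_ofReal.tendsto _).comp (hz2 i)).add_const ((v i).im * I : ℂ)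
      rw [re_add_im] at this
      exact this
    have L5 := hL (fun M => zy7 (fun j => (y j).im) (Z M))
      (fun M => zv7 (fun i => (v i).im) (Z M)) hY hV (fun M i => MainG_zv_im _ _ _)
    refine L5.congr' ?_
    have ev1 : ∀ᶠ M in atTop, ∀ j,
        Z M (Sum.inl j) ∈ Set.Ioo (1 / 4 - 2 / 100 : ℝ) (1 / 4 + 2 / 100) := by
      rw [eventually_all]
      intro j
      have := abs_le.1 (lY j).1
      exact (hz1 j).eventually (Ioo_mem_nhds (by linarith) (by linarith))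
    have ev2 : ∀ᶠ M in atTop, ∀ i, Z M (Sum.inr i) ∈ Set.Ioo (-(1 / 10) : ℝ) (1 / 10) := by
      rw [eventually_all]
      intro i
      have := abs_le.1 (lV i).1
      exact (hz2 i).eventually (Ioo_mem_nhds (by linarith) (by linarith))
    filter_upwards [hfac, ev1, ev2] with M hM e1 e2
    obtain ⟨b8, b9, b1, b2, b3, b4, b5, b6, b7⟩ := hM
    have hmem : Z M ∈ Bx7 m p (y1 M) (y2 M) (ρ M) := by
      rw [MainG_mem]
      exact ⟨fun j => ⟨by linarith [(e1 j).1], by linarith [(e1 j).2]⟩,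
        fun i => ⟨by linarith [(e2 i).1], by linarith [(e2 i).2]⟩⟩
    rw [hAdef]
    simp only
    rw [Set.indicator_of_mem hmem]
    unfold phiG
    rw [neg_mul]
    ring

end Pool.Agent.H63.VC7
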