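import Pool.Agent.H63.VC7.Swap

/-! # The limit of the factor of a node at the root of unity -/

namespace Pool.Agent.H63.VC7

open Pool.Agent.H63.VC hiding ext
open Pool.Agent.H63.VC3 Pool.Agent.H63.VC4 Pool.Agent.H63.VC6 Complex Filter Topology

variable {m p : ℕ}

/-- A parametrization near the root of unity. -/
noncomputable def NodeLim_Q (N : ℕ) (e : ℂ) : ℂ :=
  exp (Real.pi * I * (1 + e) / ((N + 1 : ℕ) : ℂ))

/-- The phase of a term. -/
noncomputable def NodeLim_W (a : ℤ) (N X : ℕ) (e : ℂ) : ℂ :=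
  exp (a * (Real.pi * I * X + Real.pi * I * (X * (X + 1)) * (1 + e) / ((N + 1 : ℕ) : ℂ)))

/-- The amplitude of a term, as a function of two variables. -/
noncomputable def NodeLim_T (N : ℕ) (A : Finset (Fin m)) (t : Fin m → ℕ) (w : ℂ × ℂ) : ℂ :=
  sin (2 * Real.pi * w.2) * ∏ j ∈ A, ∏ i ∈ Finset.range (t j),
    (-4 * (sin (Real.pi * (w.2 + (i + 1 / 2) * (1 + w.1) / ((N + 1 : ℕ) : ℂ))) *
      sin (Real.pi * (w.2 - (i + 1 / 2) * (1 + w.1) / ((N + 1 : ℕ) : ℂ)))))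

/-- The position of a term. -/
noncomputable def NodeLim_z (N X : ℕ) (e : ℂ) : ℂ := (1 + e) * (X + 1 / 2) / ((N + 1 : ℕ) : ℂ)

/-- A term of the sum. -/
noncomputable def NodeLim_f (a : ℤ) (N : ℕ) (A : Finset (Fin m)) (t : Fin m → ℕ) (X : ℕ)
    (e : ℂ) : ℂ :=
  tw (NodeLim_Q N e) X ^ a * br (NodeLim_Q N e) (2 * (X : ℤ) + 1) *
    ∏ j ∈ A, pw (NodeLim_Q N e) (t j) X

theorem NodeLim_M (N : ℕ) : (((N + 1 : ℕ) : ℂ)) ≠ 0 := by
  exact_mod_cast Nat.succ_ne_zero N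

theorem NodeLim_zpow (N : ℕ) (e : ℂ) (n : ℤ) :
    NodeLim_Q N e ^ n = exp (n * (Real.pi * I * (1 + e) / ((N + 1 : ℕ) : ℂ))) := by
  rw [NodeLim_Q, ← Complex.exp_int_mul]

theorem NodeLim_br (N : ℕ) (e : ℂ) (n : ℤ) :
    br (NodeLim_Q N e) n = 2 * I * sin (Real.pi * (n * (1 + e) / ((N + 1 : ℕ) : ℂ))) := by
  rw [br, NodeLim_zpow, NodeLim_zpow, Complex.sin]
  have h1 : (n : ℂ) * (Real.pi * I * (1 + e) / ((N + 1 : ℕ) : ℂ)) =
      (Real.pi * (n * (1 + e) / ((N + 1 : ℕ) : ℂ))) * I := by ring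
  have h2 : ((-n : ℤ) : ℂ) * (Real.pi * I * (1 + e) / ((N + 1 : ℕ) : ℂ)) =
      -(Real.pi * (n * (1 + e) / ((N + 1 : ℕ) : ℂ))) * I := by push_cast; ring
  rw [h1, h2]
  linear_combination (exp (Real.pi * (n * (1 + e) / ((N + 1 : ℕ) : ℂ)) * I) -
    exp (-(Real.pi * (n * (1 + e) / ((N + 1 : ℕ) : ℂ))) * I)) * Complex.I_mul_I

theorem NodeLim_tw (a : ℤ) (N X : ℕ) (e : ℂ) :
    tw (NodeLim_Q N e) X ^ a = NodeLim_W a N X e := by
  have h1 : ((-1 : ℂ)) ^ X = exp (X * (Real.pi * I)) := by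
    rw [Complex.exp_nat_mul, Complex.exp_pi_mul_I]
  have h2 : NodeLim_Q N e ^ (X * (X + 1)) =
      exp (((X * (X + 1) : ℕ) : ℂ) * (Real.pi * I * (1 + e) / ((N + 1 : ℕ) : ℂ))) := by
    rw [NodeLim_Q, ← Complex.exp_nat_mul]
  rw [tw, h1, h2, ← Complex.exp_add, ← Complex.exp_int_mul, NodeLim_W]
  congr 2
  push_cast
  ring

theorem NodeLim_pw (N t X : ℕ) (e : ℂ) :
    pw (NodeLim_Q N e) t X = ∏ i ∈ Finset.range t,
    (-4 * (sin (Real.pi * (NodeLim_z N X e + (i + 1 / 2) * (1 + e) / ((N + 1 : ℕ) : ℂ))) *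
      sin (Real.pi * (NodeLim_z N X e - (i + 1 / 2) * (1 + e) / ((N + 1 : ℕ) : ℂ))))) := by
  rw [pw]
  refine Finset.prod_congr rfl fun i _ => ?_
  rw [NodeLim_br, NodeLim_br]
  have h1 : (((X : ℤ) + i + 1 : ℤ) : ℂ) * (1 + e) / ((N + 1 : ℕ) : ℂ) =
      NodeLim_z N X e + (i + 1 / 2) * (1 + e) / ((N + 1 : ℕ) : ℂ) := by
    rw [NodeLim_z]; push_cast; ring
  have h2 : (((X : ℤ) - i : ℤ) : ℂ) * (1 + e) / ((N + 1 : ℕ) : ℂ) =
      NodeLim_z N X e - (i + 1 / 2) * (1 + e) / ((N + 1 : ℕ) : ℂ) := by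
    rw [NodeLim_z]; push_cast; ring
  rw [h1, h2]
  linear_combination (4 *
    sin (Real.pi * (NodeLim_z N X e + (i + 1 / 2) * (1 + e) / ((N + 1 : ℕ) : ℂ))) *
    sin (Real.pi * (NodeLim_z N X e - (i + 1 / 2) * (1 + e) / ((N + 1 : ℕ) : ℂ)))) *
    Complex.I_mul_I

theorem NodeLim_f_eq (a : ℤ) (N : ℕ) (A : Finset (Fin m)) (t : Fin m → ℕ) (X : ℕ) (e : ℂ) :
    NodeLim_f a N A t X e = NodeLim_W a N X e * (2 * I * NodeLim_T N A t (e, NodeLim_z N X e)) := by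
  rw [NodeLim_f, NodeLim_tw, NodeLim_br, NodeLim_T]
  have h1 : ((2 * (X : ℤ) + 1 : ℤ) : ℂ) * (1 + e) / ((N + 1 : ℕ) : ℂ) =
      2 * NodeLim_z N X e := by
    rw [NodeLim_z]; push_cast; ring
  rw [h1, Finset.prod_congr rfl (fun j _ => NodeLim_pw N (t j) X e)]
  have h2 : (Real.pi : ℂ) * (2 * NodeLim_z N X e) = 2 * Real.pi * NodeLim_z N X e := by ring
  rw [h2]
  ring

theorem NodeLim_T_reflect (N : ℕ) (A : Finset (Fin m)) (t : Fin m → ℕ) (e z : ℂ) :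
    NodeLim_T N A t (e, 1 + e - z) = -NodeLim_T N A t (e, z - e) := by
  simp only [NodeLim_T]
  have h1 : sin (2 * Real.pi * (1 + e - z)) = -sin (2 * Real.pi * (z - e)) := by
    rw [show 2 * (Real.pi : ℂ) * (1 + e - z) = 2 * Real.pi - 2 * Real.pi * (z - e) by ring,
      Complex.sin_two_pi_sub]
  have h2 : ∀ b : ℂ, sin (Real.pi * (1 + e - z + b)) = sin (Real.pi * (z - e - b)) := by
    intro b
    rw [show (Real.pi : ℂ) * (1 + e - z + b) = Real.pi - Real.pi * (z - e - b) by ring,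
      Complex.sin_pi_sub]
  have h3 : ∀ b : ℂ, sin (Real.pi * (1 + e - z - b)) = sin (Real.pi * (z - e + b)) := by
    intro b
    rw [show (Real.pi : ℂ) * (1 + e - z - b) = Real.pi - Real.pi * (z - e + b) by ring,
      Complex.sin_pi_sub]
  rw [h1, neg_mul]
  congr 2
  refine Finset.prod_congr rfl fun j _ => Finset.prod_congr rfl fun i _ => ?_
  rw [h2, h3]
  ring

theorem NodeLim_W_reflect (a : ℤ) (N X : ℕ) (hX : X ≤ N) (e : ℂ) :
    NodeLim_W a N (N - X) e = NodeLim_W a N X e *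
      exp (-(2 * Real.pi * I * a * e * (((N + 1 : ℕ) : ℂ) * (vl 2 (N + 1) X : ℝ)))) := by
  rw [NodeLim_W, NodeLim_W, ← Complex.exp_add]
  have hv : ((N + 1 : ℕ) : ℂ) * ((vl 2 (N + 1) X : ℝ) : ℂ) = X + 1 / 2 - ((N + 1 : ℕ) : ℂ) / 2 := by
    have hM := NodeLim_M N
    rw [vl, bt]
    push_cast
    push_cast at hM
    field_simp
    ring
  rw [hv, Complex.exp_eq_exp_iff_exists_int]
  refine ⟨a * ((N : ℤ) - 2 * X), ?_⟩
  have hM := NodeLim_M N
  push_cast [Nat.cast_sub hX]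
  push_cast at hM
  field_simp
  ring

theorem NodeLim_z_reflect (N X : ℕ) (hX : X ≤ N) (e : ℂ) :
    NodeLim_z N (N - X) e = 1 + e - NodeLim_z N X e := by
  have hM := NodeLim_M N
  rw [NodeLim_z, NodeLim_z]
  push_cast [Nat.cast_sub hX]
  push_cast at hM
  field_simp
  ring

theorem NodeLim_f_reflect (a : ℤ) (N : ℕ) (A : Finset (Fin m)) (t : Fin m → ℕ) (X : ℕ)
    (hX : X ≤ N) (e : ℂ) :
    NodeLim_f a N A t (N - X) e = -(NodeLim_W a N X e *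
      (2 * I * (exp (-(2 * Real.pi * I * a * e * (((N + 1 : ℕ) : ℂ) * (vl 2 (N + 1) X : ℝ)))) *
        NodeLim_T N A t (e, NodeLim_z N X e - e)))) := by
  rw [NodeLim_f_eq, NodeLim_W_reflect a N X hX, NodeLim_z_reflect N X hX, NodeLim_T_reflect]
  ring

theorem NodeLim_T_diff (N : ℕ) (A : Finset (Fin m)) (t : Fin m → ℕ) :
    Differentiable ℂ (NodeLim_T N A t) := by
  unfold NodeLim_T
  fun_prop

/-- The derivative of a pair of terms. -/
theorem NodeLim_pair (N : ℕ) (A : Finset (Fin m)) (t : Fin m → ℕ) (z z' c : ℂ) (Z : ℂ → ℂ)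
    (hZ : HasDerivAt Z z' 0) (hz : Z 0 = z) :
    HasDerivAt (fun e => NodeLim_T N A t (e, Z e) - exp (c * e) * NodeLim_T N A t (e, Z e - e))
      (fderiv ℂ (NodeLim_T N A t) (0, z) (0, 1) - c * NodeLim_T N A t (0, z)) 0 := by
  have hT : HasFDerivAt (NodeLim_T N A t) (fderiv ℂ (NodeLim_T N A t) (0, z)) (0, z) :=
    (NodeLim_T_diff N A t (0, z)).hasFDerivAt
  have h1 : HasDerivAt (fun e : ℂ => (e, Z e)) (1, z') 0 := (hasDerivAt_id 0).prodMk hZ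
  have h2 : HasDerivAt (fun e : ℂ => (e, Z e - e)) (1, z' - 1) 0 :=
    (hasDerivAt_id 0).prodMk (hZ.sub (hasDerivAt_id 0))
  have g1 : HasDerivAt (fun e : ℂ => NodeLim_T N A t (e, Z e))
      (fderiv ℂ (NodeLim_T N A t) (0, z) (1, z')) 0 := by
    have := HasFDerivAt.comp_hasDerivAt (x := (0 : ℂ)) (f := fun e : ℂ => (e, Z e))
      (l := NodeLim_T N A t) (by simpa [hz] using hT) h1
    exact this
  have g2 : HasDerivAt (fun e : ℂ => NodeLim_T N A t (e, Z e - e))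
      (fderiv ℂ (NodeLim_T N A t) (0, z) (1, z' - 1)) 0 := by
    have := HasFDerivAt.comp_hasDerivAt (x := (0 : ℂ)) (f := fun e : ℂ => (e, Z e - e))
      (l := NodeLim_T N A t) (by simpa [hz] using hT) h2
    exact this
  have g3 : HasDerivAt (fun e : ℂ => exp (c * e)) (exp (c * 0) * (c * 1)) 0 :=
    ((hasDerivAt_id (0 : ℂ)).const_mul c).cexp
  have h4 := g1.sub (g3.mul g2)
  refine h4.congr_deriv ?_
  have h5 : fderiv ℂ (NodeLim_T N A t) (0, z) (1, z') =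
      fderiv ℂ (NodeLim_T N A t) (0, z) (1, z' - 1) + fderiv ℂ (NodeLim_T N A t) (0, z) (0, 1) := by
    rw [← map_add]
    simp
  rw [h5]
  simp only [mul_zero, Complex.exp_zero, hz, sub_zero]
  ring

/-- The derivative in the second variable, in terms of `NT`. -/
theorem NodeLim_NT (a : ℤ) (N : ℕ) (A : Finset (Fin m)) (t : Fin m → ℕ)
    (ht : ∀ j ∈ A, t j ≤ N) (v : ℂ) :
    (∏ j ∈ A, (-1) ^ (t j) * ((N + 1 : ℕ) : ℂ)) *
      NT ((a : ℝ) / 2) (N + 1) A (fun j => N - t j) v =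
    -2 * (exp (Real.pi * I * a * ((N + 1 : ℕ) : ℂ) * v ^ 2) * NodeLim_T N A t (0, v + 1 / 2)) := by
  have hM := NodeLim_M N
  have h1 : sin (2 * (Real.pi : ℂ) * (v + 1 / 2)) = -sin (2 * Real.pi * v) := by
    rw [show 2 * (Real.pi : ℂ) * (v + 1 / 2) = 2 * Real.pi * v + Real.pi by ring,
      Complex.sin_add_pi]
  have h2 : ∀ j ∈ A, ∏ i ∈ Finset.range (t j),
      (-4 * (sin (Real.pi * ((v + 1 / 2) + (i + 1 / 2) * (1 + 0) / ((N + 1 : ℕ) : ℂ))) *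
        sin (Real.pi * ((v + 1 / 2) - (i + 1 / 2) * (1 + 0) / ((N + 1 : ℕ) : ℂ))))) =
      ((-1) ^ (t j) * ((N + 1 : ℕ) : ℂ)) * qc (N + 1) (N - t j) v := by
    intro j hj
    have h3 : N + 1 - 1 - (N - t j) = t j := by
      have := ht j hj
      omega
    rw [qc, h3]
    have h4 : ∀ i ∈ Finset.range (t j),
        (-4 * (sin (Real.pi * ((v + 1 / 2) + (i + 1 / 2) * (1 + 0) / ((N + 1 : ℕ) : ℂ))) *
          sin (Real.pi * ((v + 1 / 2) - (i + 1 / 2) * (1 + 0) / ((N + 1 : ℕ) : ℂ))))) =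
        (-1) * (4 * (cos (Real.pi * (v + (i + 1 / 2) / ((N + 1 : ℕ) : ℂ))) *
          cos (Real.pi * (v - (i + 1 / 2) / ((N + 1 : ℕ) : ℂ))))) := by
      intro i _
      have e1 : (Real.pi : ℂ) * ((v + 1 / 2) + (i + 1 / 2) * (1 + 0) / ((N + 1 : ℕ) : ℂ)) =
          Real.pi * (v + (i + 1 / 2) / ((N + 1 : ℕ) : ℂ)) + Real.pi / 2 := by ring
      have e2 : (Real.pi : ℂ) * ((v + 1 / 2) - (i + 1 / 2) * (1 + 0) / ((N + 1 : ℕ) : ℂ)) =
          Real.pi * (v - (i + 1 / 2) / ((N + 1 : ℕ) : ℂ)) + Real.pi / 2 := by ring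
      rw [e1, e2, Complex.sin_add_pi_div_two, Complex.sin_add_pi_div_two]
      ring
    rw [Finset.prod_congr rfl h4, Finset.prod_mul_distrib, Finset.prod_const,
      Finset.card_range, mul_assoc ((-1 : ℂ) ^ (t j)), ← mul_assoc ((N + 1 : ℕ) : ℂ),
      mul_one_div_cancel hM, one_mul]
  rw [NodeLim_T, NT]
  simp only
  have h6 : ∏ j ∈ A, ((-1) ^ (t j) * ((N + 1 : ℕ) : ℂ)) * qc (N + 1) (N - t j) v =
      (∏ j ∈ A, (-1) ^ (t j) * ((N + 1 : ℕ) : ℂ)) * ∏ j ∈ A, qc (N + 1) (N - t j) v :=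
    Finset.prod_mul_distrib
  rw [h1, Finset.prod_congr rfl h2, h6]
  have h5 : exp (2 * (Real.pi : ℂ) * I * (((a : ℝ) / 2 : ℝ) : ℂ) * ((N + 1 : ℕ) : ℂ) * v ^ 2) =
      exp (Real.pi * I * a * ((N + 1 : ℕ) : ℂ) * v ^ 2) := by
    congr 1
    push_cast
    ring
  rw [h5]
  ring

theorem NodeLim_NT_deriv (a : ℤ) (N : ℕ) (A : Finset (Fin m)) (t : Fin m → ℕ)
    (ht : ∀ j ∈ A, t j ≤ N) (v : ℂ) :
    (∏ j ∈ A, (-1) ^ (t j) * ((N + 1 : ℕ) : ℂ)) *
      deriv (NT ((a : ℝ) / 2) (N + 1) A (fun j => N - t j)) v =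
    -2 * (exp (Real.pi * I * a * ((N + 1 : ℕ) : ℂ) * v ^ 2) *
      (fderiv ℂ (NodeLim_T N A t) (0, v + 1 / 2) (0, 1) +
        2 * Real.pi * I * a * (((N + 1 : ℕ) : ℂ) * v) * NodeLim_T N A t (0, v + 1 / 2))) := by
  rw [← deriv_const_mul_field, show (fun x => (∏ j ∈ A, (-1) ^ (t j) * ((N + 1 : ℕ) : ℂ)) *
      NT ((a : ℝ) / 2) (N + 1) A (fun j => N - t j) x) = fun v =>
      -2 * (exp (Real.pi * I * a * ((N + 1 : ℕ) : ℂ) * v ^ 2) * NodeLim_T N A t (0, v + 1 / 2))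
      from funext fun x => NodeLim_NT a N A t ht x]
  have hT : HasFDerivAt (NodeLim_T N A t) (fderiv ℂ (NodeLim_T N A t) (0, v + 1 / 2))
    (0, v + 1 / 2) := (NodeLim_T_diff N A t _).hasFDerivAt
  have h1 : HasDerivAt (fun w : ℂ => ((0 : ℂ), w + 1 / 2)) (0, 1) v :=
    (hasDerivAt_const v (0 : ℂ)).prodMk ((hasDerivAt_id v).add_const (1 / 2))
  have g1 : HasDerivAt (fun w : ℂ => NodeLim_T N A t (0, w + 1 / 2))
      (fderiv ℂ (NodeLim_T N A t) (0, v + 1 / 2) (0, 1)) v :=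
    HasFDerivAt.comp_hasDerivAt (x := v) (f := fun w : ℂ => ((0 : ℂ), w + 1 / 2))
      (l := NodeLim_T N A t) hT h1
  have g2 : HasDerivAt (fun w : ℂ => exp (Real.pi * I * a * ((N + 1 : ℕ) : ℂ) * w ^ 2))
      (exp (Real.pi * I * a * ((N + 1 : ℕ) : ℂ) * v ^ 2) *
        (Real.pi * I * a * ((N + 1 : ℕ) : ℂ) * (2 * v ^ (2 - 1)))) v := by
    have := ((hasDerivAt_pow 2 v).const_mul (Real.pi * I * a * ((N + 1 : ℕ) : ℂ))).cexp
    simpa using this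
  have g3 := ((g2.mul g1).const_mul (-2)).deriv
  refine g3.trans ?_
  ring

theorem NodeLim_W_zero (a : ℤ) (N X : ℕ) :
    NodeLim_W a N X 0 = cG a (N + 1) *
      exp (Real.pi * I * a * ((N + 1 : ℕ) : ℂ) * ((vl 2 (N + 1) X : ℝ) : ℂ) ^ 2) := by
  have hM := NodeLim_M N
  have hv : ((vl 2 (N + 1) X : ℝ) : ℂ) = (X + 1 / 2) / ((N + 1 : ℕ) : ℂ) - 1 / 2 := by
    rw [vl, bt]
    push_cast
    ring
  rw [NodeLim_W, cG, hv, ← Complex.exp_add, Complex.exp_eq_exp_iff_exists_int]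
  refine ⟨a * X, ?_⟩
  push_cast
  push_cast at hM
  field_simp
  ring

theorem NodeLim_z_zero (N X : ℕ) :
    NodeLim_z N X 0 = ((vl 2 (N + 1) X : ℝ) : ℂ) + 1 / 2 := by
  rw [NodeLim_z, vl, bt]
  push_cast
  ring

/-- The numerator. -/
noncomputable def NodeLim_H (a : ℤ) (N : ℕ) (A : Finset (Fin m)) (t : Fin m → ℕ) (e : ℂ) : ℂ :=
  ∑ X ∈ Finset.range (N + 1), NodeLim_f a N A t X e

theorem NodeLim_H_eq (a : ℤ) (N : ℕ) (A : Finset (Fin m)) (t : Fin m → ℕ) (e : ℂ) :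
    NodeLim_H a N A t e = ∑ X ∈ Finset.range (N + 1), I * (NodeLim_W a N X e *
      (NodeLim_T N A t (e, NodeLim_z N X e) -
        exp (-(2 * Real.pi * I * a * (((N + 1 : ℕ) : ℂ) * (vl 2 (N + 1) X : ℝ))) * e) *
          NodeLim_T N A t (e, NodeLim_z N X e - e))) := by
  have h1 : NodeLim_H a N A t e = ∑ X ∈ Finset.range (N + 1), NodeLim_f a N A t (N - X) e := by
    rw [NodeLim_H, ← Finset.sum_range_reflect]
    refine Finset.sum_congr rfl fun X _ => ?_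
    rw [Nat.add_sub_cancel]
  have h2 : 2 * NodeLim_H a N A t e = ∑ X ∈ Finset.range (N + 1),
      (NodeLim_f a N A t X e + NodeLim_f a N A t (N - X) e) := by
    rw [Finset.sum_add_distrib, ← h1, NodeLim_H]
    ring
  have h3 : ∀ X ∈ Finset.range (N + 1), NodeLim_f a N A t X e + NodeLim_f a N A t (N - X) e =
      2 * (I * (NodeLim_W a N X e *
      (NodeLim_T N A t (e, NodeLim_z N X e) -
        exp (-(2 * Real.pi * I * a * (((N + 1 : ℕ) : ℂ) * (vl 2 (N + 1) X : ℝ))) * e) *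
          NodeLim_T N A t (e, NodeLim_z N X e - e)))) := by
    intro X hX
    have hX' : X ≤ N := by
      have := Finset.mem_range.1 hX
      omega
    rw [NodeLim_f_eq, NodeLim_f_reflect a N A t X hX' e]
    have h4 : -(2 * Real.pi * I * a * (((N + 1 : ℕ) : ℂ) * (vl 2 (N + 1) X : ℝ))) * e =
        -(2 * Real.pi * I * a * e * (((N + 1 : ℕ) : ℂ) * (vl 2 (N + 1) X : ℝ))) := by ring
    rw [h4]
    ring
  rw [Finset.sum_congr rfl h3, ← Finset.mul_sum] at h2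
  exact mul_left_cancel₀ two_ne_zero h2

theorem NodeLim_H_zero (a : ℤ) (N : ℕ) (A : Finset (Fin m)) (t : Fin m → ℕ) :
    NodeLim_H a N A t 0 = 0 := by
  rw [NodeLim_H_eq]
  refine Finset.sum_eq_zero fun X _ => ?_
  simp

theorem NodeLim_H_deriv (a : ℤ) (N : ℕ) (A : Finset (Fin m)) (t : Fin m → ℕ)
    (ht : ∀ j ∈ A, t j ≤ N) :
    HasDerivAt (NodeLim_H a N A t) (-(I / 2) * cG a (N + 1) *
      (∏ j ∈ A, (-1) ^ (t j) * ((N + 1 : ℕ) : ℂ)) *
        DG ((a : ℝ) / 2) (N + 1) A (fun j => N - t j)) 0 := by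
  have h1 : ∀ X ∈ Finset.range (N + 1), HasDerivAt (fun e => I * (NodeLim_W a N X e *
      (NodeLim_T N A t (e, NodeLim_z N X e) -
        exp (-(2 * Real.pi * I * a * (((N + 1 : ℕ) : ℂ) * (vl 2 (N + 1) X : ℝ))) * e) *
          NodeLim_T N A t (e, NodeLim_z N X e - e))))
      (-(I / 2) * cG a (N + 1) * (∏ j ∈ A, (-1) ^ (t j) * ((N + 1 : ℕ) : ℂ)) *
        deriv (NT ((a : ℝ) / 2) (N + 1) A (fun j => N - t j)) ((vl 2 (N + 1) X : ℝ) : ℂ)) 0 := by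
    intro X _
    have hW : HasDerivAt (NodeLim_W a N X) (deriv (NodeLim_W a N X) 0) 0 := by
      have : Differentiable ℂ (NodeLim_W a N X) := by
        unfold NodeLim_W
        fun_prop
      exact (this 0).hasDerivAt
    have hZ : HasDerivAt (NodeLim_z N X) (deriv (NodeLim_z N X) 0) 0 := by
      have : Differentiable ℂ (NodeLim_z N X) := by
        unfold NodeLim_z
        fun_prop
      exact (this 0).hasDerivAt
    have hD := NodeLim_pair N A t (((vl 2 (N + 1) X : ℝ) : ℂ) + 1 / 2) _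
      (-(2 * Real.pi * I * a * (((N + 1 : ℕ) : ℂ) * (vl 2 (N + 1) X : ℝ)))) _ hZ
      (NodeLim_z_zero N X)
    have h2 := (hW.mul hD).const_mul I
    refine h2.congr_deriv ?_
    have h3 := NodeLim_NT_deriv a N A t ht ((vl 2 (N + 1) X : ℝ) : ℂ)
    rw [NodeLim_W_zero]
    simp only [mul_zero, Complex.exp_zero, sub_zero, one_mul, sub_self, zero_add]
    linear_combination (-(I / 2) * cG a (N + 1)) * (-1) * h3
  have h4 := HasDerivAt.fun_sum h1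
  have h5 : NodeLim_H a N A t = fun e => ∑ X ∈ Finset.range (N + 1), I * (NodeLim_W a N X e *
      (NodeLim_T N A t (e, NodeLim_z N X e) -
        exp (-(2 * Real.pi * I * a * (((N + 1 : ℕ) : ℂ) * (vl 2 (N + 1) X : ℝ))) * e) *
          NodeLim_T N A t (e, NodeLim_z N X e - e))) := funext fun e => NodeLim_H_eq a N A t e
  rw [h5, DG, Finset.mul_sum]
  exact h4

theorem NodeLim_B (N : ℕ) (e : ℂ) :
    br (NodeLim_Q N e) ((N : ℤ) + 1) = -(2 * I * sin (Real.pi * e)) := by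
  have hM := NodeLim_M N
  rw [NodeLim_br]
  have h1 : (Real.pi : ℂ) * ((((N : ℤ) + 1 : ℤ) : ℂ) * (1 + e) / ((N + 1 : ℕ) : ℂ)) =
      Real.pi * e + Real.pi := by
    push_cast
    push_cast at hM
    field_simp
    ring
  rw [h1, Complex.sin_add_pi]
  ring

theorem NodeLim_NF (a : ℤ) (N : ℕ) (A : Finset (Fin m)) (t : Fin m → ℕ) (e : ℂ) :
    NF a N (NodeLim_Q N e) A t = NodeLim_H a N A t e / -(2 * I * sin (Real.pi * e)) := by
  rw [NF, NodeLim_H, Finset.sum_div]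
  refine Finset.sum_congr rfl fun X _ => ?_
  rw [NodeLim_f, ← NodeLim_B N e]
  ring

theorem NodeLim_lim (a : ℤ) (N : ℕ) (A : Finset (Fin m)) (t : Fin m → ℕ)
    (ht : ∀ j ∈ A, t j ≤ N) :
    Tendsto (fun e => NF a N (NodeLim_Q N e) A t) (𝓝[≠] 0)
      (𝓝 (cG a (N + 1) / (4 * Real.pi) * (∏ j ∈ A, (-1) ^ (t j) * ((N + 1 : ℕ) : ℂ)) *
        DG ((a : ℝ) / 2) (N + 1) A (fun j => N - t j))) := by
  have h1 := hasDerivAt_iff_tendsto_slope.1 (NodeLim_H_deriv a N A t ht)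
  have h2 : HasDerivAt (fun e : ℂ => -(2 * I * sin (Real.pi * e))) (-(2 * I * Real.pi)) 0 := by
    have := (((hasDerivAt_id (0 : ℂ)).const_mul (Real.pi : ℂ)).csin.const_mul (2 * I)).neg
    refine this.congr_deriv ?_
    simp
  have h3 := hasDerivAt_iff_tendsto_slope.1 h2
  have hpi : (Real.pi : ℂ) ≠ 0 := by exact_mod_cast Real.pi_ne_zero
  have h4 := h1.div h3 (by simp [hpi, Complex.I_ne_zero])
  have h5 : -(I / 2) * cG a (N + 1) *
      (∏ j ∈ A, (-1) ^ (t j) * ((N + 1 : ℕ) : ℂ)) *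
        DG ((a : ℝ) / 2) (N + 1) A (fun j => N - t j) / -(2 * I * Real.pi) =
      cG a (N + 1) / (4 * Real.pi) * (∏ j ∈ A, (-1) ^ (t j) * ((N + 1 : ℕ) : ℂ)) *
        DG ((a : ℝ) / 2) (N + 1) A (fun j => N - t j) := by
    have hI := Complex.I_ne_zero
    rw [div_eq_iff (neg_ne_zero.2 (mul_ne_zero (mul_ne_zero two_ne_zero hI) hpi))]
    field_simp
    ring_nf
  rw [h5] at h4
  refine h4.congr' ?_
  filter_upwards [self_mem_nhdsWithin] with e he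
  have he' : e ≠ 0 := he
  rw [NodeLim_NF]
  simp only [Pi.div_apply, slope, vsub_eq_sub, smul_eq_mul, sub_zero, NodeLim_H_zero, mul_zero,
    Complex.sin_zero, neg_zero]
  rw [mul_div_mul_left _ _ (inv_ne_zero he')]

theorem node_lim (a : ℤ) (N : ℕ) (A : Finset (Fin m)) (t : Fin m → ℕ) (ht : ∀ j ∈ A, t j ≤ N) :
    Tendsto (fun q => NF a N q A t) (𝓝[≠] exp (Real.pi * I / ((N + 1 : ℕ) : ℂ)))
      (𝓝 (cG a (N + 1) / (4 * Real.pi) * (∏ j ∈ A, (-1) ^ (t j) * ((N + 1 : ℕ) : ℂ)) *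
        DG ((a : ℝ) / 2) (N + 1) A (fun j => N - t j))) := by
  have hM := NodeLim_M N
  have hI := Complex.I_ne_zero
  have hpi : (Real.pi : ℂ) ≠ 0 := by exact_mod_cast Real.pi_ne_zero
  set ξ : ℂ := exp (Real.pi * I / ((N + 1 : ℕ) : ℂ)) with hξ
  have hξ0 : ξ ≠ 0 := Complex.exp_ne_zero _
  set E : ℂ → ℂ := fun q => Complex.log (q / ξ) * (((N + 1 : ℕ) : ℂ) / (Real.pi * I)) with hE
  have hQ : ∀ q : ℂ, q ≠ 0 → NodeLim_Q N (E q) = q := by
    intro q hq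
    rw [NodeLim_Q, hE]
    have h1 : Real.pi * I * (1 + Complex.log (q / ξ) * (((N + 1 : ℕ) : ℂ) / (Real.pi * I))) /
        ((N + 1 : ℕ) : ℂ) = Real.pi * I / ((N + 1 : ℕ) : ℂ) + Complex.log (q / ξ) := by
      field_simp
    rw [h1, Complex.exp_add, Complex.exp_log (div_ne_zero hq hξ0), ← hξ]
    field_simp
  have hQ0 : NodeLim_Q N 0 = ξ := by
    rw [NodeLim_Q, hξ]
    congr 1
    ring
  have hEt : Tendsto E (𝓝 ξ) (𝓝 0) := by
    have h1 : ContinuousAt E ξ := by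
      refine ContinuousAt.mul (ContinuousAt.clog (by fun_prop) ?_) continuousAt_const
      rw [div_self hξ0]
      exact Complex.one_mem_slitPlane
    have h2 : E ξ = 0 := by
      simp only [hE]
      rw [div_self hξ0, Complex.log_one, zero_mul]
    have := h1.tendsto
    rwa [h2] at this
  have hq0 : ∀ᶠ q in 𝓝[≠] ξ, q ≠ 0 :=
    (eventually_ne_nhds hξ0).filter_mono nhdsWithin_le_nhds
  have hEt' : Tendsto E (𝓝[≠] ξ) (𝓝[≠] 0) := by
    rw [tendsto_nhdsWithin_iff]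
    refine ⟨hEt.mono_left nhdsWithin_le_nhds, ?_⟩
    filter_upwards [self_mem_nhdsWithin, hq0] with q hq hq'
    intro h
    apply hq
    have h1 := hQ q hq'
    rw [Set.mem_singleton_iff] at h
    rw [h, hQ0] at h1
    exact h1.symm
  refine ((NodeLim_lim a N A t ht).comp hEt').congr' ?_
  filter_upwards [hq0] with q hq
  simp only [Function.comp]
  rw [hQ q hq]

end Pool.Agent.H63.VC7
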