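import Pool.Agent.H63.VC3.KAn
import Pool.Agent.H63.VC7.NodeLim

/-! # The limit of the state sum at the root of unity -/

namespace Pool.Agent.H63.VC7

open Pool.Agent.H63.VC hiding ext
open Pool.Agent.H63.VC3 Pool.Agent.H63.VC4 Pool.Agent.H63.VC6 Complex Filter Topology

variable {m p : ℕ}

theorem RootLim_br (M : ℕ) (a : ℤ) :
    br (exp (Real.pi * I / (M : ℂ))) a = 2 * I * sin (Real.pi * a / M) := by
  have e1 : (a : ℂ) * (Real.pi * I / (M : ℂ)) = (Real.pi * a / M) * I := by ring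
  have e2 : ((-a : ℤ) : ℂ) * (Real.pi * I / (M : ℂ)) = -(Real.pi * a / M) * I := by
    push_cast
    ring
  unfold br
  rw [← exp_int_mul, ← exp_int_mul, e1, e2, Complex.sin]
  linear_combination (exp (-(Real.pi * a / M) * I) - exp (Real.pi * a / M * I)) *
    (-Complex.I_mul_I)

theorem RootLim_br1 (N i : ℕ) : br (exp (Real.pi * I / ((N + 1 : ℕ) : ℂ))) ((i : ℤ) + 1) =
    I * (sg (N + 1) (i + 1) : ℝ) := by
  rw [RootLim_br, sg]
  push_cast
  ring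

theorem RootLim_br2 (N i : ℕ) : br (exp (Real.pi * I / ((N + 1 : ℕ) : ℂ))) ((N : ℤ) + i + 2) =
    -(I * (sg (N + 1) (i + 1) : ℝ)) := by
  have hN : ((N : ℂ) + 1) ≠ 0 := by exact_mod_cast Nat.succ_ne_zero N
  rw [RootLim_br, sg]
  have e : (Real.pi * (((N : ℤ) + i + 2 : ℤ) : ℂ) / ((N + 1 : ℕ) : ℂ) : ℂ) =
      Real.pi * ((i : ℂ) + 1) / ((N : ℂ) + 1) + Real.pi := by
    push_cast
    field_simp
    ring
  rw [e, Complex.sin_add_pi]
  push_cast
  ring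

theorem RootLim_br3 (N i : ℕ) : br (exp (Real.pi * I / ((N + 1 : ℕ) : ℂ))) ((N : ℤ) - i) =
    I * (sg (N + 1) (i + 1) : ℝ) := by
  have hN : ((N : ℂ) + 1) ≠ 0 := by exact_mod_cast Nat.succ_ne_zero N
  rw [RootLim_br, sg]
  have e : (Real.pi * (((N : ℤ) - i : ℤ) : ℂ) / ((N + 1 : ℕ) : ℂ) : ℂ) =
      Real.pi - Real.pi * ((i : ℂ) + 1) / ((N : ℂ) + 1) := by
    push_cast
    field_simp
    ring
  rw [e, Complex.sin_pi_sub]
  push_cast
  ring

theorem RootLim_wd (N t : ℕ) : wd (exp (Real.pi * I / ((N + 1 : ℕ) : ℂ))) N t =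
    (-1) ^ t * ((S (N + 1) t : ℝ) : ℂ) ^ 4 := by
  induction t with
  | zero => simp [wd, S]
  | succ t ih =>
    unfold wd at ih ⊢
    rw [Finset.prod_range_succ, ih, RootLim_br1, RootLim_br2, RootLim_br3, S_succ]
    push_cast
    have hI : I ^ 4 = 1 := by
      rw [show (4 : ℕ) = 2 * 2 from rfl, pow_mul, I_sq]
      norm_num
    rw [pow_succ (-1 : ℂ) t]
    linear_combination (-1 : ℂ) ^ t * ((S (N + 1) t : ℝ) : ℂ) ^ 4 *
      (sg (N + 1) (t + 1) : ℂ) ^ 4 * (-hI)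

theorem RootLim_br_cont (x : ℂ) (hx : x ≠ 0) (a : ℤ) : ContinuousAt (fun q => br q a) x := by
  unfold br
  exact (continuousAt_zpow₀ x a (Or.inl hx)).sub (continuousAt_zpow₀ x (-a) (Or.inl hx))

theorem RootLim_wd_cont (x : ℂ) (hx : x ≠ 0) (N t : ℕ) : ContinuousAt (fun q => wd q N t) x := by
  unfold wd
  refine tendsto_finsetProd _ fun i _ => ?_
  exact ((RootLim_br_cont x hx _).pow 2).mul
    ((RootLim_br_cont x hx _).mul (RootLim_br_cont x hx _))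

theorem RootLim_factor (N t : ℕ) (ht : t ≤ N) :
    Tendsto (fun q => (-1) ^ t / wd q N t) (𝓝[≠] exp (Real.pi * I / ((N + 1 : ℕ) : ℂ)))
      (𝓝 (1 / ((S (N + 1) t : ℝ) : ℂ) ^ 4)) := by
  have hS : ((S (N + 1) t : ℝ) : ℂ) ≠ 0 := by
    exact_mod_cast (S_pos (M := N + 1) (k := t) (by omega)).ne'
  have h1 : ((-1 : ℂ)) ^ t ≠ 0 := pow_ne_zero _ (by norm_num)
  have h2 : wd (exp (Real.pi * I / ((N + 1 : ℕ) : ℂ))) N t ≠ 0 := by
    rw [RootLim_wd]
    exact mul_ne_zero h1 (pow_ne_zero _ hS)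
  have h3 : Tendsto (fun q => (-1) ^ t / wd q N t) (𝓝 (exp (Real.pi * I / ((N + 1 : ℕ) : ℂ))))
      (𝓝 ((-1) ^ t / wd (exp (Real.pi * I / ((N + 1 : ℕ) : ℂ))) N t)) :=
    tendsto_const_nhds.div (RootLim_wd_cont _ (exp_ne_zero _) N t) h2
  have h4 : (-1) ^ t / wd (exp (Real.pi * I / ((N + 1 : ℕ) : ℂ))) N t =
      1 / ((S (N + 1) t : ℝ) : ℂ) ^ 4 := by
    rw [RootLim_wd]
    field_simp
  rw [h4] at h3
  exact h3.mono_left nhdsWithin_le_nhds

theorem RootLim_Cc (N k : ℕ) (hk : k ≤ N) :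
    Cc 2 1 (N + 1) (yk 2 (N + 1) k) = ((S (N + 1) k : ℝ) : ℂ) ^ 4 := by
  rw [Cc_yk 2 1 (N + 1) k le_rfl le_rfl (by omega) le_rfl]
  simp only [Nat.sub_self, add_zero, Nat.reduceSub]
  ring

theorem RootLim_S (N k : ℕ) (hk : k ≤ N) :
    ((N + 1 : ℕ) : ℂ) ^ 2 * (1 / ((S (N + 1) (N - k) : ℝ) : ℂ) ^ 4) =
      ((S (N + 1) k : ℝ) : ℂ) ^ 4 / ((N + 1 : ℕ) : ℂ) ^ 2 := by
  have h := S_mul (M := N + 1) (k := k) (by omega)
  have e : N + 1 - 1 - k = N - k := by omega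
  rw [e] at h
  have h' : ((S (N + 1) k : ℝ) : ℂ) * ((S (N + 1) (N - k) : ℝ) : ℂ) = ((N + 1 : ℕ) : ℂ) := by
    exact_mod_cast h
  have hS : ((S (N + 1) (N - k) : ℝ) : ℂ) ≠ 0 := by
    exact_mod_cast (S_pos (M := N + 1) (k := N - k) (by omega)).ne'
  have hM : ((N + 1 : ℕ) : ℂ) ≠ 0 := by exact_mod_cast Nat.succ_ne_zero N
  rw [mul_one_div, div_eq_div_iff (pow_ne_zero _ hS) (pow_ne_zero _ hM), ← h']
  ring

theorem RootLim_sum (s t : Fin m → Fin p) (hst : ∀ j, s j ≠ t j) (a : Fin p → ℤ) (N : ℕ) :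
    ∑ k ∈ Fintype.piFinset (fun _ : Fin m => Finset.range (N + 1)),
      (∏ j, 1 / ((S (N + 1) (k j) : ℝ) : ℂ) ^ 4) *
        ∏ i, (cG (a i) (N + 1) / (4 * Real.pi) *
          (∏ j ∈ inc s t i, (-1) ^ (k j) * ((N + 1 : ℕ) : ℂ)) *
          DG ((a i : ℝ) / 2) (N + 1) (inc s t i) (fun j => N - k j)) =
    ((∏ i, cG (a i) (N + 1) / (4 * Real.pi)) / ((N + 1 : ℕ) : ℂ) ^ (2 * m) *
        JG s t (fun i => (a i : ℝ) / 2) (N + 1)) := by
  unfold JG
  rw [Finset.mul_sum]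
  refine Finset.sum_bij' (fun k _ => fun j => N - k j) (fun k _ => fun j => N - k j)
    ?_ ?_ ?_ ?_ ?_
  · intro k _
    rw [Fintype.mem_piFinset]
    intro j
    rw [Finset.mem_range]
    omega
  · intro k _
    rw [Fintype.mem_piFinset]
    intro j
    rw [Finset.mem_range]
    omega
  · intro k hk
    rw [Fintype.mem_piFinset] at hk
    funext j
    have := Finset.mem_range.1 (hk j)
    show N - (N - k j) = k j
    omega
  · intro k hk
    rw [Fintype.mem_piFinset] at hk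
    funext j
    have := Finset.mem_range.1 (hk j)
    show N - (N - k j) = k j
    omega
  · intro k hk
    rw [Fintype.mem_piFinset] at hk
    have hk' : ∀ j, k j ≤ N := fun j => by
      have := Finset.mem_range.1 (hk j)
      omega
    rw [Finset.prod_mul_distrib, Finset.prod_mul_distrib,
      prod_inc s t hst (fun _ j => (-1) ^ (k j) * ((N + 1 : ℕ) : ℂ))]
    have e1 : ∀ j : Fin m, ((-1) ^ (k j) * ((N + 1 : ℕ) : ℂ)) * ((-1) ^ (k j) * ((N + 1 : ℕ) : ℂ)) =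
        ((N + 1 : ℕ) : ℂ) ^ 2 := by
      intro j
      have h : ((-1 : ℂ) ^ (k j)) * (-1) ^ (k j) = 1 := by
        rw [← mul_pow]
        norm_num
      linear_combination ((N + 1 : ℕ) : ℂ) ^ 2 * h
    rw [Finset.prod_congr rfl fun j _ => e1 j]
    have e2 : (∏ j, 1 / ((S (N + 1) (k j) : ℝ) : ℂ) ^ 4) * (∏ _j : Fin m, ((N + 1 : ℕ) : ℂ) ^ 2) =
        (∏ j, Cc 2 1 (N + 1) (yk 2 (N + 1) (N - k j))) / ((N + 1 : ℕ) : ℂ) ^ (2 * m) := by
      have e3 : ((N + 1 : ℕ) : ℂ) ^ (2 * m) = ∏ _j : Fin m, ((N + 1 : ℕ) : ℂ) ^ 2 := by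
        rw [Finset.prod_const, Finset.card_univ, Fintype.card_fin, pow_mul]
      rw [e3, ← Finset.prod_mul_distrib, ← Finset.prod_div_distrib]
      refine Finset.prod_congr rfl fun j _ => ?_
      rw [RootLim_Cc N (N - k j) (Nat.sub_le _ _)]
      have h := RootLim_S N (N - k j) (Nat.sub_le _ _)
      rw [show N - (N - k j) = k j from by have := hk' j; omega] at h
      rw [← h]
      ring
    calc _ = ((∏ j, 1 / ((S (N + 1) (k j) : ℝ) : ℂ) ^ 4) *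
          (∏ _j : Fin m, ((N + 1 : ℕ) : ℂ) ^ 2)) *
          ((∏ i, cG (a i) (N + 1) / (4 * Real.pi)) *
            ∏ i, DG ((a i : ℝ) / 2) (N + 1) (inc s t i) (fun j => N - k j)) := by ring
      _ = _ := by
        rw [e2]
        ring

theorem root_lim (s t : Fin m → Fin p) (hst : ∀ j, s j ≠ t j) (a : Fin p → ℤ) (N : ℕ) :
    Tendsto (fun q => jones s t a N q) (𝓝[≠] exp (Real.pi * I / ((N + 1 : ℕ) : ℂ)))
      (𝓝 ((∏ i, cG (a i) (N + 1) / (4 * Real.pi)) / ((N + 1 : ℕ) : ℂ) ^ (2 * m) *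
        JG s t (fun i => (a i : ℝ) / 2) (N + 1))) := by
  rw [← RootLim_sum s t hst a N]
  have e : (fun q => jones s t a N q) = fun q =>
      ∑ k ∈ Fintype.piFinset (fun _ : Fin m => Finset.range (N + 1)),
        (∏ j, (-1) ^ (k j) / wd q N (k j)) * ∏ i, NF (a i) N q (inc s t i) k := by
    funext q
    exact jones_swap s t hst a N q
  rw [e]
  refine tendsto_finsetSum _ fun k hk => ?_
  rw [Fintype.mem_piFinset] at hk
  have hk' : ∀ j, k j ≤ N := fun j => by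
    have := Finset.mem_range.1 (hk j)
    omega
  refine Tendsto.mul ?_ ?_
  · exact tendsto_finsetProd _ fun j _ => RootLim_factor N (k j) (hk' j)
  · exact tendsto_finsetProd _ fun i _ => node_lim (a i) N (inc s t i) k fun j _ => hk' j

end Pool.Agent.H63.VC7
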