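import Pool.Agent.H63.VC7.Geo
import Pool.Agent.H63.VC3.Five

/-! # The volume of a block -/

namespace Pool.Agent.H63.VC7

open Pool.Agent.H63.VC hiding ext
open Pool.Agent.H63.VC3 Pool.Agent.H63.VC4 Pool.Agent.H63.VC6 Complex

private theorem VolBlock_id1 (a b : ℂ) :
    cos a + I * sin (a + b) * exp (I * b) = exp (I * (a + b)) * cos b := by
  have h1 : exp (-(I * a)) * exp (I * a) = 1 := by rw [← exp_add]; simp
  have h2 : exp (-(I * b)) * exp (I * b) = 1 := by rw [← exp_add]; simp
  have ea : cos a = (exp (I * a) + exp (-(I * a))) / 2 := by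
    rw [Complex.cos]; congr 3 <;> ring
  have eb : cos b = (exp (I * b) + exp (-(I * b))) / 2 := by
    rw [Complex.cos]; congr 3 <;> ring
  have eab : sin (a + b) = (exp (-(I * a)) * exp (-(I * b)) - exp (I * a) * exp (I * b)) * I / 2 := by
    rw [Complex.sin, ← exp_add, ← exp_add]; congr 4 <;> ring
  have e3 : exp (I * (a + b)) = exp (I * a) * exp (I * b) := by
    rw [← exp_add]; congr 1; ring
  rw [ea, eb, eab, e3]
  have hI : I * I = -1 := Complex.I_mul_I
  linear_combination (exp (-(I * a)) * exp (-(I * b)) - exp (I * a) * exp (I * b)) *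
    exp (I * b) / 2 * hI - (exp (-(I * a)) + exp (I * a)) / 2 * h2

private theorem VolBlock_id2 (a b : ℂ) :
    cos a - I * exp (-(I * b)) * sin (a + b) = exp (-(I * (a + b))) * cos b := by
  have h1 : exp (-(I * a)) * exp (I * a) = 1 := by rw [← exp_add]; simp
  have h2 : exp (-(I * b)) * exp (I * b) = 1 := by rw [← exp_add]; simp
  have ea : cos a = (exp (I * a) + exp (-(I * a))) / 2 := by
    rw [Complex.cos]; congr 3 <;> ring
  have eb : cos b = (exp (I * b) + exp (-(I * b))) / 2 := by
    rw [Complex.cos]; congr 3 <;> ring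
  have eab : sin (a + b) = (exp (-(I * a)) * exp (-(I * b)) - exp (I * a) * exp (I * b)) * I / 2 := by
    rw [Complex.sin, ← exp_add, ← exp_add]; congr 4 <;> ring
  have e3 : exp (-(I * (a + b))) = exp (-(I * a)) * exp (-(I * b)) := by
    rw [← exp_add]; congr 1; ring
  rw [ea, eb, eab, e3]
  have hI : I * I = -1 := Complex.I_mul_I
  linear_combination -(exp (-(I * a)) * exp (-(I * b)) - exp (I * a) * exp (I * b)) *
    exp (-(I * b)) / 2 * hI - (exp (-(I * a)) + exp (I * a)) / 2 * h2

private theorem VolBlock_neg_inv (z : ℂ) :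
    blochWigner (1 / (1 + z)) = blochWigner (-z) := by
  rw [one_div, SWpath_inv, show (1 : ℂ) + z = 1 - -z by ring, SWpath_one_sub, neg_neg]

/-- Two tetrahedra glued along a face. -/
theorem vol_pair (y v : ℂ) (hy : cos (Real.pi * y) ≠ 0) (hv : cos (Real.pi * v) ≠ 0)
    (h : sin (Real.pi * (y + v)) ≠ 0) :
    blochWigner (sX y v) + blochWigner (sY y v) =
    blochWigner (exp (2 * Real.pi * I * (y + v))) - blochWigner (-exp (2 * Real.pi * I * y)) -
      blochWigner (-exp (2 * Real.pi * I * v)) := by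
  have hI : I * I = -1 := Complex.I_mul_I
  have hI0 : I ≠ 0 := Complex.I_ne_zero
  set a : ℂ := Real.pi * y with ha
  set b : ℂ := Real.pi * v with hb
  have hab : (Real.pi : ℂ) * (y + v) = a + b := by rw [ha, hb]; ring
  rw [hab] at h
  set c := cos a with hc
  set d := cos b with hd
  set s := sin (a + b) with hs
  have eE : exp (I * (a + b)) = exp (I * a) * exp (I * b) := by
    rw [← exp_add]; congr 1; ring
  have i1 := VolBlock_id1 a b
  have i1' : d + I * s * exp (I * a) = exp (I * (a + b)) * c := by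
    have := VolBlock_id1 b a
    rw [add_comm b a] at this
    exact this
  have i2 := VolBlock_id2 a b
  rw [← hc, ← hs, ← hd] at i1 i2
  rw [eE] at i1 i1'
  have eneg : exp (-(I * (a + b))) = (exp (I * a) * exp (I * b))⁻¹ := by
    rw [← eE, exp_neg]
  have enegb : exp (-(I * b)) = (exp (I * b))⁻¹ := exp_neg _
  rw [eneg] at i2
  have sXe : sX y v = I * (exp (I * b))⁻¹ * c / s := by
    rw [sX, hab, ← enegb, hb]
    congr 4
    ring
  have sYe : sY y v = I * (exp (I * b))⁻¹ * s / c := by
    rw [sY, hab, ← enegb, hb]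
    congr 4
    ring
  rw [enegb] at i2
  have e1 : exp (2 * Real.pi * I * (y + v)) = (exp (I * a) * exp (I * b)) ^ 2 := by
    rw [← eE, ← exp_nat_mul, ha, hb]; congr 1; push_cast; ring
  have e2 : exp (2 * Real.pi * I * y) = exp (I * a) ^ 2 := by
    rw [← exp_nat_mul, ha]; congr 1; push_cast; ring
  have e3 : exp (2 * Real.pi * I * v) = exp (I * b) ^ 2 := by
    rw [← exp_nat_mul, hb]; congr 1; push_cast; ring
  have ec : 2 * c * exp (I * a) = 1 + exp (I * a) ^ 2 := by
    have h1 : exp (-(I * a)) * exp (I * a) = 1 := by rw [← exp_add]; simp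
    have ea : c = (exp (I * a) + exp (-(I * a))) / 2 := by
      rw [hc, Complex.cos]; congr 3 <;> ring
    rw [ea]
    linear_combination h1
  have ed : 2 * d * exp (I * b) = 1 + exp (I * b) ^ 2 := by
    have h1 : exp (-(I * b)) * exp (I * b) = 1 := by rw [← exp_add]; simp
    have eb : d = (exp (I * b) + exp (-(I * b))) / 2 := by
      rw [hd, Complex.cos]; congr 3 <;> ring
    rw [eb]
    linear_combination h1
  rw [sXe, sYe, e1, e2, e3]
  have hA0 : exp (I * a) ≠ 0 := exp_ne_zero _
  have hB0 : exp (I * b) ≠ 0 := exp_ne_zero _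
  generalize exp (I * a) = A at *
  generalize exp (I * b) = B at *
  clear_value a b c d s
  have es : 1 - (A * B) ^ 2 = -2 * I * s * (A * B) := by
    have hc' : c = (1 + A ^ 2) / (2 * A) := by
      rw [eq_div_iff (by simpa using hA0)]; linear_combination ec
    have hd' : d = (1 + B ^ 2) / (2 * B) := by
      rw [eq_div_iff (by simpa using hB0)]; linear_combination ed
    rw [hc', hd'] at i1
    field_simp at i1
    linear_combination i1
  have hne : (A * B) ^ 2 ≠ 1 := by
    intro h1
    rw [h1, sub_self] at es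
    have : -2 * I * s * (A * B) ≠ 0 :=
      mul_ne_zero (mul_ne_zero (mul_ne_zero (by norm_num) hI0) h) (mul_ne_zero hA0 hB0)
    exact this es.symm
  have hD : -2 * I * s * (A * B) ≠ 0 :=
    mul_ne_zero (mul_ne_zero (mul_ne_zero (by norm_num) hI0) h) (mul_ne_zero hA0 hB0)
  have hXY : (A * B * d / c) * (A * B * c / d) = (A * B) ^ 2 := by
    field_simp
  have five := five_term (A * B * d / c) (A * B * c / d) (by rw [hXY]; exact hne)
  rw [hXY] at five
  have X1 : (A * B * d / c) = 1 - (I * B⁻¹ * c / s)⁻¹ := by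
    have : (I * B⁻¹ * c / s)⁻¹ = -(I * s * B / c) := by
      rw [inv_eq_iff_eq_inv, eq_comm, inv_eq_iff_eq_inv]
      field_simp
      linear_combination (-1 : ℂ) * hI
    rw [this, sub_neg_eq_add, div_eq_iff hy, add_mul, one_mul, div_mul_cancel₀ _ hy]
    linear_combination -i1
  have Y1 : (A * B * c / d) = (1 - (I * B⁻¹ * s / c))⁻¹ := by
    have : 1 - (I * B⁻¹ * s / c) = (A * B)⁻¹ * d / c := by
      rw [eq_div_iff hy, sub_mul, div_mul_cancel₀ _ hy, one_mul]
      linear_combination i2
    rw [this]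
    field_simp
  have X2 : (1 - A * B * d / c) / (1 - (A * B) ^ 2) = 1 / (1 + A ^ 2) := by
    have : 1 - A * B * d / c = -(I * s * B) / c := by
      rw [eq_div_iff hy, sub_mul, div_mul_cancel₀ _ hy, one_mul]
      linear_combination i1
    rw [this, es, ← ec]
    field_simp
  have Y2 : (1 - A * B * c / d) / (1 - (A * B) ^ 2) = 1 / (1 + B ^ 2) := by
    have : 1 - A * B * c / d = -(I * s * A) / d := by
      rw [eq_div_iff hv, sub_mul, div_mul_cancel₀ _ hv, one_mul]
      linear_combination i1'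
    rw [this, es, ← ed]
    field_simp
  rw [X2, Y2, VolBlock_neg_inv, VolBlock_neg_inv, X1, Y1, SWpath_one_sub, SWpath_one_sub,
    SWpath_inv, SWpath_inv, SWpath_one_sub] at five
  linarith

private theorem VolBlock_cos_ne {z : ℂ} (h : |z.re| < 1 / 2) : cos (Real.pi * z) ≠ 0 := by
  intro h0
  rw [Complex.cos_eq_zero_iff] at h0
  obtain ⟨k, hk⟩ := h0
  have hpi : (Real.pi : ℂ) ≠ 0 := by exact_mod_cast Real.pi_ne_zero
  have e : z = (2 * k + 1) / 2 := by
    apply mul_left_cancel₀ hpi
    rw [hk]; ring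
  have er : z.re = (2 * (k : ℝ) + 1) / 2 := by
    rw [e]
    have : ((2 * (k : ℂ) + 1) / 2) = (((2 * (k : ℝ) + 1) / 2 : ℝ) : ℂ) := by push_cast; ring
    rw [this, Complex.ofReal_re]
  rw [er, abs_lt] at h
  have h1 : (-1 : ℝ) < (k : ℝ) := by linarith [h.1]
  have h2 : (k : ℝ) < 0 := by linarith [h.2]
  have h3 : (-1 : ℤ) < k := by exact_mod_cast h1
  have h4 : k < 0 := by exact_mod_cast h2
  omega

private theorem VolBlock_sin_ne {z : ℂ} (h0 : 0 < z.re) (h1 : z.re < 1) :
    sin (Real.pi * z) ≠ 0 := by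
  have e : sin (Real.pi * z) = cos (Real.pi * (1 / 2 - z)) := by
    rw [show (Real.pi : ℂ) * (1 / 2 - z) = Real.pi / 2 - Real.pi * z by ring,
      Complex.cos_pi_div_two_sub]
  rw [e]
  apply VolBlock_cos_ne
  rw [Complex.sub_re, abs_lt]
  have : (1 / 2 : ℂ).re = 1 / 2 := by
    rw [show (1 / 2 : ℂ) = ((1 / 2 : ℝ) : ℂ) by push_cast; ring, Complex.ofReal_re]
  rw [this]
  constructor <;> linarith

private theorem VolBlock_pair' {y v : ℂ} (hy : ‖y - 1 / 4‖ ≤ 6 / 1000)
    (hv : |v.re| ≤ 53 / 1000) :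
    blochWigner (sX y v) + blochWigner (sY y v) =
    blochWigner (exp (2 * Real.pi * I * (y + v))) - blochWigner (-exp (2 * Real.pi * I * y)) -
      blochWigner (-exp (2 * Real.pi * I * v)) := by
  have h1 : |(y - 1 / 4).re| ≤ 6 / 1000 := (Complex.abs_re_le_norm _).trans hy
  have h2 : (y - 1 / 4).re = y.re - 1 / 4 := by
    rw [Complex.sub_re, show (1 / 4 : ℂ) = ((1 / 4 : ℝ) : ℂ) by push_cast; ring,
      Complex.ofReal_re]
  rw [h2, abs_le] at h1
  rw [abs_le] at hv
  apply vol_pair
  · apply VolBlock_cos_ne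
    rw [abs_lt]; constructor <;> linarith [h1.1, h1.2]
  · apply VolBlock_cos_ne
    rw [abs_lt]; constructor <;> linarith [hv.1, hv.2]
  · apply VolBlock_sin_ne
    · rw [Complex.add_re]; linarith [h1.1, hv.1]
    · rw [Complex.add_re]; linarith [h1.2, hv.2]

private theorem VolBlock_neg_exp (v : ℂ) :
    blochWigner (-exp (2 * Real.pi * I * (-v))) = -blochWigner (-exp (2 * Real.pi * I * v)) := by
  rw [← SWpath_inv]
  congr 1
  rw [inv_neg, ← exp_neg]
  congr 2
  ring

theorem vol_block {y v w : ℂ} (h : Loc7 y v w) :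
    ∑ k, (blochWigner (shx y v w k) + blochWigner (shy y v w k)) =
      blochWigner (exp (2 * Real.pi * I * (y - v))) +
      blochWigner (exp (2 * Real.pi * I * (y + v))) +
      blochWigner (exp (2 * Real.pi * I * (y - w))) +
      blochWigner (exp (2 * Real.pi * I * (y + w))) -
      4 * blochWigner (-exp (2 * Real.pi * I * y)) := by
  have hnv : |(-v).re| ≤ 53 / 1000 := by rw [Complex.neg_re, abs_neg]; exact h.hv.1
  have hnw : |(-w).re| ≤ 53 / 1000 := by rw [Complex.neg_re, abs_neg]; exact h.hw.1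
  have p1 := VolBlock_pair' h.hy h.hv.1
  have p2 := VolBlock_pair' h.hy hnw
  have p3 := VolBlock_pair' h.hy h.hw.1
  have p4 := VolBlock_pair' h.hy hnv
  rw [VolBlock_neg_exp, ← sub_eq_add_neg] at p2 p4
  rw [Fin.sum_univ_four]
  have e0 : shx y v w 0 = sX y v := rfl
  have e1 : shx y v w 1 = sX y (-w) := rfl
  have e2 : shx y v w 2 = sX y w := rfl
  have e3 : shx y v w 3 = sX y (-v) := rfl
  have f0 : shy y v w 0 = sY y v := rfl
  have f1 : shy y v w 1 = sY y (-w) := rfl
  have f2 : shy y v w 2 = sY y w := rfl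
  have f3 : shy y v w 3 = sY y (-v) := rfl
  rw [e0, e1, e2, e3, f0, f1, f2, f3]
  linarith

end Pool.Agent.H63.VC7
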