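import Pool.Agent.H63.VC7.LocG
import Pool.Agent.H63.VC3.BWff

/-! # The critical value as a sum of volumes -/

namespace Pool.Agent.H63.VC7

open Pool.Agent.H63.VC hiding ext
open Pool.Agent.H63.VC3 Pool.Agent.H63.VC4 Pool.Agent.H63.VC6 Complex

variable {m p : ℕ} {s t : Fin m → Fin p} {r : Fin p → ℝ} {y : Fin m → ℂ} {v : Fin p → ℂ}

private lemma VolG_v (hc : CritG s t r y v) (i : Fin p) : |(v i).re| ≤ 6 / 100 := by
  have h1 := (locG_v hc i).2.2.1
  exact (Complex.abs_re_le_norm (v i)).trans (h1.trans (by norm_num))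

private lemma VolG_y (hc : CritG s t r y v) (j : Fin m) : |(y j).re - 1 / 4| ≤ 1 / 100 := by
  have h1 := (locG_y hc j).2
  have h2 := (Complex.abs_re_le_norm (y j - 1 / 4)).trans h1
  have e : (y j - 1 / 4).re = (y j).re - 1 / 4 := by
    rw [Complex.sub_re]
    norm_num
  rw [e] at h2
  linarith

private lemma VolG_slot (hc : CritG s t r y v) (j : Fin m) (i : Fin p) :
    2 * Real.pi * (po (some (y j)) (v i)).re =
      blochWigner (exp (2 * Real.pi * I * (y j - v i))) +
        blochWigner (exp (2 * Real.pi * I * (y j + v i))) +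
        2 * Real.pi * (y j).im * (hh (y j - v i) + hh (y j + v i)).im -
        2 * Real.pi * (v i).im * (dpo (some (y j)) (v i)).im := by
  have h1 := VolG_y hc j
  have h2 := VolG_v hc i
  rw [abs_le] at h1 h2
  have f1 := ff_re_bw (y j - v i) (by rw [Complex.sub_re]; linarith [h1.1, h2.2])
    (by rw [Complex.sub_re]; linarith [h1.2, h2.1])
  have f2 := ff_re_bw (y j + v i) (by rw [Complex.add_re]; linarith [h1.1, h2.1])
    (by rw [Complex.add_re]; linarith [h1.2, h2.2])
  simp only [po, dpo, Complex.sub_re, Complex.neg_re, Complex.add_im, Complex.sub_im] at f1 f2 ⊢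
  linear_combination -f1 - f2

theorem crit_valueG (hc : CritG s t r y v) :
    2 * Real.pi * (VG s t r y v).re =
      ∑ j : Fin m, (blochWigner (exp (2 * Real.pi * I * (y j - v (s j)))) +
        blochWigner (exp (2 * Real.pi * I * (y j + v (s j)))) +
        blochWigner (exp (2 * Real.pi * I * (y j - v (t j)))) +
        blochWigner (exp (2 * Real.pi * I * (y j + v (t j)))) -
        4 * blochWigner (-exp (2 * Real.pi * I * y j))) := by
  -- the linear terms
  have hlin : ∀ i : Fin p, (2 * Real.pi * I * (r i * v i ^ 2 + v i) : ℂ).re =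
      ∑ j ∈ inc s t i, (v i).im * (dpo (some (y j)) (v i)).im := by
    intro i
    have ev := congrArg Complex.im (hc.ev i)
    have g1 : (2 * Real.pi * I * (2 * r i * v i + 1) : ℂ).im =
        2 * Real.pi * (2 * r i * (v i).re + 1) := by
      simp [Complex.mul_im, Complex.mul_re]
    have g3 : (2 * Real.pi * I * (r i * v i ^ 2 + v i) : ℂ).re =
        -(2 * Real.pi * (2 * r i * (v i).re * (v i).im + (v i).im)) := by
      simp only [pow_two, Complex.mul_re, Complex.mul_im, Complex.add_re, Complex.add_im,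
        Complex.I_re, Complex.I_im, Complex.ofReal_re, Complex.ofReal_im, Complex.re_ofNat,
        Complex.im_ofNat]
      ring
    rw [Complex.add_im, g1, Complex.zero_im, Complex.im_sum] at ev
    rw [g3, ← Finset.mul_sum]
    have g4 : ∑ j ∈ inc s t i, (dpo (some (y j)) (v i)).im =
        ∑ j ∈ inc s t i, (hh (y j - v i) - hh (y j + v i)).im :=
      Finset.sum_congr rfl fun j _ => by simp only [dpo]
    rw [g4]
    linear_combination (-(v i).im) * ev
  -- the sum over the slots
  have hre : (VG s t r y v).re = (∑ j, 4 * (ff (y j + 1 / 2)).re) +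
      ∑ i : Fin p, ∑ j ∈ inc s t i, ((v i).im * (dpo (some (y j)) (v i)).im +
        (po (some (y j)) (v i)).re) := by
    rw [VG, Complex.add_re, Complex.re_sum, Complex.re_sum]
    congr 1
    · refine Finset.sum_congr rfl (fun j _ => ?_)
      simp [Complex.mul_re]
    · refine Finset.sum_congr rfl (fun i _ => ?_)
      rw [WG, Complex.add_re, hlin i, Complex.re_sum, Finset.sum_add_distrib]
  rw [sum_inc s t hc.st (fun i j => (v i).im * (dpo (some (y j)) (v i)).im +
    (po (some (y j)) (v i)).re)] at hre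
  rw [hre, ← Finset.sum_add_distrib, Finset.mul_sum]
  refine Finset.sum_congr rfl (fun j _ => ?_)
  have h1 := VolG_y hc j
  rw [abs_le] at h1
  have c0 : (y j + 1 / 2).re = (y j).re + 1 / 2 := by
    rw [Complex.add_re]
    norm_num
  have c1 : 0 < (y j + 1 / 2).re := by rw [c0]; linarith [h1.1]
  have c2 : (y j + 1 / 2).re < 1 := by rw [c0]; linarith [h1.2]
  have c3 : (y j + 1 / 2).im = (y j).im := by
    rw [Complex.add_im]
    norm_num
  have f0 := ff_re_bw _ c1 c2
  have e0 : exp (2 * Real.pi * I * (y j + 1 / 2)) = -exp (2 * Real.pi * I * y j) := by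
    have e : (2 * Real.pi * I * (y j + 1 / 2) : ℂ) = 2 * Real.pi * I * y j + Real.pi * I := by ring
    rw [e, Complex.exp_add, Complex.exp_pi_mul_I]
    ring
  rw [e0, c3] at f0
  have f1 := VolG_slot hc j (s j)
  have f2 := VolG_slot hc j (t j)
  have ey := congrArg Complex.im (hc.ey j)
  have g5 : (4 * hh (y j + 1 / 2)).im = 4 * (hh (y j + 1 / 2)).im := by
    simp [Complex.mul_im]
  simp only [Complex.add_im, g5] at ey
  simp only [Complex.add_im] at f1 f2
  linear_combination 4 * f0 + f1 + f2 - 2 * Real.pi * (y j).im * ey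

end Pool.Agent.H63.VC7
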