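import Pool.Agent.H63.VC7.SumC
import Pool.Agent.H63.VC7.WuC
import Pool.Agent.H63.VC7.VolBlock
import Pool.Agent.H63.VC7.VolG

/-! # The hyperbolic structure from the critical point -/

namespace Pool.Agent.H63.VC7

open Pool.Agent.H63.VC hiding ext
open Pool.Agent.H63.VC3 Pool.Agent.H63.VC4 Pool.Agent.H63.VC5 Pool.Agent.H63.VC6 Complex

variable {m p : ℕ}

/-- The sum over the slots of a node. -/
theorem StructC_slots (s t : Fin m → Fin p) (hst : ∀ j, s j ≠ t j) (i : Fin p)
    (h : Fin p → Fin m → ℂ) :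
    ∑ j, ((if s j = i then h (s j) j else 0) + (if t j = i then h (t j) j else 0)) =
      ∑ j ∈ inc s t i, h i j := by
  rw [inc, Finset.sum_filter]
  refine Finset.sum_congr rfl fun j _ => ?_
  by_cases h1 : s j = i
  · have h2 : ¬ t j = i := fun h2 => hst j (h1.trans h2.symm)
    rw [if_pos h1, if_neg h2, if_pos (Or.inl h1), h1, add_zero]
  · by_cases h2 : t j = i
    · rw [if_neg h1, if_pos h2, if_pos (Or.inr h2), h2, zero_add]
    · rw [if_neg h1, if_neg h2, if_neg (fun h => h.elim h1 h2), add_zero]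

/-- The sum of the meridians at a node. -/
theorem StructC_mer (s t : Fin m → Fin p) (a : Fin p → ℤ) (y : Fin m → ℂ) (v : Fin p → ℂ)
    (hc : CritG s t (fun i => (a i : ℝ) / 2) y v) (i : Fin p) :
    ∑ j, ((if s j = i then hh (y j - v (s j)) - hh (y j + v (s j)) else 0) +
      (if t j = i then hh (y j - v (t j)) - hh (y j + v (t j)) else 0)) =
      -(2 * Real.pi * I * (a i * v i + 1)) := by
  rw [StructC_slots s t hc.st i fun i j => hh (y j - v i) - hh (y j + v i)]
  have h1 := hc.ev i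
  have h2 : (((a i : ℝ) / 2 : ℝ) : ℂ) = (a i : ℂ) / 2 := by push_cast; rfl
  rw [h2] at h1
  linear_combination h1

theorem loc7_of_crit (s t : Fin m → Fin p) (r : Fin p → ℝ) (y : Fin m → ℂ) (v : Fin p → ℂ)
    (hc : CritG s t r y v) (j : Fin m) : Loc7 (y j) (v (s j)) (v (t j)) :=
  ⟨(locG_y hc j).2, (locG_v hc (s j)).1, (locG_v hc (t j)).1, hc.ey j⟩

theorem isGeom_of_crit (s t : Fin m → Fin p) (a : Fin p → ℤ) (y : Fin m → ℂ) (v : Fin p → ℂ)
    (hc : CritG s t (fun i => (a i : ℝ) / 2) y v) :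
    Hyp.IsGeom s t a (fun j => shx (y j) (v (s j)) (v (t j)))
      (fun j => shy (y j) (v (s j)) (v (t j))) := by
  refine ⟨fun j k => block_pos (loc7_of_crit s t _ y v hc j) k,
    fun i => 2 * Real.pi * I * v i, fun i => hh (v i + 1 / 2),
    ⟨fun j => block_geom (loc7_of_crit s t _ y v hc j), fun i => ?_⟩⟩
  have h1 : ∀ j, ((if s j = i then
      Hyp.mer (fun k => Hyp.lgs (shx (y j) (v (s j)) (v (t j)) k)) else 0) +
      (if t j = i then
        Hyp.mer (Hyp.opp (fun k => Hyp.lgs (shx (y j) (v (s j)) (v (t j)) k))) else 0)) =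
      ((if s j = i then hh (y j - v (s j)) - hh (y j + v (s j)) else 0) +
      (if t j = i then hh (y j - v (t j)) - hh (y j + v (t j)) else 0)) := by
    intro j
    obtain ⟨e1, e2, -, -⟩ := block_mer (loc7_of_crit s t _ y v hc j) 0 0 0 0
    rw [e1, e2]
  rw [Finset.sum_congr rfl fun j _ => h1 j, StructC_mer s t a y v hc i]
  ring

theorem isVolume_of_crit (s t : Fin m → Fin p) (a : Fin p → ℤ) (y : Fin m → ℂ) (v : Fin p → ℂ)
    (hc : CritG s t (fun i => (a i : ℝ) / 2) y v) :
    Hyp.IsVolume s t a (2 * Real.pi * (VG s t (fun i => (a i : ℝ) / 2) y v).re) := by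
  refine ⟨_, _, isGeom_of_crit s t a y v hc, ?_⟩
  rw [crit_valueG hc]
  exact Finset.sum_congr rfl fun j _ => (vol_block (loc7_of_crit s t _ y v hc j)).symm

theorem isComplexVolume_of_crit (s t : Fin m → Fin p) (a : Fin p → ℤ) (y : Fin m → ℂ)
    (v : Fin p → ℂ) (hc : CritG s t (fun i => (a i : ℝ) / 2) y v) :
    ∃ Z : ℂ, Hyp.IsComplexVolume s t a Z ∧
      Cg Z (2 * Real.pi * I * VG s t (fun i => (a i : ℝ) / 2) y v +
        (Real.pi : ℂ) ^ 2 / 2 * ∑ i, (a i : ℂ)) := by
  have hl := loc7_of_crit s t _ y v hc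
  obtain ⟨n, al, be, hn⟩ := wu_exists s t hc.st hc.ne a
  obtain ⟨f, f', hf⟩ := flip_exists s t hc.st hc.ne a
  refine ⟨_, ⟨_, _, fun j => FX (y j) (v (s j)) (v (t j)) (n (s j)) (n (t j)) (al j) (be j),
    fun j => FY (y j) (v (s j)) (v (t j)) (n (s j)) (n (t j)) (al j) (be j),
    fun i => 2 * Real.pi * I * v i + n i * (Real.pi * I),
    fun i => hh (v i + 1 / 2) + n i / 2 * (Real.pi * I), f, f',
    isGeom_of_crit s t a y v hc, fun j k => block_isFlat (hl j) _ _ _ _ k,
    ⟨fun j => block_flat (hl j) _ _ _ _, fun i => ?_⟩, hf, rfl⟩,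
    sum_R s t a y v hc hl n al be hn f f' hf⟩
  have h1 : ∀ j, ((if s j = i then
      Hyp.mer (FX (y j) (v (s j)) (v (t j)) (n (s j)) (n (t j)) (al j) (be j)) else 0) +
      (if t j = i then
        Hyp.mer (Hyp.opp (FX (y j) (v (s j)) (v (t j)) (n (s j)) (n (t j)) (al j) (be j)))
          else 0)) =
      ((if s j = i then hh (y j - v (s j)) - hh (y j + v (s j)) else 0) +
      (if t j = i then hh (y j - v (t j)) - hh (y j + v (t j)) else 0)) +
      (((if s j = i then 2 * al j + n (t j) + 1 else 0) +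
        (if t j = i then -(2 * be j + n (s j) + 1) else 0) : ℤ) : ℂ) * (Real.pi * I) := by
    intro j
    obtain ⟨-, -, e1, e2⟩ := block_mer (hl j) (n (s j)) (n (t j)) (al j) (be j)
    rw [e1, e2]
    split_ifs
    all_goals
      push_cast
      ring
  rw [Finset.sum_congr rfl fun j _ => h1 j, Finset.sum_add_distrib, StructC_mer s t a y v hc i,
    ← Finset.sum_mul, ← Int.cast_sum]
  have h2 : (((∑ j, ((if s j = i then 2 * al j + n (t j) + 1 else 0) +
        (if t j = i then -(2 * be j + n (s j) + 1) else 0)) : ℤ)) : ℂ) + a i * n i = 2 := by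
    exact_mod_cast hn i
  linear_combination (Real.pi * I) * h2

end Pool.Agent.H63.VC7
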