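import Pool.Agent.H63.VC3.Final
import Pool.Agent.H63.VC6.LogL
import Pool.Agent.H63.VC7.CritGB
import Pool.Agent.H63.VC7.JGlim
import Pool.Agent.H63.VC7.RootLim
import Pool.Agent.H63.VC7.StructC

/-! # The complexified volume conjecture for arborescent links with many crossings -/

namespace Pool.Agent.H63.VC7

open Pool.Agent.H63.VC hiding ext
open Pool.Agent.H63.VC3 Pool.Agent.H63.VC4 Pool.Agent.H63.VC5 Pool.Agent.H63.VC6 Complex Filter
open Topology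

variable {m p : ℕ}

/-- The result for a critical point. -/
theorem final_crit (s t : Fin m → Fin p) (hst : ∀ j, s j ≠ t j) (a : Fin p → ℤ) (y : Fin m → ℂ)
    (v : Fin p → ℂ) (hc : CritG s t (fun i => (a i : ℝ) / 2) y v) :
    ∃ V C : ℝ, Hyp.IsVolume s t a V ∧
      (∃ Z : ℂ, Hyp.IsComplexVolume s t a Z ∧
        ∃ k : ℤ, Z = I * (V + C * I) + k * (Real.pi : ℂ) ^ 2) ∧
      ∃ J : ℕ → ℂ,
        (∀ N : ℕ, Tendsto (fun q => jones s t a N q)
          (𝓝[≠] exp (Real.pi * I / ((N + 1 : ℕ) : ℂ))) (𝓝 (J N))) ∧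
        Tendsto (fun N : ℕ => 2 * (Real.pi : ℂ) * log (J N) / (N + 1)) atTop (𝓝 (V : ℂ)) ∧
        ∃ κ : ℂ, κ ≠ 0 ∧ Tendsto (fun N : ℕ => J N /
          ((((N : ℝ) + (1 : ℕ)) ^ (3 / 2 * ((p : ℝ) - m)) : ℝ) *
            exp ((N + (1 : ℕ)) * (V + C * I) / (2 * Real.pi)))) atTop (𝓝 κ) := by
  obtain ⟨Z, hZ, nZ, hnZ⟩ := isComplexVolume_of_crit s t a y v hc
  have hV := isVolume_of_crit s t a y v hc
  obtain ⟨κ, hκ, hlim⟩ := JG_lim s t a y v hc
  set W : ℂ := VG s t (fun i => (a i : ℝ) / 2) y v with hW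
  set σ : ℝ := ∑ i : Fin p, (a i : ℝ) with hσ
  have e : W = (W.re : ℂ) + (W.im : ℂ) * I := (Complex.re_add_im _).symm
  have e2 : (∑ i : Fin p, (a i : ℂ)) = (σ : ℂ) := by rw [hσ]; push_cast; rfl
  have hpi : (Real.pi : ℂ) ≠ 0 := by exact_mod_cast Real.pi_ne_zero
  refine ⟨2 * Real.pi * W.re, 2 * Real.pi * W.im - Real.pi ^ 2 / 2 * σ + 2 * Real.pi ^ 2 * p, hV,
    ⟨Z, hZ, nZ + 2 * p, ?_⟩, fun N => (∏ i, cG (a i) (N + 1) / (4 * Real.pi)) /
      ((N + 1 : ℕ) : ℂ) ^ (2 * m) * JG s t (fun i => (a i : ℝ) / 2) (N + 1),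
    fun N => root_lim s t hst a N, ?_⟩
  · rw [hnZ, e2]
    conv_lhs => rw [e]
    push_cast
    linear_combination ((Real.pi : ℂ) ^ 2 / 2 * σ - 2 * (Real.pi : ℂ) ^ 2 * p) * Complex.I_sq
  have hasy : Tendsto (fun N : ℕ => ((∏ i, cG (a i) (N + 1) / (4 * Real.pi)) /
      ((N + 1 : ℕ) : ℂ) ^ (2 * m) * JG s t (fun i => (a i : ℝ) / 2) (N + 1)) /
        ((((N : ℝ) + (1 : ℕ)) ^ (3 / 2 * ((p : ℝ) - m)) : ℝ) *
          exp ((N + (1 : ℕ)) * ((2 * Real.pi * W.re : ℝ) +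
            (2 * Real.pi * W.im - Real.pi ^ 2 / 2 * σ + 2 * Real.pi ^ 2 * p : ℝ) * I) /
              (2 * Real.pi)))) atTop (𝓝 κ) := by
    have h2 := hlim.comp (tendsto_add_atTop_nat 1)
    refine h2.congr' ?_
    filter_upwards with N
    simp only [Function.comp]
    congr 2
    · push_cast
      rfl
    · congr 1
      rw [e2]
      push_cast
      conv_lhs => rw [e]
      field_simp
      ring
  refine ⟨?_, κ, hκ, hasy⟩
  have hnorm : Tendsto (fun N : ℕ => ‖((∏ i, cG (a i) (N + 1) / (4 * Real.pi)) /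
      ((N + 1 : ℕ) : ℂ) ^ (2 * m) * JG s t (fun i => (a i : ℝ) / 2) (N + 1))‖ /
        (((N + 1 : ℕ) : ℝ) ^ (3 / 2 * ((p : ℝ) - m)) *
        Real.exp ((N + 1 : ℕ) * W.re))) atTop (𝓝 ‖κ‖) := by
    refine (hasy.norm).congr fun N => ?_
    rw [norm_div]
    congr 1
    rw [norm_mul, Complex.norm_exp, Complex.norm_real, Real.norm_eq_abs,
      abs_of_nonneg (by positivity)]
    congr 1
    · push_cast
      rfl
    · congr 1
      have e : ((N : ℂ) + (1 : ℕ)) * ((2 * Real.pi * W.re : ℝ) +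
            (2 * Real.pi * W.im - Real.pi ^ 2 / 2 * σ + 2 * Real.pi ^ 2 * p : ℝ) * I) /
              (2 * Real.pi) =
          (((N : ℝ) + 1) * W.re : ℝ) + (((N : ℝ) + 1) *
            (W.im - Real.pi * σ / 4 + Real.pi * p) : ℝ) * I := by
        push_cast
        field_simp
        ring
      rw [e]
      simp
  have h := final_log (J := fun N => (∏ i, cG (a i) (N + 1) / (4 * Real.pi)) /
      ((N + 1 : ℕ) : ℂ) ^ (2 * m) * JG s t (fun i => (a i : ℝ) / 2) (N + 1)) (a := 1) le_rfl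
      (3 / 2 * ((p : ℝ) - m)) W.re ‖κ‖ (norm_pos_iff.2 hκ) hnorm
  exact h

/-- The result for trees. -/
theorem final7 (m : ℕ) (hm : 1 ≤ m) (par : Fin m → Fin (m + 1))
    (hpar : ∀ j, par j ≤ j.castSucc) (a : Fin (m + 1) → ℤ)
    (h1 : ∀ i, 20 * ((inc par Fin.succ i).card : ℤ) ≤ |a i|)
    (h2 : ∀ j, 40 * ((inc par Fin.succ (par j)).card : ℤ) ≤ a j.succ ^ 2 ∧
      40 * ((inc par Fin.succ j.succ).card : ℤ) ≤ a (par j) ^ 2) :
    ∃ V C : ℝ, Hyp.IsVolume par Fin.succ a V ∧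
      (∃ Z : ℂ, Hyp.IsComplexVolume par Fin.succ a Z ∧
        ∃ k : ℤ, Z = I * (V + C * I) + k * (Real.pi : ℂ) ^ 2) ∧
      ∃ J : ℕ → ℂ,
        (∀ N : ℕ, Tendsto (fun q => jones par Fin.succ a N q)
          (𝓝[≠] exp (Real.pi * I / ((N + 1 : ℕ) : ℂ))) (𝓝 (J N))) ∧
        (∃ L : ℕ → ℂ, (∀ᶠ N : ℕ in atTop, exp (L N) = J N) ∧
          Tendsto (fun N : ℕ => 2 * (Real.pi : ℂ) * L N / (N + 1)) atTop (𝓝 (V + C * I))) ∧
        Tendsto (fun N : ℕ => 2 * (Real.pi : ℂ) * log (J N) / (N + 1)) atTop (𝓝 (V : ℂ)) ∧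
        ∃ κ : ℂ, κ ≠ 0 ∧ Tendsto (fun N : ℕ => J N /
          ((((N : ℝ) + 1) ^ (3 / 2 : ℝ) : ℝ) *
            exp ((N + 1) * (V + C * I) / (2 * Real.pi)))) atTop (𝓝 κ) := by
  have hst : ∀ j, par j ≠ Fin.succ j := fun j => by
    have := hpar j
    exact ne_of_lt (lt_of_le_of_lt this (Fin.castSucc_lt_succ))
  have hne : ∀ i, (inc par Fin.succ i).Nonempty := by
    intro i
    induction i using Fin.cases with
    | zero =>
      refine ⟨⟨0, by omega⟩, ?_⟩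
      have h0 := hpar ⟨0, by omega⟩
      simp only [inc, Finset.mem_filter, Finset.mem_univ, true_and]
      left
      ext
      have : (par ⟨0, by omega⟩ : ℕ) ≤ 0 := h0
      simp only [Fin.val_zero]
      omega
    | succ i =>
      refine ⟨i, ?_⟩
      simp [inc]
  have hr : ∀ i, 10 * dg par Fin.succ i ≤ |(a i : ℝ) / 2| := by
    intro i
    have := h1 i
    have h' : (20 : ℝ) * ((inc par Fin.succ i).card : ℝ) ≤ |(a i : ℝ)| := by exact_mod_cast this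
    rw [abs_div, abs_two, dg]
    linarith
  have hn : ∀ j, 10 * dg par Fin.succ (par j) ≤ ((a (Fin.succ j) : ℝ) / 2) ^ 2 ∧
      10 * dg par Fin.succ (Fin.succ j) ≤ ((a (par j) : ℝ) / 2) ^ 2 := by
    intro j
    obtain ⟨h3, h4⟩ := h2 j
    have h3' : (40 : ℝ) * ((inc par Fin.succ (par j)).card : ℝ) ≤ (a j.succ : ℝ) ^ 2 := by
      exact_mod_cast h3
    have h4' : (40 : ℝ) * ((inc par Fin.succ j.succ).card : ℝ) ≤ (a (par j) : ℝ) ^ 2 := by
      exact_mod_cast h4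
    simp only [dg]
    constructor <;> nlinarith
  obtain ⟨y, v, hc⟩ := critG_exists par Fin.succ hst hne (fun i => (a i : ℝ) / 2) hr hn
  obtain ⟨V, C, hV, hZ, J, hJ, hlog, κ, hκ, hlim⟩ := final_crit par Fin.succ hst a y v hc
  have he : (3 / 2 * (((m + 1 : ℕ) : ℝ) - m)) = (3 / 2 : ℝ) := by push_cast; ring
  rw [he] at hlim
  refine ⟨V, C, hV, hZ, J, hJ, ?_, hlog, κ, hκ, ?_⟩
  · have h := log_lift J 1 le_rfl _ (V + C * I) κ hκ (by exact_mod_cast hlim)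
    exact h
  · have := hlim
    push_cast at this
    exact_mod_cast this

end Pool.Agent.H63.VC7
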