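import Pool.Agent.H63.VC5.FFdilog
import Pool.Agent.H63.VC7.GeoC
import Pool.Agent.H63.VC7.LogP

/-! # The Rogers dilogarithm of two tetrahedra glued along a face -/

namespace Pool.Agent.H63.VC7

open Pool.Agent.H63.VC hiding ext
open Pool.Agent.H63.VC3 Pool.Agent.H63.VC4 Pool.Agent.H63.VC5 Pool.Agent.H63.VC6 Complex

theorem RhoPair_l1 {z : ℂ} (hz : 0 < z.im) : Complex.log (1 - z) = -l1 z := by
  unfold l1
  rw [one_div, Complex.log_inv, neg_neg]
  intro h
  have h1 := Complex.arg_eq_pi_iff.1 h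
  have h2 : (1 - z).im = -z.im := by simp
  rw [h2] at h1
  linarith [h1.2]

theorem RhoPair_slit {z : ℂ} (hz : 0 < z.im) : 1 - z ∈ slitPlane := by
  rw [mem_slitPlane_iff]
  right
  have h2 : (1 - z).im = -z.im := by simp
  rw [h2]
  linarith

/-- `rh0` of one tetrahedron through its logarithms. -/
theorem RhoPair_rh0 {z a b : ℂ} (hz : 0 < z.im) (h0 : l0 z = a) (h1 : l1 z = b) :
    rh0 z = dilog (exp a) - a * b / 2 - (Real.pi : ℂ) ^ 2 / 6 := by
  have hz0 : z ≠ 0 := by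
    rintro rfl
    simp at hz
  have e : exp a = z := by
    rw [← h0]
    exact Complex.exp_log hz0
  have e0 : Complex.log z = a := h0
  unfold rh0
  rw [e, RhoPair_l1 hz, h1, e0]
  ring

/-- The derivative of `dilog (exp a)`. -/
theorem RhoPair_deriv {f : ℝ → ℂ} {f' b z : ℂ} {t : ℝ} (hf : HasDerivAt f f' t) (hz : 0 < z.im)
    (h0 : l0 z = f t) (h1 : l1 z = b) :
    HasDerivAt (fun t => dilog (exp (f t))) (b * f') t := by
  have hz0 : z ≠ 0 := by
    rintro rfl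
    simp at hz
  have e : exp (f t) = z := by
    rw [← h0]
    exact Complex.exp_log hz0
  have k1 := dilog_hasDerivAt (exp (f t)) (Complex.exp_ne_zero _) (by rw [e]; exact RhoPair_slit hz)
  have k2 := k1.comp_of_eq t hf.cexp rfl
  refine k2.congr_deriv ?_
  rw [e, RhoPair_l1 hz, h1]
  field_simp

theorem RhoPair_hh_quarter : hh (1 / 4) = (Real.log 2 / 2 : ℝ) := by
  unfold hh
  have e : (Real.pi : ℂ) * (1 / 4) = ((Real.pi / 4 : ℝ) : ℂ) := by push_cast; ring
  rw [e, ← Complex.ofReal_sin, Real.sin_pi_div_four]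
  have e2 : (2 : ℂ) * ((√2 / 2 : ℝ) : ℂ) = ((√2 : ℝ) : ℂ) := by push_cast; ring
  rw [e2, ← Complex.ofReal_log (Real.sqrt_nonneg 2), Real.log_sqrt (by norm_num)]

theorem RhoPair_hh_half : hh (1 / 2) = (Real.log 2 : ℝ) := by
  unfold hh
  have e : (Real.pi : ℂ) * (1 / 2) = (Real.pi : ℂ) / 2 := by ring
  rw [e, Complex.sin_pi_div_two, mul_one]
  have e2 : (2 : ℂ) = ((2 : ℝ) : ℂ) := by norm_num
  rw [e2, ← Complex.ofReal_log (by norm_num)]

theorem RhoPair_hh_refl : hh (1 / 4 + 1 / 2) = hh (1 / 4) := by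
  unfold hh
  have e : (Real.pi : ℂ) * (1 / 4 + 1 / 2) = Real.pi - Real.pi * (1 / 4) := by ring
  rw [e, Complex.sin_pi_sub]

theorem RhoPair_ff_half : ff (0 + 1 / 2) = 0 := by
  have := ff_reflect (1 / 2)
  have e : (1 - 1 / 2 : ℂ) = 1 / 2 := by norm_num
  rw [e] at this
  have h2 : 2 * ff (1 / 2) = 0 := by linear_combination this
  rw [zero_add]
  simpa using h2

theorem RhoPair_ff_refl : ff (1 / 4 + 1 / 2) = -ff (1 / 4) := by
  have := ff_reflect (1 / 4)
  have e : (1 - 1 / 4 : ℂ) = 1 / 4 + 1 / 2 := by norm_num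
  rwa [e] at this

theorem RhoPair_dilog_I : dilog (exp (Real.pi * I / 2)) =
    -(2 * Real.pi * I * ff (1 / 4)) - (Real.pi : ℂ) ^ 2 / 48 := by
  have h := ff_dilog (1 / 4) (by norm_num) (by norm_num)
  have e : (2 * Real.pi * I * (1 / 4) : ℂ) = Real.pi * I / 2 := by ring
  rw [e] at h
  linear_combination h

theorem rho_pair (y v : ℂ) (hy : ‖y - 1 / 4‖ ≤ 6 / 1000) (hv : |v.re| ≤ 53 / 1000)
    (hv' : |v.im| ≤ 3 / 1000) : rh0 (sX y v) + rh0 (sY y v) =
    2 * Real.pi * I * (ff (y + 1 / 2) - ff (y + v) + ff (v + 1 / 2)) +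
      Real.pi * I / 2 * (Real.pi * I / 2 - Real.pi * I * v) +
      (Real.pi * I / 2 - Real.pi * I * v) * (hh (v + 1 / 2) - hh (y + v)) -
      Real.pi * I * y * (hh (y + 1 / 2) - hh (y + v)) := by
  -- the segment
  let Y : ℝ → ℂ := fun t => 1 / 4 + t * (y - 1 / 4)
  let V : ℝ → ℂ := fun t => t * v
  have hY : ∀ t, HasDerivAt Y (y - 1 / 4) t := by
    intro t
    have h : HasDerivAt Y (((1 : ℝ) : ℂ) * (y - 1 / 4)) t :=
      (((hasDerivAt_id t).ofReal_comp).mul_const (y - 1 / 4)).const_add (1 / 4)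
    rwa [ofReal_one, one_mul] at h
  have hV : ∀ t, HasDerivAt V v t := by
    intro t
    have h : HasDerivAt V (((1 : ℝ) : ℂ) * v) t := ((hasDerivAt_id t).ofReal_comp).mul_const v
    rwa [ofReal_one, one_mul] at h
  have cY : ∀ t ∈ Set.Icc (0 : ℝ) 1, ‖Y t - 1 / 4‖ ≤ 6 / 1000 := by
    intro t ht
    have e : Y t - 1 / 4 = t * (y - 1 / 4) := by simp [Y]
    rw [e, norm_mul, Complex.norm_real, Real.norm_eq_abs, abs_of_nonneg ht.1]
    nlinarith [ht.1, ht.2, norm_nonneg (y - 1 / 4)]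
  have cV : ∀ t ∈ Set.Icc (0 : ℝ) 1, |(V t).re| ≤ 53 / 1000 := by
    intro t ht
    have e : (V t).re = t * v.re := by simp [V]
    rw [e, abs_mul, abs_of_nonneg ht.1]
    nlinarith [ht.1, ht.2, abs_nonneg v.re]
  have cV' : ∀ t ∈ Set.Icc (0 : ℝ) 1, |(V t).im| ≤ 3 / 1000 := by
    intro t ht
    have e : (V t).im = t * v.im := by simp [V]
    rw [e, abs_mul, abs_of_nonneg ht.1]
    nlinarith [ht.1, ht.2, abs_nonneg v.im]
  have cR : ∀ t ∈ Set.Icc (0 : ℝ) 1, |(Y t).re - 1 / 4| ≤ 6 / 1000 := by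
    intro t ht
    have h := Complex.abs_re_le_norm (Y t - 1 / 4)
    have e : (Y t - 1 / 4).re = (Y t).re - 1 / 4 := by
      rw [sub_re]; norm_num
    rw [e] at h
    exact h.trans (cY t ht)
  -- the functions
  let A : ℝ → ℂ := fun t => Real.pi * I / 2 - Real.pi * I * V t
  let LX : ℝ → ℂ := fun t => A t + hh (Y t + 1 / 2) - hh (Y t + V t)
  let MX : ℝ → ℂ := fun t => Real.pi * I / 2 - Real.pi * I * Y t + hh (Y t + V t) - hh (V t + 1 / 2)
  let LY : ℝ → ℂ := fun t => A t + hh (Y t + V t) - hh (Y t + 1 / 2)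
  let MY : ℝ → ℂ := fun t => Real.pi * I * (Y t + V t) + hh (Y t + 1 / 2) - hh (V t + 1 / 2)
  let R : ℝ → ℂ := fun t =>
    2 * Real.pi * I * (ff (Y t + 1 / 2) - ff (Y t + V t) + ff (V t + 1 / 2)) +
      Real.pi * I / 2 * (Real.pi * I / 2 - Real.pi * I * V t) +
      (Real.pi * I / 2 - Real.pi * I * V t) * (hh (V t + 1 / 2) - hh (Y t + V t)) -
      Real.pi * I * Y t * (hh (Y t + 1 / 2) - hh (Y t + V t))
  let F : ℝ → ℂ := fun t => (dilog (exp (LX t)) - LX t * MX t / 2) +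
    (dilog (exp (LY t)) - LY t * MY t / 2) - R t
  have hF : ∀ t ∈ Set.Icc (0 : ℝ) 1, HasDerivAt F 0 t := by
    intro t ht
    obtain ⟨a1, a2⟩ := abs_le.1 (cR t ht)
    obtain ⟨b1, b2⟩ := abs_le.1 (cV t ht)
    have r1 : (Y t + 1 / 2).re = (Y t).re + 1 / 2 := by rw [add_re]; norm_num
    have r2 : (V t + 1 / 2).re = (V t).re + 1 / 2 := by rw [add_re]; norm_num
    have r3 : (Y t + V t).re = (Y t).re + (V t).re := add_re _ _
    have dH := (hh_hasDerivAt (Y t + 1 / 2) (by rw [r1]; linarith) (by rw [r1]; linarith)).comp_of_eq t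
      ((hY t).add_const (1 / 2)) rfl
    have dK := (hh_hasDerivAt (V t + 1 / 2) (by rw [r2]; linarith) (by rw [r2]; linarith)).comp_of_eq t
      ((hV t).add_const (1 / 2)) rfl
    have dh := (hh_hasDerivAt (Y t + V t) (by rw [r3]; linarith) (by rw [r3]; linarith)).comp_of_eq t
      ((hY t).add (hV t)) rfl
    have fH := (ff_hasDerivAt (Y t + 1 / 2) (by rw [r1]; linarith) (by rw [r1]; linarith)).comp_of_eq t
      ((hY t).add_const (1 / 2)) rfl
    have fK := (ff_hasDerivAt (V t + 1 / 2) (by rw [r2]; linarith) (by rw [r2]; linarith)).comp_of_eq t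
      ((hV t).add_const (1 / 2)) rfl
    have fh := (ff_hasDerivAt (Y t + V t) (by rw [r3]; linarith) (by rw [r3]; linarith)).comp_of_eq t
      ((hY t).add (hV t)) rfl
    set H' := Real.pi * Complex.cot (Real.pi * (Y t + 1 / 2)) * (y - 1 / 4)
    set K' := Real.pi * Complex.cot (Real.pi * (V t + 1 / 2)) * v
    set h' := Real.pi * Complex.cot (Real.pi * (Y t + V t)) * (y - 1 / 4 + v)
    have dA : HasDerivAt A (-(Real.pi * I * v)) t := by
      have := ((hV t).const_mul (Real.pi * I : ℂ)).const_sub (Real.pi * I / 2 : ℂ)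
      exact this
    have dLX : HasDerivAt LX (-(Real.pi * I * v) + H' - h') t := (dA.add dH).sub dh
    have dLY : HasDerivAt LY (-(Real.pi * I * v) + h' - H') t := (dA.add dh).sub dH
    have dMX : HasDerivAt MX (-(Real.pi * I * (y - 1 / 4)) + h' - K') t :=
      ((((hY t).const_mul (Real.pi * I : ℂ)).const_sub (Real.pi * I / 2 : ℂ)).add dh).sub dK
    have dMY : HasDerivAt MY (Real.pi * I * (y - 1 / 4 + v) + H' - K') t :=
      ((((hY t).add (hV t)).const_mul (Real.pi * I : ℂ)).add dH).sub dK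
    obtain ⟨x0, x1, -, xi⟩ := sX_log (Y t) (V t) (cY t ht) (cV t ht) (cV' t ht)
    obtain ⟨y0, y1, -, yi⟩ := sY_log (Y t) (V t) (cY t ht) (cV t ht) (cV' t ht)
    have gX := RhoPair_deriv dLX xi x0 x1
    have gY := RhoPair_deriv dLY yi y0 y1
    have dR := ((((fH.sub fh).add fK).const_mul (2 * Real.pi * I : ℂ)).add
      ((((hV t).const_mul (Real.pi * I : ℂ)).const_sub (Real.pi * I / 2 : ℂ)).const_mul
        (Real.pi * I / 2 : ℂ))).add
      ((((hV t).const_mul (Real.pi * I : ℂ)).const_sub (Real.pi * I / 2 : ℂ)).mul (dK.sub dh))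
    have dR' := dR.sub (((hY t).const_mul (Real.pi * I : ℂ)).mul (dH.sub dh))
    have dF := ((gX.sub ((dLX.mul dMX).div_const 2)).add
      (gY.sub ((dLY.mul dMY).div_const 2))).sub dR'
    refine dF.congr_deriv ?_
    simp only [LX, LY, MX, MY, A, Function.comp_apply, Pi.sub_apply, Pi.add_apply]
    ring
  have hc : ContinuousOn F (Set.Icc 0 1) := fun t ht => (hF t ht).continuousAt.continuousWithinAt
  have hconst := constant_of_has_deriv_right_zero hc
    (fun t ht => (hF t ⟨ht.1, ht.2.le⟩).hasDerivWithinAt) 1 ⟨zero_le_one, le_rfl⟩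
  obtain ⟨x0, x1, -, xi⟩ := sX_log y v hy hv hv'
  obtain ⟨y0, y1, -, yi⟩ := sY_log y v hy hv hv'
  have eY1 : Y 1 = y := by simp [Y]
  have eV1 : V 1 = v := by simp [V]
  have eY0 : Y 0 = 1 / 4 := by simp [Y]
  have eV0 : V 0 = 0 := by simp [V]
  have e1 : F 1 = rh0 (sX y v) + rh0 (sY y v) + (Real.pi : ℂ) ^ 2 / 3 - R 1 := by
    rw [RhoPair_rh0 xi x0 x1, RhoPair_rh0 yi y0 y1]
    simp only [F, LX, LY, MX, MY, A, eY1, eV1]
    ring
  have e0 : F 0 = (Real.pi : ℂ) ^ 2 / 3 := by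
    simp only [F, R, LX, LY, MX, MY, A, eY0, eV0]
    simp only [mul_zero, sub_zero, add_zero, RhoPair_hh_refl, RhoPair_ff_refl, RhoPair_ff_half]
    have k : (Real.pi * I / 2 + hh (1 / 4) - hh (1 / 4) : ℂ) = Real.pi * I / 2 := by ring
    rw [k, RhoPair_dilog_I, RhoPair_hh_quarter]
    have k2 : hh (0 + 1 / 2) = (Real.log 2 : ℝ) := by rw [zero_add]; exact RhoPair_hh_half
    rw [k2]
    push_cast
    have hI : I ^ 2 = -1 := Complex.I_sq
    ring_nf
    rw [hI]
    ring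
  rw [e1, e0] at hconst
  simp only [R, eY1, eV1] at hconst
  linear_combination hconst

end Pool.Agent.H63.VC7
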