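import Pool.Agent.H63.VC7.CoreB
import Pool.Agent.H63.VC6.EsB
import Pool.Agent.H63.VC4.FLmainN

/-! # Sums over the free variables of the approximated factors -/

namespace Pool.Agent.H63.VC7

open Pool.Agent.H63.VC hiding ext
open Pool.Agent.H63.VC3 Pool.Agent.H63.VC4 Pool.Agent.H63.VC6 Complex

variable {m p : ℕ} {s t : Fin m → Fin p} {r : Fin p → ℝ} {y : Fin m → ℂ} {v : Fin p → ℂ}

/-- The weight of a slot. -/
theorem BoundG_es : ∃ C : ℝ, 1 ≤ C ∧ ∃ D : ℕ, ∀ M k : ℕ, 3000 ≤ M →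
    |yk 2 M k - 1 / 4| ≤ 55 / 1000 →
    S M k ^ 2 ≤ C * (M : ℝ) ^ D * Real.exp (M * (2 * ff (((yk 2 M k : ℝ) : ℂ) + 1 / 2)).re) := by
  obtain ⟨C, hC, D, h⟩ := es_bound 2 le_rfl
  refine ⟨C + 1, by linarith, D, ?_⟩
  intro M k hM hk
  have h1 := h M k (by omega) hk
  have h2 : es M (some k) = S M k ^ 2 := rfl
  have h3 : vs (some ((yk 2 M k : ℝ) : ℂ)) = (2 * ff (((yk 2 M k : ℝ) : ℂ) + 1 / 2)).re := rfl
  rw [h2, h3] at h1
  refine h1.trans ?_
  have h0 : 0 ≤ (M : ℝ) ^ D * Real.exp (M * (2 * ff (((yk 2 M k : ℝ) : ℂ) + 1 / 2)).re) := by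
    positivity
  nlinarith

theorem BoundG_prod {α β : Type*} (A : Finset α) (T : α → Finset β) (f g : α → β → ℝ) (K : ℝ)
    (hK : 1 ≤ K) (N : ℕ) (hN : ∑ i ∈ A, (T i).card ≤ N)
    (hf0 : ∀ i ∈ A, ∀ j ∈ T i, 0 ≤ f i j)
    (hf : ∀ i ∈ A, ∀ j ∈ T i, f i j ≤ K * Real.exp (g i j)) :
    ∏ i ∈ A, ∏ j ∈ T i, f i j ≤ K ^ N * Real.exp (∑ i ∈ A, ∑ j ∈ T i, g i j) := by
  calc ∏ i ∈ A, ∏ j ∈ T i, f i j ≤ ∏ i ∈ A, ∏ j ∈ T i, (K * Real.exp (g i j)) := by
        refine Finset.prod_le_prod (fun i hi => Finset.prod_nonneg (hf0 i hi)) fun i hi => ?_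
        exact Finset.prod_le_prod (hf0 i hi) (hf i hi)
    _ = K ^ (∑ i ∈ A, (T i).card) * Real.exp (∑ i ∈ A, ∑ j ∈ T i, g i j) := by
        simp only [Finset.prod_mul_distrib, Finset.prod_const]
        rw [Finset.prod_pow_eq_pow_sum]
        congr 1
        rw [Real.exp_sum]
        exact Finset.prod_congr rfl fun i _ => (Real.exp_sum _ _).symm
    _ ≤ K ^ N * Real.exp (∑ i ∈ A, ∑ j ∈ T i, g i j) := by
        apply mul_le_mul_of_nonneg_right _ (Real.exp_pos _).le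
        exact pow_le_pow_right₀ hK hN

theorem BoundG_const (ρ : ℝ) (hρ : 0 < ρ) : (∫ _ in (-ρ)..ρ, ((2 * ρ : ℝ) : ℂ)⁻¹) = 1 := by
  rw [intervalIntegral.integral_const]
  have h : (ρ : ℂ) ≠ 0 := by exact_mod_cast hρ.ne'
  simp only [sub_neg_eq_add, real_smul]
  push_cast
  field_simp
  ring

open Classical in
theorem BoundG_box (hc : CritG s t r y v) (B : Finset (Fin p)) (M : ℕ) (hM : 3000 ≤ M) (ρ : ℝ)
    (hρ0 : 149 / 1000 ≤ ρ) (hρ1 : ρ ≤ 150 / 1000) (T : Finset (Fin m → ℕ))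
    (hT : ∀ k ∈ T, ∀ i ∈ Bᶜ, ∀ j ∈ inc s t i, |yk 2 M (k j) - 1 / 4| ≤ 55 / 1000)
    (c : (Fin m → ℕ) → ℂ) (R : ℝ) (hR : 0 ≤ R)
    (hE : ∀ a : Fin p → ℝ, (∀ i, |a i| ≤ 15 / 100) →
      ‖∑ k ∈ T, c k * ∏ i ∈ Bᶜ, (KG (r i) M (inc s t i) (fun j => ((yk 2 M (k j) : ℝ) : ℂ))
        (a i + (v i).im * I) * om 2 M (a i + (v i).im * I))‖ ≤ R) :
    ‖∑ k ∈ T, c k * ∏ i ∈ Bᶜ, FG (r i) M (inc s t i) (fun j => ((yk 2 M (k j) : ℝ) : ℂ)) ρ
      (v i).im‖ ≤ 4 ^ p * R := by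
  have hρ : 0 < ρ := by linarith
  have hMpos : 0 < M := by omega
  have hprod : ∀ (F : Fin p → ℂ), ∏ i, (if i ∈ B then (((2 * ρ : ℝ) : ℂ)⁻¹) else F i) =
      (((2 * ρ : ℝ) : ℂ)⁻¹) ^ B.card * ∏ i ∈ Bᶜ, F i := by
    intro F
    rw [← Finset.prod_mul_prod_compl B]
    congr 1
    · rw [Finset.prod_congr rfl (g := fun _ => (((2 * ρ : ℝ) : ℂ)⁻¹)) (fun i hi => if_pos hi),
        Finset.prod_const]
    · exact Finset.prod_congr rfl fun i hi => if_neg (Finset.mem_compl.1 hi)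
  have hprod1 : ∀ (F : Fin p → ℂ), ∏ i, (if i ∈ B then (1 : ℂ) else F i) = ∏ i ∈ Bᶜ, F i := by
    intro F
    rw [← Finset.prod_mul_prod_compl B,
      Finset.prod_congr rfl (g := fun _ => (1 : ℂ)) (fun i hi => if_pos hi), Finset.prod_const_one,
      one_mul]
    exact Finset.prod_congr rfl fun i hi => if_neg (Finset.mem_compl.1 hi)
  have hinv : ‖(((2 * ρ : ℝ) : ℂ)⁻¹) ^ B.card‖ ≤ 4 ^ p := by
    rw [norm_pow, norm_inv, Complex.norm_real, Real.norm_of_nonneg (by linarith)]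
    have h1 : (2 * ρ)⁻¹ ≤ 4 := by
      rw [inv_le_comm₀ (by linarith) (by norm_num)]
      linarith
    calc ((2 * ρ)⁻¹) ^ B.card ≤ 4 ^ B.card := pow_le_pow_left₀ (by positivity) h1 _
      _ ≤ 4 ^ p := pow_le_pow_right₀ (by norm_num) (by
          have := Finset.card_le_univ B
          rwa [Fintype.card_fin] at this)
  have h := FLmainN_diff (m := m) (p := p) 0 0 ρ (by linarith) (by linarith) T c
    (fun k i a => if i ∈ B then (((2 * ρ : ℝ) : ℂ)⁻¹) else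
      (KG (r i) M (inc s t i) (fun j => ((yk 2 M (k j) : ℝ) : ℂ))
        (a + (v i).im * I) * om 2 M (a + (v i).im * I))) ?_ (fun _ => 0) continuousOn_const 0
    (4 ^ p * R) (by positivity) ?_
  · rw [zero_mul, sub_zero] at h
    refine le_trans (le_of_eq ?_) h
    congr 1
    refine Finset.sum_congr rfl fun k _ => ?_
    congr 1
    rw [← hprod1]
    refine Finset.prod_congr rfl fun i _ => ?_
    by_cases hi : i ∈ B
    · simp only [if_pos hi]
      exact (BoundG_const ρ hρ).symm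
    · simp only [if_neg hi]
      rfl
  · intro k hk i a ha
    by_cases hi : i ∈ B
    · simp only [if_pos hi]
      exact continuousWithinAt_const
    · simp only [if_neg hi]
      have hare : |((a : ℂ) + (v i).im * I).re| ≤ 15 / 100 := by
        rw [FLmainN_re, abs_le]
        constructor <;> linarith [ha.1, ha.2]
      have h1 := KG_continuousAt (r i) M hMpos (inc s t i) (fun j => ((yk 2 M (k j) : ℝ) : ℂ))
        (a + (v i).im * I) (by
          intro j hj y' hy'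
          have e : y' = ((yk 2 M (k j) : ℝ) : ℂ) := (Option.some.inj hy').symm
          subst e
          have h3 := hT k hk i (Finset.mem_compl.2 hi) j hj
          rw [abs_le] at h3
          refine FLmainN_okS1 _ _ ?_ hare
          rw [ofReal_re]
          constructor <;> linarith [h3.1, h3.2])
      have h2 := om_continuousAt 2 M (a + (v i).im * I) (FLmainN_ww_ne 2 M hMpos _
        (by rw [FLmainN_im]; exact hc.imv i))
      have h3 : ContinuousAt (fun a : ℝ => (a : ℂ) + (v i).im * I) a := by fun_prop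
      have h4 : ContinuousAt (fun a : ℝ => (((fun j => ((yk 2 M (k j) : ℝ) : ℂ)),
        (a : ℂ) + (v i).im * I) : (Fin m → ℂ) × ℂ)) a := by fun_prop
      exact ((ContinuousAt.comp (f := fun a : ℝ => (((fun j => ((yk 2 M (k j) : ℝ) : ℂ)),
        (a : ℂ) + (v i).im * I) : (Fin m → ℂ) × ℂ))
        (g := fun z : (Fin m → ℂ) × ℂ => KG (r i) M (inc s t i) z.1 z.2) h1 h4).mul
        (ContinuousAt.comp (f := fun a : ℝ => (a : ℂ) + (v i).im * I) h2 h3)).continuousWithinAt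
  · intro a ha
    rw [zero_mul, sub_zero]
    have ha' : ∀ i, |a i| ≤ 15 / 100 := by
      intro i
      have := ha i
      rw [abs_le]
      constructor <;> linarith [this.1, this.2]
    have e : ∑ k ∈ T, c k * ∏ i, (if i ∈ B then (((2 * ρ : ℝ) : ℂ)⁻¹) else
      (KG (r i) M (inc s t i) (fun j => ((yk 2 M (k j) : ℝ) : ℂ))
        (a i + (v i).im * I) * om 2 M (a i + (v i).im * I))) =
      (((2 * ρ : ℝ) : ℂ)⁻¹) ^ B.card * ∑ k ∈ T, c k * ∏ i ∈ Bᶜ,
        (KG (r i) M (inc s t i) (fun j => ((yk 2 M (k j) : ℝ) : ℂ))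
        (a i + (v i).im * I) * om 2 M (a i + (v i).im * I)) := by
      rw [Finset.mul_sum]
      refine Finset.sum_congr rfl fun k _ => ?_
      rw [hprod]
      ring
    rw [e, norm_mul]
    exact mul_le_mul hinv (hE a ha') (norm_nonneg _) (by positivity)

open Classical in
theorem bound_G (hc : CritG s t r y v) (B : Finset (Fin p)) :
    ∃ C : ℝ, 0 < C ∧ ∃ D M0 : ℕ, ∀ M k1 k2 l1 l2 : ℕ, M0 ≤ M → Win 2 M k1 k2 l1 l2 →
    ∀ κ : Fin m → ℕ,
    (∏ i ∈ Bᶜ, ∏ j ∈ inc s t i ∩ EB s t B, S M (κ j) ^ 2) *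
      ‖∑ k ∈ Fintype.piFinset (fun j : Fin m => if j ∈ EB s t B then {κ j} else Finset.range M),
        (∏ j ∈ (EB s t B)ᶜ, Cc 2 1 M (yk 2 M (k j))) *
          ∏ i ∈ Bᶜ, GD (r i) (v i).im M k1 k2 l2 (inc s t i) k‖ ≤
      C * (M : ℝ) ^ D * Real.exp (M * (∑ i ∈ Bᶜ, Lg (r i) (inc s t i) y (v i) +
        ∑ i ∈ Bᶜ, ∑ j ∈ inc s t i ∩ EB s t B, loss s t r i j)) := by
  obtain ⟨C1, hC1, M1, hcore⟩ := core_bound hc B
  obtain ⟨C2, hC2, D2, hes⟩ := BoundG_es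
  refine ⟨C2 ^ (p * m) * ((4 * Real.pi) ^ p * (4 ^ p * C1)), by positivity,
    D2 * (p * m) + (2 * p + m), M1, ?_⟩
  intro M k1 k2 l1 l2 hM hw κ
  have hbig := hw.big
  have hM3 : 3000 ≤ M := by omega
  have hMpos : 0 < M := by omega
  have hMr0 : (0 : ℝ) < M := by exact_mod_cast hMpos
  have hMr1 : (1 : ℝ) ≤ M := by exact_mod_cast hMpos
  obtain ⟨hk2M, -, hkk, -, -, hρ1, hρ2⟩ := win_facts 2 M k1 k2 l1 l2 le_rfl hw
  obtain ⟨ρ, hρ⟩ : ∃ ρ, ρ = rho 2 M l2 := ⟨_, rfl⟩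
  obtain ⟨E, hEdef⟩ : ∃ E, E = EB s t B := ⟨_, rfl⟩
  obtain ⟨X, hX⟩ : ∃ X : ℝ, X = ∑ i ∈ Bᶜ, Lg (r i) (inc s t i) y (v i) +
        ∑ i ∈ Bᶜ, ∑ j ∈ inc s t i ∩ E, loss s t r i j := ⟨_, rfl⟩
  have hE1 : ∀ i ∈ Bᶜ, ∀ j ∈ inc s t i, j ∉ E → True := fun _ _ _ _ _ => trivial
  -- free edges have good ends
  have hfree : ∀ j, j ∉ E → ∃ i ∈ Bᶜ, j ∈ inc s t i := by
    intro j hj
    refine ⟨s j, ?_, mem_inc_s s t j⟩
    rw [Finset.mem_compl]
    intro h
    apply hj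
    rw [hEdef, EB, Finset.mem_filter]
    exact ⟨Finset.mem_univ _, Or.inl h⟩
  rw [← hEdef, ← hX]
  have hRHS : 0 ≤ C2 ^ (p * m) * ((4 * Real.pi) ^ p * (4 ^ p * C1)) *
      (M : ℝ) ^ (D2 * (p * m) + (2 * p + m)) * Real.exp (M * X) := by positivity
  by_cases hκ : ∀ i ∈ Bᶜ, ∀ j ∈ inc s t i ∩ E, k1 ≤ κ j ∧ κ j ≤ k2
  swap
  · -- all terms vanish
    push Not at hκ
    obtain ⟨i, hi, j, hj, hij⟩ := hκ
    have hz : ∑ k ∈ Fintype.piFinset (fun j : Fin m => if j ∈ E then {κ j} else Finset.range M),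
        (∏ j ∈ Eᶜ, Cc 2 1 M (yk 2 M (k j))) *
          ∏ i ∈ Bᶜ, GD (r i) (v i).im M k1 k2 l2 (inc s t i) k = 0 := by
      refine Finset.sum_eq_zero fun k hk => ?_
      apply mul_eq_zero_of_right
      apply Finset.prod_eq_zero hi
      rw [GD, if_neg]
      intro h
      have hjE := (Finset.mem_inter.1 hj).2
      have h1 := Fintype.mem_piFinset.1 hk j
      rw [if_pos hjE, Finset.mem_singleton] at h1
      have h2 := h j (Finset.mem_inter.1 hj).1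
      rw [h1] at h2
      exact absurd h2.2 (not_le.2 (hij h2.1))
    rw [hz, norm_zero, mul_zero]
    exact hRHS
  -- the real values of the frozen variables
  obtain ⟨x, hx⟩ : ∃ x : Fin m → ℝ, x = fun j => if k1 ≤ κ j ∧ κ j ≤ k2 then yk 2 M (κ j)
    else 1 / 4 := ⟨_, rfl⟩
  have hxb : ∀ j, |x j - 1 / 4| ≤ 55 / 1000 := by
    intro j
    rw [hx]
    by_cases h : k1 ≤ κ j ∧ κ j ≤ k2
    · simp only [if_pos h]
      exact (hkk (κ j) h.1 h.2).1
    · simp only [if_neg h]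
      norm_num
  have hxκ : ∀ i ∈ Bᶜ, ∀ j ∈ inc s t i ∩ E, x j = yk 2 M (κ j) := by
    intro i hi j hj
    rw [hx]
    simp only [if_pos (hκ i hi j hj)]
  -- restriction of the sum
  obtain ⟨T, hT⟩ : ∃ T, T = Fintype.piFinset (fun j : Fin m =>
    if j ∈ E then {κ j} else Finset.Icc k1 k2) := ⟨_, rfl⟩
  have hTwin : ∀ k ∈ T, ∀ i ∈ Bᶜ, ∀ j ∈ inc s t i, k1 ≤ k j ∧ k j ≤ k2 := by
    intro k hk i hi j hj
    rw [hT] at hk
    have h1 := Fintype.mem_piFinset.1 hk j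
    by_cases hjE : j ∈ E
    · rw [if_pos hjE, Finset.mem_singleton] at h1
      rw [h1]
      exact hκ i hi j (Finset.mem_inter.2 ⟨hj, hjE⟩)
    · rw [if_neg hjE, Finset.mem_Icc] at h1
      exact h1
  have hsum : ∑ k ∈ Fintype.piFinset (fun j : Fin m => if j ∈ E then {κ j} else Finset.range M),
        (∏ j ∈ Eᶜ, Cc 2 1 M (yk 2 M (k j))) *
          ∏ i ∈ Bᶜ, GD (r i) (v i).im M k1 k2 l2 (inc s t i) k =
      ∑ k ∈ T, (∏ j ∈ Eᶜ, Cc 2 1 M (yk 2 M (k j))) *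
          ∏ i ∈ Bᶜ, GD (r i) (v i).im M k1 k2 l2 (inc s t i) k := by
    symm
    apply Finset.sum_subset
    · rw [hT]
      refine Fintype.piFinset_subset _ _ fun j => ?_
      by_cases hjE : j ∈ E
      · rw [if_pos hjE, if_pos hjE]
      · rw [if_neg hjE, if_neg hjE]
        intro k hk
        rw [Finset.mem_Icc] at hk
        rw [Finset.mem_range]
        omega
    · intro k hk hkT
      have : ∃ j, j ∉ E ∧ ¬ (k1 ≤ k j ∧ k j ≤ k2) := by
        by_contra hcon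
        push Not at hcon
        apply hkT
        rw [hT, Fintype.mem_piFinset]
        intro j
        by_cases hjE : j ∈ E
        · have h1 := Fintype.mem_piFinset.1 hk j
          rw [if_pos hjE] at h1 ⊢
          exact h1
        · rw [if_neg hjE, Finset.mem_Icc]
          exact hcon j hjE
      obtain ⟨j, hjE, hjk⟩ := this
      obtain ⟨i, hi, hji⟩ := hfree j hjE
      apply mul_eq_zero_of_right
      apply Finset.prod_eq_zero hi
      rw [GD, if_neg]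
      intro h
      exact hjk (h j hji)
  rw [hsum]
  -- the factors
  obtain ⟨q, hq⟩ : ∃ q : ℂ, q = -(4 * Real.pi * I * (M : ℂ) ^ 2) := ⟨_, rfl⟩
  have hGD : ∑ k ∈ T, (∏ j ∈ Eᶜ, Cc 2 1 M (yk 2 M (k j))) *
          ∏ i ∈ Bᶜ, GD (r i) (v i).im M k1 k2 l2 (inc s t i) k =
      q ^ (Bᶜ).card * ∑ k ∈ T, (∏ j ∈ Eᶜ, Cc 2 1 M (yk 2 M (k j))) *
        ∏ i ∈ Bᶜ, FG (r i) M (inc s t i) (fun j => ((yk 2 M (k j) : ℝ) : ℂ)) ρ (v i).im := by
    rw [Finset.mul_sum]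
    refine Finset.sum_congr rfl fun k hk => ?_
    have h1 : ∏ i ∈ Bᶜ, GD (r i) (v i).im M k1 k2 l2 (inc s t i) k =
        ∏ i ∈ Bᶜ, (q * FG (r i) M (inc s t i) (fun j => ((yk 2 M (k j) : ℝ) : ℂ)) ρ (v i).im) := by
      refine Finset.prod_congr rfl fun i hi => ?_
      rw [GD, if_pos (hTwin k hk i hi), hρ, hq]
    rw [h1, Finset.prod_mul_distrib, Finset.prod_const]
    ring
  have hqn : ‖q ^ (Bᶜ).card‖ ≤ (4 * Real.pi) ^ p * (M : ℝ) ^ (2 * p) := by
    have h1 : ‖q‖ = 4 * Real.pi * (M : ℝ) ^ 2 := by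
      rw [hq, norm_neg, norm_mul, norm_mul, norm_mul, norm_pow, Complex.norm_I, Complex.norm_real,
        Real.norm_of_nonneg Real.pi_pos.le, Complex.norm_natCast]
      norm_num
    have h2 : 1 ≤ 4 * Real.pi * (M : ℝ) ^ 2 := by
      have := Real.pi_gt_three
      have : (1 : ℝ) ≤ (M : ℝ) ^ 2 := one_le_pow₀ hMr1
      nlinarith
    rw [norm_pow, h1]
    calc (4 * Real.pi * (M : ℝ) ^ 2) ^ (Bᶜ).card ≤ (4 * Real.pi * (M : ℝ) ^ 2) ^ p := by
          apply pow_le_pow_right₀ h2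
          have := Finset.card_le_univ Bᶜ
          rwa [Fintype.card_fin] at this
      _ = (4 * Real.pi) ^ p * (M : ℝ) ^ (2 * p) := by rw [mul_pow, pow_mul]
  -- the weights
  obtain ⟨W, hW⟩ : ∃ W : ℝ, W = ∑ i ∈ Bᶜ, ∑ j ∈ inc s t i ∩ E, (2 * ff ((x j : ℂ) + 1 / 2)).re :=
    ⟨_, rfl⟩
  have hprodS : ∏ i ∈ Bᶜ, ∏ j ∈ inc s t i ∩ E, S M (κ j) ^ 2 ≤
      (C2 * (M : ℝ) ^ D2) ^ (p * m) * Real.exp (M * W) := by
    have h1 : 1 ≤ C2 * (M : ℝ) ^ D2 := one_le_mul_of_one_le_of_one_le hC2 (one_le_pow₀ hMr1)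
    have h2 := BoundG_prod (Bᶜ) (fun i => inc s t i ∩ E) (fun _ j => S M (κ j) ^ 2)
      (fun _ j => M * (2 * ff ((x j : ℂ) + 1 / 2)).re) _ h1 (p * m) (by
        calc ∑ i ∈ Bᶜ, (inc s t i ∩ E).card ≤ ∑ i ∈ Bᶜ, m := by
              refine Finset.sum_le_sum fun i _ => ?_
              have := Finset.card_le_univ (inc s t i ∩ E)
              rwa [Fintype.card_fin] at this
          _ = (Bᶜ).card * m := by rw [Finset.sum_const, smul_eq_mul]
          _ ≤ p * m := by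
              apply Nat.mul_le_mul_right
              have := Finset.card_le_univ Bᶜ
              rwa [Fintype.card_fin] at this) (fun i hi j hj => sq_nonneg _) (by
        intro i hi j hj
        have h3 := hes M (κ j) hM3 (hkk (κ j) (hκ i hi j hj).1 (hκ i hi j hj).2).1
        rw [hxκ i hi j hj]
        exact h3)
    refine h2.trans (le_of_eq ?_)
    congr 2
    rw [hW, Finset.mul_sum]
    exact Finset.sum_congr rfl fun i _ => (Finset.mul_sum _ _ _).symm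
  -- the core estimate
  have hbox : ‖∑ k ∈ T, (∏ j ∈ Eᶜ, Cc 2 1 M (yk 2 M (k j))) *
        ∏ i ∈ Bᶜ, FG (r i) M (inc s t i) (fun j => ((yk 2 M (k j) : ℝ) : ℂ)) ρ (v i).im‖ ≤
      4 ^ p * ((Real.exp (M * W))⁻¹ * (C1 * (M : ℝ) ^ m * Real.exp (M * X))) := by
    refine BoundG_box hc B M hM3 ρ (hρ ▸ hρ1) (hρ ▸ hρ2) T ?_ _ _ (by positivity) ?_
    · intro k hk i hi j hj
      have := hTwin k hk i hi j hj
      exact (hkk (k j) this.1 this.2).1
    · intro a ha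
      have h1 := hcore M k1 k2 l1 l2 hM hw κ x hxb a ha
      rw [← hEdef, ← hX, ← hW, ← hT] at h1
      have h2 : 0 < Real.exp (M * W) := Real.exp_pos _
      rw [← div_eq_inv_mul, le_div_iff₀' h2]
      refine le_trans (le_of_eq ?_) h1
      congr 2
      refine Finset.sum_congr rfl fun k hk => ?_
      unfold GN
      have hmix : ∀ j, (j ∉ E ∨ ∃ i ∈ Bᶜ, j ∈ inc s t i) →
          mixv E (fun j => (x j : ℂ)) (fun j => ((yk 2 M (k j) : ℝ) : ℂ)) j =
            ((yk 2 M (k j) : ℝ) : ℂ) := by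
        intro j hj
        unfold mixv
        by_cases hjE : j ∈ E
        · simp only [if_pos hjE]
          rcases hj with h | ⟨i, hi, hji⟩
          · exact absurd hjE h
          · rw [hxκ i hi j (Finset.mem_inter.2 ⟨hji, hjE⟩)]
            rw [hT] at hk
            have h3 := Fintype.mem_piFinset.1 hk j
            rw [if_pos hjE, Finset.mem_singleton] at h3
            rw [h3]
        · simp only [if_neg hjE]
      congr 1
      · refine Finset.prod_congr rfl fun j hj => ?_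
        rw [hmix j (Or.inl (Finset.mem_compl.1 hj))]
      · refine Finset.prod_congr rfl fun i hi => ?_
        congr 1
        unfold KG
        congr 1
        refine Finset.prod_congr rfl fun j hj => ?_
        rw [hmix j (Or.inr ⟨i, hi, hj⟩)]
  rw [hGD, norm_mul]
  have e1 : 0 ≤ ∏ i ∈ Bᶜ, ∏ j ∈ inc s t i ∩ E, S M (κ j) ^ 2 :=
    Finset.prod_nonneg fun _ _ => Finset.prod_nonneg fun _ _ => sq_nonneg _
  calc (∏ i ∈ Bᶜ, ∏ j ∈ inc s t i ∩ E, S M (κ j) ^ 2) * (‖q ^ (Bᶜ).card‖ * _) ≤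
        ((C2 * (M : ℝ) ^ D2) ^ (p * m) * Real.exp (M * W)) *
          (((4 * Real.pi) ^ p * (M : ℝ) ^ (2 * p)) *
          (4 ^ p * ((Real.exp (M * W))⁻¹ * (C1 * (M : ℝ) ^ m * Real.exp (M * X))))) := by
        apply mul_le_mul hprodS _ (by positivity) (by positivity)
        exact mul_le_mul hqn hbox (norm_nonneg _) (by positivity)
    _ = C2 ^ (p * m) * ((4 * Real.pi) ^ p * (4 ^ p * C1)) *
          (M : ℝ) ^ (D2 * (p * m) + (2 * p + m)) * Real.exp (M * X) *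
          (Real.exp (M * W) * (Real.exp (M * W))⁻¹) := by
        rw [mul_pow, ← pow_mul, pow_add, pow_add]
        ring
    _ = C2 ^ (p * m) * ((4 * Real.pi) ^ p * (4 ^ p * C1)) *
          (M : ℝ) ^ (D2 * (p * m) + (2 * p + m)) * Real.exp (M * X) := by
        rw [mul_inv_cancel₀ (Real.exp_pos _).ne', mul_one]

end Pool.Agent.H63.VC7
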