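import Pool.Agent.H63.VC7.Link

/-!
# Checks: Jones polynomials of some arborescent knots

For `N = 1` the state sum is the Jones polynomial with `t = q ^ 2` (or `t = q ^ (-2)`), up to a sign
and a power of `q`, which depend on the framing. We check the figure-eight knot `4_1` and the pretzel
knots `P(3, 3, -2) = 8_19`, with the Jones polynomial `t ^ 3 + t ^ 5 - t ^ 8`, and
`P(-2, 3, 7) = 12n_242`, with `t ^ 5 + t ^ 7 - t ^ 11 + t ^ 12 - t ^ 13`, which are not two-bridge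
knots; the tree of a pretzel knot is a star whose center is an untwisted band.
-/

namespace Pool.Agent.H63.VC7

open Pool.Agent.H63.VC Complex

theorem piFinset_two : Fintype.piFinset (fun _ : Fin 2 => Finset.range 2) =
    {![0,0],![0,1],![1,0],![1,1]} := by decide

theorem piFinset_four : Fintype.piFinset (fun _ : Fin 4 => Finset.range 2) =
    {![0,0,0,0],![0,0,0,1],![0,0,1,0],![0,0,1,1],![0,1,0,0],![0,1,0,1],![0,1,1,0],![0,1,1,1],
      ![1,0,0,0],![1,0,0,1],![1,0,1,0],![1,0,1,1],![1,1,0,0],![1,1,0,1],![1,1,1,0],![1,1,1,1]} := by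
  decide

theorem sixj_zero_left (q : ℂ) (N l : ℕ) : sixj q N 0 l = 1 := by
  unfold sixj
  rw [Finset.sum_eq_single_of_mem 0 (by simp)]
  · simp
  · intro t _ ht
    rw [Finset.prod_eq_zero (i := 0) (by simp; omega), mul_zero]
    simp [br]

theorem sixj_zero_right (q : ℂ) (N k : ℕ) : sixj q N k 0 = 1 := by
  unfold sixj
  rw [Finset.sum_eq_single_of_mem 0 (by simp)]
  · simp
  · intro t _ ht
    rw [Finset.prod_eq_zero (i := 0) (by simp; omega), mul_zero]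
    simp [br]

theorem br_one (q : ℂ) (h : q ≠ 0) : br q 1 = (q ^ 2 - 1) / q := by
  simp only [br]
  rw [zpow_neg, zpow_one]
  field_simp

theorem br_two (q : ℂ) (h : q ≠ 0) : br q 2 = (q ^ 4 - 1) / q ^ 2 := by
  simp only [br]
  rw [zpow_neg, show q ^ (2 : ℤ) = q ^ 2 by norm_cast]
  field_simp

theorem br_three (q : ℂ) (h : q ≠ 0) : br q 3 = (q ^ 6 - 1) / q ^ 3 := by
  simp only [br]
  rw [zpow_neg, show q ^ (3 : ℤ) = q ^ 3 by norm_cast]
  field_simp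

theorem br_sq (q : ℂ) (h : q ≠ 0) : br q 2 ^ 2 = br q 3 * br q 1 + br q 1 ^ 2 := by
  rw [br_one q h, br_two q h, br_three q h]
  field_simp
  ring

theorem sixj_one (q : ℂ) (h : q ≠ 0) (h1 : br q 1 ≠ 0) (h3 : br q 3 ≠ 0) :
    sixj q 1 1 1 = -(br q 1 / br q 3) := by
  have h13 := br_sq q h
  simp only [sixj, Finset.sum_range_succ, Finset.sum_range_zero, Finset.prod_range_one,
    Finset.prod_range_zero]
  norm_num
  field_simp
  linear_combination -h13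

theorem tw_zero (q : ℂ) : tw q 0 = 1 := by simp [tw]

theorem tw_one (q : ℂ) : tw q 1 = -(q ^ 2) := by simp [tw]

theorem br_ne (q : ℂ) (h : q ≠ 0) (h4 : q ^ 4 ≠ 1) (h6 : q ^ 6 ≠ 1) :
    br q 1 ≠ 0 ∧ br q 2 ≠ 0 ∧ br q 3 ≠ 0 := by
  have e2 : q ^ 2 ≠ 1 := fun e => h4 (by rw [show q ^ 4 = (q ^ 2) ^ 2 by ring, e, one_pow])
  rw [br_one q h, br_two q h, br_three q h]
  exact ⟨div_ne_zero (sub_ne_zero.2 e2) h, div_ne_zero (sub_ne_zero.2 h4) (by positivity),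
    div_ne_zero (sub_ne_zero.2 h6) (by positivity)⟩

/-- The Jones polynomial of the figure-eight knot. -/
theorem jones_4_1 (q : ℂ) (h : q ≠ 0) (h4 : q ^ 4 ≠ 1) (h6 : q ^ 6 ≠ 1) :
    jones ![0] Fin.succ ![2, -2] 1 q = q ^ 4 - q ^ 2 + 1 - (q ^ 2)⁻¹ + (q ^ 4)⁻¹ := by
  obtain ⟨h1, h2, h3⟩ := br_ne q h h4 h6
  unfold jones
  rw [show (Fintype.piFinset fun _ : Fin 2 => Finset.range (1 + 1)) = _ from piFinset_two]
  rw [Finset.sum_insert (by decide), Finset.sum_insert (by decide), Finset.sum_insert (by decide),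
    Finset.sum_singleton]
  simp [Fin.prod_univ_succ, sixj_zero_left, sixj_zero_right, sixj_one q h h1 h3, tw_zero, tw_one]
  have e1 : q ^ 2 - 1 ≠ 0 := fun e => h1 (by rw [br_one q h, e, zero_div])
  have e2 : q ^ 4 - 1 ≠ 0 := sub_ne_zero.2 h4
  have e3 : q ^ 6 - 1 ≠ 0 := sub_ne_zero.2 h6
  rw [br_one q h, br_two q h, br_three q h]
  field_simp
  ring

/-- The Jones polynomial of a star with three leaves, whose center is an untwisted band. -/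
theorem jones_star (q : ℂ) (h : q ≠ 0) (h4 : q ^ 4 ≠ 1) (h6 : q ^ 6 ≠ 1) (a b c : ℤ) :
    jones ![0, 0, 0] Fin.succ ![0, a, b, c] 1 q =
      br q 1 / br q 2 * ((br q 1 + (-(q ^ 2)) ^ a * br q 3) / br q 2) *
          ((br q 1 + (-(q ^ 2)) ^ b * br q 3) / br q 2) *
          ((br q 1 + (-(q ^ 2)) ^ c * br q 3) / br q 2) +
        br q 3 / br q 2 * ((br q 1 - (-(q ^ 2)) ^ a * br q 1) / br q 2) *
          ((br q 1 - (-(q ^ 2)) ^ b * br q 1) / br q 2) *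
          ((br q 1 - (-(q ^ 2)) ^ c * br q 1) / br q 2) := by
  obtain ⟨h1, h2, h3⟩ := br_ne q h h4 h6
  unfold jones
  rw [show (Fintype.piFinset fun _ : Fin 4 => Finset.range (1 + 1)) = _ from piFinset_four]
  iterate 15 rw [Finset.sum_insert (by decide)]
  rw [Finset.sum_singleton]
  simp [Fin.prod_univ_succ, sixj_zero_left, sixj_zero_right, sixj_one q h h1 h3, tw_zero, tw_one]
  field_simp
  ring

/-- The Jones polynomial of `P(3, 3, -2) = 8_19`. -/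
theorem jones_8_19 (q : ℂ) (h : q ≠ 0) (h4 : q ^ 4 ≠ 1) (h6 : q ^ 6 ≠ 1) :
    jones ![0, 0, 0] Fin.succ ![0, 3, 3, -2] 1 q =
      q ^ 18 * ((q ^ 6)⁻¹ + (q ^ 10)⁻¹ - (q ^ 16)⁻¹) := by
  obtain ⟨h1, h2, h3⟩ := br_ne q h h4 h6
  rw [jones_star q h h4 h6]
  have e1 : q ^ 2 - 1 ≠ 0 := fun e => h1 (by rw [br_one q h, e, zero_div])
  have e2 : q ^ 4 - 1 ≠ 0 := sub_ne_zero.2 h4
  have e3 : q ^ 6 - 1 ≠ 0 := sub_ne_zero.2 h6
  rw [br_one q h, br_two q h, br_three q h, zpow_neg,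
    show (-(q ^ 2)) ^ (3 : ℤ) = (-(q ^ 2)) ^ 3 by norm_cast,
    show (-(q ^ 2)) ^ (2 : ℤ) = (-(q ^ 2)) ^ 2 by norm_cast]
  field_simp
  ring

/-- The Jones polynomial of `P(-2, 3, 7) = 12n_242`. -/
theorem jones_12n_242 (q : ℂ) (h : q ≠ 0) (h4 : q ^ 4 ≠ 1) (h6 : q ^ 6 ≠ 1) :
    jones ![0, 0, 0] Fin.succ ![0, -2, 3, 7] 1 q = q ^ 30 * ((q ^ 10)⁻¹ + (q ^ 14)⁻¹ -
      (q ^ 22)⁻¹ + (q ^ 24)⁻¹ - (q ^ 26)⁻¹) := by
  obtain ⟨h1, h2, h3⟩ := br_ne q h h4 h6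
  rw [jones_star q h h4 h6]
  have e1 : q ^ 2 - 1 ≠ 0 := fun e => h1 (by rw [br_one q h, e, zero_div])
  have e2 : q ^ 4 - 1 ≠ 0 := sub_ne_zero.2 h4
  have e3 : q ^ 6 - 1 ≠ 0 := sub_ne_zero.2 h6
  rw [br_one q h, br_two q h, br_three q h, zpow_neg,
    show (-(q ^ 2)) ^ (3 : ℤ) = (-(q ^ 2)) ^ 3 by norm_cast,
    show (-(q ^ 2)) ^ (7 : ℤ) = (-(q ^ 2)) ^ 7 by norm_cast,
    show (-(q ^ 2)) ^ (2 : ℤ) = (-(q ^ 2)) ^ 2 by norm_cast]
  field_simp
  ring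

end Pool.Agent.H63.VC7
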