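import Pool.Agent.H63.VC7.LocG
import Pool.Agent.H63.VC6.ConcN

/-! # Concavity on the flat contours -/

namespace Pool.Agent.H63.VC7

open Pool.Agent.H63.VC hiding ext
open Pool.Agent.H63.VC3 Pool.Agent.H63.VC4 Pool.Agent.H63.VC6 Complex

variable {m p : ℕ} {s t : Fin m → Fin p} {r : Fin p → ℝ} {y : Fin m → ℂ} {v : Fin p → ℂ}

theorem ConcG_phase (r : ℝ) (V : ℂ) :
    (2 * Real.pi * I * (r * V ^ 2 + V)).re =
      -(2 * Real.pi * (2 * r * V.re * V.im + V.im)) := by
  simp [sq]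
  ring

theorem ConcG_re (s : Fin m → Fin p) (t : Fin m → Fin p) (r : Fin p → ℝ) (y : Fin m → ℂ)
    (v : Fin p → ℂ) :
    (VG s t r y v).re = ∑ j, (4 * ff (y j + 1 / 2)).re +
      ∑ i, (-(2 * Real.pi * (2 * r i * (v i).re * (v i).im + (v i).im)) +
        ∑ j ∈ inc s t i, (po (some (y j)) (v i)).re) := by
  unfold VG WG
  rw [add_re, re_sum, re_sum]
  congr 1
  refine Finset.sum_congr rfl fun i _ => ?_
  rw [add_re, re_sum, ConcG_phase]

theorem concG (hc : CritG s t r y v) (x : Fin m → ℝ) (a : Fin p → ℝ)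
    (hx : ∀ j, |x j - 1 / 4| ≤ 55 / 1000) (ha : ∀ i, |a i| ≤ 15 / 100) :
    (VG s t r (fun j => x j + (y j).im * I) (fun i => a i + (v i).im * I)).re ≤
      (VG s t r y v).re -
        1 / 10 * (∑ j, (x j - (y j).re) ^ 2 + ∑ i, (a i - (v i).re) ^ 2) := by
  have hslot : ∀ (i : Fin p) (j : Fin m),
      (po (some ((x j : ℂ) + (y j).im * I)) (a i + (v i).im * I)).re ≤
        (po (some (y j)) (v i)).re + (a i - (v i).re) * (dpo (some (y j)) (v i)).re -
        (x j - (y j).re) * (hh (y j - v i) + hh (y j + v i)).re -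
        1 / 5 * (a i - (v i).re) ^ 2 := by
    intro i j
    obtain ⟨hy, -⟩ := locG_y hc j
    obtain ⟨hv, -⟩ := locG_v hc i
    exact VC6.ConcN_slot (y j) (v i) (x j) (a i) hy.1 hy.2 hv.1 hv.2.2
      (hc.imv i) (hx j) (ha i)
  have hreg : ∀ i : Fin p,
      (-(2 * Real.pi * (2 * r i * a i * (v i).im + (v i).im)) +
        ∑ j ∈ inc s t i, (po (some ((x j : ℂ) + (y j).im * I)) (a i + (v i).im * I)).re) ≤
      (-(2 * Real.pi * (2 * r i * (v i).re * (v i).im + (v i).im)) +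
        ∑ j ∈ inc s t i, (po (some (y j)) (v i)).re) -
      ∑ j ∈ inc s t i, (x j - (y j).re) * (hh (y j - v i) + hh (y j + v i)).re -
      1 / 10 * (a i - (v i).re) ^ 2 := by
    intro i
    have h1 := Finset.sum_le_sum fun j (_ : j ∈ inc s t i) => hslot i j
    rw [Finset.sum_sub_distrib, Finset.sum_sub_distrib, Finset.sum_add_distrib,
      ← Finset.mul_sum, locG_dpo hc i, Finset.sum_const, nsmul_eq_mul] at h1
    have h2 := locG_dg hc i
    unfold dg at h2
    have hsq : 0 ≤ (a i - (v i).re) ^ 2 := sq_nonneg _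
    nlinarith
  have hsumD : ∑ i : Fin p, ∑ j ∈ inc s t i,
      (x j - (y j).re) * (hh (y j - v i) + hh (y j + v i)).re =
      ∑ j, (x j - (y j).re) * (4 * hh (y j + 1 / 2)).re := by
    rw [sum_inc s t hc.st]
    refine Finset.sum_congr rfl fun j _ => ?_
    rw [hc.ey j]
    simp only [add_re]
    ring
  have hver : ∑ j, (4 * ff ((x j : ℂ) + (y j).im * I + 1 / 2)).re ≤
      ∑ j, (4 * ff (y j + 1 / 2)).re + ∑ j, (x j - (y j).re) * (4 * hh (y j + 1 / 2)).re -
      1 / 10 * ∑ j, (x j - (y j).re) ^ 2 := by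
    rw [Finset.mul_sum, ← Finset.sum_add_distrib, ← Finset.sum_sub_distrib]
    exact Finset.sum_le_sum fun j _ => by
      obtain ⟨hy, -⟩ := locG_y hc j
      exact VC6.ConcN_vertex (y j) (x j) hy.1 hy.2 (hx j)
  have hregs := Finset.sum_le_sum fun i (_ : i ∈ (Finset.univ : Finset (Fin p))) => hreg i
  rw [Finset.sum_sub_distrib, Finset.sum_sub_distrib, hsumD, ← Finset.mul_sum] at hregs
  rw [ConcG_re, ConcG_re]
  simp only [VC6.ConcN_re, VC6.ConcN_im]
  linarith

end Pool.Agent.H63.VC7
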