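import Pool.Agent.H63.VC6.SlotU
import Pool.Agent.H63.VC7.LocG

/-! # The potential on the product of the paths, with frozen variables -/

namespace Pool.Agent.H63.VC7

open Pool.Agent.H63.VC hiding ext
open Pool.Agent.H63.VC3 Pool.Agent.H63.VC4 Pool.Agent.H63.VC6 Complex

variable {m p : ℕ} {s t : Fin m → Fin p} {r : Fin p → ℝ} {y : Fin m → ℂ} {v : Fin p → ℂ}

/-- A slot with a frozen real variable. -/
theorem slot_frozen (y v : ℂ) (x a κ : ℝ) (hy : yloc y) (hv : vloc v) (hk : |kap y v| ≤ κ)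
    (hx : |x - 1 / 4| ≤ 55 / 1000) (ha : |a| ≤ 15 / 100) :
    (2 * ff ((x : ℂ) + 1 / 2)).re + (po (some (x : ℂ)) (a + v.im * I)).re ≤
      (2 * ff (y + 1 / 2)).re + (po (some y) v).re + (a - v.re) * (dpo (some y) v).re +
        κ ^ 2 / 8 + 224 / 10 * v.im ^ 2 := by
  have hh1 := slot_horiz y v x a hy hv hx ha
  have hv1 := slot_vert x a v.im y.im 0 hx ha
  rw [ofReal_zero, zero_mul, add_zero] at hv1
  have hk2 : kap y v ^ 2 ≤ κ ^ 2 := by
    rw [← sq_abs (kap y v)]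
    exact pow_le_pow_left₀ (abs_nonneg _) hk 2
  have hm : kap y v * (x - y.re) - 2 * (x - y.re) ^ 2 ≤ kap y v ^ 2 / 8 := by
    nlinarith [sq_nonneg (kap y v - 4 * (x - y.re))]
  linarith

theorem SegPotG_phase (r a b : ℝ) :
    (2 * Real.pi * I * (r * ((a : ℂ) + b * I) ^ 2 + ((a : ℂ) + b * I))).re =
      -(2 * Real.pi * (2 * r * a * b + b)) := by
  have e : 2 * Real.pi * I * (r * ((a : ℂ) + b * I) ^ 2 + ((a : ℂ) + b * I)) =
      ((-(2 * Real.pi * (2 * r * a * b + b)) : ℝ) : ℂ) +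
        ((2 * Real.pi * (r * (a ^ 2 - b ^ 2) + a) : ℝ) : ℂ) * I := by
    have hI : I ^ 2 = -1 := I_sq
    push_cast
    linear_combination (2 * Real.pi * I * r * b ^ 2 + 2 * Real.pi * (2 * r * a * b + b)) * hI
  rw [e, add_re, ofReal_re, re_ofReal_mul, I_re, mul_zero, add_zero]

theorem SegPotG_Lg (r : ℝ) (A : Finset (Fin m)) (z : Fin m → ℂ) (V : ℂ) :
    Lg r A z V = (2 * Real.pi * I * (r * V ^ 2 + V)).re +
      ∑ j ∈ A, ((2 * ff (z j + 1 / 2)).re + (po (some (z j)) V).re) := by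
  unfold Lg WG
  rw [add_re, Complex.re_sum, Finset.sum_add_distrib]
  ring

/-- The difference of the potentials at a node is a sum over its slots. -/
theorem SegPotG_node (hc : CritG s t r y v) (i : Fin p) (a : ℝ) (z : Fin m → ℂ) :
    Lg (r i) (inc s t i) z (a + (v i).im * I) = Lg (r i) (inc s t i) y (v i) +
      ∑ j ∈ inc s t i, ((2 * ff (z j + 1 / 2)).re + (po (some (z j)) (a + (v i).im * I)).re -
        ((2 * ff (y j + 1 / 2)).re + (po (some (y j)) (v i)).re +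
          (a - (v i).re) * (dpo (some (y j)) (v i)).re)) := by
  have h := locG_dpo hc i
  have e : (v i : ℂ) = ((v i).re : ℂ) + ((v i).im : ℂ) * I := (re_add_im (v i)).symm
  have e1 : (2 * Real.pi * I * (r i * (v i) ^ 2 + v i)).re =
      -(2 * Real.pi * (2 * r i * (v i).re * (v i).im + (v i).im)) := by
    rw [← SegPotG_phase, ← e]
  rw [SegPotG_Lg, SegPotG_Lg, SegPotG_phase, e1]
  simp only [Finset.sum_sub_distrib, Finset.sum_add_distrib, ← Finset.mul_sum, h]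
  ring

theorem SegPotG_kap (hc : CritG s t r y v) (i : Fin p) (j : Fin m) (hj : j ∈ inc s t i) :
    |kap (y j) (v i)| ≤ 36 / 10 * (1 / (r (s j)) ^ 2 + 1 / (r (t j)) ^ 2) := by
  rcases (mem_inc s t i j).1 hj with h | h
  · rw [← h]; exact (locG_kap hc j).1
  · rw [← h]; exact (locG_kap hc j).2

theorem SegPotG_loss (hc : CritG s t r y v) (i : Fin p) (j : Fin m) :
    (36 / 10 * (1 / (r (s j)) ^ 2 + 1 / (r (t j)) ^ 2)) ^ 2 / 8 + 224 / 10 * (v i).im ^ 2 ≤
      loss s t r i j := by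
  have hE := locG_edge hc j
  have hd := locG_dg hc i
  have hr := hc.hr i
  have hv := (locG_v hc i).2.1
  have hv0 := hc.imv i
  have h10 := locG_abs hc i
  set E := 1 / (r (s j)) ^ 2 + 1 / (r (t j)) ^ 2 with hEd
  have hE0 : 0 ≤ E := by positivity
  have hr0 : 0 < |r i| := by linarith
  have hR : 0 < (r i) ^ 2 := by rw [← sq_abs]; positivity
  have h2 : 100 * dg s t i ^ 2 ≤ (r i) ^ 2 := by
    rw [← sq_abs (r i)]
    nlinarith
  have h3 : (v i).im ^ 2 ≤ 9 / 10000 * (1 / (r i) ^ 2) := by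
    have h4 : (v i).im ^ 2 ≤ (3 / 10 * dg s t i / (r i) ^ 2) ^ 2 :=
      pow_le_pow_left₀ hv0.le hv 2
    have h5 : (3 / 10 * dg s t i / (r i) ^ 2) ^ 2 =
        9 / 10000 * (100 * dg s t i ^ 2 / (r i) ^ 2) * (1 / (r i) ^ 2) := by
      field_simp
      ring
    have h6 : 100 * dg s t i ^ 2 / (r i) ^ 2 ≤ 1 := by
      rw [div_le_one hR]; exact h2
    have h7 : 0 ≤ 1 / (r i) ^ 2 := by positivity
    rw [h5] at h4
    have h8 : 9 / 10000 * (100 * dg s t i ^ 2 / (r i) ^ 2) * (1 / (r i) ^ 2) ≤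
        9 / 10000 * 1 * (1 / (r i) ^ 2) := by
      apply mul_le_mul_of_nonneg_right _ h7
      linarith
    linarith
  have h9 : (36 / 10 * E) ^ 2 / 8 ≤ 33 / 1000 * E := by nlinarith
  have h10' : 0 ≤ 1 / (r i) ^ 2 := by positivity
  have h11 : (21 : ℝ) / 1000 / (r i) ^ 2 = 21 / 1000 * (1 / (r i) ^ 2) := by ring
  unfold loss
  rw [← hEd, h11]
  linarith

theorem seg_potG (hc : CritG s t r y v) (B : Finset (Fin p)) (y1 y2 : ℝ)
    (h1 : 1 / 4 - 55 / 1000 ≤ y1) (h1' : y1 ≤ 1 / 4 - 54 / 1000) (h2 : 1 / 4 + 54 / 1000 ≤ y2)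
    (h2' : y2 ≤ 1 / 4 + 55 / 1000) (a : Fin p → ℝ) (ha : ∀ i, |a i| ≤ 15 / 100)
    (σ : Fin m → Fin 3) (z : Fin m → ℂ)
    (hz : ∀ j, j ∉ EB s t B → Stt y1 y2 (1 / 100) (y j).im (σ j) (z j))
    (hz' : ∀ j ∈ EB s t B, (z j).im = 0 ∧ |(z j).re - 1 / 4| ≤ 55 / 1000) :
    ∑ i ∈ Bᶜ, Lg (r i) (inc s t i) z (a i + (v i).im * I) ≤
      ∑ i ∈ Bᶜ, Lg (r i) (inc s t i) y (v i) + 2 * ∑ j ∈ (EB s t B)ᶜ, exc (σ j) +
        ∑ i ∈ Bᶜ, ∑ j ∈ inc s t i ∩ EB s t B, loss s t r i j := by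
  classical
  let g : Fin p → Fin m → ℝ := fun i j =>
    (2 * ff (z j + 1 / 2)).re + (po (some (z j)) (a i + (v i).im * I)).re -
      ((2 * ff (y j + 1 / 2)).re + (po (some (y j)) (v i)).re +
        (a i - (v i).re) * (dpo (some (y j)) (v i)).re)
  let f : Fin p → Fin m → ℝ := fun i j => if j ∈ EB s t B then 0 else
    kap (y j) (v i) * ((z j).re - (y j).re) + exc (σ j)
  let l : Fin p → Fin m → ℝ := fun i j => if j ∈ EB s t B then loss s t r i j else 0
  have hg : ∀ i j, j ∈ inc s t i → g i j ≤ f i j + l i j := by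
    intro i j hj
    by_cases hE : j ∈ EB s t B
    · have hzj := hz' j hE
      have e : z j = (((z j).re : ℝ) : ℂ) := by
        apply Complex.ext <;> simp [hzj.1]
      have k := slot_frozen (y j) (v i) (z j).re (a i) _ (locG_y hc j).1 (locG_v hc i).1
        (SegPotG_kap hc i j hj) hzj.2 (ha i)
      rw [← e] at k
      have k2 := SegPotG_loss hc i j
      simp only [g, f, l, if_pos hE]
      linarith
    · have k := slot_int (y j) (v i) (z j) (a i) y1 y2 (σ j) (locG_y hc j).1 (locG_v hc i).1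
        h1 h1' h2 h2' (ha i) (hz j hE)
      simp only [g, f, l, if_neg hE]
      linarith
  have hf : ∑ i ∈ Bᶜ, ∑ j ∈ inc s t i, f i j = 2 * ∑ j ∈ (EB s t B)ᶜ, exc (σ j) := by
    have e0 : ∑ i ∈ B, ∑ j ∈ inc s t i, f i j = 0 := by
      apply Finset.sum_eq_zero
      intro i hi
      apply Finset.sum_eq_zero
      intro j hj
      have hE : j ∈ EB s t B := by
        rw [EB, Finset.mem_filter]
        refine ⟨Finset.mem_univ _, ?_⟩
        rcases (mem_inc s t i j).1 hj with h | h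
        · left; rw [h]; exact hi
        · right; rw [h]; exact hi
      simp only [f, if_pos hE]
    have e1 := Finset.sum_add_sum_compl B (fun i => ∑ j ∈ inc s t i, f i j)
    rw [e0, zero_add] at e1
    rw [e1, sum_inc s t hc.st, Finset.mul_sum,
      ← Finset.sum_add_sum_compl (EB s t B) (fun j => f (s j) j + f (t j) j)]
    have e2 : ∑ j ∈ EB s t B, (f (s j) j + f (t j) j) = 0 := by
      apply Finset.sum_eq_zero
      intro j hj
      simp only [f, if_pos hj, add_zero]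
    rw [e2, zero_add]
    apply Finset.sum_congr rfl
    intro j hj
    have hj' : j ∉ EB s t B := Finset.mem_compl.1 hj
    simp only [f, if_neg hj']
    linear_combination ((z j).re - (y j).re) * locG_kap_sum hc j
  have hl : ∑ i ∈ Bᶜ, ∑ j ∈ inc s t i, l i j =
      ∑ i ∈ Bᶜ, ∑ j ∈ inc s t i ∩ EB s t B, loss s t r i j := by
    apply Finset.sum_congr rfl
    intro i _
    rw [← Finset.filter_mem_eq_inter, Finset.sum_filter]
  have hsum : ∑ i ∈ Bᶜ, ∑ j ∈ inc s t i, g i j ≤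
      ∑ i ∈ Bᶜ, ∑ j ∈ inc s t i, (f i j + l i j) :=
    Finset.sum_le_sum fun i _ => Finset.sum_le_sum fun j hj => hg i j hj
  have hL : ∑ i ∈ Bᶜ, Lg (r i) (inc s t i) z (a i + (v i).im * I) =
      ∑ i ∈ Bᶜ, Lg (r i) (inc s t i) y (v i) + ∑ i ∈ Bᶜ, ∑ j ∈ inc s t i, g i j := by
    rw [← Finset.sum_add_distrib]
    apply Finset.sum_congr rfl
    intro i _
    exact SegPotG_node hc i (a i) z
  simp only [Finset.sum_add_distrib] at hsum
  rw [hL]
  linarith

end Pool.Agent.H63.VC7
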