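import Pool.Agent.H63.VC3.CritA
import Pool.Agent.H63.VC7.Defs

/-! # Existence of the critical point -/

namespace Pool.Agent.H63.VC7

open Pool.Agent.H63.VC hiding ext
open Pool.Agent.H63.VC3 Pool.Agent.H63.VC4 Pool.Agent.H63.VC6 Complex

variable {m p : ℕ}

theorem CritGA_dg (s t : Fin m → Fin p) (hne : ∀ i, (inc s t i).Nonempty) (i : Fin p) :
    1 ≤ dg s t i := by
  unfold dg
  exact_mod_cast (hne i).card_pos

theorem CritGA_den (r : ℝ) : ‖4 * Real.pi * I * (r : ℂ)‖ = 4 * Real.pi * |r| := by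
  rw [norm_mul, norm_mul, norm_mul, Complex.norm_real, Complex.norm_real, Complex.norm_I,
    Real.norm_of_nonneg Real.pi_pos.le, Real.norm_eq_abs]
  norm_num

theorem CritGA_v_small {r : ℝ} {n : ℝ} (hn : 1 ≤ n) (hr : 10 * n ≤ |r|) {v : ℂ}
    (hv : ‖v + 1 / (2 * r)‖ ≤ n / (2 * r ^ 2)) :
    ‖v‖ ≤ 55 / 1000 ∧ ‖v‖ ≤ 55 / 100 / |r| := by
  have hr' : (10 : ℝ) ≤ |r| := by linarith
  have hpos : 0 < |r| := by linarith
  have e : v = (v + 1 / (2 * r)) - 1 / (2 * r) := by ring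
  have n1 : ‖(1 : ℂ) / (2 * r)‖ = 1 / (2 * |r|) := by
    rw [norm_div, norm_one, norm_mul, Complex.norm_real, Real.norm_eq_abs]
    norm_num
  have h1 : ‖v‖ ≤ n / (2 * r ^ 2) + 1 / (2 * |r|) := by
    conv_lhs => rw [e]
    refine (norm_sub_le _ _).trans ?_
    rw [n1]; linarith
  have h2 : n / (2 * r ^ 2) + 1 / (2 * |r|) ≤ 55 / 100 / |r| := by
    rw [← sq_abs r]
    have : n / (2 * |r| ^ 2) ≤ 5 / 100 / |r| := by
      rw [div_le_div_iff₀ (by positivity) hpos]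
      nlinarith
    have e3 : 1 / (2 * |r|) = 50 / 100 / |r| := by field_simp; norm_num
    have e4 : 55 / 100 / |r| = 5 / 100 / |r| + 50 / 100 / |r| := by ring
    rw [e4, e3]
    linarith
  have h3 : 55 / 100 / |r| ≤ 55 / 1000 := by
    rw [div_le_iff₀ hpos]; linarith
  exact ⟨h1.trans (h2.trans h3), h1.trans h2⟩

/-- The new value of `y j`. -/
noncomputable def CritGA_Y (s t : Fin m → Fin p) (y : Fin m → ℂ) (v : Fin p → ℂ) (j : Fin m) :
    ℂ :=
  CritA_A (y j) + (CritA_G (y j) (v (s j)) + CritA_G (y j) (v (t j))) / (8 * Real.pi)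

/-- The new value of `v i`. -/
noncomputable def CritGA_V (s t : Fin m → Fin p) (r : Fin p → ℝ) (y : Fin m → ℂ)
    (v : Fin p → ℂ) (i : Fin p) : ℂ :=
  -(1 / (2 * (r i : ℂ))) - (∑ j ∈ inc s t i, CritA_D (y j) (v i)) / (4 * Real.pi * I * r i)

/-- The contraction. -/
noncomputable def CritGA_Phi (s t : Fin m → Fin p) (r : Fin p → ℝ)
    (q : (Fin m → ℂ) × (Fin p → ℂ)) : (Fin m → ℂ) × (Fin p → ℂ) :=
  (CritGA_Y s t q.1 q.2, CritGA_V s t r q.1 q.2)

/-- The domain. -/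
def CritGA_dom (s t : Fin m → Fin p) (r : Fin p → ℝ) : Set ((Fin m → ℂ) × (Fin p → ℂ)) :=
  {q | (∀ j, ‖q.1 j - 1 / 4‖ ≤ 16 / 1000) ∧
    ∀ i, ‖q.2 i + 1 / (2 * r i)‖ ≤ dg s t i / (2 * (r i) ^ 2)}

theorem CritGA_sum_bound (s t : Fin m → Fin p) (i : Fin p) (f : Fin m → ℂ) {C : ℝ}
    (h : ∀ j ∈ inc s t i, ‖f j‖ ≤ C) : ‖∑ j ∈ inc s t i, f j‖ ≤ dg s t i * C := by
  refine (norm_sum_le _ _).trans ?_
  refine (Finset.sum_le_card_nsmul _ _ _ h).trans ?_
  rw [nsmul_eq_mul, dg]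

theorem CritGA_maps_v (s t : Fin m → Fin p) (r : Fin p → ℝ) (i : Fin p)
    (hn : 1 ≤ dg s t i) (hr : 10 * dg s t i ≤ |r i|) {y : Fin m → ℂ} {v : Fin p → ℂ}
    (hy : ∀ j, ‖y j - 1 / 4‖ ≤ 16 / 1000)
    (hv : ‖v i + 1 / (2 * r i)‖ ≤ dg s t i / (2 * (r i) ^ 2)) :
    ‖CritGA_V s t r y v i + 1 / (2 * r i)‖ ≤ dg s t i / (2 * (r i) ^ 2) := by
  have hpos : 0 < |r i| := by linarith
  obtain ⟨h1, h2⟩ := CritGA_v_small hn hr hv
  have e : CritGA_V s t r y v i + 1 / (2 * r i) =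
      -((∑ j ∈ inc s t i, CritA_D (y j) (v i)) / (4 * Real.pi * I * r i)) := by
    unfold CritGA_V
    ring
  rw [e, norm_neg, norm_div, CritGA_den, ← sq_abs (r i)]
  have h3 : ‖∑ j ∈ inc s t i, CritA_D (y j) (v i)‖ ≤ dg s t i * (114 / 10 * ‖v i‖) :=
    CritGA_sum_bound s t i _ fun j _ => CritA_D_bound (hy j) h1
  have hp := Real.pi_gt_d2
  have hdg : 0 ≤ dg s t i := by linarith
  rw [div_le_div_iff₀ (by positivity) (by positivity)]
  have h4 : ‖v i‖ * |r i| ≤ 55 / 100 := by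
    rwa [le_div_iff₀ hpos] at h2
  have h5 : ‖∑ j ∈ inc s t i, CritA_D (y j) (v i)‖ * |r i| ≤ dg s t i * (627 / 100) := by
    calc ‖∑ j ∈ inc s t i, CritA_D (y j) (v i)‖ * |r i|
        ≤ dg s t i * (114 / 10 * ‖v i‖) * |r i| := by gcongr
      _ = dg s t i * (114 / 10 * (‖v i‖ * |r i|)) := by ring
      _ ≤ dg s t i * (114 / 10 * (55 / 100)) := by gcongr
      _ = dg s t i * (627 / 100) := by norm_num
  calc ‖∑ j ∈ inc s t i, CritA_D (y j) (v i)‖ * (2 * |r i| ^ 2)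
      = 2 * |r i| * (‖∑ j ∈ inc s t i, CritA_D (y j) (v i)‖ * |r i|) := by ring
    _ ≤ 2 * |r i| * (dg s t i * (627 / 100)) := by gcongr
    _ = dg s t i * (4 * (627 / 200) * |r i|) := by ring
    _ ≤ dg s t i * (4 * Real.pi * |r i|) := by gcongr; linarith

theorem CritGA_maps (s t : Fin m → Fin p) (hne : ∀ i, (inc s t i).Nonempty) (r : Fin p → ℝ)
    (hr : ∀ i, 10 * dg s t i ≤ |r i|) :
    Set.MapsTo (CritGA_Phi s t r) (CritGA_dom s t r) (CritGA_dom s t r) := by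
  rintro ⟨y, v⟩ ⟨hy, hv⟩
  simp only at hy hv
  refine ⟨fun j => ?_, fun i => CritGA_maps_v s t r i (CritGA_dg s t hne i) (hr i) hy (hv i)⟩
  have hv' := (CritGA_v_small (CritGA_dg s t hne (s j)) (hr _) (hv (s j))).1
  have hw' := (CritGA_v_small (CritGA_dg s t hne (t j)) (hr _) (hv (t j))).1
  have a1 := CritA_G_bound (hy j) hv'
  have a2 := CritA_G_bound (hy j) hw'
  have a3 := CritA_A_lip (y := 1 / 4) (y' := y j) (by norm_num) (hy j)
  rw [CritA_A_quarter] at a3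
  have b1 : ‖v (s j)‖ ^ 2 ≤ (55 / 1000) ^ 2 := by gcongr
  have b2 : ‖v (t j)‖ ^ 2 ≤ (55 / 1000) ^ 2 := by gcongr
  have hp := Real.pi_gt_d2
  have n8 : ‖(8 * Real.pi : ℂ)‖ = 8 * Real.pi := by
    rw [norm_mul, Complex.norm_real, Real.norm_of_nonneg Real.pi_pos.le]; norm_num
  show ‖CritA_A (y j) + (CritA_G (y j) (v (s j)) + CritA_G (y j) (v (t j))) /
    (8 * Real.pi) - 1 / 4‖ ≤ 16 / 1000
  have e : CritA_A (y j) + (CritA_G (y j) (v (s j)) + CritA_G (y j) (v (t j))) /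
      (8 * Real.pi) - 1 / 4 = (CritA_A (y j) - 1 / 4) +
      (CritA_G (y j) (v (s j)) + CritA_G (y j) (v (t j))) / (8 * Real.pi) := by ring
  rw [e]
  refine (norm_add_le _ _).trans ?_
  rw [norm_div, n8]
  have c1 : ‖CritA_G (y j) (v (s j)) + CritA_G (y j) (v (t j))‖ ≤ 3267 / 10000 := by
    refine (norm_add_le _ _).trans ?_
    norm_num at b1 b2 ⊢
    linarith
  have c2 : ‖CritA_G (y j) (v (s j)) + CritA_G (y j) (v (t j))‖ / (8 * Real.pi) ≤
      14 / 1000 := by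
    rw [div_le_iff₀ (by positivity)]
    linarith
  have hyj := hy j
  linarith

theorem CritGA_lip_comp (s t : Fin m → Fin p) (r : Fin p → ℝ) (i : Fin p)
    (hn : 1 ≤ dg s t i) (hr : 10 * dg s t i ≤ |r i|) {y y' : Fin m → ℂ} {v v' : Fin p → ℂ}
    {d : ℝ}
    (hd : 0 ≤ d) (hy : ∀ j, ‖y j - 1 / 4‖ ≤ 16 / 1000) (hy' : ∀ j, ‖y' j - 1 / 4‖ ≤ 16 / 1000)
    (hv : ‖v i‖ ≤ 55 / 1000) (hv' : ‖v' i‖ ≤ 55 / 1000)
    (h1 : ∀ j, ‖y' j - y j‖ ≤ d) (h2 : ‖v' i - v i‖ ≤ d) :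
    ‖CritGA_V s t r y' v' i - CritGA_V s t r y v i‖ ≤ 7 / 10 * d := by
  have hpos : 0 < |r i| := by linarith
  have e : CritGA_V s t r y' v' i - CritGA_V s t r y v i =
      -((∑ j ∈ inc s t i, (CritA_D (y' j) (v' i) - CritA_D (y j) (v i))) /
        (4 * Real.pi * I * r i)) := by
    unfold CritGA_V
    rw [Finset.sum_sub_distrib]
    ring
  rw [e, norm_neg, norm_div, CritGA_den]
  have hp := Real.pi_gt_d2
  have h3 : ‖∑ j ∈ inc s t i, (CritA_D (y' j) (v' i) - CritA_D (y j) (v i))‖ ≤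
      dg s t i * (16 * d) :=
    CritGA_sum_bound s t i _ fun j _ => CritA_lip_D (hy j) (hy' j) hv hv' (h1 j) h2
  rw [div_le_iff₀ (by positivity)]
  refine h3.trans ?_
  have h4 : dg s t i * 120 ≤ 4 * Real.pi * |r i| := by nlinarith
  have hdg : 0 ≤ dg s t i * d := mul_nonneg (by linarith) hd
  calc dg s t i * (16 * d) ≤ 7 / 10 * d * (dg s t i * 120) := by nlinarith
    _ ≤ 7 / 10 * d * (4 * Real.pi * |r i|) := by gcongr

theorem CritGA_lip (s t : Fin m → Fin p) (hne : ∀ i, (inc s t i).Nonempty) (r : Fin p → ℝ)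
    (hr : ∀ i, 10 * dg s t i ≤ |r i|) :
    LipschitzOnWith (7 / 10) (CritGA_Phi s t r) (CritGA_dom s t r) := by
  apply LipschitzOnWith.of_dist_le_mul
  rintro ⟨y', v'⟩ ⟨hy', hv'⟩ ⟨y, v⟩ ⟨hy, hv⟩
  simp only at hy hv hy' hv'
  have hv0 := fun i => (CritGA_v_small (CritGA_dg s t hne i) (hr i) (hv i)).1
  have hv0' := fun i => (CritGA_v_small (CritGA_dg s t hne i) (hr i) (hv' i)).1
  set d := dist (y', v') (y, v) with hd
  have hd0 : 0 ≤ d := dist_nonneg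
  have d1 : ∀ j, ‖y' j - y j‖ ≤ d := by
    intro j
    rw [← dist_eq_norm, hd, Prod.dist_eq]
    exact (dist_le_pi_dist y' y j).trans (le_max_left _ _)
  have d2 : ∀ i, ‖v' i - v i‖ ≤ d := by
    intro i
    rw [← dist_eq_norm, hd, Prod.dist_eq]
    exact (dist_le_pi_dist v' v i).trans (le_max_right _ _)
  have hK : ((7 / 10 : NNReal) : ℝ) = 7 / 10 := by norm_num
  rw [hK, Prod.dist_eq]
  refine max_le ?_ ?_
  · rw [dist_pi_le_iff (by positivity)]
    intro j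
    rw [dist_eq_norm]
    show ‖CritA_A (y' j) + (CritA_G (y' j) (v' (s j)) + CritA_G (y' j) (v' (t j))) /
        (8 * Real.pi) - (CritA_A (y j) + (CritA_G (y j) (v (s j)) +
        CritA_G (y j) (v (t j))) / (8 * Real.pi))‖ ≤ 7 / 10 * d
    have a1 := CritA_lip_G (hy j) (hy' j) (hv0 (s j)) (hv0' (s j)) (d1 j) (d2 (s j))
    have a2 := CritA_lip_G (hy j) (hy' j) (hv0 (t j)) (hv0' (t j)) (d1 j) (d2 (t j))
    have a3 := CritA_A_lip (hy j) (hy' j)
    have n8 : ‖(8 * Real.pi : ℂ)‖ = 8 * Real.pi := by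
      rw [norm_mul, Complex.norm_real, Real.norm_of_nonneg Real.pi_pos.le]; norm_num
    have hp := Real.pi_gt_d2
    have e : CritA_A (y' j) + (CritA_G (y' j) (v' (s j)) + CritA_G (y' j) (v' (t j))) /
        (8 * Real.pi) - (CritA_A (y j) + (CritA_G (y j) (v (s j)) +
        CritA_G (y j) (v (t j))) / (8 * Real.pi)) = (CritA_A (y' j) - CritA_A (y j)) +
        ((CritA_G (y' j) (v' (s j)) - CritA_G (y j) (v (s j))) +
        (CritA_G (y' j) (v' (t j)) - CritA_G (y j) (v (t j)))) / (8 * Real.pi) := by ring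
    rw [e]
    refine (norm_add_le _ _).trans ?_
    rw [norm_div, n8]
    have c1 : ‖(CritA_G (y' j) (v' (s j)) - CritA_G (y j) (v (s j))) +
        (CritA_G (y' j) (v' (t j)) - CritA_G (y j) (v (t j)))‖ ≤ 1584 / 100 * d := by
      refine (norm_add_le _ _).trans ?_
      linarith
    have c2 : ‖(CritA_G (y' j) (v' (s j)) - CritA_G (y j) (v (s j))) +
        (CritA_G (y' j) (v' (t j)) - CritA_G (y j) (v (t j)))‖ / (8 * Real.pi) ≤
        64 / 100 * d := by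
      rw [div_le_iff₀ (by positivity)]
      calc _ ≤ 1584 / 100 * d := c1
        _ ≤ 64 / 100 * d * 25 := by linarith
        _ ≤ 64 / 100 * d * (8 * Real.pi) := by gcongr; linarith
    have d1j := d1 j
    linarith
  · rw [dist_pi_le_iff (by positivity)]
    intro i
    rw [dist_eq_norm]
    exact CritGA_lip_comp s t r i (CritGA_dg s t hne i) (hr i) hd0 hy hy' (hv0 i) (hv0' i) d1
      (d2 i)

theorem CritGA_closed (s t : Fin m → Fin p) (r : Fin p → ℝ) : IsClosed (CritGA_dom s t r) := by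
  unfold CritGA_dom
  rw [Set.ofPred_and]
  refine IsClosed.inter ?_ ?_
  · simp only [Set.ofPred_forall]
    refine isClosed_iInter fun j => isClosed_le ?_ continuous_const
    fun_prop
  · simp only [Set.ofPred_forall]
    refine isClosed_iInter fun i => isClosed_le ?_ continuous_const
    fun_prop

theorem critG_contraction (s t : Fin m → Fin p) (hst : ∀ j, s j ≠ t j)
    (hne : ∀ i, (inc s t i).Nonempty) (r : Fin p → ℝ) (hr : ∀ i, 10 * dg s t i ≤ |r i|) :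
    ∃ (y : Fin m → ℂ) (v : Fin p → ℂ),
    (∀ j, 4 * hh (y j + 1 / 2) =
      hh (y j - v (s j)) + hh (y j + v (s j)) + hh (y j - v (t j)) + hh (y j + v (t j))) ∧
    (∀ i, 2 * Real.pi * I * (2 * r i * v i + 1) +
      ∑ j ∈ inc s t i, (hh (y j - v i) - hh (y j + v i)) = 0) ∧
    (∀ j, ‖y j - 1 / 4‖ ≤ 16 / 1000) ∧
    (∀ i, ‖v i + 1 / (2 * r i)‖ ≤ dg s t i / (2 * (r i) ^ 2)) := by
  have hmaps := CritGA_maps s t hne r hr
  have hlip := CritGA_lip s t hne r hr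
  have hcontr : ContractingWith (7 / 10) (hmaps.restrict (CritGA_Phi s t r) _ _) := by
    refine ⟨?_, hlip.mapsToRestrict hmaps⟩
    rw [div_lt_one (by norm_num)]; norm_num
  have hmem : ((fun _ => (1 / 4 : ℂ)), fun i => -(1 / (2 * (r i : ℂ)))) ∈
      CritGA_dom s t r := by
    refine ⟨fun j => ?_, fun i => ?_⟩
    · norm_num
    · show ‖-(1 / (2 * (r i : ℂ))) + 1 / (2 * r i)‖ ≤ _
      rw [neg_add_cancel, norm_zero]
      have := CritGA_dg s t hne i
      positivity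
  obtain ⟨q, hq, hfix, -⟩ := hcontr.exists_fixedPoint' (CritGA_closed s t r).isComplete hmaps
    hmem (edist_ne_top _ _)
  obtain ⟨y, v⟩ := q
  obtain ⟨hy, hv⟩ := hq
  have hr1 : ∀ i, (r i : ℂ) ≠ 0 := by
    intro i h
    have h0 : r i = 0 := by exact_mod_cast h
    have h1 := hr i
    have h2 := CritGA_dg s t hne i
    rw [h0] at h1
    norm_num at h1
    linarith
  have hpi : (Real.pi : ℂ) ≠ 0 := by exact_mod_cast Real.pi_ne_zero
  have hI := Complex.I_ne_zero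
  have e1 : ∀ j, CritA_A (y j) + (CritA_G (y j) (v (s j)) + CritA_G (y j) (v (t j))) /
      (8 * Real.pi) = y j := fun j => congrFun (congrArg Prod.fst hfix) j
  have e2 : ∀ i, -(1 / (2 * (r i : ℂ))) - (∑ j ∈ inc s t i, CritA_D (y j) (v i)) /
      (4 * Real.pi * I * r i) = v i :=
    fun i => congrFun (congrArg Prod.snd hfix) i
  refine ⟨y, v, fun j => ?_, fun i => ?_, hy, hv⟩
  · have e := e1 j
    unfold CritA_A CritA_G at e
    generalize hh (y j + 1 / 2) = H at e ⊢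
    field_simp at e
    linear_combination (1 / 2 : ℂ) * e
  · have e := e2 i
    have hri := hr1 i
    have e3 : ∑ j ∈ inc s t i, (hh (y j - v i) - hh (y j + v i)) =
      ∑ j ∈ inc s t i, CritA_D (y j) (v i) := rfl
    rw [e3]
    generalize ∑ j ∈ inc s t i, CritA_D (y j) (v i) = A at e ⊢
    field_simp at e
    linear_combination (-1 / 2 : ℂ) * e

end Pool.Agent.H63.VC7
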