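import Pool.Agent.H63.VC3.StepPP
import Pool.Agent.H63.VC4.KBN
import Pool.Agent.H63.VC7.Defs

/-! # The vertical sides of the contour -/

namespace Pool.Agent.H63.VC7

open Pool.Agent.H63.VC hiding ext
open Pool.Agent.H63.VC3 Pool.Agent.H63.VC4 Pool.Agent.H63.VC6 Complex

variable {m p : ℕ}

theorem SideG_cot_le (u : ℝ) (h0 : 45 / 1000 ≤ u) (h1 : u ≤ 455 / 1000) :
    Real.cos (Real.pi * u) / Real.sin (Real.pi * u) ≤ 71 / 10 := by
  have hpi := Real.pi_gt_d2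
  have hpi' := Real.pi_lt_d2
  have hz0 : 0 < Real.pi * u := by positivity
  have hz1 : Real.pi * u < Real.pi / 2 := by nlinarith only [h1, hpi]
  have hc : 0 < Real.cos (Real.pi * u) :=
    Real.cos_pos_of_mem_Ioo ⟨by linarith, hz1⟩
  have hs : 0 < Real.sin (Real.pi * u) :=
    Real.sin_pos_of_pos_of_lt_pi hz0 (by linarith)
  have ht := Real.lt_tan hz0 hz1
  rw [Real.tan_eq_sin_div_cos, lt_div_iff₀ hc] at ht
  rw [div_le_iff₀ hs]
  have h2 : 1413 / 10000 ≤ Real.pi * u := by nlinarith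
  nlinarith only [hs, ht, h2]

/-- The contribution of one slot on a vertical side. -/
theorem SideG_slot (x t ρ : ℝ) (hx : |x - 1 / 4| ≤ 55 / 1000) (hρ : 149 / 1000 ≤ |ρ|)
    (hρ' : |ρ| ≤ 15 / 100) (ht : 0 ≤ t) (ht3 : t ≤ 3 / 1000) :
    2 * Fr (x + 1 / 2) + (po (some (x : ℂ)) (ρ + t * I)).re ≤ 4 * Fr (3 / 4) - 60 / 1000 := by
  obtain ⟨hx1, hx2⟩ := abs_le.mp hx
  obtain ⟨ha1, ha2⟩ := abs_le.mp hρ'
  have hpi := Real.pi_gt_d2
  have hpi' := Real.pi_lt_d2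
  have e0 : (po (some (x : ℂ)) (ρ + t * I)).re =
      -(ff (((x - ρ : ℝ) : ℂ) + ((0 - t : ℝ) : ℂ) * I)).re -
      (ff (((x + ρ : ℝ) : ℂ) + ((0 + t : ℝ) : ℂ) * I)).re := by
    have e1 : (x : ℂ) - (ρ + t * I) = ((x - ρ : ℝ) : ℂ) + ((0 - t : ℝ) : ℂ) * I := by
      push_cast; ring
    have e2 : (x : ℂ) + (ρ + t * I) = ((x + ρ : ℝ) : ℂ) + ((0 + t : ℝ) : ℂ) * I := by
      push_cast; ring
    show (-ff ((x : ℂ) - (ρ + t * I)) - ff ((x : ℂ) + (ρ + t * I))).re = _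
    rw [e1, e2]
    simp only [sub_re, neg_re]
  rw [e0]
  have f1 := (ff_vert_left (x - ρ) (0 - t) (by linarith only [hx1, ha2]) (by linarith only [hx2, ha1])).1
  have f2 := (ff_vert_left (x + ρ) (0 + t) (by linarith only [hx1, ha1]) (by linarith only [hx2, ha2])).1
  have c1 := SideG_cot_le (x - ρ) (by linarith only [hx1, ha2]) (by linarith only [hx2, ha1])
  have c2 := SideG_cot_le (x + ρ) (by linarith only [hx1, ha1]) (by linarith only [hx2, ha2])
  have s := Fr_sym_ge x ρ (by linarith) (by linarith) (by linarith) (by linarith only [hρ', hx2, hpi])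
  have cg := cot_ge (x - 1 / 4) (by linarith only [hx])
  rw [show (1 : ℝ) / 4 + (x - 1 / 4) = x by ring] at cg
  have fy := Fr_y_le x (by linarith only [hx1]) (by linarith only [hx2, hpi, hpi'])
  set c := Real.cos (Real.pi * x) / Real.sin (Real.pi * x) with hc
  set d1 := Real.cos (Real.pi * (x - ρ)) / Real.sin (Real.pi * (x - ρ))
  set d2 := Real.cos (Real.pi * (x + ρ)) / Real.sin (Real.pi * (x + ρ))
  set d := x - 1 / 4 with hd
  have hρ2 : ρ ^ 2 = |ρ| ^ 2 := (sq_abs ρ).symm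
  have g1 : Real.pi / 2 * d1 * (0 - t) ^ 2 ≤ 315 / 200 * (71 / 10) * t ^ 2 := by
    have : Real.pi / 2 * d1 ≤ 315 / 200 * (71 / 10) := by nlinarith only [hpi, hpi', c1]
    have := mul_le_mul_of_nonneg_right this (sq_nonneg t)
    nlinarith only [this]
  have g2 : Real.pi / 2 * d2 * (0 + t) ^ 2 ≤ 315 / 200 * (71 / 10) * t ^ 2 := by
    have : Real.pi / 2 * d2 ≤ 315 / 200 * (71 / 10) := by nlinarith only [hpi, hpi', c2]
    have := mul_le_mul_of_nonneg_right this (sq_nonneg t)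
    nlinarith only [this]
  have ht4 : t ^ 2 ≤ 9 / 1000000 := by nlinarith only [ht, ht3]
  have m1 : -(Real.pi * c * ρ ^ 2) ≤ -(Real.pi * (1 - 2 * Real.pi * d) * ρ ^ 2) := by
    have : Real.pi * (1 - 2 * Real.pi * d) ≤ Real.pi * c := by nlinarith only [hpi, cg]
    nlinarith only [mul_le_mul_of_nonneg_right this (sq_nonneg ρ)]
  have m2 : -(2 * Real.pi * d ^ 2) + 2 * Real.pi ^ 2 * d * ρ ^ 2 ≤ Real.pi ^ 3 * ρ ^ 4 / 2 := by
    nlinarith only [mul_nonneg (by positivity : (0 : ℝ) ≤ 2 * Real.pi) (sq_nonneg (d - Real.pi * ρ ^ 2 / 2))]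
  have r1 : (149 / 1000) ^ 2 ≤ ρ ^ 2 := by rw [hρ2]; nlinarith only [hρ]
  have r2 : ρ ^ 2 ≤ (15 / 100) ^ 2 := by rw [hρ2]; nlinarith only [hρ, hρ']
  have m3 : Real.pi ^ 3 * ρ ^ 4 / 2 ≤ 8 / 1000 := by
    have h3 : Real.pi ^ 3 ≤ 315 ^ 3 / 100 ^ 3 := by
      have := pow_le_pow_left₀ Real.pi_pos.le hpi'.le 3
      linarith only [this]
    have h4 : ρ ^ 4 ≤ (15 / 100) ^ 4 := by nlinarith only [r2]
    have h5 : Real.pi ^ 3 * ρ ^ 4 ≤ 315 ^ 3 / 100 ^ 3 * (15 / 100) ^ 4 :=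
      mul_le_mul h3 h4 (by positivity) (by positivity)
    linarith only [h5]
  have m4 : -(Real.pi * ρ ^ 2) ≤ -(314 / 100 * (149 / 1000) ^ 2) := by nlinarith only [hpi, r1]
  nlinarith

/-- The size of the square of `S`. -/
theorem SideG_S (n : ℕ) (hn : 2 ≤ n) : ∃ C : ℝ, 0 < C ∧
    ∀ M k1 k2 l1 l2 k : ℕ, Win n M k1 k2 l1 l2 → k1 ≤ k → k ≤ k2 →
    S M k ^ 2 ≤ (M : ℝ) ^ ⌈2 * C⌉₊ *
      (Real.exp n * Real.exp (M * (2 * Fr (yk n M k + 1 / 2)))) := by
  obtain ⟨C2, hC2, hS⟩ := log_S_bound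
  refine ⟨C2, hC2, fun M k1 k2 l1 l2 k hw hk1 hk2 => ?_⟩
  obtain ⟨f1, f2, f3, f4, f5, f6, f7⟩ := win_facts n M k1 k2 l1 l2 hn hw
  have f8 := (f3 k hk1 hk2).1
  have f9 := (f3 k hk1 hk2).2
  rw [abs_le] at f8
  have hMbig : 1000 * (n + 1) ≤ M := hw.big
  have hMpos : 0 < M := by omega
  have hM0 : (0 : ℝ) < M := by exact_mod_cast hMpos
  have hM1 : (1 : ℝ) ≤ M := by exact_mod_cast hMpos
  set y : ℝ := yk n M k with hy
  have hkM : k < M := by omega
  have hSpos := S_pos hkM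
  have hlog := hS M k (by omega) hkM
  rw [abs_le] at hlog
  have hlogM : 0 ≤ Real.log M := Real.log_nonneg hM1
  have hFr : M * Fr (k / M) ≤ M * Fr (y + 1 / 2) + n / 2 := by
    have hyk : y + 1 / 2 = (k : ℝ) / M + (n / 2) / M := by
      rw [hy]; unfold yk bt; field_simp; ring
    have hnM : (n : ℝ) / 2 / M ≤ 1 / 1000 := by
      rw [div_div, div_le_div_iff₀ (by positivity) (by norm_num)]
      have : (1000 * (n + 1) : ℝ) ≤ M := by exact_mod_cast hMbig
      linarith only [this]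
    have hnM0 : 0 ≤ (n : ℝ) / 2 / M := by positivity
    rw [abs_le] at f9
    have h1 := StepPP_Fr ((k : ℝ) / M) (y + 1 / 2) (by linarith only [f9]) (by linarith only [f9]) (by linarith only [f8])
      (by linarith only [f8])
    have h2 : |(k : ℝ) / M - (y + 1 / 2)| = (n / 2) / M := by
      rw [hyk, show (k : ℝ) / M - ((k : ℝ) / M + (n / 2) / M) = -((n / 2) / M) by ring, abs_neg,
        abs_of_nonneg hnM0]
    rw [h2] at h1
    have h3 : Fr ((k : ℝ) / M) ≤ Fr (y + 1 / 2) + (n / 2) / M := by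
      have := (abs_le.mp h1).2
      linarith only [this]
    calc (M : ℝ) * Fr (k / M) ≤ M * (Fr (y + 1 / 2) + (n / 2) / M) := by gcongr
      _ = M * Fr (y + 1 / 2) + n / 2 := by field_simp
  have h1 : Real.log (S M k) ≤ M * Fr (y + 1 / 2) + n / 2 + C2 * Real.log M := by linarith only [hlog, hFr]
  have h2 : S M k ^ 2 = Real.exp (2 * Real.log (S M k)) := by
    rw [two_mul, Real.exp_add, Real.exp_log hSpos]; ring
  rw [h2]
  calc Real.exp (2 * Real.log (S M k))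
      ≤ Real.exp (Real.log M * ⌈2 * C2⌉₊ + (n + M * (2 * Fr (y + 1 / 2)))) := by
        apply Real.exp_le_exp.mpr
        have h3 : 2 * C2 ≤ ⌈2 * C2⌉₊ := Nat.le_ceil _
        have h4 : Real.log M * (2 * C2) ≤ Real.log M * ⌈2 * C2⌉₊ :=
          mul_le_mul_of_nonneg_left h3 hlogM
        linarith only [hlog, hFr, h4]
    _ = _ := by
        rw [Real.exp_add, Real.exp_add, Real.exp_mul, Real.exp_log hM0, Real.rpow_natCast]


/-- The phase on a vertical side. -/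
theorem SideG_phase (r σ ρ t Y : ℝ) (c : ℕ) (hc : 1 ≤ c) (hr : 10 * (c : ℝ) ≤ |r|)
    (hσ : |σ| = ρ) (hρ : ρ ≤ 15 / 100) (ht0 : 0 ≤ t) (ht1 : t ≤ Y)
    (hY : Y ≤ 3 / 10 * c / r ^ 2) :
    -4 * Real.pi * r * σ * t - 2 * Real.pi * t - 60 / 1000 * c ≤ -(20 / 1000) := by
  have hc1 : (1 : ℝ) ≤ c := by exact_mod_cast hc
  have hpi := Real.pi_gt_d2
  have hpi' := Real.pi_lt_d2
  have hR : (10 : ℝ) ≤ |r| := by linarith only [hr, hc1]
  have hR2 : 0 < r ^ 2 := by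
    rw [← sq_abs]
    positivity
  have htR : t * |r| ^ 2 ≤ 3 / 10 * c := by
    rw [sq_abs]
    have := ht1.trans hY
    rwa [le_div_iff₀ hR2] at this
  have l1 : -4 * Real.pi * r * σ * t ≤ 4 * Real.pi * |r| * ρ * t := by
    have h1 : -(r * σ) ≤ |r| * ρ := by
      rw [← hσ, ← abs_mul]; exact neg_le_abs _
    nlinarith only [h1, mul_nonneg (by positivity : (0 : ℝ) ≤ 4 * Real.pi) ht0]
  have l2 : 4 * Real.pi * |r| * ρ * t ≤ 4 * Real.pi * |r| * (15 / 100) * t := by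
    have h0 : 0 ≤ 4 * Real.pi * |r| * t := by positivity
    nlinarith only [hρ, h0]
  set R := |r|
  have l3 : -4 * Real.pi * r * σ * t - 2 * Real.pi * t ≤ 2 * Real.pi * (t * (3 / 10 * R - 1)) := by
    nlinarith only [l1, l2]
  have key : t * (3 / 10 * R - 1) ≤ 6 / 1000 ∨ (t * (3 / 10 * R - 1) ≤ 9 / 1000 ∧ 2 ≤ (c : ℝ)) := by
    rcases Nat.lt_or_ge c 2 with h | h
    · left
      have hc2 : c = 1 := by omega
      subst hc2
      have h1 : 3 / 10 * R - 1 ≤ 2 / 100 * R ^ 2 := by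
        push_cast at hr
        nlinarith only [mul_nonneg (by linarith : (0:ℝ) ≤ R - 10) (by linarith : (0:ℝ) ≤ R - 5)]
      have h2 : t * (3 / 10 * R - 1) ≤ t * (2 / 100 * R ^ 2) := mul_le_mul_of_nonneg_left h1 ht0
      push_cast at htR
      nlinarith only [h2, htR]
    · right
      have hc2 : (2 : ℝ) ≤ c := by exact_mod_cast h
      refine ⟨?_, hc2⟩
      have h1 : t * R ≤ 3 / 100 := by
        by_contra hcon
        push Not at hcon
        have h3 : 3 / 100 * R < t * R * R := by nlinarith only [hc1, hr, htR, hcon]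
        nlinarith only [hr, htR, h3]
      nlinarith only [ht0, h1]
  rcases key with h | ⟨h, hc2⟩
  · have : 2 * Real.pi * (t * (3 / 10 * R - 1)) ≤ 2 * Real.pi * (6 / 1000) := by
      apply mul_le_mul_of_nonneg_left h (by positivity)
    nlinarith only [hc1, hpi', l1, l2, this]
  · have : 2 * Real.pi * (t * (3 / 10 * R - 1)) ≤ 2 * Real.pi * (9 / 1000) := by
      apply mul_le_mul_of_nonneg_left h (by positivity)
    nlinarith

theorem PG_FG (r : ℝ) (A : Finset (Fin m)) (hA : A.Nonempty) (hr : 10 * (A.card : ℝ) ≤ |r|)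
    (Y : ℝ) (hY : 0 < Y) (hY' : Y ≤ 3 / 10 * A.card / r ^ 2) :
    ∃ C : ℝ, 0 < C ∧ ∃ D : ℕ, ∀ (M k1 k2 l1 l2 : ℕ) (k : Fin m → ℕ), Win 2 M k1 k2 l1 l2 →
    (∀ j ∈ A, k1 ≤ k j ∧ k j ≤ k2) →
    (∏ j ∈ A, S M (k j) ^ 2) *
      ‖PG r M A (fun j => ((yk 2 M (k j) : ℝ) : ℂ)) (rho 2 M l2) Y -
        FG r M A (fun j => ((yk 2 M (k j) : ℝ) : ℂ)) (rho 2 M l2) Y‖ ≤
      C * (M : ℝ) ^ D * Real.exp (M * (4 * A.card * Fr (3 / 4) - 20 / 1000)) := by
  obtain ⟨C1, hC1, hQ⟩ := KBN_Qo_bound 2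
  obtain ⟨C2, hC2, hS⟩ := SideG_S 2 le_rfl
  have hc : 1 ≤ A.card := hA.card_pos
  have hc1 : (1 : ℝ) ≤ A.card := by exact_mod_cast hc
  have hR : (10 : ℝ) ≤ |r| := by linarith
  have hR2 : (100 : ℝ) ≤ r ^ 2 := by
    rw [← sq_abs]
    nlinarith
  have hY3 : Y ≤ 3 / 1000 := by
    refine hY'.trans ?_
    rw [div_le_iff₀ (by positivity)]
    have h1 : r ^ 2 = |r| * |r| := by rw [← sq_abs, sq]
    rw [h1]
    nlinarith only [hr, hc1]
  refine ⟨2 * Y * (2 * Real.exp (2 * Real.pi * (1 / 10))) * C1 ^ A.card * Real.exp 2 ^ A.card,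
    by positivity, ⌈2 * C2⌉₊ * A.card, fun M k1 k2 l1 l2 k hw hk => ?_⟩
  obtain ⟨f1, f2, f3, f4, f5, f6, f7⟩ := win_facts 2 M k1 k2 l1 l2 le_rfl hw
  have hMbig : 1000 * (2 + 1) ≤ M := hw.big
  have hMpos : 0 < M := by omega
  have hM0 : (0 : ℝ) < M := by exact_mod_cast hMpos
  have hM1 : (1 : ℝ) ≤ M := by exact_mod_cast hMpos
  set y : Fin m → ℂ := fun j => ((yk 2 M (k j) : ℝ) : ℂ) with hy
  set ρ : ℝ := rho 2 M l2 with hρ
  have f8 : ∀ j ∈ A, |yk 2 M (k j) - 1 / 4| ≤ 55 / 1000 := fun j hj =>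
    (f3 (k j) (hk j hj).1 (hk j hj).2).1
  set E : ℝ := 4 * A.card * Fr (3 / 4) - 20 / 1000 - ∑ j ∈ A, 2 * Fr (yk 2 M (k j) + 1 / 2) with hE
  -- the bound on a vertical side
  have side : ∀ σ : ℝ, (σ = ρ ∨ σ = -ρ) → ∀ t : ℝ, 0 ≤ t → t ≤ Y →
      ‖KG r M A y ((σ : ℂ) + t * I) * om 2 M ((σ : ℂ) + t * I) * I‖ ≤
        2 * Real.exp (2 * Real.pi * (1 / 10)) * C1 ^ A.card * Real.exp (M * E) := by
    intro σ hσ t ht0 ht1
    have hom : ‖om 2 M ((σ : ℂ) + t * I)‖ ≤ Real.exp (-(2 * Real.pi * M * t)) := by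
      obtain ⟨o1, o2, -, -⟩ := om_side 2 M l1 l2 hMpos hw.hl t ρ rfl
      rcases hσ with h | h
      · rw [h]; exact o1
      · rw [h, Complex.ofReal_neg]; exact o2
    have hσabs : |σ| = ρ := by
      have : 0 ≤ ρ := by linarith only [f6]
      rcases hσ with h | h
      · rw [h, abs_of_nonneg this]
      · rw [h, abs_neg, abs_of_nonneg this]
    have hσ1 : -ρ ≤ σ := by rw [← hσabs]; exact neg_abs_le σ
    have hσ2 : σ ≤ ρ := by rw [← hσabs]; exact le_abs_self σ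
    have hre : ((σ : ℂ) + t * I).re = σ := by simp
    have him : ((σ : ℂ) + t * I).im = t := by simp
    have hQj : ∀ j ∈ A, ‖Qo 2 M (some (y j)) ((σ : ℂ) + t * I)‖ ≤
        C1 * Real.exp (M * (4 * Fr (3 / 4) - 60 / 1000 - 2 * Fr (yk 2 M (k j) + 1 / 2))) := by
      intro j hj
      have g8 := f8 j hj
      rw [abs_le] at g8
      have h1 := hQ M (by omega) (some (y j)) ((σ : ℂ) + t * I) (by
        intro z hz
        have hz' : z = y j := (Option.mem_some_iff.mp hz).symm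
        have hz1 : z.re = yk 2 M (k j) := by rw [hz', hy, Complex.ofReal_re]
        have hz3 : z.im = 0 := by rw [hz', hy, Complex.ofReal_im]
        have w1 : (z - ((σ : ℂ) + t * I)).re = z.re - σ := by
          rw [Complex.sub_re, hre]
        have w2 : (z + ((σ : ℂ) + t * I)).re = z.re + σ := by
          rw [Complex.add_re, hre]
        rw [w1, w2, hz3, abs_zero, hz1]
        refine ⟨by linarith only [f7, hσ2, g8], by linarith only [hY, f7, hσ1, g8], by linarith, by linarith only [f7, hσ2, g8], by norm_num⟩)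
        (by rw [him, abs_of_nonneg ht0]; linarith only [hY3, ht1])
      have h2 := SideG_slot (yk 2 M (k j)) t σ (f8 j hj) (by rw [hσabs]; exact f6)
        (by rw [hσabs]; linarith) ht0 (ht1.trans hY3)
      refine h1.trans ?_
      have h3 : C1 / M ≤ C1 := div_le_self hC1.le hM1
      have h4 : (po (some (y j)) ((σ : ℂ) + t * I)).re ≤
          4 * Fr (3 / 4) - 60 / 1000 - 2 * Fr (yk 2 M (k j) + 1 / 2) := by
        rw [hy]
        linarith only [h2]
      gcongr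
    have hprod : ‖∏ j ∈ A, Qo 2 M (some (y j)) ((σ : ℂ) + t * I)‖ ≤ C1 ^ A.card *
        Real.exp (M * (∑ j ∈ A, (4 * Fr (3 / 4) - 60 / 1000 - 2 * Fr (yk 2 M (k j) + 1 / 2)))) := by
      rw [_root_.norm_prod]
      refine (Finset.prod_le_prod (fun j _ => norm_nonneg _) hQj).trans (le_of_eq ?_)
      rw [Finset.prod_mul_distrib, Finset.prod_const, ← Real.exp_sum, Finset.mul_sum]
    have hs : ‖2 * Complex.sin (2 * Real.pi * ((σ : ℂ) + t * I))‖ ≤
        2 * Real.exp (2 * Real.pi * (1 / 10)) := by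
      rw [norm_mul]
      have h2 : ‖(2 : ℂ)‖ = 2 := by simp
      rw [h2]
      refine mul_le_mul_of_nonneg_left ((KB_norm_sin_le _).trans (Real.exp_le_exp.2 ?_))
        (by norm_num)
      have h7 : (2 * (Real.pi : ℂ) * ((σ : ℂ) + t * I)).im = 2 * Real.pi * t := by
        have : (2 * (Real.pi : ℂ)) = ((2 * Real.pi : ℝ) : ℂ) := by push_cast; ring
        rw [this, Complex.im_ofReal_mul, him]
      rw [h7, abs_of_nonneg (by positivity)]
      exact mul_le_mul_of_nonneg_left (by linarith only [hY3, ht1]) (by positivity)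
    have hex : ‖exp (2 * Real.pi * I * r * M * ((σ : ℂ) + t * I) ^ 2)‖ =
        Real.exp (M * (-4 * Real.pi * r * σ * t)) := by
      rw [Complex.norm_exp]
      congr 1
      have h9 : (2 * Real.pi * I * r * M * ((σ : ℂ) + t * I) ^ 2 : ℂ) =
          ((M * (-4 * Real.pi * r * σ * t) : ℝ) : ℂ) +
            ((M * (2 * Real.pi * r * (σ ^ 2 - t ^ 2)) : ℝ) : ℂ) * I := by
        push_cast
        linear_combination (4 * (Real.pi : ℂ) * r * M * σ * t +
          2 * Real.pi * r * M * t ^ 2 * I) * I_sq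
      rw [h9, Complex.add_re, Complex.ofReal_re, Complex.re_ofReal_mul, Complex.I_re, mul_zero,
        add_zero]
    have hph := SideG_phase r σ ρ t Y A.card hc hr hσabs (by linarith only [f7]) ht0 ht1 hY'
    rw [norm_mul, norm_mul, Complex.norm_I, mul_one]
    unfold KG
    rw [norm_mul, norm_mul, hex]
    calc Real.exp (M * (-4 * Real.pi * r * σ * t)) *
          ‖2 * Complex.sin (2 * Real.pi * ((σ : ℂ) + t * I))‖ *
          ‖∏ j ∈ A, Qo 2 M (some (y j)) ((σ : ℂ) + t * I)‖ * ‖om 2 M ((σ : ℂ) + t * I)‖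
        ≤ Real.exp (M * (-4 * Real.pi * r * σ * t)) * (2 * Real.exp (2 * Real.pi * (1 / 10))) *
          (C1 ^ A.card * Real.exp (M * (∑ j ∈ A, (4 * Fr (3 / 4) - 60 / 1000 -
            2 * Fr (yk 2 M (k j) + 1 / 2))))) * Real.exp (-(2 * Real.pi * M * t)) := by
          gcongr
      _ = 2 * Real.exp (2 * Real.pi * (1 / 10)) * C1 ^ A.card *
          (Real.exp (M * (-4 * Real.pi * r * σ * t)) *
            Real.exp (M * (∑ j ∈ A, (4 * Fr (3 / 4) - 60 / 1000 -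
              2 * Fr (yk 2 M (k j) + 1 / 2)))) * Real.exp (-(2 * Real.pi * M * t))) := by ring
      _ ≤ _ := by
          rw [← Real.exp_add, ← Real.exp_add]
          refine mul_le_mul_of_nonneg_left (Real.exp_le_exp.2 ?_) (by positivity)
          rw [hE, Finset.sum_sub_distrib, Finset.sum_const, nsmul_eq_mul]
          have h0 : (M : ℝ) * (-4 * Real.pi * r * σ * t - 2 * Real.pi * t - 60 / 1000 * A.card) ≤
              M * (-(20 / 1000)) := mul_le_mul_of_nonneg_left hph hM0.le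
          nlinarith only [h0]
  set B : ℝ := 2 * Real.exp (2 * Real.pi * (1 / 10)) * C1 ^ A.card * Real.exp (M * E) with hB
  have hB0 : 0 ≤ B := by positivity
  have i1 : ‖∫ t in (0 : ℝ)..Y, KG r M A y (-(ρ : ℂ) + t * I) *
      om 2 M (-(ρ : ℂ) + t * I) * I‖ ≤ B * |Y - 0| := by
    apply intervalIntegral.norm_integral_le_of_norm_le_const
    intro t ht
    rw [Set.uIoc_of_le hY.le] at ht
    have := side (-ρ) (Or.inr rfl) t ht.1.le ht.2
    rwa [Complex.ofReal_neg] at this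
  have i2 : ‖∫ t in (0 : ℝ)..Y, KG r M A y ((ρ : ℂ) + t * I) *
      om 2 M ((ρ : ℂ) + t * I) * I‖ ≤ B * |Y - 0| := by
    apply intervalIntegral.norm_integral_le_of_norm_le_const
    intro t ht
    rw [Set.uIoc_of_le hY.le] at ht
    exact side ρ (Or.inl rfl) t ht.1.le ht.2
  rw [sub_zero, abs_of_pos hY] at i1 i2
  have hdiff : PG r M A y ρ Y - FG r M A y ρ Y =
      (∫ t in (0 : ℝ)..Y, KG r M A y (-(ρ : ℂ) + t * I) * om 2 M (-(ρ : ℂ) + t * I) * I) -
      ∫ t in (0 : ℝ)..Y, KG r M A y ((ρ : ℂ) + t * I) * om 2 M ((ρ : ℂ) + t * I) * I := by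
    unfold PG FG VC3.Path
    ring
  have hPF : ‖PG r M A y ρ Y - FG r M A y ρ Y‖ ≤ 2 * Y * B := by
    rw [hdiff]
    refine (norm_sub_le _ _).trans ?_
    linarith
  -- the size of `S`
  have hSp : ∏ j ∈ A, S M (k j) ^ 2 ≤ ((M : ℝ) ^ (⌈2 * C2⌉₊ * A.card) * (Real.exp 2 ^ A.card *
      Real.exp (M * ∑ j ∈ A, 2 * Fr (yk 2 M (k j) + 1 / 2)))) := by
    refine (Finset.prod_le_prod (fun j _ => by positivity) fun j hj =>
      hS M k1 k2 l1 l2 (k j) hw (hk j hj).1 (hk j hj).2).trans (le_of_eq ?_)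
    rw [Finset.prod_mul_distrib, Finset.prod_mul_distrib, Finset.prod_const, Finset.prod_const,
      ← Real.exp_sum, Finset.mul_sum, ← pow_mul]
    norm_num
  calc (∏ j ∈ A, S M (k j) ^ 2) * ‖PG r M A y ρ Y - FG r M A y ρ Y‖
      ≤ ((M : ℝ) ^ (⌈2 * C2⌉₊ * A.card) * (Real.exp 2 ^ A.card *
          Real.exp (M * ∑ j ∈ A, 2 * Fr (yk 2 M (k j) + 1 / 2)))) * (2 * Y * B) :=
        mul_le_mul hSp hPF (norm_nonneg _) (by positivity)
    _ = 2 * Y * (2 * Real.exp (2 * Real.pi * (1 / 10))) * C1 ^ A.card * Real.exp 2 ^ A.card *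
        (M : ℝ) ^ (⌈2 * C2⌉₊ * A.card) *
        (Real.exp (M * ∑ j ∈ A, 2 * Fr (yk 2 M (k j) + 1 / 2)) * Real.exp (M * E)) := by
        rw [hB]; ring
    _ = _ := by
        rw [← Real.exp_add, ← mul_add, hE]
        congr 3
        ring

end Pool.Agent.H63.VC7
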