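import Pool.Agent.H63.VC7.DGb
import Pool.Agent.H63.VC7.SideG

/-! # The approximation of the factor of a node -/

namespace Pool.Agent.H63.VC7

open Pool.Agent.H63.VC hiding ext
open Pool.Agent.H63.VC3 Pool.Agent.H63.VC4 Pool.Agent.H63.VC6 Complex

variable {m p : ℕ}

theorem RegG_mono {M : ℕ} (hM : 1 ≤ M) {C C' a E E' : ℝ} {D D' : ℕ} (hC : 0 ≤ C)
    (hCC : C ≤ C') (hDD : D ≤ D') (hE : 0 ≤ E) (hEE : E ≤ E')
    (h : a ≤ C * (M : ℝ) ^ D * E) : a ≤ C' * (M : ℝ) ^ D' * E' := by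
  have hM' : (1 : ℝ) ≤ M := by exact_mod_cast hM
  refine h.trans (mul_le_mul (mul_le_mul hCC (pow_le_pow_right₀ hM' hDD) (by positivity)
    (hC.trans hCC)) hEE hE ?_)
  exact mul_nonneg (hC.trans hCC) (by positivity)

theorem RegG_eo_le (M k : ℕ) : eo M (some k) ≤ 4 * Fr (3 / 4) := by
  show 4 * Fr (3 / 4) - (if 53 / 1000 ≤ |(k : ℝ) / M - 3 / 4| then 17 / 1000 else 0) ≤
    4 * Fr (3 / 4)
  split_ifs <;> linarith

theorem RegG_eo_out (M k : ℕ) (h : 53 / 1000 ≤ |(k : ℝ) / M - 3 / 4|) :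
    eo M (some k) = 4 * Fr (3 / 4) - 17 / 1000 := by
  show 4 * Fr (3 / 4) - (if 53 / 1000 ≤ |(k : ℝ) / M - 3 / 4| then 17 / 1000 else 0) =
    4 * Fr (3 / 4) - 17 / 1000
  rw [if_pos h]

theorem RegG_sum (M : ℕ) (A : Finset (Fin m)) (k : Fin m → ℕ) (j₀ : Fin m) (hj : j₀ ∈ A)
    (h : 53 / 1000 ≤ |(k j₀ : ℝ) / M - 3 / 4|) :
    ∑ j ∈ A, eo M (some (k j)) ≤ 4 * A.card * Fr (3 / 4) - 17 / 1000 := by
  rw [← Finset.add_sum_erase A _ hj, RegG_eo_out M (k j₀) h]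
  have e2 : ∑ j ∈ A.erase j₀, eo M (some (k j)) ≤ ∑ _j ∈ A.erase j₀, 4 * Fr (3 / 4) :=
    Finset.sum_le_sum fun j _ => RegG_eo_le M (k j)
  rw [Finset.sum_const, nsmul_eq_mul] at e2
  have e3 : ((A.erase j₀).card : ℝ) = A.card - 1 := by
    have h1 := Finset.card_erase_add_one hj
    have h2 : ((A.erase j₀).card : ℝ) + 1 = A.card := by exact_mod_cast h1
    linarith
  rw [e3] at e2
  have e4 : ((A.card : ℝ) - 1) * (4 * Fr (3 / 4)) =
      4 * A.card * Fr (3 / 4) - 4 * Fr (3 / 4) := by ring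
  rw [e4] at e2
  linarith

theorem DG_GD (r : ℝ) (A : Finset (Fin m)) (hA : A.Nonempty) (hr : 10 * (A.card : ℝ) ≤ |r|)
    (Y : ℝ) (hY : 0 < Y) (hY' : Y ≤ 3 / 10 * A.card / r ^ 2) :
    ∃ C : ℝ, 0 < C ∧ ∃ D : ℕ, ∀ (M k1 k2 l1 l2 : ℕ) (k : Fin m → ℕ), Win 2 M k1 k2 l1 l2 →
    (∀ j ∈ A, k j < M) →
    (∏ j ∈ A, S M (k j) ^ 2) * ‖DG r M A k - GD r Y M k1 k2 l2 A k‖ ≤
      C * (M : ℝ) ^ D * Real.exp (M * (4 * A.card * Fr (3 / 4) - 17 / 1000)) := by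
  obtain ⟨C1, hC1, D1, h1⟩ := DG_PG r A hA Y hY
  obtain ⟨C2, hC2, D2, h2⟩ := PG_FG r A hA hr Y hY hY'
  obtain ⟨C3, hC3, D3, h3⟩ := DG_bound r A
  have hpi := Real.pi_pos
  refine ⟨C1 + 4 * Real.pi * C2 + C3, by positivity, D1 + (D2 + 2) + D3, ?_⟩
  intro M k1 k2 l1 l2 k hwin hk
  obtain ⟨f1, f2, f3, f4, f5, f6, f7⟩ := win_facts 2 M k1 k2 l1 l2 le_rfl hwin
  have hM : 2 ≤ M := by have := hwin.big; omega
  have hM0 : (0 : ℝ) ≤ M := Nat.cast_nonneg _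
  have hP : 0 ≤ ∏ j ∈ A, S M (k j) ^ 2 := Finset.prod_nonneg fun j _ => sq_nonneg _
  have hexp : ∀ t : ℝ, 17 / 1000 ≤ t →
      Real.exp (M * (4 * A.card * Fr (3 / 4) - t)) ≤
        Real.exp (M * (4 * A.card * Fr (3 / 4) - 17 / 1000)) := by
    intro t ht
    apply Real.exp_le_exp.2
    apply mul_le_mul_of_nonneg_left _ hM0
    linarith
  by_cases hin : ∀ j ∈ A, k1 ≤ k j ∧ k j ≤ k2
  · have e1 := h1 M k1 k2 l1 l2 k hwin hin
    have e2 := h2 M k1 k2 l1 l2 k hwin hin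
    set y : Fin m → ℂ := fun j => ((yk 2 M (k j) : ℝ) : ℂ) with hy
    have eG : GD r Y M k1 k2 l2 A k = -(4 * Real.pi * I * M ^ 2) *
        FG r M A y (rho 2 M l2) Y := if_pos hin
    have eq1 : DG r M A k - GD r Y M k1 k2 l2 A k =
        (DG r M A k + 4 * Real.pi * I * M ^ 2 * PG r M A y (rho 2 M l2) Y) -
          4 * Real.pi * I * M ^ 2 * (PG r M A y (rho 2 M l2) Y - FG r M A y (rho 2 M l2) Y) := by
      rw [eG]; ring
    have n1 : ‖(4 * Real.pi * I * M ^ 2 : ℂ)‖ = 4 * Real.pi * (M : ℝ) ^ 2 := by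
      rw [norm_mul, norm_mul, norm_mul, norm_I, norm_pow, Complex.norm_natCast,
        Complex.norm_real, Real.norm_eq_abs, abs_of_pos hpi]
      norm_num
    have n2 : ‖DG r M A k - GD r Y M k1 k2 l2 A k‖ ≤
        ‖DG r M A k + 4 * Real.pi * I * M ^ 2 * PG r M A y (rho 2 M l2) Y‖ +
          4 * Real.pi * (M : ℝ) ^ 2 *
            ‖PG r M A y (rho 2 M l2) Y - FG r M A y (rho 2 M l2) Y‖ := by
      rw [eq1]
      refine (norm_sub_le _ _).trans ?_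
      rw [norm_mul (4 * Real.pi * I * M ^ 2 : ℂ), n1]
    have b1 := RegG_mono (C' := C1) (D' := D1 + (D2 + 2) + D3) (by omega : 1 ≤ M) hC1.le le_rfl
      (by omega) (Real.exp_pos _).le (hexp (40 / 1000) (by norm_num)) e1
    have e2' : (∏ j ∈ A, S M (k j) ^ 2) * (4 * Real.pi * (M : ℝ) ^ 2 *
        ‖PG r M A y (rho 2 M l2) Y - FG r M A y (rho 2 M l2) Y‖) ≤
        (4 * Real.pi * C2) * (M : ℝ) ^ (D2 + 2) *
          Real.exp (M * (4 * A.card * Fr (3 / 4) - 20 / 1000)) := by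
      calc (∏ j ∈ A, S M (k j) ^ 2) * (4 * Real.pi * (M : ℝ) ^ 2 *
          ‖PG r M A y (rho 2 M l2) Y - FG r M A y (rho 2 M l2) Y‖)
          = (4 * Real.pi * (M : ℝ) ^ 2) * ((∏ j ∈ A, S M (k j) ^ 2) *
            ‖PG r M A y (rho 2 M l2) Y - FG r M A y (rho 2 M l2) Y‖) := by ring
        _ ≤ (4 * Real.pi * (M : ℝ) ^ 2) * (C2 * (M : ℝ) ^ D2 *
            Real.exp (M * (4 * A.card * Fr (3 / 4) - 20 / 1000))) :=
          mul_le_mul_of_nonneg_left e2 (by positivity)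
        _ = _ := by rw [pow_add]; ring
    have b2 := RegG_mono (C' := 4 * Real.pi * C2) (D' := D1 + (D2 + 2) + D3)
      (by omega : 1 ≤ M) (by positivity) le_rfl (by omega) (Real.exp_pos _).le
      (hexp (20 / 1000) (by norm_num)) e2'
    calc (∏ j ∈ A, S M (k j) ^ 2) * ‖DG r M A k - GD r Y M k1 k2 l2 A k‖
        ≤ (∏ j ∈ A, S M (k j) ^ 2) *
          (‖DG r M A k + 4 * Real.pi * I * M ^ 2 * PG r M A y (rho 2 M l2) Y‖ +
          4 * Real.pi * (M : ℝ) ^ 2 *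
            ‖PG r M A y (rho 2 M l2) Y - FG r M A y (rho 2 M l2) Y‖) :=
          mul_le_mul_of_nonneg_left n2 hP
      _ ≤ C1 * (M : ℝ) ^ (D1 + (D2 + 2) + D3) *
            Real.exp (M * (4 * A.card * Fr (3 / 4) - 17 / 1000)) +
          (4 * Real.pi * C2) * (M : ℝ) ^ (D1 + (D2 + 2) + D3) *
            Real.exp (M * (4 * A.card * Fr (3 / 4) - 17 / 1000)) := by
          rw [mul_add]
          exact add_le_add b1 b2
      _ ≤ (C1 + 4 * Real.pi * C2 + C3) * (M : ℝ) ^ (D1 + (D2 + 2) + D3) *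
            Real.exp (M * (4 * A.card * Fr (3 / 4) - 17 / 1000)) := by
          have h5 : 0 ≤ C3 * (M : ℝ) ^ (D1 + (D2 + 2) + D3) *
            Real.exp (M * (4 * A.card * Fr (3 / 4) - 17 / 1000)) := by positivity
          rw [add_mul, add_mul, add_mul, add_mul]
          linarith
  · have eG : GD r Y M k1 k2 l2 A k = 0 := if_neg hin
    rw [eG, sub_zero]
    push Not at hin
    obtain ⟨j₀, hj₀, hj₀'⟩ := hin
    have e3 := h3 M k hM hk
    have hs := RegG_sum M A k j₀ hj₀ (f4 (k j₀) (by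
      by_cases hlt : k j₀ < k1
      · exact Or.inl hlt
      · exact Or.inr (hj₀' (not_lt.1 hlt))))
    refine RegG_mono (by omega : 1 ≤ M) hC3.le ?_ (by omega) (Real.exp_pos _).le ?_ e3
    · have : 0 ≤ C1 + 4 * Real.pi * C2 := by positivity
      linarith
    · apply Real.exp_le_exp.2
      exact mul_le_mul_of_nonneg_left hs hM0

end Pool.Agent.H63.VC7
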