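import Pool.Agent.H63.VC7.ExpandG
import Pool.Agent.H63.VC7.MainPart

/-! # The invariant and the main integral -/

namespace Pool.Agent.H63.VC7

open Pool.Agent.H63.VC hiding ext
open Pool.Agent.H63.VC3 Pool.Agent.H63.VC4 Pool.Agent.H63.VC6 Complex

variable {m p : ℕ} {s t : Fin m → Fin p} {r : Fin p → ℝ} {y : Fin m → ℂ} {v : Fin p → ℂ}

/-- The expansion over the sets of bad nodes. -/
theorem JGmain_expand (s t : Fin m → Fin p) (r : Fin p → ℝ) (M : ℕ)
    (G : Fin p → (Fin m → ℕ) → ℂ) :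
    JG s t r M = ∑ B : Finset (Fin p),
      ∑ k ∈ Fintype.piFinset (fun _ : Fin m => Finset.range M),
        (∏ j, Cc 2 1 M (yk 2 M (k j))) *
          ((∏ i ∈ Bᶜ, G i k) * ∏ i ∈ B, (DG (r i) M (inc s t i) k - G i k)) := by
  rw [Finset.sum_comm]
  unfold JG
  refine Finset.sum_congr rfl fun k _ => ?_
  rw [← Finset.mul_sum]
  congr 1
  have e : ∏ i, DG (r i) M (inc s t i) k =
      ∏ i, ((DG (r i) M (inc s t i) k - G i k) + G i k) :=
    Finset.prod_congr rfl fun i _ => by ring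
  rw [e, Finset.prod_add, Finset.powerset_univ]
  refine Finset.sum_congr rfl fun B _ => ?_
  rw [← Finset.compl_eq_univ_sdiff, mul_comm]

theorem JG_main (hc : CritG s t r y v) :
    ∃ C : ℝ, 0 < C ∧ ∃ D M0 : ℕ, ∀ M k1 k2 l1 l2 : ℕ, M0 ≤ M → Win 2 M k1 k2 l1 l2 →
    ‖JG s t r M - (-(4 * Real.pi * I * M ^ 2)) ^ p * ((M : ℂ) ^ m * MG s t r M
        (fun j => (y j).im) (fun i => (v i).im) ((k1 + bt 2) / M - 1 / 2)
        ((k2 + 1 + bt 2) / M - 1 / 2) (rho 2 M l2))‖ ≤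
      C * (M : ℝ) ^ D * Real.exp (M * ((VG s t r y v).re - 1 / 500)) := by
  obtain ⟨C0, hC0, D0, M0, h0⟩ := main_part hc
  have hB : ∀ B : Finset (Fin p), ∃ C : ℝ, 0 < C ∧ ∃ D M1 : ℕ, B.Nonempty →
      ∀ M k1 k2 l1 l2 : ℕ, M1 ≤ M → Win 2 M k1 k2 l1 l2 →
      ‖∑ k ∈ Fintype.piFinset (fun _ : Fin m => Finset.range M),
        (∏ j, Cc 2 1 M (yk 2 M (k j))) *
          ((∏ i ∈ Bᶜ, GD (r i) (v i).im M k1 k2 l2 (inc s t i) k) *
            ∏ i ∈ B, (DG (r i) M (inc s t i) k -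
              GD (r i) (v i).im M k1 k2 l2 (inc s t i) k))‖ ≤
      C * (M : ℝ) ^ D * Real.exp (M * ((VG s t r y v).re - 1 / 500)) := by
    intro B
    by_cases h : B.Nonempty
    · obtain ⟨C, hC, D, M1, h1⟩ := expand_term hc B h
      exact ⟨C, hC, D, M1, fun _ => h1⟩
    · exact ⟨1, one_pos, 0, 0, fun h' => absurd h' h⟩
  choose CB hCB DB MB hB' using hB
  refine ⟨C0 + ∑ B, CB B, ?_, D0 + ∑ B, DB B, M0 + (∑ B, MB B) + 1,
    fun M k1 k2 l1 l2 hM hwin => ?_⟩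
  · have : 0 ≤ ∑ B, CB B := Finset.sum_nonneg fun B _ => (hCB B).le
    linarith
  have hM1 : (1 : ℝ) ≤ M := by exact_mod_cast (by omega : 1 ≤ M)
  have hM00 : (0 : ℝ) < M := by linarith
  set E : ℝ := Real.exp (M * ((VG s t r y v).re - 1 / 500)) with hE
  have hE0 : 0 < E := Real.exp_pos _
  have hDB : ∀ B, DB B ≤ ∑ B, DB B := fun B =>
    Finset.single_le_sum (f := DB) (fun _ _ => Nat.zero_le _) (Finset.mem_univ B)
  have hMB : ∀ B, MB B ≤ ∑ B, MB B := fun B =>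
    Finset.single_le_sum (f := MB) (fun _ _ => Nat.zero_le _) (Finset.mem_univ B)
  set T : Finset (Fin p) → ℂ := fun B =>
    ∑ k ∈ Fintype.piFinset (fun _ : Fin m => Finset.range M),
        (∏ j, Cc 2 1 M (yk 2 M (k j))) *
          ((∏ i ∈ Bᶜ, GD (r i) (v i).im M k1 k2 l2 (inc s t i) k) *
            ∏ i ∈ B, (DG (r i) M (inc s t i) k -
              GD (r i) (v i).im M k1 k2 l2 (inc s t i) k)) with hT
  have hexp : JG s t r M = ∑ B, T B :=
    JGmain_expand s t r M (fun i k => GD (r i) (v i).im M k1 k2 l2 (inc s t i) k)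
  have hT0 : T ∅ = ∑ k ∈ Fintype.piFinset (fun _ : Fin m => Finset.range M),
        (∏ j, Cc 2 1 M (yk 2 M (k j))) *
          ∏ i, GD (r i) (v i).im M k1 k2 l2 (inc s t i) k := by
    simp only [hT, Finset.prod_empty, mul_one, Finset.compl_empty]
  have h0' := h0 M k1 k2 l1 l2 (by omega) hwin
  rw [← hT0, ← hE] at h0'
  have hsplit : ∑ B, T B = T ∅ + ∑ B ∈ Finset.univ.erase ∅, T B :=
    (Finset.add_sum_erase _ _ (Finset.mem_univ _)).symm
  rw [hexp, hsplit, add_sub_right_comm]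
  have hrest : ‖∑ B ∈ Finset.univ.erase ∅, T B‖ ≤
      (∑ B, CB B) * (M : ℝ) ^ (D0 + ∑ B, DB B) * E := by
    refine (norm_sum_le _ _).trans ?_
    have e1 : ∀ B ∈ Finset.univ.erase (∅ : Finset (Fin p)),
        ‖T B‖ ≤ CB B * (M : ℝ) ^ (D0 + ∑ B, DB B) * E := by
      intro B hBe
      have hne : B.Nonempty := Finset.nonempty_iff_ne_empty.2 (Finset.ne_of_mem_erase hBe)
      refine (hB' B hne M k1 k2 l1 l2 (by have := hMB B; omega) hwin).trans ?_
      refine mul_le_mul_of_nonneg_right ?_ hE0.le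
      refine mul_le_mul_of_nonneg_left ?_ (hCB B).le
      exact pow_le_pow_right₀ hM1 (by have := hDB B; omega)
    refine (Finset.sum_le_sum e1).trans ?_
    rw [← Finset.sum_mul, ← Finset.sum_mul]
    refine mul_le_mul_of_nonneg_right (mul_le_mul_of_nonneg_right ?_ (by positivity)) hE0.le
    exact Finset.sum_le_sum_of_subset_of_nonneg (Finset.erase_subset _ _)
      fun B _ _ => (hCB B).le
  have hmain : C0 * (M : ℝ) ^ D0 * E ≤ C0 * (M : ℝ) ^ (D0 + ∑ B, DB B) * E := by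
    refine mul_le_mul_of_nonneg_right ?_ hE0.le
    refine mul_le_mul_of_nonneg_left ?_ hC0.le
    exact pow_le_pow_right₀ hM1 (by omega)
  calc _ ≤ C0 * (M : ℝ) ^ (D0 + ∑ B, DB B) * E +
        (∑ B, CB B) * (M : ℝ) ^ (D0 + ∑ B, DB B) * E :=
        (norm_add_le _ _).trans (add_le_add (h0'.trans hmain) hrest)
    _ = _ := by ring

end Pool.Agent.H63.VC7
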