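import Pool.Agent.H63.VC6.Multi

/-! # Sums over the free variables -/

namespace Pool.Agent.H63.VC7

open Pool.Agent.H63.VC hiding ext
open Pool.Agent.H63.VC3 Pool.Agent.H63.VC4 Pool.Agent.H63.VC6 Complex

variable {m p : ℕ}

open Classical in
/-- The values of the variables: fixed ones in `E`. -/
noncomputable def mixv (E : Finset (Fin m)) (x z : Fin m → ℂ) : Fin m → ℂ :=
  fun j => if j ∈ E then x j else z j

/-- the indices outside `E` -/
abbrev MixG_Q (E : Finset (Fin m)) : Type := {j : Fin m // j ∉ E}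

/-- extension of a point of the free variables -/
noncomputable def MixG_ext (E : Finset (Fin m)) (x : Fin m → ℂ)
    (z' : Fin (Fintype.card (MixG_Q E)) → ℂ) : Fin m → ℂ :=
  fun j => if h : j ∈ E then x j else z' (Fintype.equivFin (MixG_Q E) ⟨j, h⟩)

theorem MixG_ext_mem (E : Finset (Fin m)) (x : Fin m → ℂ)
    (z' : Fin (Fintype.card (MixG_Q E)) → ℂ) (j : Fin m) (h : j ∈ E) :
    MixG_ext E x z' j = x j := dif_pos h

theorem MixG_ext_notMem (E : Finset (Fin m)) (x : Fin m → ℂ)
    (z' : Fin (Fintype.card (MixG_Q E)) → ℂ) (j : Fin m) (h : j ∉ E) :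
    MixG_ext E x z' j = z' (Fintype.equivFin (MixG_Q E) ⟨j, h⟩) := dif_neg h

theorem MixG_ext_symm (E : Finset (Fin m)) (x : Fin m → ℂ)
    (z' : Fin (Fintype.card (MixG_Q E)) → ℂ) (i : Fin (Fintype.card (MixG_Q E))) :
    MixG_ext E x z' ((Fintype.equivFin (MixG_Q E)).symm i).1 = z' i := by
  rw [MixG_ext_notMem _ _ _ _ ((Fintype.equivFin (MixG_Q E)).symm i).2]
  simp

theorem MixG_ext_update (E : Finset (Fin m)) (x : Fin m → ℂ)
    (z' : Fin (Fintype.card (MixG_Q E)) → ℂ) (i : Fin (Fintype.card (MixG_Q E))) (w : ℂ) :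
    MixG_ext E x (Function.update z' i w) =
      Function.update (MixG_ext E x z') ((Fintype.equivFin (MixG_Q E)).symm i).1 w := by
  funext j
  by_cases hj : j = ((Fintype.equivFin (MixG_Q E)).symm i).1
  · subst hj
    rw [MixG_ext_symm, Function.update_self, Function.update_self]
  · rw [Function.update_of_ne hj]
    by_cases h : j ∈ E
    · rw [MixG_ext_mem _ _ _ _ h, MixG_ext_mem _ _ _ _ h]
    · rw [MixG_ext_notMem _ _ _ _ h, MixG_ext_notMem _ _ _ _ h, Function.update_of_ne]
      intro hEq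
      apply hj
      rw [← hEq]
      simp

theorem MixG_ext_continuous (E : Finset (Fin m)) (x : Fin m → ℂ) :
    Continuous (MixG_ext E x) := by
  refine continuous_pi ?_
  intro j
  by_cases h : j ∈ E
  · have : (fun z' => MixG_ext E x z' j) = fun _ => x j := by
      funext z'
      exact MixG_ext_mem _ _ _ _ h
    rw [this]
    exact continuous_const
  · have : (fun z' => MixG_ext E x z' j) =
        fun z' => z' (Fintype.equivFin (MixG_Q E) ⟨j, h⟩) := by
      funext z'
      exact MixG_ext_notMem _ _ _ _ h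
    rw [this]
    exact continuous_apply _

open Classical in
theorem MixG_prod (E : Finset (Fin m)) (f : Fin m → ℝ) :
    ∏ j ∈ Eᶜ, f j =
      ∏ i : Fin (Fintype.card (MixG_Q E)), f ((Fintype.equivFin (MixG_Q E)).symm i).1 := by
  have h1 : ∏ j ∈ Eᶜ, f j = ∏ q : MixG_Q E, f q.1 := by
    refine Finset.prod_subtype (Eᶜ) (p := fun j => j ∉ E) ?_ f
    intro j
    rw [Finset.mem_compl]
  rw [h1]
  exact (Equiv.prod_comp (Fintype.equivFin (MixG_Q E)).symm (fun q : MixG_Q E => f q.1)).symm

open Classical in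
theorem mix_bound (F : (Fin m → ℂ) → ℂ) (E : Finset (Fin m)) (κ : Fin m → ℕ) (x : Fin m → ℂ)
    (n M k1 k2 : ℕ) (η : ℝ) (Y : Fin m → ℝ)
    (hM : 0 < M) (hk : k1 ≤ k2) (hη : 0 < η) (hη' : η ≤ 1) (hY : ∀ j, |Y j| ≤ η)
    (hM' : 1 ≤ 2 * Real.pi * η * M) (y1 y2 : ℝ) (hy1 : y1 = (k1 + bt n) / M - 1 / 2)
    (hy2 : y2 = (k2 + 1 + bt n) / M - 1 / 2) (hy : y2 - y1 ≤ 1) (A : ℝ) (hA0 : 0 ≤ A)
    (hF : ∀ z : Fin m → ℂ, (∀ j, j ∉ E → y1 ≤ (z j).re ∧ (z j).re ≤ y2 ∧ |(z j).im| ≤ η) →
      (∀ j ∈ E, z j = x j) →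
      ContinuousAt F z ∧ ∀ j, j ∉ E → DifferentiableAt ℂ (fun w => F (Function.update z j w)) (z j))
    (hA : ∀ (σ : Fin m → Fin 3) (z : Fin m → ℂ), (∀ j, j ∉ E → Stt y1 y2 η (Y j) (σ j) (z j)) →
      (∀ j ∈ E, z j = x j) → ‖F z‖ ≤ A * ∏ j ∈ Eᶜ, dmp η M (σ j)) :
    ‖∑ k ∈ Fintype.piFinset (fun j : Fin m => if j ∈ E then {κ j} else Finset.Icc k1 k2),
      F (mixv E x (fun j => ((yk n M (k j) : ℝ) : ℂ)))‖ ≤ (18 * (M : ℝ)) ^ m * A := by
  have hA' : ∀ (σ' : Fin (Fintype.card (MixG_Q E)) → Fin 3)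
      (z' : Fin (Fintype.card (MixG_Q E)) → ℂ),
      (∀ i, Stt y1 y2 η (Y ((Fintype.equivFin (MixG_Q E)).symm i).1) (σ' i) (z' i)) →
      ‖F (MixG_ext E x z')‖ ≤ A * ∏ i, dmp η M (σ' i) := by
    intro σ' z' hz
    have h := hA (fun j => if h : j ∈ E then 0 else σ' (Fintype.equivFin (MixG_Q E) ⟨j, h⟩))
      (MixG_ext E x z') ?_ (fun j hj => MixG_ext_mem _ _ _ _ hj)
    · rw [MixG_prod] at h
      refine h.trans (le_of_eq ?_)
      congr 1
      refine Finset.prod_congr rfl ?_
      intro i _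
      rw [dif_neg ((Fintype.equivFin (MixG_Q E)).symm i).2]
      simp
    · intro j hj
      rw [dif_neg hj, MixG_ext_notMem _ _ _ _ hj]
      have := hz (Fintype.equivFin (MixG_Q E) ⟨j, hj⟩)
      simpa using this
  have key := (prodpath (fun z' => F (MixG_ext E x z')) n M k1 k2 η
    (fun i => Y ((Fintype.equivFin (MixG_Q E)).symm i).1) hM hk hη hη' (fun i => hY _) hM'
    y1 y2 hy1 hy2 hy A A hA0 hA0 ?_ hA' (fun σ' z' _ hz => hA' σ' z' hz)).1
  · have hsum : ∑ k ∈ Fintype.piFinset
        (fun j : Fin m => if j ∈ E then {κ j} else Finset.Icc k1 k2),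
        F (mixv E x (fun j => ((yk n M (k j) : ℝ) : ℂ))) =
        ∑ t ∈ Fintype.piFinset (fun _ : Fin (Fintype.card (MixG_Q E)) => Finset.Icc k1 k2),
          F (MixG_ext E x (fun i => ((yk n M (t i) : ℝ) : ℂ))) := by
      refine Finset.sum_bij'
        (fun k _ => fun i => k ((Fintype.equivFin (MixG_Q E)).symm i).1)
        (fun t _ => fun j => if h : j ∈ E then κ j
          else t (Fintype.equivFin (MixG_Q E) ⟨j, h⟩)) ?_ ?_ ?_ ?_ ?_
      · intro k hk
        rw [Fintype.mem_piFinset] at hk ⊢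
        intro i
        have := hk ((Fintype.equivFin (MixG_Q E)).symm i).1
        rwa [if_neg ((Fintype.equivFin (MixG_Q E)).symm i).2] at this
      · intro t ht
        rw [Fintype.mem_piFinset] at ht ⊢
        intro j
        by_cases h : j ∈ E
        · rw [if_pos h, dif_pos h]
          exact Finset.mem_singleton_self _
        · rw [if_neg h, dif_neg h]
          exact ht _
      · intro k hk
        rw [Fintype.mem_piFinset] at hk
        funext j
        by_cases h : j ∈ E
        · have := hk j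
          rw [if_pos h, Finset.mem_singleton] at this
          simp only [dif_pos h, this]
        · simp only [dif_neg h, Equiv.symm_apply_apply]
      · intro t _
        funext i
        have h := ((Fintype.equivFin (MixG_Q E)).symm i).2
        simp only [dif_neg h]
        simp
      · intro k _
        congr 1
        funext j
        unfold mixv
        by_cases h : j ∈ E
        · rw [if_pos h, MixG_ext_mem _ _ _ _ h]
        · rw [if_neg h, MixG_ext_notMem _ _ _ _ h]
          simp only [Equiv.symm_apply_apply]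
    rw [hsum]
    refine key.trans ?_
    refine mul_le_mul_of_nonneg_right ?_ hA0
    have hM1 : (1 : ℝ) ≤ (M : ℝ) := by exact_mod_cast hM
    refine pow_le_pow_right₀ (by linarith) ?_
    calc Fintype.card (MixG_Q E) ≤ Fintype.card (Fin m) := Fintype.card_subtype_le _
      _ = m := Fintype.card_fin m
  · intro z' hz
    have h := hF (MixG_ext E x z') ?_ (fun j hj => MixG_ext_mem _ _ _ _ hj)
    · refine ⟨ContinuousAt.comp (g := F) (f := MixG_ext E x) h.1
        (MixG_ext_continuous E x).continuousAt, ?_⟩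
      intro i
      have h2 := h.2 ((Fintype.equivFin (MixG_Q E)).symm i).1
        ((Fintype.equivFin (MixG_Q E)).symm i).2
      rw [MixG_ext_symm] at h2
      have h3 : (fun w => F (MixG_ext E x (Function.update z' i w))) = fun w =>
          F (Function.update (MixG_ext E x z') ((Fintype.equivFin (MixG_Q E)).symm i).1 w) := by
        funext w
        rw [MixG_ext_update]
      show DifferentiableAt ℂ (fun w => F (MixG_ext E x (Function.update z' i w))) (z' i)
      rw [h3]
      exact h2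
    · intro j hj
      rw [MixG_ext_notMem _ _ _ _ hj]
      exact hz _

end Pool.Agent.H63.VC7
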