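import Pool.Agent.H63.VC7.Defs
import Pool.Agent.H63.VC4.RTerms

/-! # The slot factor as an exponential of `LL` -/

namespace Pool.Agent.H63.VC7

open Pool.Agent.H63.VC hiding ext
open Pool.Agent.H63.VC3 Pool.Agent.H63.VC4 Pool.Agent.H63.VC6 Complex

variable {m p : ℕ}

/-- The pairing of the factors. -/
theorem QcLL_pair (f : ℕ → ℂ) (t : ℕ) :
    ∏ j ∈ Finset.range (2 * t), f j = ∏ i ∈ Finset.range t, (f (t + i) * f (t - 1 - i)) := by
  rw [two_mul, Finset.prod_range_add, Finset.prod_mul_distrib,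
    Finset.prod_range_reflect f t, mul_comm]

theorem qc_eq (M k : ℕ) (hk : k < M) (v : ℂ) (hv : |v.re| < yk 2 M k + 1 / (2 * M)) :
    qc M k v = Qo 2 M (some ((yk 2 M k : ℝ) : ℂ)) v := by
  have hM0 : 0 < M := by omega
  have hMc : (M : ℂ) ≠ 0 := by exact_mod_cast hM0.ne'
  have hMr : (0 : ℝ) < M := by exact_mod_cast hM0
  obtain ⟨t, ht⟩ : ∃ t, M - 1 - k = t := ⟨_, rfl⟩
  have htk : t + k + 1 = M := by omega
  have htr : (t : ℝ) + k + 1 = M := by exact_mod_cast htk
  set b : ℝ := k + 1 / 2 - M / 2 with hb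
  set s : ℂ := (b : ℂ) + M * v with hs
  have hyr : (M : ℝ) * yk 2 M k = b + 1 / 2 := by
    unfold yk bt
    rw [hb]
    push_cast
    field_simp
    ring
  have hy : (M : ℂ) * ((yk 2 M k : ℝ) : ℂ) = (b : ℂ) + 1 / 2 := by
    have := congrArg (fun x : ℝ => (x : ℂ)) hyr
    push_cast at this
    simpa using this
  have e1 : (M : ℂ) * (((yk 2 M k : ℝ) : ℂ) - v) - 1 / 2 = (b : ℂ) - M * v := by
    rw [mul_sub, hy]
    ring
  have e2 : (M : ℂ) * (((yk 2 M k : ℝ) : ℂ) + v) - 1 / 2 = s := by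
    rw [mul_add, hy, hs]
    ring
  have hvb : (M : ℝ) * |v.re| < b + 1 := by
    have h1 := mul_lt_mul_of_pos_left hv hMr
    rw [mul_add, hyr] at h1
    have h2 : (M : ℝ) * (1 / (2 * M)) = 1 / 2 := by field_simp
    rw [h2] at h1
    linarith
  have hab1 : -((M : ℝ) * |v.re|) ≤ M * v.re := by
    have := neg_abs_le v.re
    nlinarith
  have hab2 : (M : ℝ) * v.re ≤ M * |v.re| := by
    have := le_abs_self v.re
    nlinarith
  have hsre : s.re = b + M * v.re := by
    rw [hs, Complex.add_re, Complex.ofReal_re, ← Complex.ofReal_natCast, Complex.re_ofReal_mul]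
  have hmr : ((2 * t : ℕ) : ℝ) = M - 1 - 2 * b := by
    push_cast
    rw [hb]
    linarith
  have hmc : ((2 * t : ℕ) : ℂ) = M - 1 - 2 * (b : ℂ) := by
    have := congrArg (fun x : ℝ => (x : ℂ)) hmr
    push_cast at this
    simpa using this
  have hrefl := LL_reflect M hM0 ((b : ℂ) - M * v)
  have e3 : (M : ℂ) - 1 - ((b : ℂ) - M * v) = s + ((2 * t : ℕ) : ℂ) := by
    rw [hmc, hs]
    ring
  rw [e3] at hrefl
  have htele := RTerms_tele M hM0 s (2 * t) (by rw [hsre]; linarith) (by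
    rw [hsre, hmr]
    linarith)
  have e4 : -LL M ((b : ℂ) - M * v) - LL M s =
      (LL M (s + ((2 * t : ℕ) : ℂ)) - LL M s) - Real.log M := by
    linear_combination -hrefl
  have e5 : exp ((Real.log M : ℝ) : ℂ) = M := by
    rw [← Complex.ofReal_exp, Real.exp_log hMr]
    simp
  show qc M k v = exp (-LL M (M * (((yk 2 M k : ℝ) : ℂ) - v) - 1 / 2) -
    LL M (M * (((yk 2 M k : ℝ) : ℂ) + v) - 1 / 2))
  rw [e1, e2, e4, Complex.exp_sub, htele, e5, QcLL_pair, qc, ht, div_mul_eq_mul_div, one_mul]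
  congr 1
  refine Finset.prod_congr rfl fun i hi => ?_
  rw [Finset.mem_range] at hi
  have hbc : (b : ℂ) = M / 2 - t - 1 / 2 := by
    have : b = M / 2 - t - 1 / 2 := by
      rw [hb]
      linarith
    rw [this]
    push_cast
    ring
  have c1 : Complex.sin (Real.pi * ((s + ((t + i + 1 : ℕ) : ℂ)) / M)) =
      Complex.cos (Real.pi * (v + (i + 1 / 2) / M)) := by
    rw [← Complex.sin_add_pi_div_two]
    congr 1
    rw [hs, hbc]
    push_cast
    field_simp
    ring
  have c2 : Complex.sin (Real.pi * ((s + ((t - 1 - i + 1 : ℕ) : ℂ)) / M)) =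
      Complex.cos (Real.pi * (v - (i + 1 / 2) / M)) := by
    rw [← Complex.sin_add_pi_div_two]
    congr 1
    have h1 : ((t - 1 - i + 1 : ℕ) : ℂ) = t - i := by
      rw [show t - 1 - i + 1 = t - i by omega, Nat.cast_sub hi.le]
    rw [hs, hbc, h1]
    field_simp
    ring
  rw [c1, c2]
  ring

theorem qc_even (M k : ℕ) (v : ℂ) : qc M k (-v) = qc M k v := by
  unfold qc
  congr 1
  refine Finset.prod_congr rfl fun i _ => ?_
  have c1 : Complex.cos (Real.pi * (-v + ((i : ℂ) + 1 / 2) / M)) =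
      Complex.cos (Real.pi * (v - ((i : ℂ) + 1 / 2) / M)) := by
    rw [← Complex.cos_neg]
    congr 1
    ring
  have c2 : Complex.cos (Real.pi * (-v - ((i : ℂ) + 1 / 2) / M)) =
      Complex.cos (Real.pi * (v + ((i : ℂ) + 1 / 2) / M)) := by
    rw [← Complex.cos_neg]
    congr 1
    ring
  rw [c1, c2]
  ring

theorem qc_differentiable (M k : ℕ) : Differentiable ℂ (qc M k) := by
  unfold qc
  refine Differentiable.const_mul ?_ _
  refine Differentiable.fun_finset_prod fun i _ => ?_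
  fun_prop

theorem NT_differentiable (r : ℝ) (M : ℕ) (A : Finset (Fin m)) (k : Fin m → ℕ) :
    Differentiable ℂ (NT r M A k) := by
  unfold NT
  refine Differentiable.mul (by fun_prop) ?_
  exact Differentiable.fun_finset_prod fun i _ => qc_differentiable M (k i)

theorem NT_odd (r : ℝ) (M : ℕ) (A : Finset (Fin m)) (k : Fin m → ℕ) (v : ℂ) :
    NT r M A k (-v) = -NT r M A k v := by
  unfold NT
  have h1 : ∏ j ∈ A, qc M (k j) (-v) = ∏ j ∈ A, qc M (k j) v :=
    Finset.prod_congr rfl fun j _ => qc_even M (k j) v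
  rw [h1, neg_sq, mul_neg, Complex.sin_neg]
  ring

/-- In the window the node function is the kernel. -/
theorem NT_eq_KG (r : ℝ) (M : ℕ) (A : Finset (Fin m)) (k : Fin m → ℕ) (v : ℂ)
    (hk : ∀ j ∈ A, k j < M) (hv : ∀ j ∈ A, |v.re| < yk 2 M (k j) + 1 / (2 * M)) :
    NT r M A k v = KG r M A (fun j => ((yk 2 M (k j) : ℝ) : ℂ)) v := by
  unfold NT KG
  congr 1
  exact Finset.prod_congr rfl fun j hj => qc_eq M (k j) (hk j hj) v (hv j hj)

end Pool.Agent.H63.VC7
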