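import Pool.Agent.H63.VC7.Defs
import Pool.Agent.H63.VC7.Link

/-! # The state sum as a sum over the edges -/

namespace Pool.Agent.H63.VC7

open Pool.Agent.H63.VC hiding ext
open Pool.Agent.H63.VC3 Pool.Agent.H63.VC4 Pool.Agent.H63.VC6 Complex

variable {m p : ℕ}

/-- `∏_{i=1}^t {X+i}{X+1-i}`. -/
noncomputable def pw (q : ℂ) (t X : ℕ) : ℂ :=
  ∏ i ∈ Finset.range t, (br q ((X : ℤ) + i + 1) * br q ((X : ℤ) - i))

/-- `∏_{i=1}^t {i}²{M+i}{M-i}`, `M = N + 1`. -/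
noncomputable def wd (q : ℂ) (N t : ℕ) : ℂ :=
  ∏ i ∈ Finset.range t, (br q ((i : ℤ) + 1) ^ 2 * (br q ((N : ℤ) + i + 2) * br q ((N : ℤ) - i)))

/-- The factor of a node. -/
noncomputable def NF (a : ℤ) (N : ℕ) (q : ℂ) (A : Finset (Fin m)) (t : Fin m → ℕ) : ℂ :=
  ∑ X ∈ Finset.range (N + 1), tw q X ^ a * (br q (2 * (X : ℤ) + 1) / br q ((N : ℤ) + 1)) *
    ∏ j ∈ A, pw q (t j) X

theorem Swap_sixj (q : ℂ) (N k l : ℕ) : sixj q N k l =
    ∑ t ∈ Finset.range (N + 1), ((-1) ^ t / wd q N t) * (pw q t k * pw q t l) := by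
  unfold sixj
  refine Finset.sum_congr rfl fun t _ => ?_
  rw [Finset.prod_div_distrib, Finset.prod_mul_distrib]
  change (-1) ^ t * (pw q t k * pw q t l / wd q N t) = _
  ring

theorem jones_swap (s t : Fin m → Fin p) (hst : ∀ j, s j ≠ t j) (a : Fin p → ℤ) (N : ℕ) (q : ℂ) :
    jones s t a N q = ∑ k ∈ Fintype.piFinset (fun _ : Fin m => Finset.range (N + 1)),
      (∏ j, (-1) ^ (k j) / wd q N (k j)) * ∏ i, NF (a i) N q (inc s t i) k := by
  have h1 : ∀ X : Fin p → ℕ, ∏ j, sixj q N (X (s j)) (X (t j)) =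
      ∑ k ∈ Fintype.piFinset (fun _ : Fin m => Finset.range (N + 1)),
        (∏ j, (-1) ^ (k j) / wd q N (k j)) * ∏ i, ∏ j ∈ inc s t i, pw q (k j) (X i) := by
    intro X
    simp only [Swap_sixj]
    rw [Finset.prod_univ_sum]
    refine Finset.sum_congr rfl fun k _ => ?_
    rw [Finset.prod_mul_distrib, prod_inc s t hst (fun i j => pw q (k j) (X i))]
  unfold jones
  simp only [h1, Finset.mul_sum]
  rw [Finset.sum_comm]
  refine Finset.sum_congr rfl fun k _ => ?_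
  unfold NF
  rw [Finset.prod_univ_sum, Finset.mul_sum]
  refine Finset.sum_congr rfl fun X _ => ?_
  have h2 : ∏ i, (tw q (X i) ^ a i * (br q (2 * (X i : ℤ) + 1) / br q ((N : ℤ) + 1)) *
      ∏ j ∈ inc s t i, pw q (k j) (X i)) =
      (∏ i, tw q (X i) ^ a i * (br q (2 * (X i : ℤ) + 1) / br q ((N : ℤ) + 1))) *
        ∏ i, ∏ j ∈ inc s t i, pw q (k j) (X i) := Finset.prod_mul_distrib
  rw [h2, mul_left_comm]

end Pool.Agent.H63.VC7
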